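import Mathlib.Order.RelClasses
import Mathlib.Tactic.Common
import Mathlib.Algebra.Group.Nat.Defs
import Mathlib.Data.Nat.Bits
import Mathlib.CategoryTheory.Category.Init

/-!
Provability logic of Buss's theories `S^1_2` and `S_2` relative to an oracle.

The Boolean parameter `full` selects the base theory: `false` is `S^1_2(α)`, `true` is `S_2(α)`.
-/

namespace Pool.Agent.PLO

/-! ### The language of bounded arithmetic -/

/-- Terms over `0, S, |x|, x/2, +, *, smash`, with named variables. -/
inductive Tm : Type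
  | var : ℕ → Tm
  | zero : Tm
  | succ : Tm → Tm
  | len : Tm → Tm
  | half : Tm → Tm
  | add : Tm → Tm → Tm
  | mul : Tm → Tm → Tm
  | smash : Tm → Tm → Tm

/-- Formulas over falsum, `=`, `≤`, the oracle predicate `α`, implication and the universal
quantifier. -/
inductive Fm : Type
  | bot : Fm
  | eq : Tm → Tm → Fm
  | le : Tm → Tm → Fm
  | orc : Tm → Fm
  | imp : Fm → Fm → Fm
  | all : ℕ → Fm → Fm

namespace Tm

/-- The variable `x` occurs in the term. -/
def occ (x : ℕ) : Tm → Prop
  | var y => x = y
  | zero => False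
  | succ t => occ x t
  | len t => occ x t
  | half t => occ x t
  | add s t => occ x s ∨ occ x t
  | mul s t => occ x s ∨ occ x t
  | smash s t => occ x s ∨ occ x t

/-- Substitution of `u` for the variable `x`. -/
def subst : Tm → ℕ → Tm → Tm
  | var y, x, u => if x = y then u else var y
  | zero, _, _ => zero
  | succ t, x, u => succ (t.subst x u)
  | len t, x, u => len (t.subst x u)
  | half t, x, u => half (t.subst x u)
  | add s t, x, u => add (s.subst x u) (t.subst x u)
  | mul s t, x, u => mul (s.subst x u) (t.subst x u)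
  | smash s t, x, u => smash (s.subst x u) (t.subst x u)

def one : Tm := succ zero
def two : Tm := succ one
def dbl (t : Tm) : Tm := mul two t

/-- Dyadic numerals. -/
def num (n : ℕ) : Tm :=
  if h : n = 0 then zero else if n % 2 = 0 then dbl (num (n / 2)) else succ (dbl (num (n / 2)))
termination_by n
decreasing_by all_goals omega

/-- The pairing term: the bits of `a`, the bits of `b`, the bits of `|b|`, a one, and `||b||`
zeros.  Here `1 smash b = 2^|b|`. -/
def pr (a b : Tm) : Tm :=
  add (mul (add (mul (add (mul a (smash one b)) b) (smash one (len b))) (len b))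
    (dbl (smash one (len b)))) (smash one (len b))

end Tm

namespace Fm

def neg (φ : Fm) : Fm := imp φ bot
def or (φ ψ : Fm) : Fm := imp (neg φ) ψ
def and (φ ψ : Fm) : Fm := neg (imp φ (neg ψ))
def iff (φ ψ : Fm) : Fm := and (imp φ ψ) (imp ψ φ)
def ex (x : ℕ) (φ : Fm) : Fm := neg (all x (neg φ))
def ne (s t : Tm) : Fm := neg (eq s t)
def lt (s t : Tm) : Fm := neg (le t s)
/-- `∀ x ≤ t, φ` -/
def ball (x : ℕ) (t : Tm) (φ : Fm) : Fm := all x (imp (le (.var x) t) φ)
/-- `∃ x ≤ t, φ` -/
def bex (x : ℕ) (t : Tm) (φ : Fm) : Fm := neg (ball x t (neg φ))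

/-- The variable `x` occurs free in the formula. -/
def free (x : ℕ) : Fm → Prop
  | bot => False
  | eq s t => s.occ x ∨ t.occ x
  | le s t => s.occ x ∨ t.occ x
  | orc t => t.occ x
  | imp φ ψ => free x φ ∨ free x ψ
  | all y φ => x ≠ y ∧ free x φ

/-- Substitution of `u` for the free occurrences of `x`. -/
def subst (x : ℕ) (u : Tm) : Fm → Fm
  | bot => bot
  | eq s t => eq (s.subst x u) (t.subst x u)
  | le s t => le (s.subst x u) (t.subst x u)
  | orc t => orc (t.subst x u)
  | imp φ ψ => imp (subst x u φ) (subst x u ψ)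
  | all y φ => if x = y then all y φ else all y (subst x u φ)

/-- The term `u` is free for the variable `x` in the formula. -/
def freeFor (x : ℕ) (u : Tm) : Fm → Prop
  | bot => True
  | eq _ _ => True
  | le _ _ => True
  | orc _ => True
  | imp φ ψ => freeFor x u φ ∧ freeFor x u ψ
  | all y φ => ¬ free x (all y φ) ∨ (¬ u.occ y ∧ freeFor x u φ)

end Fm

open Tm Fm

/-- `Cls false true` is the class `Σ^b_1(α)` and `Cls false false` is `Π^b_1(α)` (a bounded
existential quantifier is the negation of a bounded universal one); `Cls true _` is the class of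
all bounded formulas, the union of the classes `Σ^b_i(α)`. -/
inductive Cls (full : Bool) : Bool → Fm → Prop
  | bot (σ : Bool) : Cls full σ bot
  | eq (σ : Bool) (s t : Tm) : Cls full σ (eq s t)
  | le (σ : Bool) (s t : Tm) : Cls full σ (le s t)
  | orc (σ : Bool) (t : Tm) : Cls full σ (orc t)
  | imp (σ : Bool) {φ ψ : Fm} : Cls full (!σ) φ → Cls full σ ψ → Cls full σ (imp φ ψ)
  | ball {x : ℕ} {t : Tm} {φ : Fm} : ¬ t.occ x → Cls full false φ → Cls full false (ball x t φ)
  | sharp {x : ℕ} {t : Tm} {φ : Fm} :
      ¬ t.occ x → Cls full true φ → Cls full true (ball x (len t) φ)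
  | wide {x : ℕ} {t : Tm} {φ : Fm} :
      full = true → ¬ t.occ x → Cls full true φ → Cls full true (ball x t φ)

/-- The equality postulates, as open formulas. -/
def eqAx : List Fm :=
  let x := var 0; let y := var 1; let z := var 2; let w := var 3
  [ eq x x,
    imp (eq x y) (eq (succ x) (succ y)),
    imp (eq x y) (eq (len x) (len y)),
    imp (eq x y) (eq (half x) (half y)),
    imp (eq x y) (imp (eq z w) (eq (add x z) (add y w))),
    imp (eq x y) (imp (eq z w) (eq (mul x z) (mul y w))),
    imp (eq x y) (imp (eq z w) (eq (smash x z) (smash y w))),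
    imp (eq x y) (imp (eq z w) (imp (eq x z) (eq y w))),
    imp (eq x y) (imp (eq z w) (imp (le x z) (le y w))),
    imp (eq x y) (imp (orc x) (orc y)) ]

/-- The 32 postulates BASIC of Buss. -/
def basic : List Fm :=
  let x := var 0; let y := var 1; let z := var 2; let u := var 3; let v := var 4
  [ imp (le y x) (le y (succ x)),
    ne x (succ x),
    le zero x,
    iff (and (le x y) (ne x y)) (le (succ x) y),
    imp (ne x zero) (ne (dbl x) zero),
    or (le y x) (le x y),
    imp (and (le x y) (le y x)) (eq x y),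
    imp (and (le x y) (le y z)) (le x z),
    eq (len zero) zero,
    imp (ne x zero) (and (eq (len (dbl x)) (succ (len x)))
      (eq (len (succ (dbl x))) (succ (len x)))),
    eq (len one) one,
    imp (le x y) (le (len x) (len y)),
    eq (len (smash x y)) (succ (mul (len x) (len y))),
    eq (smash zero y) one,
    imp (ne x zero) (and (eq (smash one (dbl x)) (dbl (smash one x)))
      (eq (smash one (succ (dbl x))) (dbl (smash one x)))),
    eq (smash x y) (smash y x),
    imp (eq (len x) (len y)) (eq (smash x z) (smash y z)),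
    imp (eq (len x) (add (len u) (len v))) (eq (smash x y) (mul (smash u y) (smash v y))),
    le x (add x y),
    imp (and (le x y) (ne x y)) (and (le (succ (dbl x)) (dbl y)) (ne (succ (dbl x)) (dbl y))),
    eq (add x y) (add y x),
    eq (add x zero) x,
    eq (add x (succ y)) (succ (add x y)),
    eq (add (add x y) z) (add x (add y z)),
    iff (le (add x y) (add x z)) (le y z),
    eq (mul x zero) zero,
    eq (mul x (succ y)) (add (mul x y) x),
    eq (mul x y) (mul y x),
    eq (mul x (add y z)) (add (mul x y) (mul x z)),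
    imp (le one x) (iff (le (mul x y) (mul x z)) (le y z)),
    imp (ne x zero) (eq (len x) (succ (len (half x)))),
    iff (eq x (half y)) (or (eq (dbl x) y) (eq (succ (dbl x)) y)) ]

/-- Polynomial induction for `φ` in the variable `x`. -/
def pind (x : ℕ) (φ : Fm) : Fm :=
  imp (φ.subst x zero) (imp (all x (imp (φ.subst x (half (var x))) φ)) (all x φ))

/-! ### Goedel numbers -/

/-- The value of the pairing term `Tm.pr` in the natural numbers. -/
@[irreducible] def npr (a b : ℕ) : ℕ :=
  ((a * 2 ^ b.size + b) * 2 ^ b.size.size + b.size) * (2 * 2 ^ b.size.size) + 2 ^ b.size.size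

def Tm.code : Tm → ℕ
  | var x => npr 0 x
  | zero => npr 1 0
  | succ t => npr 2 t.code
  | len t => npr 3 t.code
  | half t => npr 4 t.code
  | add s t => npr 5 (npr s.code t.code)
  | mul s t => npr 6 (npr s.code t.code)
  | smash s t => npr 7 (npr s.code t.code)

def Fm.code : Fm → ℕ
  | bot => npr 8 0
  | eq s t => npr 9 (npr s.code t.code)
  | le s t => npr 10 (npr s.code t.code)
  | imp φ ψ => npr 11 (npr φ.code ψ.code)
  | all x φ => npr 12 (npr x φ.code)
  | orc t => npr 13 t.code

/-- Provability in the theory `T^W`: a Hilbert calculus for first-order logic with equality, BASIC,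
polynomial induction for the class `Cls full true` (so far `S^1_2(α)` or `S_2(α)`), the diagram of
the oracle `W`, and the formulas listed by `W`. -/
inductive Prv (full : Bool) (W : Set ℕ) : Fm → Prop
  | k (φ ψ : Fm) : Prv full W (imp φ (imp ψ φ))
  | s (φ ψ χ : Fm) : Prv full W (imp (imp φ (imp ψ χ)) (imp (imp φ ψ) (imp φ χ)))
  | dn (φ : Fm) : Prv full W (imp (neg (neg φ)) φ)
  | inst (x : ℕ) (u : Tm) (φ : Fm) : φ.freeFor x u → Prv full W (imp (all x φ) (φ.subst x u))
  | dist (x : ℕ) (φ ψ : Fm) : Prv full W (imp (all x (imp φ ψ)) (imp (all x φ) (all x ψ)))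
  | vac (x : ℕ) (φ : Fm) : ¬ φ.free x → Prv full W (imp φ (all x φ))
  | mp {φ ψ : Fm} : Prv full W (imp φ ψ) → Prv full W φ → Prv full W ψ
  | gen (x : ℕ) {φ : Fm} : Prv full W φ → Prv full W (all x φ)
  | ax {φ : Fm} : φ ∈ eqAx ++ basic → Prv full W φ
  | ind (x : ℕ) {φ : Fm} : Cls full true φ → Prv full W (pind x φ)
  | yes {n : ℕ} : n ∈ W → Prv full W (orc (num n))
  | no {n : ℕ} : n ∉ W → Prv full W (neg (orc (num n)))
  | lst (z : ℕ) {φ : Fm} : npr z φ.code ∈ W → Prv full W φ

/-! ### The arithmetised calculus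

A proof is an array of judgements about codes; every row is blank or follows from earlier rows by
one of finitely many rules, which transcribe the definitions above. -/

/-- Patterns for codes: metavariables, constants and pairs. -/
inductive Pat : Type
  | mv : ℕ → Pat
  | cst : ℕ → Pat
  | pr : Pat → Pat → Pat

namespace Pat

/-- Metavariable `i` is the variable `10 + i`. -/
def tm : Pat → Tm
  | mv i => .var (10 + i)
  | cst n => .num n
  | pr p q => .pr p.tm q.tm

def n1 (k : ℕ) (p : Pat) : Pat := pr (cst k) p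
def n2 (k : ℕ) (p q : Pat) : Pat := pr (cst k) (pr p q)
def var (x : Pat) : Pat := n1 0 x
def zero : Pat := n1 1 (cst 0)
def bot : Pat := n1 8 (cst 0)
def imp (p q : Pat) : Pat := n2 11 p q
def all (x p : Pat) : Pat := n2 12 x p
def ball (x t p : Pat) : Pat := all x (imp (n2 10 (var x) t) p)
/-- judgement: `p` is a term -/
def jT (p : Pat) : Pat := n1 0 p
/-- judgement: `p` is a formula -/
def jF (p : Pat) : Pat := n1 1 p
/-- judgement: the variable `x` is not free in `p` -/
def jN (x p : Pat) : Pat := n2 2 x p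
/-- judgement: `u` is free for `x` in `p`, and substituting it gives `q` -/
def jS (x u p q : Pat) : Pat := n2 3 (pr x u) (pr p q)
/-- judgement: `p` is a formula of the class `Cls full σ` -/
def jC (σ : Bool) (p : Pat) : Pat := n1 (if σ then 4 else 5) p
/-- judgement: `p` is a theorem -/
def jP (p : Pat) : Pat := n1 6 p
/-- judgement: `p` is the numeral of the number `x` -/
def jM (x p : Pat) : Pat := n2 7 x p

end Pat

/-- Side conditions on the metavariables `0` and `1`. -/
inductive Side : Type
  | top | dif | even | odd | yes | no | lst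

/-- The side conditions as formulas. -/
def Side.fm : Side → Fm
  | top => neg bot
  | dif => ne (var 10) (var 11)
  | even => and (eq (var 10) (dbl (var 11))) (ne (var 11) zero)
  | odd => eq (var 10) (succ (dbl (var 11)))
  | yes => orc (var 10)
  | no => neg (orc (var 10))
  | lst => orc (pr (var 10) (var 11))

/-- A rule: premises, conclusion, side condition. -/
structure Rule : Type where
  prem : List Pat
  concl : Pat
  side : Side

open Pat in
/-- The rules of the arithmetised calculus. -/
def rules (full : Bool) : List Rule :=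
  let a := mv 0; let b := mv 1; let c := mv 2; let d := mv 3; let e := mv 4; let f := mv 5
  -- terms and formulas
  [ ⟨[], jT (var a), .top⟩, ⟨[], jT zero, .top⟩ ] ++
  [2, 3, 4].map (fun k => ⟨[jT a], jT (n1 k a), .top⟩) ++
  [5, 6, 7].map (fun k => ⟨[jT a, jT b], jT (n2 k a b), .top⟩) ++
  [ ⟨[], jF bot, .top⟩, ⟨[jF a, jF b], jF (imp a b), .top⟩, ⟨[jF b], jF (all a b), .top⟩,
    ⟨[jT a], jF (n1 13 a), .top⟩ ] ++
  [9, 10].map (fun k => ⟨[jT a, jT b], jF (n2 k a b), .top⟩) ++
  -- not free
  [ ⟨[], jN a (var b), .dif⟩, ⟨[], jN a zero, .top⟩, ⟨[], jN a bot, .top⟩,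
    ⟨[], jN a (all a b), .top⟩, ⟨[jN a c], jN a (all b c), .top⟩ ] ++
  [2, 3, 4, 13].map (fun k => ⟨[jN a b], jN a (n1 k b), .top⟩) ++
  [5, 6, 7, 9, 10, 11].map (fun k => ⟨[jN a b, jN a c], jN a (n2 k b c), .top⟩) ++
  -- substitution
  [ ⟨[], jS a b (var a) b, .top⟩, ⟨[jN a c], jS a b c c, .top⟩,
    ⟨[jN a (var c), jN c b, jS a b d e], jS a b (all c d) (all c e), .top⟩ ] ++
  [2, 3, 4, 13].map (fun k => ⟨[jS a b c d], jS a b (n1 k c) (n1 k d), .top⟩) ++
  [5, 6, 7, 9, 10, 11].map
    (fun k => ⟨[jS a b c d, jS a b e f], jS a b (n2 k c e) (n2 k d f), .top⟩) ++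
  -- formula classes
  [true, false].flatMap (fun σ =>
    [ ⟨[], jC σ bot, .top⟩, ⟨[jT a, jT b], jC σ (n2 9 a b), .top⟩,
      ⟨[jT a, jT b], jC σ (n2 10 a b), .top⟩, ⟨[jT a], jC σ (n1 13 a), .top⟩,
      ⟨[jC (!σ) a, jC σ b], jC σ (imp a b), .top⟩ ]) ++
  [ ⟨[jT b, jN a b, jC false c], jC false (ball a b c), .top⟩,
    ⟨[jT b, jN a b, jC true c], jC true (ball a (n1 3 b) c), .top⟩ ] ++
  (if full then [⟨[jT b, jN a b, jC true c], jC true (ball a b c), .top⟩] else []) ++
  -- numerals
  [ ⟨[], jM (cst 0) zero, .top⟩, ⟨[jM b c], jM a (n2 6 (cst two.code) c), .even⟩,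
    ⟨[jM b c], jM a (n1 2 (n2 6 (cst two.code) c)), .odd⟩ ] ++
  -- the diagram and the listed formulas
  [ ⟨[jM a b], jP (n1 13 b), .yes⟩, ⟨[jM a b], jP (imp (n1 13 b) bot), .no⟩,
    ⟨[jT (var a), jF b], jP b, .lst⟩ ] ++
  -- theorems
  [ ⟨[jF a, jF b], jP (imp a (imp b a)), .top⟩,
    ⟨[jF a, jF b, jF c], jP (imp (imp a (imp b c)) (imp (imp a b) (imp a c))), .top⟩,
    ⟨[jF a], jP (imp (imp (imp a bot) bot) a), .top⟩,
    ⟨[jF c, jT b, jS a b c d], jP (imp (all a c) d), .top⟩,
    ⟨[jF b, jF c], jP (imp (all a (imp b c)) (imp (all a b) (all a c))), .top⟩,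
    ⟨[jF b, jN a b], jP (imp b (all a b)), .top⟩,
    ⟨[jP (imp a b), jP a], jP b, .top⟩,
    ⟨[jP b], jP (all a b), .top⟩,
    ⟨[jC true b, jS a zero b c, jS a (n1 4 (var a)) b d],
      jP (imp c (imp (all a (imp d b)) (all a b))), .top⟩ ] ++
  (eqAx ++ basic).map (fun φ => ⟨[], jP (cst φ.code), .top⟩)

/-- `y` is row number `i` of the array `s` whose rows have `|a|` bits
(`a smash b = 2^(|a| * |b|)`); uses the bound variables `6, 7, 8`. -/
def rowF (s a i y : Tm) : Fm :=
  bex 6 s (bex 7 s (bex 8 s
    (and (eq (len (var 6)) i)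
      (and (eq s (add (mul (add (mul (var 7) (smash one a)) y) (smash a (var 6))) (var 8)))
        (and (lt (var 8) (smash a (var 6))) (lt y (smash one a)))))))

def bigAnd : List Fm → Fm
  | [] => neg bot
  | φ :: l => and φ (bigAnd l)

def bigOr : List Fm → Fm
  | [] => bot
  | φ :: l => or φ (bigOr l)

/-- The row `var 4`, of number `var 3`, of the array `var 1` of width `|var 2|` follows from
earlier rows (numbered by `var 5`) by the rule `r`. -/
def ruleF (r : Rule) : Fm :=
  [10, 11, 12, 13, 14, 15].foldr (fun x φ => bex x (var 1) φ)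
    (and (eq (var 4) r.concl.tm)
      (and r.side.fm
        (bigAnd (r.prem.map (fun p => bex 5 (len (var 1))
          (and (lt (var 5) (var 3)) (rowF (var 1) (var 2) (var 5) p.tm)))))))

/-- The array `var 1` of width `|var 2|` is a derivation containing the judgement `t`. -/
def prfF (full : Bool) (t : Tm) : Fm :=
  and (ball 3 (len (var 1)) (bex 4 (var 1)
      (and (rowF (var 1) (var 2) (var 3) (var 4))
        (or (eq (var 4) zero) (bigOr ((rules full).map ruleF))))))
    (bex 3 (len (var 1)) (rowF (var 1) (var 2) (var 3) t))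

/-- The judgement `t` is derivable. -/
def derF (full : Bool) (t : Tm) : Fm := ex 1 (ex 2 (prfF full t))

/-- The sentence saying that `φ` is provable. -/
def prov (full : Bool) (φ : Fm) : Fm := derF full (pr (num 6) (num φ.code))

/-- `φ` has a proof below `var 0`. -/
def prfLe (full : Bool) (φ : Fm) : Fm :=
  bex 1 (var 0) (bex 2 (var 0) (prfF full (pr (num 6) (num φ.code))))

/-- The pattern `∀ x₀ (x₀ = c → θ)`, where `c` is metavariable `7`. -/
def fixP (θ : Fm) : Pat := .all (.cst 0) (.imp (.n2 9 (.var (.cst 0)) (.mv 7)) (.cst θ.code))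

/-- For `θ` with the free variable `0`: the instance of `θ` at the numeral of `var 16` is
provable. -/
def boxDot (full : Bool) (θ : Fm) : Fm :=
  ex 17 (and (derF full (Pat.jM (.mv 6) (.mv 7)).tm) (derF full (Pat.jP (fixP θ)).tm))

/-- `I(t)` for a formula `I` with the free variable `0` and a term `t` without it. -/
def atF (I : Fm) (t : Tm) : Fm := all 0 (imp (eq (var 0) t) I)

/-- Relativisation of all quantifiers to `I`. -/
def rel (I : Fm) : Fm → Fm
  | imp φ ψ => imp (rel I φ) (rel I ψ)
  | all x φ => all x (imp (if x = 0 then I else atF I (var x)) (rel I φ))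
  | φ => φ

/-- `I` is an initial segment closed under the operations. -/
def cutF (I : Fm) : Fm :=
  let x := var 1; let y := var 2
  all 1 (all 2 (and (atF I zero) (and (imp (le x y) (imp (atF I y) (atF I x)))
    (imp (atF I x) (imp (atF I y) (and (atF I (succ x)) (and (atF I (add x y))
      (and (atF I (mul x y)) (atF I (smash x y))))))))))

/-! ### Truth in the natural numbers with an oracle -/

def Tm.val (v : ℕ → ℕ) : Tm → ℕ
  | var x => v x
  | zero => 0
  | succ t => t.val v + 1
  | len t => (t.val v).size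
  | half t => t.val v / 2
  | add s t => s.val v + t.val v
  | mul s t => s.val v * t.val v
  | smash s t => 2 ^ ((s.val v).size * (t.val v).size)

def Fm.holds (W : Set ℕ) : Fm → (ℕ → ℕ) → Prop
  | bot, _ => False
  | eq s t, v => s.val v = t.val v
  | le s t, v => s.val v ≤ t.val v
  | orc t, v => t.val v ∈ W
  | imp φ ψ, v => φ.holds W v → ψ.holds W v
  | all x φ, v => ∀ u, φ.holds W (Function.update v x u)

/-! ### Modal logic -/

inductive MF : Type
  | atom : ℕ → MF
  | bot : MF
  | imp : MF → MF → MF
  | box : MF → MF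

/-- The modal logic GL. -/
inductive GLog : MF → Prop
  | k (F G : MF) : GLog (.imp F (.imp G F))
  | s (F G H : MF) : GLog (.imp (.imp F (.imp G H)) (.imp (.imp F G) (.imp F H)))
  | dn (F : MF) : GLog (.imp (.imp (.imp F .bot) .bot) F)
  | dist (F G : MF) : GLog (.imp (.box (.imp F G)) (.imp (.box F) (.box G)))
  | loeb (F : MF) : GLog (.imp (.box (.imp (.box F) F)) (.box F))
  | four (F : MF) : GLog (.imp (.box F) (.box (.box F)))
  | mp {F G : MF} : GLog (.imp F G) → GLog F → GLog G
  | nec {F : MF} : GLog F → GLog (.box F)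

/-- The arithmetical interpretation determined by `f`. -/
def interp (full : Bool) (f : ℕ → Fm) : MF → Fm
  | .atom n => f n
  | .bot => .bot
  | .imp F G => .imp (interp full f F) (interp full f G)
  | .box G => prov full (interp full f G)

/-- The provability logic of the theory `T^W`. -/
def PL (full : Bool) (W : Set ℕ) (X : MF) : Prop :=
  ∀ f : ℕ → Fm, (∀ n x, ¬ (f n).free x) → Prv full W (interp full f X)

def MF.neg (F : MF) : MF := .imp F .bot
def MF.or (F G : MF) : MF := .imp F.neg G

/-- The principle `□(□□⊥ → □p ∨ □¬p) → □(□(□p → □⊥) ∨ □(□¬p → □⊥))`. -/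
def Phi : MF :=
  .imp (.box (.imp (.box (.box .bot)) (.or (.box (.atom 0)) (.box (MF.atom 0).neg))))
    (.box (.or (.box (.imp (.box (.atom 0)) (.box .bot)))
      (.box (.imp (.box (MF.atom 0).neg) (.box .bot)))))

end Pool.Agent.PLO
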