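import Mathlib.Topology.Sheaves.Presheaf
import Mathlib.Tactic.Monotonicity.Lemmas
import Mathlib.Tactic.Bound
import Mathlib.Combinatorics.SimpleGraph.Basic
import Mathlib.RingTheory.PiTensorProduct
import Mathlib.Tactic.Polynomial.Basic
import Pool.Agent.PLO.Defs

section Part0

/-! The ring of differences of an ordered semiring (to use `linarith` after `zify`). -/

namespace Pool.Agent.PLO

variable (R : Type) [CommSemiring R] [LinearOrder R] [IsStrictOrderedRing R]

def zrSetoid : Setoid (R × R) where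
  r x y := x.1 + y.2 = y.1 + x.2
  iseqv := ⟨fun _ => rfl, fun h => h.symm, fun {x y z} h1 h2 => by
    have : x.1 + z.2 + y.2 = z.1 + x.2 + y.2 := by
      calc x.1 + z.2 + y.2 = (x.1 + y.2) + z.2 := by ring
        _ = (y.1 + z.2) + x.2 := by rw [h1]; ring
        _ = z.1 + x.2 + y.2 := by rw [h2]; ring
    exact add_right_cancel this⟩

/-- formal differences -/
def Zr : Type := Quotient (zrSetoid R)

namespace Zr

variable {R}

def mk (a b : R) : Zr R := Quotient.mk _ (a, b)

theorem mk_eq {a b c d : R} : mk a b = mk c d ↔ a + d = c + b :=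
  ⟨fun h => Quotient.exact h, fun h => Quotient.sound h⟩

theorem ind {P : Zr R → Prop} (h : ∀ a b, P (mk a b)) (x : Zr R) : P x :=
  Quotient.inductionOn x fun p => h p.1 p.2

instance : Zero (Zr R) := ⟨mk 0 0⟩
instance : One (Zr R) := ⟨mk 1 0⟩
instance : Add (Zr R) := ⟨Quotient.map₂ (fun x y => (x.1 + y.1, x.2 + y.2)) (by
  rintro ⟨a, b⟩ ⟨c, d⟩ h1 ⟨e, f⟩ ⟨g, h⟩ h2
  change a + d = c + b at h1
  change e + h = g + f at h2
  change a + e + (d + h) = c + g + (b + f)
  calc _ = (a + d) + (e + h) := by ring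
    _ = _ := by rw [h1, h2]; ring)⟩
instance : Neg (Zr R) := ⟨Quotient.map (fun x => (x.2, x.1)) (by
  rintro ⟨a, b⟩ ⟨c, d⟩ h1
  change a + d = c + b at h1
  change b + c = d + a
  rw [add_comm, ← h1, add_comm])⟩
instance : Mul (Zr R) := ⟨Quotient.map₂
  (fun x y => (x.1 * y.1 + x.2 * y.2, x.1 * y.2 + x.2 * y.1)) (by
  rintro ⟨a, b⟩ ⟨c, d⟩ h1 ⟨e, f⟩ ⟨g, h⟩ h2
  change a + d = c + b at h1
  change e + h = g + f at h2
  change a * e + b * f + (c * h + d * g) = c * g + d * h + (a * f + b * e)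
  have : a * e + b * f + (c * h + d * g) + (d * e + c * f + c * e + d * f) =
      c * g + d * h + (a * f + b * e) + (d * e + c * f + c * e + d * f) := by
    calc _ = (a + d) * e + (c + b) * f + c * (e + h) + d * (g + f) := by ring
      _ = (c + b) * e + (a + d) * f + c * (g + f) + d * (e + h) := by rw [h1, h2]
      _ = _ := by ring
  exact add_right_cancel this)⟩

theorem add_def (a b c d : R) : mk a b + mk c d = mk (a + c) (b + d) := rfl
theorem neg_def (a b : R) : -mk a b = mk b a := rfl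
theorem mul_def (a b c d : R) : mk a b * mk c d = mk (a * c + b * d) (a * d + b * c) := rfl
theorem zero_def : (0 : Zr R) = mk 0 0 := rfl
theorem one_def : (1 : Zr R) = mk 1 0 := rfl

instance : CommRing (Zr R) where
  add_assoc := ind fun _ _ => ind fun _ _ => ind fun _ _ => by
    simp only [add_def, mk_eq]; ring
  zero_add := ind fun _ _ => by simp only [zero_def, add_def, mk_eq]; ring
  add_zero := ind fun _ _ => by simp only [zero_def, add_def, mk_eq]; ring
  add_comm := ind fun _ _ => ind fun _ _ => by simp only [add_def, mk_eq]; ring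
  neg_add_cancel := ind fun _ _ => by simp only [zero_def, neg_def, add_def, mk_eq]; ring
  mul_assoc := ind fun _ _ => ind fun _ _ => ind fun _ _ => by
    simp only [mul_def, mk_eq]; ring
  one_mul := ind fun _ _ => by simp only [one_def, mul_def, mk_eq]; ring
  mul_one := ind fun _ _ => by simp only [one_def, mul_def, mk_eq]; ring
  zero_mul := ind fun _ _ => by simp only [zero_def, mul_def, mk_eq]; ring
  mul_zero := ind fun _ _ => by simp only [zero_def, mul_def, mk_eq]; ring
  mul_comm := ind fun _ _ => ind fun _ _ => by simp only [mul_def, mk_eq]; ring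
  left_distrib := ind fun _ _ => ind fun _ _ => ind fun _ _ => by
    simp only [add_def, mul_def, mk_eq]; ring
  right_distrib := ind fun _ _ => ind fun _ _ => ind fun _ _ => by
    simp only [add_def, mul_def, mk_eq]; ring
  nsmul := nsmulRec
  zsmul := zsmulRec

theorem le_aux {a b c d e f g h : R} (h1 : a + d = c + b) (h2 : e + h = g + f)
    (hh : a + f ≤ e + b) : c + h ≤ g + d := by
  have : c + h + (b + f) ≤ g + d + (b + f) := by
    calc c + h + (b + f) = (c + b) + f + h := by ring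
      _ = (a + f) + (d + h) := by rw [← h1]; ring
      _ ≤ (e + b) + (d + h) := by gcongr
      _ = (e + h) + b + d := by ring
      _ = _ := by rw [h2]; ring
  exact le_of_add_le_add_right this

instance : LE (Zr R) := ⟨Quotient.lift₂ (fun x y => x.1 + y.2 ≤ y.1 + x.2) (by
  rintro ⟨a, b⟩ ⟨e, f⟩ ⟨c, d⟩ ⟨g, h⟩ h1 h2
  exact propext ⟨le_aux h1 h2, le_aux h1.symm h2.symm⟩)⟩

theorem le_def (a b c d : R) : mk a b ≤ mk c d ↔ a + d ≤ c + b := Iff.rfl

noncomputable instance : LinearOrder (Zr R) where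
  le_refl := ind fun _ _ => by rw [le_def]
  le_trans := ind fun a b => ind fun c d => ind fun e f => by
    simp only [le_def]
    intro h1 h2
    have : a + f + d ≤ e + b + d := by
      calc a + f + d = (a + d) + f := by ring
        _ ≤ (c + b) + f := by gcongr
        _ = (c + f) + b := by ring
        _ ≤ (e + d) + b := by gcongr
        _ = _ := by ring
    exact le_of_add_le_add_right this
  le_antisymm := ind fun a b => ind fun c d => by
    simp only [le_def, mk_eq]
    exact fun h1 h2 => le_antisymm h1 h2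
  le_total := ind fun a b => ind fun c d => by
    simp only [le_def]
    exact le_total _ _
  toDecidableLE := Classical.decRel _

theorem lt_def (a b c d : R) : mk a b < mk c d ↔ a + d < c + b := by
  rw [lt_iff_not_ge, le_def, not_le]

instance : IsOrderedAddMonoid (Zr R) where
  add_le_add_left := ind fun a b => ind fun c d => fun h => ind fun e f => by
    simp only [le_def, add_def] at h ⊢
    calc a + e + (d + f) = (a + d) + (e + f) := by ring
      _ ≤ (c + b) + (e + f) := by gcongr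
      _ = _ := by ring

instance : Nontrivial (Zr R) := ⟨0, 1, by simp [zero_def, one_def, mk_eq]⟩

instance : ZeroLEOneClass (Zr R) := ⟨by simp [zero_def, one_def, le_def]⟩

instance [ExistsAddOfLE R] : IsStrictOrderedRing (Zr R) := IsStrictOrderedRing.of_mul_pos (by
  refine ind fun a b => ind fun c d => ?_
  simp only [zero_def, mul_def, lt_def, zero_add, add_zero]
  intro h1 h2
  exact mul_add_mul_lt_mul_add_mul' h1 h2)

/-- the embedding -/
@[coe] def of (a : R) : Zr R := mk a 0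

instance : Coe R (Zr R) := ⟨of⟩

@[simp, norm_cast] theorem of_add (a b : R) : of (a + b) = of a + of b := by
  simp [of, add_def]
@[simp, norm_cast] theorem of_mul (a b : R) : of (a * b) = of a * of b := by
  simp [of, mul_def]
@[simp, norm_cast] theorem of_zero : of (0 : R) = 0 := rfl
@[simp, norm_cast] theorem of_one : of (1 : R) = 1 := rfl
@[simp, norm_cast] theorem of_natCast (n : ℕ) : of (n : R) = n := by
  induction n with
  | zero => simp
  | succ n ih => simp [ih]
@[simp, norm_cast] theorem of_ofNat (n : ℕ) [n.AtLeastTwo] :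
    of (ofNat(n) : R) = (ofNat(n) : Zr R) := of_natCast n
theorem of_le {a b : R} : a ≤ b ↔ of a ≤ of b := by simp [of, le_def]
theorem of_lt {a b : R} : a < b ↔ of a < of b := by simp [of, lt_def]
theorem of_eq {a b : R} : a = b ↔ of a = of b := by simp [of, mk_eq]
theorem of_ne {a b : R} : a ≠ b ↔ of a ≠ of b := by simp [of, mk_eq]

end Zr

end Pool.Agent.PLO

end Part0

section Part1

/-! Structures, models of the theory, and their elementary arithmetic. -/

namespace Pool.Agent.PLO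

open Function

open Fm in
/-- Provability in the base theory (no diagram, nothing listed). -/
inductive BPrv (full : Bool) : Fm → Prop
  | k (φ ψ : Fm) : BPrv full (imp φ (imp ψ φ))
  | s (φ ψ χ : Fm) : BPrv full (imp (imp φ (imp ψ χ)) (imp (imp φ ψ) (imp φ χ)))
  | dn (φ : Fm) : BPrv full (imp (neg (neg φ)) φ)
  | inst (x : ℕ) (u : Tm) (φ : Fm) : φ.freeFor x u → BPrv full (imp (all x φ) (φ.subst x u))
  | dist (x : ℕ) (φ ψ : Fm) : BPrv full (imp (all x (imp φ ψ)) (imp (all x φ) (all x ψ)))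
  | vac (x : ℕ) (φ : Fm) : ¬ φ.free x → BPrv full (imp φ (all x φ))
  | mp {φ ψ : Fm} : BPrv full (imp φ ψ) → BPrv full φ → BPrv full ψ
  | gen (x : ℕ) {φ : Fm} : BPrv full φ → BPrv full (all x φ)
  | ax {φ : Fm} : φ ∈ eqAx ++ basic → BPrv full φ
  | ind (x : ℕ) {φ : Fm} : Cls full true φ → BPrv full (pind x φ)

theorem BPrv.prv {b : Bool} {φ : Fm} (h : BPrv b φ) (W : Set ℕ) : Prv b W φ := by
  induction h with
  | k => exact .k ..
  | s => exact .s ..
  | dn => exact .dn ..
  | inst x u φ h => exact .inst x u φ h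
  | dist => exact .dist ..
  | vac x φ h => exact .vac x φ h
  | mp _ _ i1 i2 => exact .mp i1 i2
  | gen x _ ih => exact .gen x ih
  | ax h => exact .ax h
  | ind x h => exact .ind x h

/-- A structure for the language. -/
structure Str : Type 1 where
  α : Type
  z : α
  s : α → α
  l : α → α
  h : α → α
  a : α → α → α
  m : α → α → α
  sm : α → α → α
  le : α → α → Prop
  o : α → Prop

def Tm.ev (S : Str) (v : ℕ → S.α) : Tm → S.α
  | var x => v x
  | zero => S.z
  | succ t => S.s (t.ev S v)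
  | len t => S.l (t.ev S v)
  | half t => S.h (t.ev S v)
  | add s t => S.a (s.ev S v) (t.ev S v)
  | mul s t => S.m (s.ev S v) (t.ev S v)
  | smash s t => S.sm (s.ev S v) (t.ev S v)

def Fm.ev (S : Str) : Fm → (ℕ → S.α) → Prop
  | bot, _ => False
  | eq s t, v => s.ev S v = t.ev S v
  | le s t, v => S.le (s.ev S v) (t.ev S v)
  | orc t, v => S.o (t.ev S v)
  | imp φ ψ, v => φ.ev S v → ψ.ev S v
  | all x φ, v => ∀ u, φ.ev S (update v x u)

section Raw
variable {S : Str}

theorem Tm.ev_congr {v w : ℕ → S.α} (t : Tm) (h : ∀ x, t.occ x → v x = w x) :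
    t.ev S v = t.ev S w := by
  induction t with
  | var y => exact h y rfl
  | zero => rfl
  | succ t ih | len t ih | half t ih => simp only [Tm.ev, ih h]
  | add s t i1 i2 | mul s t i1 i2 | smash s t i1 i2 =>
    simp only [Tm.ev, i1 fun x hx => h x (Or.inl hx), i2 fun x hx => h x (Or.inr hx)]

theorem Fm.ev_congr (φ : Fm) : ∀ {v w : ℕ → S.α}, (∀ x, φ.free x → v x = w x) →
    (φ.ev S v ↔ φ.ev S w) := by
  induction φ with
  | bot => intro _ _ _; rfl
  | eq s t | le s t =>
    intro v w h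
    simp only [Fm.ev, s.ev_congr fun x hx => h x (Or.inl hx), t.ev_congr fun x hx => h x (Or.inr hx)]
  | orc t => intro v w h; simp only [Fm.ev, t.ev_congr h]
  | imp φ ψ i1 i2 =>
    intro v w h
    simp only [Fm.ev, i1 fun x hx => h x (Or.inl hx), i2 fun x hx => h x (Or.inr hx)]
  | all y φ ih =>
    intro v w h
    refine forall_congr' fun u => ih fun x hx => ?_
    by_cases hxy : x = y
    · subst hxy; simp
    · simp [update_of_ne hxy, h x ⟨hxy, hx⟩]

theorem Tm.ev_update {v : ℕ → S.α} {t : Tm} {x : ℕ} (h : ¬ t.occ x) (u : S.α) :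
    t.ev S (update v x u) = t.ev S v :=
  t.ev_congr fun y hy => update_of_ne (by rintro rfl; exact h hy) _ _

theorem Fm.ev_update {v : ℕ → S.α} {φ : Fm} {x : ℕ} (h : ¬ φ.free x) (u : S.α) :
    φ.ev S (update v x u) ↔ φ.ev S v :=
  φ.ev_congr fun y hy => update_of_ne (by rintro rfl; exact h hy) _ _

theorem Tm.ev_subst (v : ℕ → S.α) (x : ℕ) (u t : Tm) :
    (t.subst x u).ev S v = t.ev S (update v x (u.ev S v)) := by
  induction t with
  | var y =>
    by_cases h : x = y
    · subst h; simp [Tm.subst, Tm.ev]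
    · simp [Tm.subst, Tm.ev, h, update_of_ne (Ne.symm h)]
  | zero => rfl
  | succ t ih | len t ih | half t ih => simp only [Tm.subst, Tm.ev, ih]
  | add s t i1 i2 | mul s t i1 i2 | smash s t i1 i2 => simp only [Tm.subst, Tm.ev, i1, i2]

theorem Tm.subst_of_not_occ {x : ℕ} (u : Tm) {t : Tm} (h : ¬ t.occ x) : t.subst x u = t := by
  induction t with
  | var y => exact if_neg h
  | zero => rfl
  | succ t ih | len t ih | half t ih => simp only [Tm.subst, ih h]
  | add s t i1 i2 | mul s t i1 i2 | smash s t i1 i2 =>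
    simp only [Tm.subst, i1 fun hx => h (Or.inl hx), i2 fun hx => h (Or.inr hx)]

theorem Fm.subst_of_not_free {x : ℕ} (u : Tm) {φ : Fm} (h : ¬ φ.free x) : φ.subst x u = φ := by
  induction φ with
  | bot => rfl
  | eq s t | le s t =>
    simp only [Fm.subst, Tm.subst_of_not_occ u fun hx => h (Or.inl hx),
      Tm.subst_of_not_occ u fun hx => h (Or.inr hx)]
  | orc t => simp only [Fm.subst, Tm.subst_of_not_occ u h]
  | imp φ ψ i1 i2 => simp only [Fm.subst, i1 fun hx => h (Or.inl hx), i2 fun hx => h (Or.inr hx)]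
  | all y φ ih =>
    by_cases hxy : x = y
    · simp [Fm.subst, hxy]
    · simp only [Fm.subst, if_neg hxy, ih fun hx => h ⟨hxy, hx⟩]

theorem Fm.ev_subst (x : ℕ) (u : Tm) (φ : Fm) : ∀ (v : ℕ → S.α), φ.freeFor x u →
    ((φ.subst x u).ev S v ↔ φ.ev S (update v x (u.ev S v))) := by
  induction φ with
  | bot => intro _ _; rfl
  | eq s t | le s t | orc t => intro v _; simp only [Fm.subst, Fm.ev, Tm.ev_subst]
  | imp φ ψ i1 i2 => intro v h; simp only [Fm.subst, Fm.ev, i1 v h.1, i2 v h.2]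
  | all y φ ih =>
    intro v h
    by_cases hf : (all y φ).free x
    · have h2 := h.resolve_left (not_not.2 hf)
      simp only [Fm.subst, if_neg hf.1, Fm.ev]
      refine forall_congr' fun w => ?_
      rw [ih _ h2.2, Tm.ev_update h2.1, update_comm (Ne.symm hf.1)]
    · rw [Fm.subst_of_not_free u hf, Fm.ev_update hf]

theorem Fm.freeFor_of_occ {x : ℕ} {u : Tm} (hu : ∀ y, u.occ y → y = x) (φ : Fm) :
    φ.freeFor x u := by
  induction φ with
  | bot | eq | le | orc => trivial
  | imp φ ψ i1 i2 => exact ⟨i1, i2⟩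
  | all y φ ih =>
    by_cases h : (all y φ).free x
    · exact Or.inr ⟨fun hy => h.1 (hu y hy).symm, ih⟩
    · exact Or.inl h

@[simp] theorem Fm.ev_bot (v : ℕ → S.α) : Fm.bot.ev S v ↔ False := Iff.rfl
@[simp] theorem Fm.ev_eq (s t : Tm) (v : ℕ → S.α) :
    (Fm.eq s t).ev S v ↔ s.ev S v = t.ev S v := Iff.rfl
@[simp] theorem Fm.ev_imp (φ ψ : Fm) (v : ℕ → S.α) :
    (φ.imp ψ).ev S v ↔ (φ.ev S v → ψ.ev S v) := Iff.rfl
@[simp] theorem Fm.ev_all (x : ℕ) (φ : Fm) (v : ℕ → S.α) :
    (Fm.all x φ).ev S v ↔ ∀ u, φ.ev S (update v x u) := Iff.rfl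
@[simp] theorem Fm.ev_neg (φ : Fm) (v : ℕ → S.α) : φ.neg.ev S v ↔ ¬ φ.ev S v := Iff.rfl
@[simp] theorem Fm.ev_or (φ ψ : Fm) (v : ℕ → S.α) :
    (φ.or ψ).ev S v ↔ φ.ev S v ∨ ψ.ev S v := by
  simp only [Fm.or, Fm.ev_imp, Fm.ev_neg]; tauto
@[simp] theorem Fm.ev_and (φ ψ : Fm) (v : ℕ → S.α) :
    (φ.and ψ).ev S v ↔ φ.ev S v ∧ ψ.ev S v := by
  simp only [Fm.and, Fm.ev_imp, Fm.ev_neg]; tauto
@[simp] theorem Fm.ev_iff (φ ψ : Fm) (v : ℕ → S.α) :
    (φ.iff ψ).ev S v ↔ (φ.ev S v ↔ ψ.ev S v) := by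
  simp only [Fm.iff, Fm.ev_imp, Fm.ev_and]; tauto
@[simp] theorem Fm.ev_ex (x : ℕ) (φ : Fm) (v : ℕ → S.α) :
    (Fm.ex x φ).ev S v ↔ ∃ u, φ.ev S (update v x u) := by
  simp [Fm.ex]
@[simp] theorem Fm.ev_ne (s t : Tm) (v : ℕ → S.α) :
    (Fm.ne s t).ev S v ↔ s.ev S v ≠ t.ev S v := Iff.rfl
@[simp] theorem Tm.ev_var (x : ℕ) (v : ℕ → S.α) : (Tm.var x).ev S v = v x := rfl

end Raw

/-- A model of the theory. -/
structure Mdl (b : Bool) : Type 1 extends Str where
  hax : ∀ φ ∈ basic, ∀ v, φ.ev toStr v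
  hind : ∀ x φ, Cls b true φ → ∀ v, (pind x φ).ev toStr v

instance {b : Bool} : CoeSort (Mdl b) Type := ⟨fun M => M.toStr.α⟩

variable {b : Bool} {M : Mdl b}

instance : Zero M := ⟨M.z⟩
instance : One M := ⟨M.s M.z⟩
instance : Add M := ⟨M.a⟩
instance : Mul M := ⟨M.m⟩
instance : LE M := ⟨M.le⟩

/-- binary length -/
def len (x : M) : M := M.l x
/-- integer part of one half -/
def half (x : M) : M := M.h x
/-- the smash function -/
def smash (x y : M) : M := M.sm x y

/-- the oracle -/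
def Orc (x : M) : Prop := M.o x

/-- the vector with the given first entries -/
def vec {α : Type} [Zero α] (l : List α) (i : ℕ) : α := l.getD i 0

namespace Boot

def S (x : M) : M := M.s x
def D (x : M) : M := S (S 0) * x

theorem bx (M : Mdl b) (n : ℕ) (h : n < basic.length) (x y z u v : M) :
    (basic[n]).ev M.toStr (vec [x, y, z, u, v]) := M.hax _ (List.getElem_mem h) _

theorem b1 (x y : M) : y ≤ x → y ≤ S x := bx M 0 (by decide) x y 0 0 0
theorem b2 (x : M) : x ≠ S x := bx M 1 (by decide) x 0 0 0 0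
theorem b3 (x : M) : 0 ≤ x := bx M 2 (by decide) x 0 0 0 0
theorem b4 (x y : M) : (x ≤ y ∧ x ≠ y) ↔ S x ≤ y := by
  have := (Fm.ev_iff _ _ _).1 (bx M 3 (by decide) x y 0 0 0)
  rwa [Fm.ev_and] at this
theorem b6 (x y : M) : y ≤ x ∨ x ≤ y := (Fm.ev_or _ _ _).1 (bx M 5 (by decide) x y 0 0 0)
theorem b7 (x y : M) (h1 : x ≤ y) (h2 : y ≤ x) : x = y :=
  bx M 6 (by decide) x y 0 0 0 ((Fm.ev_and _ _ _).2 ⟨h1, h2⟩)
theorem b8 (x y z : M) (h1 : x ≤ y) (h2 : y ≤ z) : x ≤ z :=
  bx M 7 (by decide) x y z 0 0 ((Fm.ev_and _ _ _).2 ⟨h1, h2⟩)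
theorem b9 : len (0 : M) = 0 := bx M 8 (by decide) 0 0 0 0 0
theorem b10 (x : M) (h : x ≠ 0) : len (D x) = S (len x) ∧ len (S (D x)) = S (len x) :=
  (Fm.ev_and _ _ _).1 (bx M 9 (by decide) x 0 0 0 0 h)
theorem b11 : len (1 : M) = 1 := bx M 10 (by decide) 0 0 0 0 0
theorem b12 (x y : M) : x ≤ y → len x ≤ len y := bx M 11 (by decide) x y 0 0 0
theorem b13 (x y : M) : len (smash x y) = S (len x * len y) := bx M 12 (by decide) x y 0 0 0
theorem b14 (y : M) : smash 0 y = 1 := bx M 13 (by decide) 0 y 0 0 0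
theorem b15 (x : M) (h : x ≠ 0) :
    smash 1 (D x) = D (smash 1 x) ∧ smash 1 (S (D x)) = D (smash 1 x) :=
  (Fm.ev_and _ _ _).1 (bx M 14 (by decide) x 0 0 0 0 h)
theorem b16 (x y : M) : smash x y = smash y x := bx M 15 (by decide) x y 0 0 0
theorem b17 (x y z : M) : len x = len y → smash x z = smash y z := bx M 16 (by decide) x y z 0 0
theorem b18 (x y u v : M) : len x = len u + len v → smash x y = smash u y * smash v y :=
  bx M 17 (by decide) x y 0 u v
theorem b19 (x y : M) : x ≤ x + y := bx M 18 (by decide) x y 0 0 0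
theorem b21 (x y : M) : x + y = y + x := bx M 20 (by decide) x y 0 0 0
theorem b22 (x : M) : x + 0 = x := bx M 21 (by decide) x 0 0 0 0
theorem b23 (x y : M) : x + S y = S (x + y) := bx M 22 (by decide) x y 0 0 0
theorem b24 (x y z : M) : x + y + z = x + (y + z) := bx M 23 (by decide) x y z 0 0
theorem b25 (x y z : M) : x + y ≤ x + z ↔ y ≤ z :=
  (Fm.ev_iff _ _ _).1 (bx M 24 (by decide) x y z 0 0)
theorem b26 (x : M) : x * 0 = 0 := bx M 25 (by decide) x 0 0 0 0
theorem b27 (x y : M) : x * S y = x * y + x := bx M 26 (by decide) x y 0 0 0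
theorem b28 (x y : M) : x * y = y * x := bx M 27 (by decide) x y 0 0 0
theorem b29 (x y z : M) : x * (y + z) = x * y + x * z := bx M 28 (by decide) x y z 0 0
theorem b30 (x y z : M) (h : 1 ≤ x) : x * y ≤ x * z ↔ y ≤ z :=
  (Fm.ev_iff _ _ _).1 (bx M 29 (by decide) x y z 0 0 h)
theorem b31 (x : M) (h : x ≠ 0) : len x = S (len (half x)) := bx M 30 (by decide) x 0 0 0 0 h
theorem b32 (x y : M) : x = half y ↔ (D x = y ∨ S (D x) = y) := by
  have := (Fm.ev_iff _ _ _).1 (bx M 31 (by decide) x y 0 0 0)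
  rwa [Fm.ev_or] at this

theorem S_eq (x : M) : S x = x + 1 := by
  show S x = x + S 0
  rw [b23, b22]

theorem D_eq (x : M) : D x = x + x := by
  rw [D, b28, b27, b27, b26, b21 0, b22]

/-- raw polynomial induction -/
theorem pind_raw {φ : Fm} (hφ : Cls b true φ) (x : ℕ) (v : ℕ → M)
    (h0 : φ.ev M.toStr (update v x 0))
    (hs : ∀ u : M, φ.ev M.toStr (update v x (half u)) → φ.ev M.toStr (update v x u)) (u : M) :
    φ.ev M.toStr (update v x u) := by
  refine M.hind x φ hφ v ?_ ?_ u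
  · exact (Fm.ev_subst x .zero φ v (Fm.freeFor_of_occ (u := .zero) (fun _ h => False.elim h) φ)).2 h0
  · intro w hw
    rw [Fm.ev_subst x (.half (.var x)) φ _
      (Fm.freeFor_of_occ (u := .half (.var x)) (fun _ h => h) φ), update_idem] at hw
    refine hs w ?_
    simpa [Tm.ev, half] using hw

theorem mul_assoc' (x y z : M) : x * y * z = x * (y * z) := by
  have := pind_raw (M := M) (Cls.eq true (.mul (.mul (.var 0) (.var 1)) (.var 2))
    (.mul (.var 0) (.mul (.var 1) (.var 2)))) 2 (vec [x, y]) ?_ ?_ z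
  · exact this
  · show x * y * 0 = x * (y * 0)
    rw [b26, b26, b26]
  · intro u hu
    change x * y * half u = x * (y * half u) at hu
    show x * y * u = x * (y * u)
    rcases (b32 (half u) u).1 rfl with h | h
    · rw [← h, D_eq, b29, b29, b29, hu]
    · rw [← h, D_eq, b27, b27, b29, b29, b29, b29, hu]

end Boot

open Boot

noncomputable instance : LinearOrder M where
  le_refl x := (b6 x x).elim id id
  le_trans := b8
  le_antisymm := b7
  le_total x y := b6 y x
  toDecidableLE := Classical.decRel _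

instance : CommSemiring M where
  add_assoc := b24
  zero_add x := by rw [b21, b22]
  add_zero := b22
  add_comm := b21
  nsmul := nsmulRec
  left_distrib := b29
  right_distrib x y z := by rw [b28, b29, b28 z, b28 z]
  zero_mul x := by rw [b28, b26]
  mul_zero := b26
  mul_assoc := mul_assoc'
  one_mul x := by
    rw [b28]
    show x * S 0 = x
    rw [b27, b26, b21, b22]
  mul_one x := by
    show x * S 0 = x
    rw [b27, b26, b21, b22]
  mul_comm := b28

theorem succ_le_iff {x y : M} : x + 1 ≤ y ↔ x < y := by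
  rw [← S_eq, ← b4, lt_iff_le_and_ne]

instance : IsOrderedCancelAddMonoid M where
  add_le_add_left x y h z := by rw [add_comm x, add_comm y]; exact (b25 z x y).2 h
  le_of_add_le_add_left x y z h := (b25 x y z).1 h

instance : OrderBot M where
  bot := 0
  bot_le := b3

instance : Nontrivial M := ⟨0, 1, b2 0⟩

instance : IsStrictOrderedRing M where
  zero_le_one := b3 1
  mul_lt_mul_of_pos_left x hx y z h := by
    rw [← not_le] at h ⊢
    rwa [b30 x z y (by simpa using succ_le_iff.2 hx)]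
  mul_lt_mul_of_pos_right x hx y z h := by
    rw [← not_le] at h ⊢
    rwa [mul_comm y, mul_comm z, b30 x z y (by simpa using succ_le_iff.2 hx)]

theorem zero_le' (x : M) : 0 ≤ x := b3 x

theorem lt_succ_iff {x y : M} : x < y + 1 ↔ x ≤ y := by
  rw [← not_le, succ_le_iff, not_lt]

theorem one_le_iff {x : M} : 1 ≤ x ↔ x ≠ 0 := by
  rw [← zero_add 1, succ_le_iff]
  exact ⟨fun h => h.ne', fun h => lt_of_le_of_ne (zero_le' x) (Ne.symm h)⟩

theorem Boot.D_two (x : M) : D x = 2 * x := by rw [D_eq, two_mul]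

@[simp] theorem len_zero : len (0 : M) = 0 := b9
@[simp] theorem len_one : len (1 : M) = 1 := b11
theorem len_two_mul {x : M} (h : x ≠ 0) : len (2 * x) = len x + 1 := by
  rw [← D_two, (b10 x h).1, S_eq]
theorem len_two_mul_add_one (x : M) : len (2 * x + 1) = len x + 1 := by
  by_cases h : x = 0
  · simp [h]
  · rw [← D_two, ← S_eq, (b10 x h).2, S_eq]
@[gcongr] theorem len_mono {x y : M} (h : x ≤ y) : len x ≤ len y := b12 x y h
theorem len_smash (x y : M) : len (smash x y) = len x * len y + 1 := by rw [b13, S_eq]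
@[simp] theorem zero_smash (y : M) : smash 0 y = 1 := b14 y
theorem smash_comm (x y : M) : smash x y = smash y x := b16 x y
@[simp] theorem smash_zero (y : M) : smash y 0 = 1 := by rw [smash_comm, zero_smash]
theorem smash_congr {x y : M} (z : M) (h : len x = len y) : smash x z = smash y z := b17 x y z h
theorem smash_add {x u v : M} (y : M) (h : len x = len u + len v) :
    smash x y = smash u y * smash v y := b18 x y u v h
theorem len_half {x : M} (h : x ≠ 0) : len x = len (half x) + 1 := by rw [b31 x h, S_eq]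
theorem half_iff {x y : M} : x = half y ↔ (2 * x = y ∨ 2 * x + 1 = y) := by
  rw [b32, S_eq, D_two]
theorem half_spec (y : M) : y = 2 * half y ∨ y = 2 * half y + 1 :=
  (half_iff.1 rfl).imp Eq.symm Eq.symm
@[simp] theorem half_two_mul (x : M) : half (2 * x) = x := (half_iff.2 (Or.inl rfl)).symm
@[simp] theorem half_two_mul_add_one (x : M) : half (2 * x + 1) = x :=
  (half_iff.2 (Or.inr rfl)).symm
@[simp] theorem half_zero : half (0 : M) = 0 := by simpa using half_two_mul (0 : M)
@[simp] theorem half_one : half (1 : M) = 0 := by simpa using half_two_mul_add_one (0 : M)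
@[simp] theorem len_eq_zero {x : M} : len x = 0 ↔ x = 0 := by
  refine ⟨fun h => ?_, fun h => by simp [h]⟩
  by_contra hx
  rw [len_half hx] at h
  exact absurd h (one_le_iff.1 (le_add_of_nonneg_left (zero_le' _)))
theorem smash_ne_zero (x y : M) : smash x y ≠ 0 := by
  rw [Ne, ← len_eq_zero, len_smash]
  exact one_le_iff.1 (le_add_of_nonneg_left (zero_le' _))
theorem smash_pos (x y : M) : 0 < smash x y :=
  lt_of_le_of_ne (zero_le' _) (smash_ne_zero x y).symm
theorem half_le (x : M) : half x ≤ x := by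
  rcases half_spec x with h | h
  · calc half x ≤ half x + half x := le_add_of_nonneg_right (zero_le' _)
      _ = x := by rw [← two_mul, ← h]
  · calc half x ≤ half x + (half x + 1) := le_add_of_nonneg_right (zero_le' _)
      _ = x := by rw [← add_assoc, ← two_mul, ← h]

/-- `pw a = 2 ^ |a|` -/
def pw (a : M) : M := smash 1 a

@[simp] theorem pw_zero : pw (0 : M) = 1 := smash_zero 1
theorem pw_pos (a : M) : 0 < pw a := smash_pos 1 a
theorem len_pw (a : M) : len (pw a) = len a + 1 := by rw [pw, len_smash, len_one, one_mul]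
theorem pw_congr {a c : M} (h : len a = len c) : pw a = pw c := by
  rw [pw, pw, smash_comm 1, smash_comm 1, smash_congr 1 h]
theorem pw_add {x u v : M} (h : len x = len u + len v) : pw x = pw u * pw v := by
  rw [pw, pw, pw, smash_comm 1, smash_comm 1, smash_comm 1 v, smash_add 1 h]
@[simp] theorem pw_one : pw (1 : M) = 2 := by
  have h1 : pw (2 * 1 : M) = pw 1 * pw 1 := pw_add (by rw [len_two_mul one_ne_zero, len_one])
  have h2 : pw (2 * 1 : M) = 2 * pw 1 := by
    have := (b15 (1 : M) one_ne_zero).1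
    rwa [D_two, D_two] at this
  have h3 := h1.symm.trans h2
  exact le_antisymm (le_of_mul_le_mul_right h3.le (pw_pos 1))
    (le_of_mul_le_mul_right h3.ge (pw_pos 1))
theorem pw_half {x : M} (h : x ≠ 0) : pw x = 2 * pw (half x) := by
  rw [pw_add (u := 1) (v := half x) (by rw [len_half h, len_one, add_comm]), pw_one]

section Ev
variable (v : ℕ → M)
@[simp] theorem Tm.ev_zero : Tm.zero.ev M.toStr v = 0 := rfl
@[simp] theorem Tm.ev_succ (t : Tm) : t.succ.ev M.toStr v = t.ev M.toStr v + 1 := S_eq _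
@[simp] theorem Tm.ev_len (t : Tm) : t.len.ev M.toStr v = _root_.Pool.Agent.PLO.len
  (t.ev M.toStr v) := rfl
@[simp] theorem Tm.ev_half (t : Tm) : t.half.ev M.toStr v = _root_.Pool.Agent.PLO.half
  (t.ev M.toStr v) := rfl
@[simp] theorem Tm.ev_add (s t : Tm) :
    (s.add t).ev M.toStr v = s.ev M.toStr v + t.ev M.toStr v := rfl
@[simp] theorem Tm.ev_mul (s t : Tm) :
    (s.mul t).ev M.toStr v = s.ev M.toStr v * t.ev M.toStr v := rfl
@[simp] theorem Tm.ev_smash (s t : Tm) : (s.smash t).ev M.toStr v =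
    _root_.Pool.Agent.PLO.smash (s.ev M.toStr v) (t.ev M.toStr v) := rfl
@[simp] theorem Tm.ev_one : Tm.one.ev M.toStr v = 1 := rfl
@[simp] theorem Tm.ev_two : Tm.two.ev M.toStr v = 2 := by
  simp [Tm.two, one_add_one_eq_two]
@[simp] theorem Tm.ev_dbl (t : Tm) : t.dbl.ev M.toStr v = 2 * t.ev M.toStr v := by simp [Tm.dbl]
@[simp] theorem Tm.ev_num (n : ℕ) : (Tm.num n).ev M.toStr v = n := by
  induction n using Nat.strong_induction_on with
  | _ n ih =>
    rw [Tm.num]
    split_ifs with h1 h2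
    · simp [h1]
    · rw [Tm.ev_dbl, ih _ (by omega)]
      exact_mod_cast congrArg (Nat.cast : ℕ → M) (show 2 * (n / 2) = n by omega)
    · rw [Tm.ev_succ, Tm.ev_dbl, ih _ (by omega)]
      exact_mod_cast congrArg (Nat.cast : ℕ → M) (show 2 * (n / 2) + 1 = n by omega)
@[simp] theorem Fm.ev_le (s t : Tm) :
    (Fm.le s t).ev M.toStr v ↔ s.ev M.toStr v ≤ t.ev M.toStr v := Iff.rfl
@[simp] theorem Fm.ev_orc (t : Tm) :
    (Fm.orc t).ev M.toStr v ↔ Orc (t.ev M.toStr v) := Iff.rfl
@[simp] theorem Fm.ev_lt (s t : Tm) :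
    (Fm.lt s t).ev M.toStr v ↔ s.ev M.toStr v < t.ev M.toStr v := by
  simp [Fm.lt]
theorem Fm.ev_ball {x : ℕ} {t : Tm} (h : ¬ t.occ x) (φ : Fm) :
    (Fm.ball x t φ).ev M.toStr v ↔ ∀ u ≤ t.ev M.toStr v, φ.ev M.toStr (update v x u) := by
  simp [Fm.ball, Tm.ev_update h]
theorem Fm.ev_bex {x : ℕ} {t : Tm} (h : ¬ t.occ x) (φ : Fm) :
    (Fm.bex x t φ).ev M.toStr v ↔ ∃ u ≤ t.ev M.toStr v, φ.ev M.toStr (update v x u) := by
  simp [Fm.bex, Fm.ev_ball v h]
end Ev

theorem Tm.not_occ_num (x n : ℕ) : ¬ (Tm.num n).occ x := by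
  induction n using Nat.strong_induction_on with
  | _ n ih =>
    rw [Tm.num]
    split_ifs with h1 h2
    · exact id
    · simpa [Tm.dbl, Tm.two, Tm.one, Tm.occ] using ih _ (by omega)
    · simpa [Tm.dbl, Tm.two, Tm.one, Tm.occ] using ih _ (by omega)

namespace Cls
variable {c : Bool}
theorem neg {σ : Bool} {φ : Fm} (h : Cls c (!σ) φ) : Cls c σ φ.neg := .imp σ h (.bot σ)
theorem neg' {σ : Bool} {φ : Fm} (h : Cls c σ φ) : Cls c (!σ) φ.neg :=
  neg (by rwa [Bool.not_not])
theorem or {σ : Bool} {φ ψ : Fm} (h1 : Cls c σ φ) (h2 : Cls c σ ψ) : Cls c σ (φ.or ψ) :=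
  .imp σ h1.neg' h2
theorem and {σ : Bool} {φ ψ : Fm} (h1 : Cls c σ φ) (h2 : Cls c σ ψ) : Cls c σ (φ.and ψ) :=
  neg (.imp _ (by rwa [Bool.not_not]) h2.neg')
theorem lt (σ : Bool) (s t : Tm) : Cls c σ (Fm.lt s t) := neg (.le _ _ _)
theorem ne (σ : Bool) (s t : Tm) : Cls c σ (Fm.ne s t) := neg (.eq _ _ _)
theorem bex {x : ℕ} {t : Tm} {φ : Fm} (h : ¬ t.occ x) (h1 : Cls c true φ) :
    Cls c true (Fm.bex x t φ) := neg (.ball h h1.neg')
theorem mono {σ : Bool} {φ : Fm} (h : Cls false σ φ) : Cls c σ φ := by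
  induction h with
  | bot σ => exact .bot σ
  | eq σ s t => exact .eq σ s t
  | le σ s t => exact .le σ s t
  | orc σ t => exact .orc σ t
  | imp σ _ _ i1 i2 => exact .imp σ i1 i2
  | ball h _ ih => exact .ball h ih
  | sharp h _ ih => exact .sharp h ih
  | wide h => exact absurd h (by decide)
/-- every formula of a class is a bounded formula -/
theorem bdd {σ : Bool} {φ : Fm} (h : Cls c σ φ) : ∀ τ, Cls true τ φ := by
  induction h with
  | bot σ => exact .bot
  | eq σ s t => exact fun τ => .eq τ s t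
  | le σ s t => exact fun τ => .le τ s t
  | orc σ t => exact fun τ => .orc τ t
  | imp σ _ _ i1 i2 => exact fun τ => .imp τ (i1 _) (i2 _)
  | ball h _ ih | wide _ h _ ih =>
    intro τ
    cases τ
    · exact .ball h (ih _)
    · exact .wide rfl h (ih _)
  | @sharp x t φ h _ ih =>
    intro τ
    cases τ
    · exact .ball (t := t.len) h (ih _)
    · exact .sharp h (ih _)
end Cls

theorem lt_pw (y : M) : y < pw y := by
  have := pind_raw (M := M) (Cls.lt true (.var 0) (.smash .one (.var 0))) 0 (vec []) ?_ ?_ y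
  · simpa [pw] using this
  · simp
  · intro u hu
    simp only [Fm.ev_lt, Tm.ev_var, update_self, Tm.ev_smash, Tm.ev_one] at hu ⊢
    by_cases h0 : u = 0
    · simp [h0]
    change half u < pw (half u) at hu
    change u < pw u
    rw [pw_half h0]
    have h2 : 2 * (half u + 1) ≤ 2 * pw (half u) := by
      gcongr; exact succ_le_iff.2 hu
    refine lt_of_lt_of_le ?_ h2
    rw [mul_add, mul_one, ← one_add_one_eq_two, ← add_assoc, one_add_one_eq_two, lt_succ_iff]
    rcases half_spec u with h | h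
    · exact h.le.trans (le_add_of_nonneg_right zero_le_one)
    · exact h.le

theorem exists_sub_aux {x y : M} (hxy : x ≤ y) (c : M) (hc : y < pw c) (w : M) :
    len w ≤ len c → ∃ z ≤ y, ∃ d ≤ c, len d + len w = len c ∧ x + z ≤ y ∧ y < x + z + pw d := by
  have := pind_raw (M := M) (φ := .imp (.le (.len (.var 0)) (.len (.var 3)))
    (.bex 4 (.var 2) (.bex 5 (.var 3) (.and (.eq (.add (.len (.var 5)) (.len (.var 0))) (.len (.var 3)))
      (.and (.le (.add (.var 1) (.var 4)) (.var 2))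
        (.lt (.var 2) (.add (.add (.var 1) (.var 4)) (.smash .one (.var 5)))))))))
    (.imp _ (.le _ _ _) (.bex (by simp [Tm.occ]) (.bex (by simp [Tm.occ])
      (.and (.eq _ _ _) (.and (.le _ _ _) (.lt _ _ _)))))) 0 (vec [0, x, y, c]) ?_ ?_ w
  · simpa [Fm.ev_bex, Tm.occ, vec, pw] using this
  · have : 0 ≤ len c → ∃ z ≤ y, ∃ d ≤ c, len d = len c ∧ x + z ≤ y ∧ y < x + z + pw d :=
      fun _ => ⟨0, zero_le' _, c, le_rfl, rfl, by simpa using hxy,
        hc.trans_le (le_add_of_nonneg_left (zero_le' _))⟩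
    simpa [Fm.ev_bex, Tm.occ, vec, pw] using this
  · intro u hu
    have hu' : len (half u) ≤ len c → ∃ z ≤ y, ∃ d ≤ c, len d + len (half u) = len c ∧
        x + z ≤ y ∧ y < x + z + pw d := by
      simpa [Fm.ev_bex, Tm.occ, vec, pw] using hu
    suffices len u ≤ len c → ∃ z ≤ y, ∃ d ≤ c, len d + len u = len c ∧
        x + z ≤ y ∧ y < x + z + pw d by
      simpa [Fm.ev_bex, Tm.occ, vec, pw] using this
    intro hl
    by_cases h0 : u = 0
    · subst h0
      exact hu' (by simpa using hl)|>.imp fun z hz => by simpa using hz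
    obtain ⟨z, hz, d, hd, h1, h2, h3⟩ := hu' ((len_mono (half_le u)).trans hl)
    have hd0 : d ≠ 0 := by
      rintro rfl
      rw [len_half h0, ← h1, len_zero, zero_add, succ_le_iff] at hl
      exact lt_irrefl _ hl
    have h4 : len (half d) + len u = len c := by
      rw [← h1, len_half h0, len_half hd0]; ring
    by_cases h5 : x + z + pw (half d) ≤ y
    · refine ⟨z + pw (half d), ?_, half d, (half_le d).trans hd, h4, by rwa [← add_assoc], ?_⟩
      · refine le_trans ?_ h5
        rw [add_assoc]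
        exact le_add_of_nonneg_left (zero_le' _)
      · rw [pw_half hd0] at h3
        convert h3 using 1
        ring
    · exact ⟨z, hz, half d, (half_le d).trans hd, h4, h2, not_le.1 h5⟩

instance : CanonicallyOrderedAdd M where
  exists_add_of_le {x y} h := by
    obtain ⟨z, _, d, _, h1, h2, h3⟩ := exists_sub_aux h y (lt_pw y) y le_rfl
    have hd : d = 0 := by
      rw [← len_eq_zero]
      exact add_right_cancel (h1.trans (zero_add _).symm)
    rw [hd, pw_zero, lt_succ_iff] at h3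
    exact ⟨z, le_antisymm h3 h2⟩
  le_self_add := b19
  le_add_self x y := by rw [add_comm]; exact b19 x y

/-- subtraction of lengths -/
theorem exists_len_add {w c : M} (h : len w ≤ len c) : ∃ d ≤ c, len d + len w = len c := by
  obtain ⟨_, _, d, hd, h1, _⟩ := exists_sub_aux (le_refl (0 : M)) c (pw_pos c) w h
  exact ⟨d, hd, h1⟩

@[zify_simps] theorem zr_le {x y : M} : x ≤ y ↔ (x : Zr M) ≤ y := Zr.of_le
@[zify_simps] theorem zr_lt {x y : M} : x < y ↔ (x : Zr M) + 1 ≤ y := by
  rw [← succ_le_iff, Zr.of_le]; simp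
@[zify_simps] theorem zr_eq {x y : M} : x = y ↔ (x : Zr M) = y := Zr.of_eq
@[zify_simps] theorem zr_ne {x y : M} : x ≠ y ↔ (x : Zr M) ≠ y := Zr.of_ne
theorem zr_nonneg (x : M) : (0 : Zr M) ≤ x := zr_le.1 (zero_le' x)

@[gcongr] theorem half_mono {x y : M} (h : x ≤ y) : half x ≤ half y := by
  by_contra hc
  rw [not_le] at hc
  rcases half_spec x with h1 | h1 <;> rcases half_spec y with h2 | h2 <;> zify at * <;> linarith

theorem smash_mono_left {x y : M} (z : M) (h : len x ≤ len y) : smash x z ≤ smash y z := by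
  obtain ⟨d, _, hd⟩ := exists_len_add h
  rw [smash_add z hd.symm]
  exact le_mul_of_one_le_left (zero_le' _) (one_le_iff.2 (smash_ne_zero _ _))

theorem smash_mono_len {x y u w : M} (h : len x ≤ len y) (h' : len u ≤ len w) :
    smash x u ≤ smash y w :=
  (smash_mono_left u h).trans (by rw [smash_comm y, smash_comm y]; exact smash_mono_left y h')

@[gcongr] theorem smash_mono {x y u w : M} (h : x ≤ y) (h' : u ≤ w) : smash x u ≤ smash y w :=
  smash_mono_len (len_mono h) (len_mono h')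

theorem pw_mono_len {x y : M} (h : len x ≤ len y) : pw x ≤ pw y := smash_mono_len le_rfl h

@[gcongr] theorem pw_mono {x y : M} (h : x ≤ y) : pw x ≤ pw y := pw_mono_len (len_mono h)

theorem Tm.ev_mono {v w : ℕ → M} (t : Tm) (h : ∀ x, t.occ x → v x ≤ w x) :
    t.ev M.toStr v ≤ t.ev M.toStr w := by
  induction t with
  | var y => exact h y rfl
  | zero => exact le_rfl
  | succ t ih => simpa using ih h
  | len t ih => exact len_mono (ih h)
  | half t ih => exact half_mono (ih h)
  | add s t i1 i2 =>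
    exact add_le_add (i1 fun x hx => h x (Or.inl hx)) (i2 fun x hx => h x (Or.inr hx))
  | mul s t i1 i2 =>
    exact mul_le_mul' (i1 fun x hx => h x (Or.inl hx)) (i2 fun x hx => h x (Or.inr hx))
  | smash s t i1 i2 =>
    exact smash_mono (i1 fun x hx => h x (Or.inl hx)) (i2 fun x hx => h x (Or.inr hx))

/-- Soundness of the calculus. -/
theorem BPrv.sound {φ : Fm} (h : BPrv b φ) (M : Mdl b) : ∀ v, φ.ev M.toStr v := by
  induction h with
  | k => exact fun _ h _ => h
  | s => exact fun _ h1 h2 h3 => h1 h3 (h2 h3)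
  | dn => exact fun _ h => not_not.1 h
  | inst x u φ h => exact fun v h1 => (Fm.ev_subst x u φ v h).2 (h1 _)
  | dist => exact fun _ h1 h2 u => h1 u (h2 u)
  | vac x φ h => exact fun v h1 u => (Fm.ev_update h u).2 h1
  | mp _ _ i1 i2 => exact fun v => i1 v (i2 v)
  | gen _ _ ih => exact fun v u => ih _
  | ax h =>
    rcases List.mem_append.1 h with h | h
    · intro v
      simp only [eqAx, List.mem_cons, List.not_mem_nil, or_false] at h
      rcases h with h | h | h | h | h | h | h | h | h | h <;> subst h <;> simp +contextual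
    · exact M.hax _ h
  | ind x h => exact M.hind x _ h

end Pool.Agent.PLO

end Part1

section Part2

/-! Uniform definability: the classes `USig`, `UPi`, `UFn`, `UB`; induction principles. -/

namespace Pool.Agent.PLO

open Function

/-- put a value in front of an assignment -/
def cons {α : Type*} (x : α) (v : ℕ → α) : ℕ → α
  | 0 => x
  | n + 1 => v n

@[simp] theorem cons_zero {α : Type*} (x : α) (v : ℕ → α) : cons x v 0 = x := rfl
@[simp] theorem cons_succ {α : Type*} (x : α) (v : ℕ → α) (n : ℕ) : cons x v (n + 1) = v n := rfl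
@[simp] theorem cons_tail {α : Type*} (v : ℕ → α) : cons (v 0) (fun i => v (i + 1)) = v := by
  funext i; cases i <;> rfl

theorem consInj (k : ℕ) : Injective (cons 0 fun i => i + (k + 1)) := by
  intro i j e
  rcases i with _ | i <;> rcases j with _ | j <;> simp only [cons_zero, cons_succ] at e <;> omega

/-! ### Renaming -/

def Tm.ren (g : ℕ → ℕ) : Tm → Tm
  | var x => var (g x)
  | zero => zero
  | succ t => succ (t.ren g)
  | len t => len (t.ren g)
  | half t => half (t.ren g)
  | add s t => add (s.ren g) (t.ren g)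
  | mul s t => mul (s.ren g) (t.ren g)
  | smash s t => smash (s.ren g) (t.ren g)

def Fm.ren (g : ℕ → ℕ) : Fm → Fm
  | bot => bot
  | eq s t => eq (s.ren g) (t.ren g)
  | le s t => le (s.ren g) (t.ren g)
  | orc t => orc (t.ren g)
  | imp φ ψ => imp (φ.ren g) (ψ.ren g)
  | all x φ => all (g x) (φ.ren g)

theorem Tm.ev_ren {S : Str} (g : ℕ → ℕ) (v : ℕ → S.α) (t : Tm) :
    (t.ren g).ev S v = t.ev S (fun i => v (g i)) := by
  induction t with
  | var y => rfl
  | zero => rfl
  | succ t ih | len t ih | half t ih => simp only [Tm.ren, Tm.ev, ih]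
  | add s t i1 i2 | mul s t i1 i2 | smash s t i1 i2 => simp only [Tm.ren, Tm.ev, i1, i2]

theorem Fm.ev_ren {S : Str} {g : ℕ → ℕ} (hg : Injective g) (φ : Fm) : ∀ v : ℕ → S.α,
    ((φ.ren g).ev S v ↔ φ.ev S (fun i => v (g i))) := by
  induction φ with
  | bot => intro _; rfl
  | eq s t | le s t | orc t => intro v; simp only [Fm.ren, Fm.ev, Tm.ev_ren]
  | imp φ ψ i1 i2 => intro v; simp only [Fm.ren, Fm.ev, i1, i2]
  | all y φ ih =>
    intro v
    simp only [Fm.ren, Fm.ev, ih]
    refine forall_congr' fun u => ?_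
    rw [show (fun i => update v (g y) u (g i)) = update (fun i => v (g i)) y u from
      update_comp_eq_of_injective v hg y u]

theorem Tm.occ_ren {g : ℕ → ℕ} (hg : Injective g) (x : ℕ) (t : Tm) :
    (t.ren g).occ (g x) ↔ t.occ x := by
  induction t with
  | var y => exact hg.eq_iff
  | zero => rfl
  | succ t ih | len t ih | half t ih => exact ih
  | add s t i1 i2 | mul s t i1 i2 | smash s t i1 i2 => exact or_congr i1 i2

theorem Cls.ren {c σ : Bool} {φ : Fm} {g : ℕ → ℕ} (hg : Injective g) (h : Cls c σ φ) :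
    Cls c σ (φ.ren g) := by
  induction h with
  | bot σ => exact .bot σ
  | eq σ s t => exact .eq σ _ _
  | le σ s t => exact .le σ _ _
  | orc σ t => exact .orc σ _
  | imp σ _ _ i1 i2 => exact .imp σ i1 i2
  | ball h _ ih => exact .ball (mt (Tm.occ_ren hg _ _).1 h) ih
  | sharp h _ ih => exact .sharp (mt (Tm.occ_ren hg _ _).1 h) ih
  | wide h0 h _ ih => exact .wide h0 (mt (Tm.occ_ren hg _ _).1 h) ih

theorem Tm.exists_bound (t : Tm) : ∃ m, ∀ x, t.occ x → x < m := by
  induction t with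
  | var y => exact ⟨y + 1, fun x h => by cases h; omega⟩
  | zero => exact ⟨0, fun _ h => h.elim⟩
  | succ t ih | len t ih | half t ih => exact ih
  | add s t i1 i2 | mul s t i1 i2 | smash s t i1 i2 =>
    obtain ⟨m, hm⟩ := i1
    obtain ⟨n, hn⟩ := i2
    exact ⟨m + n, fun x h => h.elim (fun h => by have := hm x h; omega)
      (fun h => by have := hn x h; omega)⟩

theorem Fm.exists_bound (φ : Fm) : ∃ m, ∀ x, φ.free x → x < m := by
  induction φ with
  | bot => exact ⟨0, fun _ h => h.elim⟩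
  | eq s t | le s t => exact (Tm.add s t).exists_bound
  | orc t => exact t.exists_bound
  | imp φ ψ i1 i2 =>
    obtain ⟨m, hm⟩ := i1
    obtain ⟨n, hn⟩ := i2
    exact ⟨m + n, fun x h => h.elim (fun h => by have := hm x h; omega)
      (fun h => by have := hn x h; omega)⟩
  | all y φ ih =>
    obtain ⟨m, hm⟩ := ih
    exact ⟨m, fun x h => hm x h.2⟩

/-- the renaming that sends `0` to `m` and shifts the other variables down -/
def bindF (m : ℕ) : ℕ → ℕ
  | 0 => m
  | i + 1 => if i < m then i else i + 1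

theorem bindF_inj (m : ℕ) : Injective (bindF m) := by
  intro i j h
  rcases i with _ | i <;> rcases j with _ | j <;> simp only [bindF] at h <;>
    (try split_ifs at h) <;> omega

theorem Fm.bind (φ : Fm) (t : Tm) : ∃ m φ', ¬ t.occ m ∧ (∀ c σ, Cls c σ φ → Cls c σ φ') ∧
    ∀ (S : Str) (v : ℕ → S.α) (x : S.α), Fm.ev S φ' (update v m x) ↔ φ.ev S (cons x v) := by
  obtain ⟨m, hm⟩ := φ.exists_bound
  obtain ⟨n, hn⟩ := t.exists_bound
  refine ⟨m + n, φ.ren (bindF (m + n)), fun h => by have := hn _ h; omega,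
    fun _ _ h => h.ren (bindF_inj _), fun S v x => ?_⟩
  rw [Fm.ev_ren (bindF_inj _)]
  refine φ.ev_congr fun y hy => ?_
  have := hm y hy
  rcases y with _ | y
  · simp [bindF]
  · have h1 : y < m + n := by omega
    simp [bindF, h1, update_of_ne h1.ne]

/-! ### The classes -/

abbrev UPred (b : Bool) : Type 1 := ∀ M : Mdl b, (ℕ → M) → Prop
abbrev UFun (b : Bool) : Type 1 := ∀ M : Mdl b, (ℕ → M) → M

variable {b : Bool}

/-- defined in all models by one formula of the class `Cls c σ` -/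
def UC (c σ : Bool) (P : UPred b) : Prop :=
  ∃ φ, Cls c σ φ ∧ ∀ (M : Mdl b) (v : ℕ → M), φ.ev M.toStr v ↔ P M v

/-- uniformly `Σ^b_1` -/
class USig (P : UPred b) : Prop where
  out : UC false true P
/-- uniformly `Π^b_1` -/
class UPi (P : UPred b) : Prop where
  out : UC false false P
/-- uniformly bounded -/
class UB (P : UPred b) : Prop where
  out : UC true true P
/-- uniformly `Σ^b_1` total function bounded by a term -/
class UFn (f : UFun b) : Prop where
  gr : UC false true (fun M v => v 0 = f M (fun i => v (i + 1)))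
  bd : ∃ t : Tm, ∀ (M : Mdl b) (v : ℕ → M), f M v ≤ t.ev M.toStr v

namespace UC
variable {c σ : Bool} {P Q : UPred b}

theorem congr (h : UC c σ P) (e : ∀ M v, P M v ↔ Q M v) : UC c σ Q := by
  obtain ⟨φ, h1, h2⟩ := h
  exact ⟨φ, h1, fun M v => (h2 M v).trans (e M v)⟩

theorem ren (h : UC c σ P) {g : ℕ → ℕ} (hg : Injective g) :
    UC c σ (fun M v => P M (fun i => v (g i))) := by
  obtain ⟨φ, h1, h2⟩ := h
  exact ⟨φ.ren g, h1.ren hg, fun M v => by rw [Fm.ev_ren hg, h2]⟩

theorem tail (h : UC c σ P) : UC c σ (fun M v => P M (fun i => v (i + 1))) :=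
  h.ren (g := fun i => i + 1) (add_left_injective 1)

theorem bot : UC c σ (fun (_ : Mdl b) _ => False) := ⟨.bot, .bot _, fun _ _ => Iff.rfl⟩
theorem not (h : UC c (!σ) P) : UC c σ (fun M v => ¬ P M v) := by
  obtain ⟨φ, h1, h2⟩ := h
  exact ⟨φ.neg, h1.neg, fun M v => by rw [Fm.ev_neg, h2]⟩
theorem imp (h : UC c (!σ) P) (h' : UC c σ Q) : UC c σ (fun M v => P M v → Q M v) := by
  obtain ⟨φ, h1, h2⟩ := h
  obtain ⟨ψ, h3, h4⟩ := h'
  exact ⟨φ.imp ψ, .imp _ h1 h3, fun M v => by rw [Fm.ev_imp, h2, h4]⟩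
theorem and (h : UC c σ P) (h' : UC c σ Q) : UC c σ (fun M v => P M v ∧ Q M v) := by
  obtain ⟨φ, h1, h2⟩ := h
  obtain ⟨ψ, h3, h4⟩ := h'
  exact ⟨φ.and ψ, h1.and h3, fun M v => by rw [Fm.ev_and, h2, h4]⟩
theorem or (h : UC c σ P) (h' : UC c σ Q) : UC c σ (fun M v => P M v ∨ Q M v) := by
  obtain ⟨φ, h1, h2⟩ := h
  obtain ⟨ψ, h3, h4⟩ := h'
  exact ⟨φ.or ψ, h1.or h3, fun M v => by rw [Fm.ev_or, h2, h4]⟩
theorem eqT (s t : Tm) : UC c σ (fun (M : Mdl b) v => s.ev M.toStr v = t.ev M.toStr v) :=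
  ⟨.eq s t, .eq _ _ _, fun _ _ => Iff.rfl⟩
theorem leT (s t : Tm) : UC c σ (fun (M : Mdl b) v => s.ev M.toStr v ≤ t.ev M.toStr v) :=
  ⟨.le s t, .le _ _ _, fun _ _ => Iff.rfl⟩
theorem ballT (t : Tm) (h : UC c false P) :
    UC c false (fun M v => ∀ x ≤ t.ev M.toStr v, P M (cons x v)) := by
  obtain ⟨φ, h1, h2⟩ := h
  obtain ⟨m, φ', h3, h4, h5⟩ := φ.bind t
  exact ⟨.ball m t φ', .ball h3 (h4 _ _ h1), fun M v => by simp only [Fm.ev_ball v h3, h5, h2]⟩
theorem sharpT (t : Tm) (h : UC c true P) :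
    UC c true (fun M v => ∀ x ≤ len (t.ev M.toStr v), P M (cons x v)) := by
  obtain ⟨φ, h1, h2⟩ := h
  obtain ⟨m, φ', h3, h4, h5⟩ := φ.bind t
  exact ⟨.ball m t.len φ', .sharp h3 (h4 _ _ h1), fun M v => by
    simp only [Fm.ev_ball v (t := t.len) h3, h5, h2, Tm.ev_len]⟩
theorem bexT (t : Tm) (h : UC c true P) :
    UC c true (fun M v => ∃ x ≤ t.ev M.toStr v, P M (cons x v)) :=
  (not (σ := true) (ballT t (not (σ := false) h))).congr fun M v => by simp
theorem mono (h : UC false σ P) : UC c σ P := by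
  obtain ⟨φ, h1, h2⟩ := h
  exact ⟨φ, h1.mono, h2⟩
theorem bdd (h : UC c σ P) (τ : Bool) : UC true τ P := by
  obtain ⟨φ, h1, h2⟩ := h
  exact ⟨φ, h1.bdd τ, h2⟩
theorem support (h : UC c σ P) : ∃ m, ∀ M v w, (∀ i < m, v i = w i) → (P M v ↔ P M w) := by
  obtain ⟨φ, _, h2⟩ := h
  obtain ⟨m, hm⟩ := φ.exists_bound
  exact ⟨m, fun M v w h => by rw [← h2, ← h2]; exact φ.ev_congr fun x hx => h x (hm x hx)⟩

/-- substitute a definable function for variable `0` -/
theorem sub1 {f : UFun b} (hf : UFn f) (h : UC c σ P) :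
    UC c σ (fun M v => P M (cons (f M v) v)) := by
  obtain ⟨t, ht⟩ := hf.bd
  cases σ
  · exact (ballT t (imp hf.gr.mono h)).congr fun M v =>
      ⟨fun h => h _ (ht M v) rfl, fun h x _ e => by
        simp only [cons_zero, cons_succ] at e
        exact e ▸ h⟩
  · exact (bexT t (and hf.gr.mono h)).congr fun M v =>
      ⟨fun ⟨x, _, e, h⟩ => by
        simp only [cons_zero, cons_succ] at e
        exact e ▸ h, fun h => ⟨_, ht M v, rfl, h⟩⟩

end UC

theorem UFn.ren {f : UFun b} (hf : UFn f) {g : ℕ → ℕ} (hg : Injective g) :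
    UFn (fun M v => f M (fun i => v (g i))) := by
  obtain ⟨t, ht⟩ := hf.bd
  refine ⟨?_, t.ren g, fun M v => by rw [Tm.ev_ren]; exact ht M _⟩
  refine hf.gr.ren (g := cons 0 fun i => g i + 1) ?_
  intro i j h
  rcases i with _ | i <;> rcases j with _ | j <;> simp only [cons_zero, cons_succ] at h
  · rfl
  · omega
  · omega
  · rw [hg (Nat.succ_injective h)]

theorem UFn.tail {f : UFun b} (hf : UFn f) : UFn (fun M v => f M (fun i => v (i + 1))) :=
  hf.ren (g := fun i => i + 1) (add_left_injective 1)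

theorem UC.compN {c σ : Bool} (N : ℕ) : ∀ {P : UPred b} (g : ℕ → UFun b), UC c σ P →
    (∀ i, UFn (g i)) → UC c σ (fun M v => P M (fun i => if i < N then g i M v else v (i - N))) := by
  induction N with
  | zero => intro P g h _; simpa using h
  | succ N ih =>
    intro P g h hg
    have h1 := ih (fun i M v => g i M (fun j => v (j + 1))) h (fun i => (hg i).tail)
    refine (UC.sub1 (hg N) h1).congr fun M v => ?_
    refine iff_of_eq (congrArg _ (funext fun i => ?_))
    rcases lt_trichotomy i N with h | h | h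
    · simp [h, Nat.lt_succ_of_lt h]
    · simp [h]
    · have : i - N = (i - (N + 1)) + 1 := by omega
      rw [if_neg (by omega), if_neg (by omega), this, cons_succ]

/-- substitute definable functions for all variables -/
theorem UC.comp {c σ : Bool} {P : UPred b} (h : UC c σ P) (g : ℕ → UFun b) (hg : ∀ i, UFn (g i)) :
    UC c σ (fun M v => P M (fun i => g i M v)) := by
  obtain ⟨m, hm⟩ := h.support
  exact (UC.compN m g h hg).congr fun M v => hm M _ _ fun i hi => if_pos hi

theorem UFn.ofTm (t : Tm) : UFn (fun (M : Mdl b) v => t.ev M.toStr v) :=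
  ⟨(UC.eqT (.var 0) (t.ren (· + 1))).congr fun M v => by rw [Tm.ev_ren]; rfl, t, fun _ _ => le_rfl⟩

instance UFn.var (i : ℕ) : UFn (fun (_ : Mdl b) v => v i) := UFn.ofTm (.var i)

def Tm.ssub (σ : ℕ → Tm) : Tm → Tm
  | var x => σ x
  | zero => zero
  | succ t => succ (t.ssub σ)
  | len t => len (t.ssub σ)
  | half t => half (t.ssub σ)
  | add s t => add (s.ssub σ) (t.ssub σ)
  | mul s t => mul (s.ssub σ) (t.ssub σ)
  | smash s t => smash (s.ssub σ) (t.ssub σ)

theorem Tm.ev_ssub {S : Str} (σ : ℕ → Tm) (v : ℕ → S.α) (t : Tm) :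
    (t.ssub σ).ev S v = t.ev S (fun i => (σ i).ev S v) := by
  induction t with
  | var y => rfl
  | zero => rfl
  | succ t ih | len t ih | half t ih => simp only [Tm.ssub, Tm.ev, ih]
  | add s t i1 i2 | mul s t i1 i2 | smash s t i1 i2 => simp only [Tm.ssub, Tm.ev, i1, i2]

theorem UFn.comp {f : UFun b} (hf : UFn f) (g : ℕ → UFun b) (hg : ∀ i, UFn (g i)) :
    UFn (fun M v => f M (fun i => g i M v)) := by
  obtain ⟨t, ht⟩ := hf.bd
  choose s hs using fun i => (hg i).bd
  refine ⟨?_, t.ssub s, fun M v => ?_⟩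
  · refine (hf.gr.comp (fun i => Nat.casesOn i (fun _ v => v 0)
      fun j M v => g j M (fun k => v (k + 1))) ?_).congr fun M v => Iff.rfl
    rintro (_ | j)
    · exact UFn.var 0
    · exact (hg j).tail
  · rw [Tm.ev_ssub]
    exact (ht M _).trans (t.ev_mono fun x _ => hs x M v)

theorem UFn.congr {f g : UFun b} (hf : UFn f) (e : ∀ M v, f M v = g M v) : UFn g := by
  rwa [← show f = g from funext fun M => funext (e M)]

/-- the list of arguments as a family of functions -/
def args (l : List (UFun b)) (i : ℕ) : UFun b := l.getD i (fun _ v => v 0)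

theorem args_UFn (l : List (UFun b)) (h : ∀ f ∈ l, UFn f) (i : ℕ) : UFn (args l i) := by
  unfold args
  rw [List.getD_eq_getElem?_getD]
  cases hi : l[i]? with
  | none => exact UFn.var 0
  | some f => exact h f (List.mem_of_getElem? hi)

section App
variable {c σ : Bool} {f g h k j : UFun b}
theorem UC.app1 {P : ∀ M : Mdl b, M → Prop} (hP : UC c σ fun M v => P M (v 0)) (hf : UFn f) :
    UC c σ fun M v => P M (f M v) :=
  hP.comp (args [f]) (args_UFn _ (by simpa using hf))
theorem UC.app2 {P : ∀ M : Mdl b, M → M → Prop} (hP : UC c σ fun M v => P M (v 0) (v 1))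
    (hf : UFn f) (hg : UFn g) : UC c σ fun M v => P M (f M v) (g M v) :=
  hP.comp (args [f, g]) (args_UFn _ (by simpa using ⟨hf, hg⟩))
theorem UC.app3 {P : ∀ M : Mdl b, M → M → M → Prop}
    (hP : UC c σ fun M v => P M (v 0) (v 1) (v 2)) (hf : UFn f) (hg : UFn g) (hh : UFn h) :
    UC c σ fun M v => P M (f M v) (g M v) (h M v) :=
  hP.comp (args [f, g, h]) (args_UFn _ (by simpa using ⟨hf, hg, hh⟩))
theorem UC.app4 {P : ∀ M : Mdl b, M → M → M → M → Prop}
    (hP : UC c σ fun M v => P M (v 0) (v 1) (v 2) (v 3)) (hf : UFn f) (hg : UFn g) (hh : UFn h)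
    (hk : UFn k) : UC c σ fun M v => P M (f M v) (g M v) (h M v) (k M v) :=
  hP.comp (args [f, g, h, k]) (args_UFn _ (by simpa using ⟨hf, hg, hh, hk⟩))
theorem UC.app5 {P : ∀ M : Mdl b, M → M → M → M → M → Prop}
    (hP : UC c σ fun M v => P M (v 0) (v 1) (v 2) (v 3) (v 4)) (hf : UFn f) (hg : UFn g)
    (hh : UFn h) (hk : UFn k) (hj : UFn j) :
    UC c σ fun M v => P M (f M v) (g M v) (h M v) (k M v) (j M v) :=
  hP.comp (args [f, g, h, k, j]) (args_UFn _ (by simpa using ⟨hf, hg, hh, hk, hj⟩))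
theorem UFn.app1 {F : ∀ M : Mdl b, M → M} (hF : UFn fun M v => F M (v 0)) (hf : UFn f) :
    UFn fun M v => F M (f M v) :=
  hF.comp (args [f]) (args_UFn _ (by simpa using hf))
theorem UFn.app2 {F : ∀ M : Mdl b, M → M → M} (hF : UFn fun M v => F M (v 0) (v 1))
    (hf : UFn f) (hg : UFn g) : UFn fun M v => F M (f M v) (g M v) :=
  hF.comp (args [f, g]) (args_UFn _ (by simpa using ⟨hf, hg⟩))
theorem UFn.app3 {F : ∀ M : Mdl b, M → M → M → M} (hF : UFn fun M v => F M (v 0) (v 1) (v 2))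
    (hf : UFn f) (hg : UFn g) (hh : UFn h) : UFn fun M v => F M (f M v) (g M v) (h M v) :=
  hF.comp (args [f, g, h]) (args_UFn _ (by simpa using ⟨hf, hg, hh⟩))
theorem UFn.app4 {F : ∀ M : Mdl b, M → M → M → M → M}
    (hF : UFn fun M v => F M (v 0) (v 1) (v 2) (v 3)) (hf : UFn f) (hg : UFn g) (hh : UFn h)
    (hk : UFn k) : UFn fun M v => F M (f M v) (g M v) (h M v) (k M v) :=
  hF.comp (args [f, g, h, k]) (args_UFn _ (by simpa using ⟨hf, hg, hh, hk⟩))
end App

section Inst
variable {P Q : UPred b} {f g : UFun b} {B : ∀ M : Mdl b, (ℕ → M) → M → Prop}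

instance UFn.zero : UFn (fun (M : Mdl b) _ => (0 : M)) := UFn.ofTm .zero
instance UFn.one : UFn (fun (M : Mdl b) _ => (1 : M)) := UFn.ofTm .one
instance UFn.nat (n : ℕ) : UFn (fun (M : Mdl b) _ => (n : M)) :=
  (UFn.ofTm (.num n)).congr fun _ v => Tm.ev_num v n
instance UFn.ofNat (n : ℕ) [n.AtLeastTwo] : UFn (fun (M : Mdl b) _ => (OfNat.ofNat n : M)) :=
  UFn.nat n
instance UFn.add [hf : UFn f] [hg : UFn g] : UFn (fun M v => f M v + g M v) :=
  UFn.app2 (F := fun _ x y => x + y) (UFn.ofTm (.add (.var 0) (.var 1))) hf hg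
instance UFn.mul [hf : UFn f] [hg : UFn g] : UFn (fun M v => f M v * g M v) :=
  UFn.app2 (F := fun _ x y => x * y) (UFn.ofTm (.mul (.var 0) (.var 1))) hf hg
instance UFn.smash [hf : UFn f] [hg : UFn g] : UFn (fun M v => smash (f M v) (g M v)) :=
  UFn.app2 (F := fun _ x y => PLO.smash x y) (UFn.ofTm (.smash (.var 0) (.var 1))) hf hg
instance UFn.len [hf : UFn f] : UFn (fun M v => len (f M v)) :=
  UFn.app1 (F := fun _ x => PLO.len x) (UFn.ofTm (.len (.var 0))) hf
instance UFn.half [hf : UFn f] : UFn (fun M v => half (f M v)) :=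
  UFn.app1 (F := fun _ x => PLO.half x) (UFn.ofTm (.half (.var 0))) hf
instance UFn.pw [hf : UFn f] : UFn (fun M v => pw (f M v)) :=
  UFn.app1 (F := fun _ x => PLO.pw x) (UFn.ofTm (.smash .one (.var 0))) hf

theorem UC.eq {c σ : Bool} (hf : UFn f) (hg : UFn g) : UC c σ (fun M v => f M v = g M v) :=
  UC.app2 (P := fun _ x y => x = y) (UC.eqT (.var 0) (.var 1)) hf hg
theorem UC.le {c σ : Bool} (hf : UFn f) (hg : UFn g) : UC c σ (fun M v => f M v ≤ g M v) :=
  UC.app2 (P := fun _ x y => x ≤ y) (UC.leT (.var 0) (.var 1)) hf hg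
theorem UC.orc {c σ : Bool} (hf : UFn f) : UC c σ (fun M v => Orc (f M v)) :=
  UC.app1 (P := fun _ x => Orc x) ⟨.orc (.var 0), .orc _ _, fun _ _ => Iff.rfl⟩ hf
theorem UC.lt {c σ : Bool} (hf : UFn f) (hg : UFn g) : UC c σ (fun M v => f M v < g M v) :=
  (UC.not (UC.le hg hf)).congr fun _ _ => not_le
theorem UC.bex {c : Bool} (hf : UFn f) (h : UC c true fun M v => B M (fun i => v (i + 1)) (v 0)) :
    UC c true (fun M v => ∃ x ≤ f M v, B M v x) := by
  obtain ⟨t, ht⟩ := hf.bd
  exact (UC.bexT t (UC.and (UC.le (UFn.var 0) hf.tail) h)).congr fun M v =>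
    ⟨fun ⟨x, _, h1, h2⟩ => ⟨x, h1, h2⟩, fun ⟨x, h1, h2⟩ => ⟨x, h1.trans (ht M v), h1, h2⟩⟩
theorem UC.ball {c : Bool} (hf : UFn f)
    (h : UC c false fun M v => B M (fun i => v (i + 1)) (v 0)) :
    UC c false (fun M v => ∀ x ≤ f M v, B M v x) :=
  (UC.not (σ := false) (UC.bex (B := fun M v x => ¬ B M v x) hf (UC.not (σ := true) h))).congr
    fun M v => by simp
theorem UC.sall {c : Bool} (hf : UFn f)
    (h : UC c true fun M v => B M (fun i => v (i + 1)) (v 0)) :
    UC c true (fun M v => ∀ x ≤ len (f M v), B M v x) := by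
  obtain ⟨t, ht⟩ := hf.bd
  exact (UC.sharpT t (UC.imp (UC.le (UFn.var 0) (@UFn.len _ _ hf.tail)) h)).congr fun M v =>
    ⟨fun h x hx => h x (hx.trans (len_mono (ht M v))) hx, fun h x _ hx => h x hx⟩
theorem UC.sex {c : Bool} (hf : UFn f)
    (h : UC c false fun M v => B M (fun i => v (i + 1)) (v 0)) :
    UC c false (fun M v => ∃ x ≤ len (f M v), B M v x) :=
  (UC.not (σ := false) (UC.sall (B := fun M v x => ¬ B M v x) hf (UC.not (σ := true) h))).congr
    fun M v => by simp
theorem UC.listEx {c σ : Bool} {ι : Type} (l : List ι) {R : ι → UPred b}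
    (h : ∀ r, UC c σ (R r)) : UC c σ (fun M v => ∃ r ∈ l, R r M v) := by
  induction l with
  | nil => exact UC.bot.congr fun _ _ => by simp
  | cons a l ih => exact ((h a).or ih).congr fun _ _ => by simp
theorem UC.listAll {c σ : Bool} {ι : Type} (l : List ι) {R : ι → UPred b}
    (h : ∀ r, UC c σ (R r)) : UC c σ (fun M v => ∀ r ∈ l, R r M v) := by
  induction l with
  | nil => exact (UC.not UC.bot).congr fun _ _ => by simp
  | cons a l ih => exact ((h a).and ih).congr fun _ _ => by simp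
theorem UC.const {c σ : Bool} (p : Prop) : UC c σ (fun (_ : Mdl b) _ => p) := by
  by_cases h : p
  · exact (UC.not UC.bot).congr fun _ _ => by simp [h]
  · exact UC.bot.congr fun _ _ => by simp [h]
theorem UC.finEx {c σ : Bool} {ι : Type} [Finite ι] {R : ι → UPred b}
    (h : ∀ r, UC c σ (R r)) : UC c σ (fun M v => ∃ r, R r M v) := by
  have := Fintype.ofFinite ι
  exact (UC.listEx (Finset.univ : Finset ι).toList h).congr fun _ _ => by simp
theorem UC.finAll {c σ : Bool} {ι : Type} [Finite ι] {R : ι → UPred b}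
    (h : ∀ r, UC c σ (R r)) : UC c σ (fun M v => ∀ r, R r M v) := by
  have := Fintype.ofFinite ι
  exact (UC.listAll (Finset.univ : Finset ι).toList h).congr fun _ _ => by simp

instance (priority := 50) USig.const (p : Prop) : USig (fun (_ : Mdl b) _ => p) := ⟨UC.const p⟩
instance (priority := 50) UPi.const (p : Prop) : UPi (fun (_ : Mdl b) _ => p) := ⟨UC.const p⟩
instance USig.eq [hf : UFn f] [hg : UFn g] : USig (fun M v => f M v = g M v) := ⟨UC.eq hf hg⟩
instance UPi.eq [hf : UFn f] [hg : UFn g] : UPi (fun M v => f M v = g M v) := ⟨UC.eq hf hg⟩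
instance USig.le [hf : UFn f] [hg : UFn g] : USig (fun M v => f M v ≤ g M v) := ⟨UC.le hf hg⟩
instance UPi.le [hf : UFn f] [hg : UFn g] : UPi (fun M v => f M v ≤ g M v) := ⟨UC.le hf hg⟩
instance USig.orc [hf : UFn f] : USig (fun M v => Orc (f M v)) := ⟨UC.orc hf⟩
instance UPi.orc [hf : UFn f] : UPi (fun M v => Orc (f M v)) := ⟨UC.orc hf⟩
instance USig.lt [hf : UFn f] [hg : UFn g] : USig (fun M v => f M v < g M v) := ⟨UC.lt hf hg⟩
instance UPi.lt [hf : UFn f] [hg : UFn g] : UPi (fun M v => f M v < g M v) := ⟨UC.lt hf hg⟩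
instance USig.not [h : UPi P] : USig (fun M v => ¬ P M v) := ⟨UC.not h.out⟩
instance UPi.not [h : USig P] : UPi (fun M v => ¬ P M v) := ⟨UC.not h.out⟩
instance USig.and [h : USig P] [h' : USig Q] : USig (fun M v => P M v ∧ Q M v) :=
  ⟨h.out.and h'.out⟩
instance UPi.and [h : UPi P] [h' : UPi Q] : UPi (fun M v => P M v ∧ Q M v) := ⟨h.out.and h'.out⟩
instance USig.or [h : USig P] [h' : USig Q] : USig (fun M v => P M v ∨ Q M v) := ⟨h.out.or h'.out⟩
instance UPi.or [h : UPi P] [h' : UPi Q] : UPi (fun M v => P M v ∨ Q M v) := ⟨h.out.or h'.out⟩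
instance USig.imp [h : UPi P] [h' : USig Q] : USig (fun M v => P M v → Q M v) :=
  ⟨UC.imp h.out h'.out⟩
instance UPi.imp [h : USig P] [h' : UPi Q] : UPi (fun M v => P M v → Q M v) :=
  ⟨UC.imp h.out h'.out⟩
instance USig.iff [USig P] [UPi P] [USig Q] [UPi Q] : USig (fun M v => P M v ↔ Q M v) :=
  ⟨(inferInstance : USig fun M v => (P M v → Q M v) ∧ (Q M v → P M v)).out.congr
    fun _ _ => iff_iff_implies_and_implies.symm⟩
instance UPi.iff [USig P] [UPi P] [USig Q] [UPi Q] : UPi (fun M v => P M v ↔ Q M v) :=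
  ⟨(inferInstance : UPi fun M v => (P M v → Q M v) ∧ (Q M v → P M v)).out.congr
    fun _ _ => iff_iff_implies_and_implies.symm⟩
instance USig.bex [hf : UFn f] [h : USig fun M v => B M (fun i => v (i + 1)) (v 0)] :
    USig (fun M v => ∃ x ≤ f M v, B M v x) := ⟨UC.bex hf h.out⟩
instance UPi.ball [hf : UFn f] [h : UPi fun M v => B M (fun i => v (i + 1)) (v 0)] :
    UPi (fun M v => ∀ x ≤ f M v, B M v x) := ⟨UC.ball hf h.out⟩
instance USig.sall [hf : UFn f] [h : USig fun M v => B M (fun i => v (i + 1)) (v 0)] :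
    USig (fun M v => ∀ x ≤ len (f M v), B M v x) := ⟨UC.sall hf h.out⟩
instance UPi.sex [hf : UFn f] [h : UPi fun M v => B M (fun i => v (i + 1)) (v 0)] :
    UPi (fun M v => ∃ x ≤ len (f M v), B M v x) := ⟨UC.sex hf h.out⟩
instance USig.bex' [hf : UFn f] [h : USig fun M v => B M (fun i => v (i + 1)) (v 0)] :
    USig (fun M v => ∃ x < f M v, B M v x) :=
  ⟨(UC.bex (B := fun M v x => x < f M v ∧ B M v x) hf
    ((UC.lt (UFn.var 0) hf.tail).and h.out)).congr fun _ _ =>
    ⟨fun ⟨x, _, h⟩ => ⟨x, h⟩, fun ⟨x, h⟩ => ⟨x, h.1.le, h⟩⟩⟩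
instance UPi.ball' [hf : UFn f] [h : UPi fun M v => B M (fun i => v (i + 1)) (v 0)] :
    UPi (fun M v => ∀ x < f M v, B M v x) :=
  ⟨(UC.ball (B := fun M v x => x < f M v → B M v x) hf
    (UC.imp (UC.lt (UFn.var 0) hf.tail) h.out)).congr fun _ _ =>
    ⟨fun h x hx => h x hx.le hx, fun h x _ hx => h x hx⟩⟩
instance USig.sall' [hf : UFn f] [h : USig fun M v => B M (fun i => v (i + 1)) (v 0)] :
    USig (fun M v => ∀ x < len (f M v), B M v x) :=
  ⟨(UC.sall (B := fun M v x => x < len (f M v) → B M v x) hf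
    (UC.imp (UC.lt (UFn.var 0) (@UFn.len _ _ hf.tail)) h.out)).congr fun _ _ =>
    ⟨fun h x hx => h x hx.le hx, fun h x _ hx => h x hx⟩⟩
instance UPi.sex' [hf : UFn f] [h : UPi fun M v => B M (fun i => v (i + 1)) (v 0)] :
    UPi (fun M v => ∃ x < len (f M v), B M v x) :=
  ⟨(UC.sex (B := fun M v x => x < len (f M v) ∧ B M v x) hf
    ((UC.lt (UFn.var 0) (@UFn.len _ _ hf.tail)).and h.out)).congr fun _ _ =>
    ⟨fun ⟨x, _, h⟩ => ⟨x, h⟩, fun ⟨x, h⟩ => ⟨x, h.1.le, h⟩⟩⟩
instance USig.listEx {ι : Type} (l : List ι) {R : ι → UPred b} [h : ∀ r, USig (R r)] :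
    USig (fun M v => ∃ r ∈ l, R r M v) := ⟨UC.listEx l fun r => (h r).out⟩
instance USig.listAll {ι : Type} (l : List ι) {R : ι → UPred b} [h : ∀ r, USig (R r)] :
    USig (fun M v => ∀ r ∈ l, R r M v) := ⟨UC.listAll l fun r => (h r).out⟩
instance UPi.listEx {ι : Type} (l : List ι) {R : ι → UPred b} [h : ∀ r, UPi (R r)] :
    UPi (fun M v => ∃ r ∈ l, R r M v) := ⟨UC.listEx l fun r => (h r).out⟩
instance UPi.listAll {ι : Type} (l : List ι) {R : ι → UPred b} [h : ∀ r, UPi (R r)] :
    UPi (fun M v => ∀ r ∈ l, R r M v) := ⟨UC.listAll l fun r => (h r).out⟩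
instance (priority := 100) USig.finEx {ι : Type} [Finite ι] {R : ι → UPred b}
    [h : ∀ r, USig (R r)] : USig (fun M v => ∃ r, R r M v) := ⟨UC.finEx fun r => (h r).out⟩
instance (priority := 100) USig.finAll {ι : Type} [Finite ι] {R : ι → UPred b}
    [h : ∀ r, USig (R r)] : USig (fun M v => ∀ r, R r M v) := ⟨UC.finAll fun r => (h r).out⟩
instance (priority := 100) UPi.finEx {ι : Type} [Finite ι] {R : ι → UPred b}
    [h : ∀ r, UPi (R r)] : UPi (fun M v => ∃ r, R r M v) := ⟨UC.finEx fun r => (h r).out⟩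
instance (priority := 100) UPi.finAll {ι : Type} [Finite ι] {R : ι → UPred b}
    [h : ∀ r, UPi (R r)] : UPi (fun M v => ∀ r, R r M v) := ⟨UC.finAll fun r => (h r).out⟩

instance (priority := 100) UB.sig [h : USig P] : UB P := ⟨h.out.bdd _⟩
instance (priority := 90) UB.pi [h : UPi P] : UB P := ⟨h.out.bdd _⟩
instance UB.not [h : UB P] : UB (fun M v => ¬ P M v) := ⟨UC.not (h.out.bdd _)⟩
instance UB.and [h : UB P] [h' : UB Q] : UB (fun M v => P M v ∧ Q M v) := ⟨h.out.and h'.out⟩
instance UB.or [h : UB P] [h' : UB Q] : UB (fun M v => P M v ∨ Q M v) := ⟨h.out.or h'.out⟩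
instance UB.imp [h : UB P] [h' : UB Q] : UB (fun M v => P M v → Q M v) :=
  ⟨UC.imp (h.out.bdd _) h'.out⟩
instance UB.bex [hf : UFn f] [h : UB fun M v => B M (fun i => v (i + 1)) (v 0)] :
    UB (fun M v => ∃ x ≤ f M v, B M v x) := ⟨UC.bex hf h.out⟩
instance UB.ball [hf : UFn f] [h : UB fun M v => B M (fun i => v (i + 1)) (v 0)] :
    UB (fun M v => ∀ x ≤ f M v, B M v x) := ⟨(UC.ball hf (h.out.bdd _)).bdd _⟩
instance UB.ball' [hf : UFn f] [h : UB fun M v => B M (fun i => v (i + 1)) (v 0)] :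
    UB (fun M v => ∀ x < f M v, B M v x) :=
  ⟨((UC.ball (B := fun M v x => x < f M v → B M v x) hf
    (UC.imp (UC.lt (UFn.var 0) hf.tail) (h.out.bdd _))).bdd _).congr fun _ _ =>
    ⟨fun h x hx => h x hx.le hx, fun h x _ hx => h x hx⟩⟩
instance (priority := 95) UB.finEx {ι : Type} [Finite ι] {R : ι → UPred b}
    [h : ∀ r, UB (R r)] : UB (fun M v => ∃ r, R r M v) := ⟨UC.finEx fun r => (h r).out⟩
instance (priority := 95) UB.finAll {ι : Type} [Finite ι] {R : ι → UPred b}
    [h : ∀ r, UB (R r)] : UB (fun M v => ∀ r, R r M v) := ⟨UC.finAll fun r => (h r).out⟩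

/-- a function with a `Σ^b_1` graph and a definable bound -/
theorem UFn.of_graph (f : UFun b) (R : ∀ M : Mdl b, M → (ℕ → M) → Prop) (g : UFun b)
    [h : USig fun M v => R M (v 0) (fun i => v (i + 1))] [hg : UFn g]
    (h1 : ∀ M v y, R M y v ↔ y = f M v) (h2 : ∀ M v, f M v ≤ g M v) : UFn f := by
  obtain ⟨t, ht⟩ := hg.bd
  exact ⟨h.out.congr fun M v => h1 M _ _, t, fun M v => (h2 M v).trans (ht M v)⟩

instance UFn.ite [USig P] [UPi P] [hf : UFn f] [hg : UFn g] [∀ M v, Decidable (P M v)] :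
    UFn (fun M v => if P M v then f M v else g M v) := by
  have := hf.tail
  have := hg.tail
  have : USig fun M v => P M (fun i => v (i + 1)) := ⟨(USig.out (P := P)).tail⟩
  have : UPi fun M v => P M (fun i => v (i + 1)) := ⟨(UPi.out (P := P)).tail⟩
  refine UFn.of_graph _ (fun M y v => (P M v ∧ y = f M v) ∨ (¬ P M v ∧ y = g M v))
    (fun M v => f M v + g M v) (fun M v y => ?_) (fun M v => ?_)
  · by_cases h : P M v <;> simp [h]
  · by_cases h : P M v <;> simp [h]

instance UFn.max [UFn f] [UFn g] : UFn (fun M v => max (f M v) (g M v)) :=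
  (inferInstance : UFn fun M v => if f M v ≤ g M v then g M v else f M v).congr
    fun _ _ => (max_def _ _).symm

end Inst

/-! ### Induction -/

section Ind
variable (Q : ∀ M : Mdl b, M → (ℕ → M) → Prop)

/-- polynomial induction for the induction class of the theory -/
theorem pind_cls (h : UC b true fun M v => Q M (v 0) (fun i => v (i + 1))) {M : Mdl b}
    (v : ℕ → M) (h0 : Q M 0 v) (hs : ∀ u, u ≠ 0 → Q M (half u) v → Q M u v) (u : M) : Q M u v := by
  obtain ⟨φ, h1, h2⟩ := h
  have key : ∀ x : M, φ.ev M.toStr (update (cons 0 v) 0 x) ↔ Q M x v := fun x => by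
    rw [h2]; simp
  rw [← key]
  refine Boot.pind_raw h1 0 _ ((key _).2 h0) (fun u hu => ?_) u
  rw [key] at hu ⊢
  by_cases h : u = 0
  · rwa [h]
  · exact hs u h hu

/-- `Σ^b_1` polynomial induction -/
theorem pind_sig [h : USig fun M v => Q M (v 0) (fun i => v (i + 1))] {M : Mdl b} (v : ℕ → M)
    (h0 : Q M 0 v) (hs : ∀ u, u ≠ 0 → Q M (half u) v → Q M u v) (u : M) : Q M u v :=
  pind_cls Q h.out.mono v h0 hs u

/-- `Σ^b_1` length induction -/
theorem lind_sig [h : USig fun M v => Q M (v 0) (fun i => v (i + 1))] {M : Mdl b} (v : ℕ → M)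
    (c : M) (h0 : Q M 0 v) (hs : ∀ i < len c, Q M i v → Q M (i + 1) v) :
    ∀ i ≤ len c, Q M i v := by
  have h1 : USig fun M v => Q M (v 0) (fun i => v (i + 3)) :=
    ⟨h.out.ren (consInj 2)⟩
  have := pind_sig (fun M u v => ∀ i ≤ len u, i ≤ len (v 0) → Q M i (fun j => v (j + 1)))
    (cons c v) ?_ ?_ c
  · exact fun i hi => this i hi hi
  · intro i hi _
    rw [len_zero, nonpos_iff_eq_zero] at hi
    rwa [hi]
  · intro u hu ih i hi hc
    rw [len_half hu] at hi
    rcases hi.lt_or_eq with hi | rfl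
    · exact ih i (lt_succ_iff.1 hi) hc
    · exact hs _ (succ_le_iff.1 hc) (ih _ le_rfl (le_self_add.trans hc))

/-- `Π^b_1` length induction -/
theorem lind_pi [h : UPi fun M v => Q M (v 0) (fun i => v (i + 1))] {M : Mdl b} (v : ℕ → M)
    (c : M) (h0 : Q M 0 v) (hs : ∀ i < len c, Q M i v → Q M (i + 1) v) :
    ∀ i ≤ len c, Q M i v := by
  intro i hi
  by_contra hn
  have h1 : UPi fun M v => Q M (v 0) (fun i => v (i + 3)) :=
    ⟨h.out.ren (consInj 2)⟩
  have := lind_sig (fun M k v => k ≤ v 0 → ∃ j ≤ v 0, j + k = v 0 ∧ ¬ Q M j (fun j => v (j + 1)))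
    (cons i v) c (fun _ => ⟨i, le_rfl, add_zero i, hn⟩) ?_ i hi le_rfl
  · obtain ⟨j, _, h2, h3⟩ := this
    have : j = 0 := add_right_cancel (h2.trans (zero_add _).symm)
    exact h3 (this ▸ h0)
  · intro k _ ih hk
    obtain ⟨j, hj, h2, h3⟩ := ih (le_self_add.trans hk)
    simp only [cons_zero, cons_succ] at hk hj h2 h3 ⊢
    have hj0 : 1 ≤ j := one_le_iff.2 (by
      rintro rfl
      rw [← h2, zero_add, succ_le_iff] at hk
      exact lt_irrefl _ hk)
    obtain ⟨j', rfl⟩ := exists_add_of_le hj0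
    refine ⟨j', le_add_self.trans hj, by rw [← h2]; ring, fun hq => h3 ?_⟩
    rw [add_comm]
    refine hs j' ?_ hq
    rw [← succ_le_iff, add_comm]
    exact hj.trans hi

/-- least element of a `Σ^b_1` set of lengths -/
theorem lmin_sig [h : USig fun M v => Q M (v 0) (fun i => v (i + 1))] {M : Mdl b} (v : ℕ → M)
    {c i : M} (hi : i ≤ len c) (hq : Q M i v) : ∃ j ≤ i, Q M j v ∧ ∀ k < j, ¬ Q M k v := by
  by_contra hn
  push Not at hn
  have h1 : USig fun M v => Q M (v 0) (fun i => v (i + 3)) :=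
    ⟨h.out.ren (consInj 2)⟩
  have := lind_pi (fun M k v => ∀ j ≤ k, j ≤ v 0 → ¬ Q M j (fun j => v (j + 1)))
    (cons i v) c ?_ ?_ i hi i le_rfl le_rfl
  · exact this hq
  · intro j hj hji hqj
    obtain ⟨k, hk, _⟩ := hn j hji hqj
    exact absurd (hk.trans_le hj) (not_lt.2 (zero_le' k))
  · intro k _ ih j hj hji hqj
    obtain ⟨k', hk', hq'⟩ := hn j hji hqj
    exact ih k' (lt_succ_iff.1 (hk'.trans_le hj)) (hk'.le.trans hji) hq'

end Ind

end Pool.Agent.PLO

end Part2

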