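import Mathlib.Algebra.Order.Ring.Star
import Mathlib.Data.Nat.Size
import Pool.Agent.PLO.Model

section Part0

/-! Division by powers of two, lengths, arrays. -/

namespace Pool.Agent.PLO

open Function

variable {b : Bool} {M : Mdl b}

theorem div_unique {w u r u' r' : M} (h : u * w + r = u' * w + r') (hr : r < w) (hr' : r' < w) :
    u = u' ∧ r = r' := by
  have key : ∀ {u r u' r' : M}, u * w + r = u' * w + r' → r < w → ¬ u < u' := by
    intro u r u' r' h hr hlt
    have h1 : (u + 1) * w ≤ u' * w := by gcongr; exact succ_le_iff.2 hlt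
    have := zr_nonneg r'
    zify at h hr h1
    linarith
  have hu : u = u' := le_antisymm (not_lt.1 (key h.symm hr')) (not_lt.1 (key h hr))
  subst hu
  exact ⟨rfl, add_left_cancel h⟩

theorem exists_div_pw (x c : M) : ∃ u ≤ x, ∃ r ≤ x, r < pw c ∧ x = u * pw c + r := by
  refine pind_sig (fun M c v => ∃ u ≤ v 0, ∃ r ≤ v 0, r < pw c ∧ v 0 = u * pw c + r)
    (vec [x]) ⟨x, le_rfl, 0, zero_le' _, by simp, by simp [vec]⟩ ?_ c
  rintro c hc ⟨u, hu, r, -, h1, h2⟩
  change u ≤ x at hu
  change x = _ at h2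
  show ∃ u ≤ x, ∃ r ≤ x, r < pw c ∧ x = u * pw c + r
  rw [pw_half hc]
  have := zr_nonneg (pw (half c))
  rcases half_spec u with h | h
  · refine ⟨half u, (half_le u).trans hu, r, h2 ▸ le_add_self, ?_, ?_⟩
    · zify at h1 ⊢; linarith
    · rw [h2]; nth_rewrite 1 [h]; ring
  · have e : x = half u * (2 * pw (half c)) + (pw (half c) + r) := by
      rw [h2]; nth_rewrite 1 [h]; ring
    refine ⟨half u, (half_le u).trans hu, pw (half c) + r, e ▸ le_add_self, ?_, e⟩
    zify at h1 ⊢; linarith

/-- `x` without its last `|c|` bits -/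
noncomputable def msp (x c : M) : M := (exists_div_pw x c).choose
/-- the last `|c|` bits of `x` -/
noncomputable def lsp (x c : M) : M := (exists_div_pw x c).choose_spec.2.choose

theorem msp_le (x c : M) : msp x c ≤ x := (exists_div_pw x c).choose_spec.1
theorem lsp_le (x c : M) : lsp x c ≤ x := (exists_div_pw x c).choose_spec.2.choose_spec.1
theorem lsp_lt (x c : M) : lsp x c < pw c := (exists_div_pw x c).choose_spec.2.choose_spec.2.1
theorem msp_add_lsp (x c : M) : msp x c * pw c + lsp x c = x :=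
  (exists_div_pw x c).choose_spec.2.choose_spec.2.2.symm
theorem msp_lsp_eq {x c u r : M} (h : x = u * pw c + r) (hr : r < pw c) :
    msp x c = u ∧ lsp x c = r := div_unique ((msp_add_lsp x c).trans h) (lsp_lt x c) hr

instance fnMsp {f g : UFun b} [hf : UFn f] [hg : UFn g] : UFn fun M v => msp (f M v) (g M v) :=
  UFn.app2 (F := fun _ x c => msp x c)
    (UFn.of_graph _ (fun M y v => ∃ r ≤ v 0, r < pw (v 1) ∧ v 0 = y * pw (v 1) + r)
      (fun _ v => v 0)
      (fun _ v y => ⟨fun ⟨_, _, h1, h2⟩ => (msp_lsp_eq h2 h1).1.symm, fun h =>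
        ⟨_, lsp_le _ _, lsp_lt _ _, by rw [h, msp_add_lsp]⟩⟩)
      (fun _ _ => msp_le _ _)) hf hg

instance fnLsp {f g : UFun b} [hf : UFn f] [hg : UFn g] : UFn fun M v => lsp (f M v) (g M v) :=
  UFn.app2 (F := fun _ x c => lsp x c)
    (UFn.of_graph _ (fun M y v => y < pw (v 1) ∧ v 0 = msp (v 0) (v 1) * pw (v 1) + y)
      (fun _ v => v 0)
      (fun _ v y => ⟨fun ⟨h1, h2⟩ => (msp_lsp_eq h2 h1).2.symm, fun h =>
        ⟨h ▸ lsp_lt _ _, by rw [h, msp_add_lsp]⟩⟩)
      (fun _ _ => lsp_le _ _)) hf hg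

/-! ### Lengths -/

theorem len_le (x : M) : len x ≤ x := by
  refine pind_sig (fun M x _ => len x ≤ x) (vec []) (by simp) ?_ x
  intro u hu ih
  rw [len_half hu]
  by_cases h0 : half u = 0
  · rw [h0, len_zero, zero_add]; exact one_le_iff.2 hu
  · have h1 := one_le_iff.2 h0
    rcases half_spec u with h | h <;> zify at * <;> linarith

theorem len_mul_pw {x : M} (hx : x ≠ 0) (c : M) : len (x * pw c) = len x + len c := by
  refine pind_sig (fun M c v => len (v 0 * pw c) = len (v 0) + len c) (vec [x]) (by simp) ?_ c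
  intro u hu ih
  change len (x * pw (half u)) = len x + len (half u) at ih
  show len (x * pw u) = len x + len u
  rw [pw_half hu, mul_left_comm, len_two_mul (mul_ne_zero hx (pw_pos _).ne'), ih, len_half hu,
    add_assoc]

theorem pw_half_le {y : M} (hy : y ≠ 0) : pw (half y) ≤ y := by
  refine pind_sig (fun M y _ => y ≠ 0 → pw (half y) ≤ y) (vec []) (by simp) ?_ y hy
  intro u hu ih _
  by_cases h0 : half u = 0
  · rw [h0, pw_zero]; exact one_le_iff.2 hu
  · rw [pw_half h0]
    have := ih h0
    rcases half_spec u with h | h <;> zify at * <;> linarith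

theorem lt_pw_iff {y a : M} : y < pw a ↔ len y ≤ len a := by
  refine ⟨fun h => ?_, fun h => (lt_pw y).trans_le (pw_mono_len h)⟩
  by_contra hc
  rw [not_le] at hc
  have hy : y ≠ 0 := by rintro rfl; simp at hc
  rw [len_half hy, lt_succ_iff] at hc
  exact absurd ((pw_mono_len hc).trans (pw_half_le hy)) (not_le.2 h)

theorem lt_of_len_lt {x y : M} (h : len x < len y) : x < y :=
  lt_of_not_ge fun h' => absurd (len_mono h') (not_le.2 h)

theorem len_half_smash (a c : M) : len (half (smash a c)) = len a * len c :=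
  add_right_cancel ((len_half (smash_ne_zero a c)).symm.trans (len_smash a c))

theorem smash_eq_pw (a c : M) : smash a c = pw (half (smash a c)) := by
  refine pind_sig (fun M c v => smash (v 0) c = pw (half (smash (v 0) c))) (vec [a])
    (by simp) ?_ c
  intro u hu ih
  change smash a (half u) = pw (half (smash a (half u))) at ih
  show smash a u = pw (half (smash a u))
  rw [pw_add (u := half (smash a (half u))) (v := a)
    (by rw [len_half_smash, len_half_smash, len_half hu]; ring), ← ih, smash_comm a u,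
    smash_add (u := half u) (v := 1) a (by rw [len_half hu, len_one]), smash_comm a]
  rfl

theorem smash_eq_pw' {a c h : M} (e : len h = len a * len c) : smash a c = pw h := by
  rw [smash_eq_pw, pw_congr ((len_half_smash a c).trans e.symm)]

theorem lt_smash_iff {y a c : M} : y < smash a c ↔ len y ≤ len a * len c := by
  rw [smash_eq_pw, lt_pw_iff, len_half_smash]

theorem smash_add_right {x u v : M} (y : M) (h : len x = len u + len v) :
    smash y x = smash y u * smash y v := by
  rw [smash_comm y, smash_comm y, smash_comm y v, smash_add y h]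

theorem smash_one (a : M) : smash a 1 = pw a := smash_comm a 1

theorem smash_half {a c : M} (hc : c ≠ 0) : smash a c = smash a (half c) * pw a := by
  rw [smash_add_right (u := half c) (v := 1) a (by rw [len_half hc, len_one]), smash_one]

/-- a number whose length is the sum of two lengths -/
theorem len_cat (x y : M) : len (half (pw x * pw y)) = len x + len y := by
  have h : pw x * pw y ≠ 0 := mul_ne_zero (pw_pos x).ne' (pw_pos y).ne'
  have h1 := len_half h
  rw [len_mul_pw (pw_pos x).ne', len_pw] at h1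
  zify at h1 ⊢; linarith

theorem len_mul_le (x y : M) : len (x * y) ≤ len x + len y := by
  rw [← len_cat, ← lt_pw_iff, pw_add (len_cat x y)]
  exact mul_lt_mul'' (lt_pw x) (lt_pw y) (zero_le' _) (zero_le' _)

theorem len_add_le (x y : M) : len (x + y) ≤ max (len x) (len y) + 1 := by
  wlog h : x ≤ y generalizing x y
  · rw [add_comm x, max_comm]; exact this y x (not_le.1 h).le
  rw [max_eq_right (len_mono h), ← len_two_mul_add_one]
  refine len_mono ?_
  zify at h ⊢; linarith

theorem exists_len {i c : M} (h : i ≤ len c) : ∃ d ≤ c, len d = i := by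
  refine pind_sig (fun M c v => v 0 ≤ len c → ∃ d ≤ c, len d = v 0) (vec [i]) ?_ ?_ c h
  · intro h
    change i ≤ len 0 at h
    exact ⟨0, le_rfl, le_antisymm (by simp) h⟩
  · intro u hu ih h
    change i ≤ len u at h
    rcases h.lt_or_eq with h | h
    · rw [len_half hu, lt_succ_iff] at h
      obtain ⟨d, hd, e⟩ := ih h
      exact ⟨d, hd.trans (half_le u), e⟩
    · exact ⟨u, le_rfl, h.symm⟩

theorem cast_len (n : ℕ) : len (n : M) = (n.size : ℕ) := by
  induction n using Nat.binaryRec with
  | zero => simp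
  | bit c n ih =>
    by_cases h : Nat.bit c n = 0
    · simp [h]
    rw [Nat.size_bit h]
    cases c
    · have hn : n ≠ 0 := by rintro rfl; simp at h
      simp [Nat.bit, len_two_mul (Nat.cast_ne_zero.2 hn : (n : M) ≠ 0), ih]
    · simp [Nat.bit, len_two_mul_add_one, ih]

theorem cast_half (n : ℕ) : half (n : M) = (n / 2 : ℕ) := by
  symm
  rw [half_iff]
  rcases Nat.mod_two_eq_zero_or_one n with h | h
  · left; exact_mod_cast (by omega : 2 * (n / 2) = n)
  · right; exact_mod_cast (by omega : 2 * (n / 2) + 1 = n)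

theorem cast_pw (n : ℕ) : pw (n : M) = (2 ^ n.size : ℕ) := by
  induction n using Nat.binaryRec with
  | zero => simp
  | bit c n ih =>
    by_cases h : Nat.bit c n = 0
    · simp [h]
    rw [Nat.size_bit h, pw_half (Nat.cast_ne_zero.2 h), cast_half,
      show Nat.bit c n / 2 = n by cases c <;> simp [Nat.bit] <;> omega, ih]
    rw [Nat.succ_eq_add_one]; push_cast; ring

theorem le_natCast {x : M} {n : ℕ} (h : x ≤ n) : ∃ k ≤ n, x = (k : ℕ) := by
  induction n with
  | zero => exact ⟨0, le_rfl, by simpa using h⟩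
  | succ n ih =>
    rcases h.lt_or_eq with h | h
    · push_cast at h
      obtain ⟨k, hk, e⟩ := ih (lt_succ_iff.1 h)
      exact ⟨k, by omega, e⟩
    · exact ⟨n + 1, le_rfl, h⟩

/-! ### Arrays -/

/-- the meaning of `rowF` -/
def Row (s a i y : M) : Prop :=
  ∃ d ≤ s, ∃ u ≤ s, ∃ r ≤ s, len d = i ∧ s = (u * pw a + y) * smash a d + r ∧
    r < smash a d ∧ y < pw a

open Classical in
/-- row number `i` of the array `s` of width `|a|` -/
noncomputable def row (s a i : M) : M := if h : ∃ y, Row s a i y then h.choose else 0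

theorem Row.unique {s a i y y' : M} (h : Row s a i y) (h' : Row s a i y') : y = y' := by
  obtain ⟨d, _, u, _, r, _, h1, h2, h3, h4⟩ := h
  obtain ⟨d', _, u', _, r', _, h1', h2', h3', h4'⟩ := h'
  have e : smash a d' = smash a d := by
    rw [smash_comm a, smash_comm a, smash_congr a (h1'.trans h1.symm)]
  rw [e] at h2' h3'
  exact (div_unique (div_unique (h2.symm.trans h2') h3 h3').1 h4 h4').2

theorem Row.exists {s i : M} (a : M) (h : i ≤ len s) : ∃ y, Row s a i y := by
  obtain ⟨d, hd, e⟩ := exists_len h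
  refine ⟨lsp (msp s (half (smash a d))) a, d, hd, msp (msp s (half (smash a d))) a,
    (msp_le _ _).trans (msp_le _ _), lsp s (half (smash a d)), lsp_le _ _, e, ?_, ?_, lsp_lt _ _⟩
  · rw [msp_add_lsp]
    nth_rewrite 2 [smash_eq_pw a d]
    rw [msp_add_lsp]
  · nth_rewrite 2 [smash_eq_pw a d]
    exact lsp_lt _ _

theorem Row.le_len {s a i y : M} (h : Row s a i y) : i ≤ len s := by
  obtain ⟨d, hd, _, _, _, _, h1, _⟩ := h
  exact h1 ▸ len_mono hd

theorem row_iff {s a i y : M} : Row s a i y ↔ i ≤ len s ∧ row s a i = y := by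
  constructor
  · intro h
    have h' : ∃ y, Row s a i y := ⟨y, h⟩
    exact ⟨h.le_len, by rw [row, dif_pos h']; exact h'.choose_spec.unique h⟩
  · rintro ⟨h, rfl⟩
    have h' := Row.exists a h
    rw [row, dif_pos h']
    exact h'.choose_spec

theorem row_big {s i : M} (a : M) (h : len s < i) : row s a i = 0 :=
  dif_neg fun ⟨_, hy⟩ => absurd hy.le_len (not_le.2 h)

theorem le_len_of_row {s a i : M} (h : row s a i ≠ 0) : i ≤ len s :=
  not_lt.1 fun h' => h (row_big a h')

theorem row_lt (s a i : M) : row s a i < pw a := by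
  rcases le_or_gt i (len s) with h | h
  · obtain ⟨_, _, _, _, _, _, _, _, _, h4⟩ := row_iff.2 ⟨h, rfl⟩
    exact h4
  · rw [row_big a h]; exact pw_pos a

theorem row_le (s a i : M) : row s a i ≤ s := by
  rcases le_or_gt i (len s) with h | h
  · obtain ⟨d, _, u, _, r, _, _, h2, _, _⟩ := row_iff.2 ⟨h, (rfl : row s a i = _)⟩
    calc row s a i ≤ u * pw a + row s a i := le_add_self
      _ ≤ (u * pw a + row s a i) * smash a d :=
        le_mul_of_one_le_right (zero_le' _) (one_le_iff.2 (smash_ne_zero _ _))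
      _ ≤ _ := le_self_add
      _ = s := h2.symm
  · rw [row_big a h]; exact zero_le' _

theorem row_eq {s a i y d u r : M} (h1 : len d = i) (h2 : s = (u * pw a + y) * smash a d + r)
    (h3 : r < smash a d) (h4 : y < pw a) : row s a i = y := by
  rcases le_or_gt i (len s) with h | h
  · obtain ⟨d', _, u', _, r', _, h1', h2', h3', h4'⟩ := row_iff.2 ⟨h, (rfl : row s a i = _)⟩
    have e : smash a d' = smash a d := by
      rw [smash_comm a, smash_comm a, smash_congr a (h1'.trans h1.symm)]
    rw [e] at h2' h3'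
    exact (div_unique (div_unique (h2'.symm.trans h2) h3' h3).1 h4' h4).2
  · rw [row_big a h]
    by_contra hy
    have hy1 : 1 ≤ y := one_le_iff.2 (Ne.symm hy)
    have ha : 1 ≤ len a := by
      rw [one_le_iff, Ne, len_eq_zero]
      rintro rfl
      rw [pw_zero] at h4
      exact absurd hy1 (not_le.2 h4)
    have h5 : smash a d ≤ s := by
      rw [h2]
      exact (le_mul_of_one_le_left (zero_le' _) (hy1.trans le_add_self)).trans le_self_add
    have h6 := len_mono h5
    rw [len_smash, h1] at h6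
    have h7 : i ≤ len a * i := le_mul_of_one_le_left (zero_le' _) ha
    zify at h h6 h7
    linarith

theorem row_zero_of_lt {s a c i : M} (h : s < smash a c) (hi : len c ≤ i) : row s a i = 0 := by
  rcases le_or_gt i (len s) with h' | h'
  · obtain ⟨d, _, e⟩ := exists_len h'
    exact row_eq (u := 0) (r := s) e (by simp)
      (h.trans_le (smash_mono_len le_rfl (e ▸ hi))) (pw_pos a)
  · exact row_big a h'

@[simp] theorem row_zero (a i : M) : row 0 a i = 0 := le_antisymm (row_le _ _ _) (zero_le' _)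

/-- put a new row on top of an array -/
theorem row_push {s a c y : M} (h : s < smash a c) (hy : y < pw a) :
    row (y * smash a c + s) a (len c) = y ∧
      ∀ j < len c, row (y * smash a c + s) a j = row s a j := by
  refine ⟨row_eq (u := 0) rfl (by simp) h hy, fun j hj => ?_⟩
  obtain ⟨d, _, e⟩ := exists_len hj.le
  obtain ⟨d', _, e'⟩ := exists_len_add (w := 2 * d + 1) (c := c)
    (by rw [len_two_mul_add_one, e]; exact succ_le_iff.2 hj)
  have e1 : smash a c = smash a d' * pw a * smash a d := by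
    rw [smash_add_right a e'.symm, smash_half (c := 2 * d + 1) (one_le_iff.1 le_add_self),
      half_two_mul_add_one]
    ring
  have e2 := msp_add_lsp s (half (smash a d))
  have e3 := msp_add_lsp (msp s (half (smash a d))) a
  have e4 := lsp_lt s (half (smash a d))
  rw [← smash_eq_pw] at e2 e4
  rw [row_eq (s := s) e (by rw [e3, e2]) e4 (lsp_lt _ _)]
  refine row_eq (u := y * smash a d' + msp (msp s (half (smash a d))) a) e ?_ e4 (lsp_lt _ _)
  rw [e1]
  nth_rewrite 1 [← e2, ← e3]
  ring

instance sigRow {f g h k : UFun b} [hf : UFn f] [hg : UFn g] [hh : UFn h] [hk : UFn k] :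
    USig fun M v => Row (f M v) (g M v) (h M v) (k M v) :=
  ⟨UC.app4 (P := fun _ s a i y => Row s a i y)
    (by unfold Row; exact USig.out) hf hg hh hk⟩

instance fnRow {f g h : UFun b} [hf : UFn f] [hg : UFn g] [hh : UFn h] :
    UFn fun M v => row (f M v) (g M v) (h M v) :=
  UFn.app3 (F := fun _ s a i => row s a i)
    (UFn.of_graph _ (fun M y v => Row (v 0) (v 1) (v 2) y ∨ (len (v 0) < v 2 ∧ y = 0))
      (fun _ v => v 0)
      (fun _ v y => by
        rw [row_iff]
        rcases le_or_gt (v 2) (len (v 0)) with h | h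
        · simp [h, eq_comm]
        · simp [h, row_big _ h])
      (fun _ _ => row_le _ _ _)) hf hg hh

/-- comprehension for arrays -/
theorem arr_comp (Q : ∀ M : Mdl b, M → M → (ℕ → M) → Prop)
    [h : USig fun M v => Q M (v 0) (v 1) (fun i => v (i + 2))] {M : Mdl b} (v : ℕ → M) (a c : M)
    (hQ : ∀ i < len c, ∃ y < pw a, Q M i y v) :
    ∃ s < smash a c, ∀ i < len c, Q M i (row s a i) v := by
  have h1 : USig fun M v => Q M (v 0) (row (v 1) (v 3) (v 0)) (fun i => v (i + 5)) :=
    ⟨h.out.comp (cons (fun _ v => v 0) (cons (fun _ v => row (v 1) (v 3) (v 0))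
      fun i _ v => v (i + 5))) (by
        rintro (_ | _ | i) <;> simp only [cons_zero, cons_succ] <;> infer_instance)⟩
  refine pind_sig (fun M d v => len d ≤ len (v 1) → ∃ s < smash (v 0) d, ∀ i < len d,
    Q M i (row s (v 0) i) (fun j => v (j + 2))) (cons a (cons c v)) ?_ ?_ c le_rfl
  · exact fun _ => ⟨0, smash_pos _ _, fun i hi => by simp at hi⟩
  · intro d hd ih hl
    change len d ≤ len c at hl
    obtain ⟨s, hs, h2⟩ := ih ((len_mono (half_le d)).trans hl)
    change s < smash a (half d) at hs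
    change ∀ i < len (half d), Q M i (row s a i) v at h2
    show ∃ s < smash a d, ∀ i < len d, Q M i (row s a i) v
    rw [len_half hd] at hl ⊢
    obtain ⟨y, hy, hq⟩ := hQ _ (succ_le_iff.1 hl)
    obtain ⟨p1, p2⟩ := row_push hs hy
    refine ⟨y * smash a (half d) + s, ?_, fun i hi => ?_⟩
    · rw [smash_half hd]
      have h3 : (y + 1) * smash a (half d) ≤ pw a * smash a (half d) := by
        gcongr; exact succ_le_iff.2 hy
      zify at hs h3 ⊢
      linarith
    · rcases (lt_succ_iff.1 hi).lt_or_eq with hi | rfl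
      · rw [p2 i hi]; exact h2 i hi
      · rwa [p1]

/-- the array of values of a definable function -/
theorem arr_fn (f : ∀ M : Mdl b, M → (ℕ → M) → M)
    [h : UFn fun M v => f M (v 0) (fun i => v (i + 1))] {M : Mdl b} (v : ℕ → M) (a c : M)
    (hf : ∀ i < len c, len (f M i v) ≤ len a) :
    ∃ s < smash a c, ∀ i < len c, row s a i = f M i v := by
  have h1 : UFn fun M v => f M (v 0) (fun i => v (i + 2)) :=
    h.ren (consInj 1)
  exact arr_comp (fun M i y v => y = f M i v) v a c fun i hi => ⟨_, lt_pw_iff.2 (hf i hi), rfl⟩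

attribute [irreducible] row msp lsp

end Pool.Agent.PLO

end Part0

section Part1

/-! Pairing, recursion on the binary expansion, codes of numerals. -/

namespace Pool.Agent.PLO

open Function

variable {b : Bool} {M : Mdl b}

/-- the value of the pairing term -/
def pr (x y : M) : M :=
  ((x * pw y + y) * pw (len y) + len y) * (2 * pw (len y)) + pw (len y)

@[simp] theorem Tm.ev_pr (v : ℕ → M) (s t : Tm) :
    (s.pr t).ev M.toStr v = PLO.pr (s.ev M.toStr v) (t.ev M.toStr v) := by
  simp [Tm.pr, PLO.pr, pw]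

instance fnPr {f g : UFun b} [hf : UFn f] [hg : UFn g] : UFn fun M v => pr (f M v) (g M v) := by
  unfold pr; infer_instance

theorem cast_npr (x y : ℕ) : ((npr x y : ℕ) : M) = pr (x : M) y := by
  rw [pr, cast_len, cast_pw, cast_pw, npr]; push_cast; ring

theorem pr_ge (x y : M) : 2 * (x + y) + 1 ≤ pr x y := by
  have h1 : 1 ≤ pw y := one_le_iff.2 (pw_pos y).ne'
  have h2 : 1 ≤ pw (len y) := one_le_iff.2 (pw_pos _).ne'
  calc 2 * (x + y) + 1 = ((x * 1 + y) * 1 + 0) * (2 * 1) + 1 := by ring
    _ ≤ _ := by unfold pr; gcongr; exact zero_le' _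

theorem len_lt_pr_left (x y : M) : len x < len (pr x y) := by
  rw [← succ_le_iff, ← len_two_mul_add_one]
  refine len_mono (le_trans ?_ (pr_ge x y))
  gcongr; exact le_self_add

theorem len_lt_pr_right (x y : M) : len y < len (pr x y) := by
  rw [← succ_le_iff, ← len_two_mul_add_one]
  refine len_mono (le_trans ?_ (pr_ge x y))
  gcongr; exact le_add_self

theorem lt_pr_left (x y : M) : x < pr x y := lt_of_len_lt (len_lt_pr_left x y)
theorem lt_pr_right (x y : M) : y < pr x y := lt_of_len_lt (len_lt_pr_right x y)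
theorem le_pr_left (x y : M) : x ≤ pr x y := (lt_pr_left x y).le
theorem le_pr_right (x y : M) : y ≤ pr x y := (lt_pr_right x y).le
@[simp] theorem pr_ne_zero (x y : M) : pr x y ≠ 0 :=
  ((zero_le' x).trans_lt (lt_pr_left x y)).ne'
@[simp] theorem zero_ne_pr (x y : M) : 0 ≠ pr x y := (pr_ne_zero x y).symm

@[gcongr] theorem pr_mono {x y u w : M} (h : x ≤ u) (h' : y ≤ w) : pr x y ≤ pr u w := by
  unfold pr; gcongr

theorem len_cat_le {x y c : M} (h : y < pw c) : len (x * pw c + y) ≤ len x + len c := by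
  rw [← len_cat, ← lt_pw_iff, pw_add (len_cat x c)]
  have h1 : (x + 1) * pw c ≤ pw x * pw c := by gcongr; exact succ_le_iff.2 (lt_pw x)
  zify at h h1 ⊢
  linarith

theorem len_pr_le (x y : M) : len (pr x y) ≤ len x + len y + 2 * len (len y) + 1 := by
  have e : 2 * pw (len y) = pw (2 * len y + 1) := by
    rw [pw_half (x := 2 * len y + 1) (one_le_iff.1 le_add_self), half_two_mul_add_one]
  have h1 := len_cat_le (x := x) (lt_pw y)
  have h2 := len_cat_le (x := x * pw y + y) (lt_pw (len y))
  have h3 := len_cat_le (x := (x * pw y + y) * pw (len y) + len y) (y := pw (len y))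
    (c := 2 * len y + 1) (by
      rw [← e]
      have := pw_pos (len y)
      zify at this ⊢; linarith)
  rw [← e, len_two_mul_add_one] at h3
  unfold pr
  zify at h1 h2 h3 ⊢
  linarith

theorem exists_ones {p i : M} (h : i ≤ len p) : ∃ y ≤ 2 * p, len y = i ∧ y + 1 = pw y := by
  obtain ⟨d, hd, e⟩ := exists_len h
  obtain ⟨y, hy⟩ := exists_add_of_le (one_le_iff.2 (pw_pos d).ne')
  have h1 : y < pw d := by rw [hy, add_comm, lt_succ_iff]
  have h2 : d ≤ y := by rw [← lt_succ_iff, add_comm, ← hy]; exact lt_pw d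
  have h3 : len y = len d := le_antisymm (lt_pw_iff.1 h1) (len_mono h2)
  refine ⟨y, ?_, h3.trans e, by rw [pw_congr h3, hy, add_comm]⟩
  by_cases h0 : d = 0
  · rw [h0, pw_zero, ← zero_add 1, lt_succ_iff] at h1
    exact h1.trans (zero_le' _)
  · have := pw_half_le h0
    rw [pw_half h0] at h1
    zify at h1 this hd ⊢
    linarith

open Classical in
/-- `2 ^ i - 1` if `i ≤ |p|` -/
noncomputable def ones (p i : M) : M := if h : i ≤ len p then (exists_ones h).choose else 0

theorem len_ones {p i : M} (h : i ≤ len p) : len (ones p i) = i := by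
  rw [ones, dif_pos h]; exact (exists_ones h).choose_spec.2.1

theorem ones_succ (p i : M) : ones p i + 1 = pw (ones p i) := by
  unfold ones
  split_ifs with h
  · exact (exists_ones h).choose_spec.2.2
  · simp

theorem ones_le (p i : M) : ones p i ≤ 2 * p := by
  unfold ones
  split_ifs with h
  · exact (exists_ones h).choose_spec.1
  · exact zero_le' _

instance fnOnes {f g : UFun b} [hf : UFn f] [hg : UFn g] : UFn fun M v => ones (f M v) (g M v) :=
  UFn.app2 (F := fun _ p i => ones p i)
    (UFn.of_graph _ (fun M y v => (v 1 ≤ len (v 0) ∧ len y = v 1 ∧ y + 1 = pw y) ∨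
        (len (v 0) < v 1 ∧ y = 0)) (fun _ v => 2 * v 0)
      (fun _ v y => by
        rcases le_or_gt (v 1) (len (v 0)) with h | h
        · simp only [h, true_and, not_lt.2 h, false_and, or_false]
          refine ⟨fun ⟨h1, h2⟩ => ?_, fun e => e ▸ ⟨len_ones h, ones_succ _ _⟩⟩
          refine add_right_cancel (h2.trans ((ones_succ _ _).trans ?_).symm)
          exact pw_congr ((len_ones h).trans h1.symm)
        · simp [h, not_le.2 h, ones])
      (fun _ _ => ones_le _ _)) hf hg

theorem tz_unique {p d d' x x' : M} (h : p = (2 * x + 1) * pw d) (h' : p = (2 * x' + 1) * pw d') :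
    len d = len d' := by
  have key : ∀ {d d' x x' : M}, (2 * x + 1) * pw d = (2 * x' + 1) * pw d' → ¬ len d < len d' := by
    intro d d' x x' e hlt
    obtain ⟨c, _, hc⟩ := exists_len_add hlt.le
    have hc0 : c ≠ 0 := by
      rintro rfl
      rw [len_zero, zero_add] at hc
      exact hlt.ne hc
    rw [pw_add hc.symm, pw_half hc0, ← mul_assoc] at e
    have e1 := mul_right_cancel₀ (pw_pos d).ne' e
    have e2 : 2 * x + 1 = 2 * ((2 * x' + 1) * pw (half c)) := by rw [e1]; ring
    have e3 := congrArg half e2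
    rw [half_two_mul_add_one, half_two_mul] at e3
    rw [← e3] at e2
    simp at e2
  exact le_antisymm (not_lt.1 (key (h'.symm.trans h))) (not_lt.1 (key (h.symm.trans h')))

theorem exists_tz {p : M} (hp : p ≠ 0) :
    ∃ d ≤ 2 * p, d + 1 = pw d ∧ ∃ x ≤ p, p = (2 * x + 1) * pw d := by
  refine pind_sig (fun M p _ => p ≠ 0 → ∃ d ≤ 2 * p, d + 1 = pw d ∧ ∃ x ≤ p, p = (2 * x + 1) * pw d)
    (vec []) (by simp) ?_ p hp
  intro u hu ih _
  rcases half_spec u with h | h
  · obtain ⟨d, _, h1, x, hx, h2⟩ := ih (by rintro h0; rw [h0] at h; simp [hu] at h)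
    have e : pw (2 * d + 1) = 2 * pw d := by
      rw [pw_half (x := 2 * d + 1) (one_le_iff.1 le_add_self), half_two_mul_add_one]
    refine ⟨2 * d + 1, ?_, by rw [e, ← h1]; ring, x, hx.trans (half_le u), ?_⟩
    · have h3 : pw d ≤ half u := h2 ▸ le_mul_of_one_le_left (zero_le' _) le_add_self
      have := zr_nonneg (half u)
      zify at h h1 h3 ⊢
      linarith
    · rw [e, h, h2]; ring
  · exact ⟨0, zero_le' _, by simp, half u, half_le u, by simpa using h⟩

open Classical in
/-- `2 ^ k - 1`, where `k` is the number of trailing zeros -/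
noncomputable def tzd (p : M) : M := if h : p ≠ 0 then (exists_tz h).choose else 0

theorem tzd_eq {p d x : M} (h : p = (2 * x + 1) * pw d) : pw (tzd p) = pw d ∧
    tzd p + 1 = pw (tzd p) := by
  have hp : p ≠ 0 := h ▸ mul_ne_zero (one_le_iff.1 le_add_self) (pw_pos d).ne'
  obtain ⟨_, h1, x', _, h2⟩ := (exists_tz hp).choose_spec
  rw [tzd, dif_pos hp]
  exact ⟨pw_congr (tz_unique h2 h), h1⟩

instance fnTzd {f : UFun b} [hf : UFn f] : UFn fun M v => tzd (f M v) :=
  UFn.app1 (F := fun _ p => tzd p)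
    (UFn.of_graph _ (fun M y v => (y + 1 = pw y ∧ ∃ x ≤ v 0, v 0 = (2 * x + 1) * pw y) ∨
        (v 0 = 0 ∧ y = 0)) (fun _ v => 2 * v 0)
      (fun _ v y => by
        constructor
        · rintro (⟨h1, x, _, h2⟩ | ⟨h1, h2⟩)
          · obtain ⟨h3, h4⟩ := tzd_eq h2
            exact add_right_cancel (h1.trans (h4.trans h3).symm)
          · simp [tzd, h1, h2]
        · rintro rfl
          by_cases hp : v 0 = 0
          · simp [tzd, hp]
          · left
            rw [tzd, dif_pos hp]
            exact (exists_tz hp).choose_spec.2)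
      (fun _ v => by
        unfold tzd
        split_ifs with h
        · exact (exists_tz h).choose_spec.1
        · exact zero_le' _)) hf

/-- first component -/
noncomputable def fst (p : M) : M :=
  msp (msp (msp p (2 * tzd p + 1)) (tzd p)) (ones p (lsp (msp p (2 * tzd p + 1)) (tzd p)))
/-- second component -/
noncomputable def snd (p : M) : M :=
  lsp (msp (msp p (2 * tzd p + 1)) (tzd p)) (ones p (lsp (msp p (2 * tzd p + 1)) (tzd p)))

instance fnFst {f : UFun b} [hf : UFn f] : UFn fun M v => fst (f M v) :=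
  UFn.app1 (F := fun _ p => fst p) (by unfold fst; infer_instance) hf
instance fnSnd {f : UFun b} [hf : UFn f] : UFn fun M v => snd (f M v) :=
  UFn.app1 (F := fun _ p => snd p) (by unfold snd; infer_instance) hf

theorem fst_le (p : M) : fst p ≤ p := (msp_le _ _).trans ((msp_le _ _).trans (msp_le _ _))
theorem snd_le (p : M) : snd p ≤ p := (lsp_le _ _).trans ((msp_le _ _).trans (msp_le _ _))

theorem fst_snd_pr (x y : M) : fst (pr x y) = x ∧ snd (pr x y) = y := by
  obtain ⟨h1, -⟩ := tzd_eq (p := pr x y) (d := len y) (x := (x * pw y + y) * pw (len y) + len y)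
    (by unfold pr; ring)
  have e : pw (2 * tzd (pr x y) + 1) = 2 * pw (len y) := by
    rw [pw_half (one_le_iff.1 le_add_self), half_two_mul_add_one, h1]
  have h2 : msp (pr x y) (2 * tzd (pr x y) + 1) = (x * pw y + y) * pw (len y) + len y :=
    (msp_lsp_eq (r := pw (len y)) (by rw [e]; rfl) (by
      rw [e]
      have := pw_pos (len y)
      zify at this ⊢; linarith)).1
  obtain ⟨h3, h4⟩ := msp_lsp_eq (c := tzd (pr x y)) (u := x * pw y + y) (r := len y)
    (h2.trans (by rw [h1])) (h1 ▸ lt_pw _)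
  have h5 : pw (ones (pr x y) (len y)) = pw y := pw_congr (len_ones (len_lt_pr_right x y).le)
  unfold fst snd
  rw [h3, h4]
  exact msp_lsp_eq (by rw [h5]) (h5 ▸ lt_pw y)

@[simp] theorem fst_pr (x y : M) : fst (pr x y) = x := (fst_snd_pr x y).1
@[simp] theorem snd_pr (x y : M) : snd (pr x y) = y := (fst_snd_pr x y).2
@[simp] theorem pr_inj {x y u w : M} : pr x y = pr u w ↔ x = u ∧ y = w :=
  ⟨fun h => ⟨by simpa using congrArg fst h, by simpa using congrArg snd h⟩,
    fun ⟨h1, h2⟩ => by rw [h1, h2]⟩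

/-! ### Recursion on the binary expansion -/

/-- `f` adds only logarithmically many bits -/
def Tame (f : ∀ M : Mdl b, M → M → (ℕ → M) → M) : Prop :=
  ∃ c : ℕ, ∀ M x z v, len (f M x z v) ≤ len z + c * (len (len z) + 1)

theorem tame_id : Tame (fun (_ : Mdl b) _ z _ => z) := ⟨0, fun _ _ _ _ => le_self_add⟩

theorem Tame.pr_left {f : ∀ M : Mdl b, M → M → (ℕ → M) → M} (h : Tame f) (n : ℕ) :
    Tame fun M x z v => pr (f M x z v) n := by
  obtain ⟨c, hc⟩ := h
  refine ⟨c + (n.size + 2 * n.size.size + 1), fun M x z v => (len_pr_le _ _).trans ?_⟩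
  have h1 := hc M x z v
  rw [cast_len, cast_len]
  have := zr_nonneg (len (len z))
  have h2 : (0 : Zr M) ≤ (n.size : ℕ) := Nat.cast_nonneg _
  have h3 : (0 : Zr M) ≤ (n.size.size : ℕ) := Nat.cast_nonneg _
  zify at h1 ⊢
  nlinarith

theorem Tame.pr_right {f : ∀ M : Mdl b, M → M → (ℕ → M) → M} (h : Tame f) (n : ℕ) :
    Tame fun M x z v => pr (n : M) (f M x z v) := by
  obtain ⟨c, hc⟩ := h
  refine ⟨c + (n.size + 2 * (c + 2) + 1), fun M x z v => (len_pr_le _ _).trans ?_⟩
  have h1 := hc M x z v
  have h4 : len (len (f M x z v)) ≤ len (len z) + (c + 2) := by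
    refine (len_mono h1).trans ?_
    have h5 : len z + c * (len (len z) + 1) ≤ (len z + 1) * (c + 1) := by
      have := len_le (len z)
      have h2 : (0 : Zr M) ≤ (c : ℕ) := Nat.cast_nonneg _
      zify at this ⊢
      nlinarith
    refine (len_mono h5).trans ((len_mul_le _ _).trans ?_)
    have h6 : len (len z + 1) ≤ len (len z) + 1 := by
      rw [← len_two_mul_add_one (len z)]
      refine len_mono ?_
      have := zr_nonneg (len z)
      zify; linarith
    have h7 := len_le ((c : M) + 1)
    zify at h6 h7 ⊢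
    linarith
  rw [cast_len]
  have := zr_nonneg (len (len z))
  have h2 : (0 : Zr M) ≤ (n.size : ℕ) := Nat.cast_nonneg _
  have h3 : (0 : Zr M) ≤ (c : ℕ) := Nat.cast_nonneg _
  zify at h1 h4 ⊢
  nlinarith

theorem Tame.ite {f g : ∀ M : Mdl b, M → M → (ℕ → M) → M} (h : Tame f) (h' : Tame g)
    (P : ∀ M : Mdl b, M → M → (ℕ → M) → Prop) [∀ M x z v, Decidable (P M x z v)] :
    Tame fun M x z v => if P M x z v then f M x z v else g M x z v := by
  obtain ⟨c, hc⟩ := h
  obtain ⟨c', hc'⟩ := h'
  refine ⟨c + c', fun M x z v => ?_⟩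
  push_cast
  split_ifs
  · refine (hc M x z v).trans ?_
    gcongr; exact le_self_add
  · refine (hc' M x z v).trans ?_
    gcongr; exact le_add_self

/-- a width that is enough for `|x|` tame steps starting from `z` -/
def wid (c : ℕ) (z x : M) : M :=
  smash (smash ((2 ^ (c + 10) : ℕ) * pw z * pw x) ((2 ^ (c + 10) : ℕ) * pw z * pw x))
    (smash ((2 ^ (c + 10) : ℕ) * pw z * pw x) ((2 ^ (c + 10) : ℕ) * pw z * pw x))

instance fnWid (c : ℕ) {f g : UFun b} [UFn f] [UFn g] : UFn fun M v => wid c (f M v) (g M v) := by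
  unfold wid; infer_instance

theorem wid_spec (c : ℕ) (z x : M) : len x ≤ len (wid c z x) ∧
    len z + len x * (c * (len (len (wid c z x)) + 1)) ≤ len (wid c z x) := by
  have h0 : ((2 ^ (c + 10) : ℕ) : M) ≠ 0 := Nat.cast_ne_zero.2 (by positivity)
  obtain ⟨m, hm⟩ : ∃ m, m = len (((2 ^ (c + 10) : ℕ) : M) * pw z * pw x) := ⟨_, rfl⟩
  have h1 : m = c + 11 + len z + len x := by
    rw [hm, len_mul_pw (mul_ne_zero h0 (pw_pos z).ne'), len_mul_pw h0, cast_len, Nat.size_pow]
    push_cast; ring
  have h2 : len (wid c z x) = (m * m + 1) * (m * m + 1) + 1 := by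
    rw [wid, len_smash, len_smash, ← hm]
  have hz := zr_nonneg (len z)
  have hx := zr_nonneg (len x)
  have hc : (0 : Zr M) ≤ (c : ℕ) := Nat.cast_nonneg _
  have h3 : len (wid c z x) ≤ (m + 1) * (m + 1) * ((m + 1) * (m + 1)) := by
    rw [h2]
    have h11 : (11 : Zr M) ≤ m := by zify at h1; linarith
    zify
    nlinarith [mul_nonneg (zr_nonneg m) (zr_nonneg m), mul_nonneg (zr_nonneg m)
      (mul_nonneg (zr_nonneg m) (zr_nonneg m))]
  have h4 : len (len (wid c z x)) ≤ 4 * (m + 1) := by
    have a1 := len_mono h3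
    have a2 := len_mul_le ((m + 1) * (m + 1)) ((m + 1) * (m + 1))
    have a3 := len_mul_le (m + 1) (m + 1)
    have a4 := len_le (m + 1)
    zify at a1 a2 a3 a4 ⊢
    linarith
  have h5 : len z + len x * (c * (len (len (wid c z x)) + 1)) ≤ m + m * (m * (4 * (m + 1) + 1)) := by
    gcongr
    · rw [h1]; exact le_add_self.trans le_self_add
    · rw [h1]; exact le_add_self
    · rw [h1, add_assoc, add_assoc]; exact le_self_add
  have h11 : 11 ≤ m := by rw [h1]; exact le_add_self.trans (le_self_add.trans le_self_add)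
  have h6 : m + m * (m * (4 * (m + 1) + 1)) ≤ len (wid c z x) := by
    rw [h2]
    obtain ⟨k, rfl⟩ := exists_add_of_le h11
    refine le_of_le_of_eq (le_self_add (b := k * k * k * k + 40 * (k * k * k) + 591 * (k * k) +
      3805 * k + 8945)) (by ring)
  refine ⟨le_trans ?_ h6, h5.trans h6⟩
  rw [h1]; exact le_add_self.trans le_self_add

namespace Rec
variable (z₀ : UFun b) (f : ∀ M : Mdl b, M → M → (ℕ → M) → M)

def Valid (M : Mdl b) (s t W c : M) (v : ℕ → M) : Prop :=
  row t W 0 = 0 ∧ row s W 0 = z₀ M v ∧ ∀ i < len c, row t W (i + 1) ≠ 0 ∧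
    half (row t W (i + 1)) = row t W i ∧ row s W (i + 1) = f M (row t W (i + 1)) (row s W i) v

variable {z₀ f}

theorem cases_idx {c i : M} (h : i ≤ len c) : i = 0 ∨ ∃ j < len c, i = j + 1 := by
  by_cases h0 : i = 0
  · exact Or.inl h0
  · obtain ⟨j, rfl⟩ := exists_add_of_le (one_le_iff.2 h0)
    exact Or.inr ⟨j, by rwa [← succ_le_iff, add_comm], add_comm _ _⟩

theorem uniq {s t W c s' t' W' c' : M} {v : ℕ → M} (h : Valid z₀ f M s t W c v)
    (h' : Valid z₀ f M s' t' W' c' v) (x : M) : ∀ i ≤ len c, row t W i = x → ∀ i' ≤ len c',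
      row t' W' i' = x → row s W i = row s' W' i' := by
  refine pind_sig (fun M x v => ∀ i ≤ len (v 3), row (v 1) (v 2) i = x → ∀ i' ≤ len (v 7),
    row (v 5) (v 6) i' = x → row (v 0) (v 2) i = row (v 4) (v 6) i')
    (vec [s, t, W, c, s', t', W', c']) ?_ ?_ x
  · intro i hi e i' hi' e'
    change row t W i = 0 at e
    change row t' W' i' = 0 at e'
    show row s W i = row s' W' i'
    rcases cases_idx hi with rfl | ⟨j, hj, rfl⟩
    · rcases cases_idx hi' with rfl | ⟨j, hj, rfl⟩
      · rw [h.2.1, h'.2.1]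
      · exact absurd e' (h'.2.2 j hj).1
    · exact absurd e (h.2.2 j hj).1
  · intro u hu ih i hi e i' hi' e'
    change row t W i = u at e
    change row t' W' i' = u at e'
    show row s W i = row s' W' i'
    rcases cases_idx hi with rfl | ⟨j, hj, rfl⟩
    · exact absurd (e.symm.trans h.1) hu
    rcases cases_idx hi' with rfl | ⟨j', hj', rfl⟩
    · exact absurd (e'.symm.trans h'.1) hu
    obtain ⟨-, a1, a2⟩ := h.2.2 j hj
    obtain ⟨-, b1, b2⟩ := h'.2.2 j' hj'
    have := ih j hj.le (by rw [← e]; exact a1.symm) j' hj'.le (by rw [← e']; exact b1.symm)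
    change row s W j = row s' W' j' at this
    rw [a2, b2, e, e', this]

end Rec

/-- recursion on the binary expansion -/
theorem rec_exists (z₀ : UFun b) (f : ∀ M : Mdl b, M → M → (ℕ → M) → M) [h0 : UFn z₀]
    [hf : UFn fun M v => f M (v 0) (v 1) (fun i => v (i + 2))] (ht : Tame f) :
    ∃ g : ∀ M : Mdl b, M → (ℕ → M) → M, (UFn fun M v => g M (v 0) (fun i => v (i + 1))) ∧
      (∀ M v, g M 0 v = z₀ M v) ∧ ∀ M v x, x ≠ 0 → g M x v = f M x (g M (half x) v) v := by
  obtain ⟨c, hc⟩ := ht
  have hF : ∀ (k : ℕ) (p q : UFun b) [UFn p] [UFn q],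
      UFn fun M v => f M (p M v) (q M v) (fun i => v (i + k)) := fun k p q _ _ =>
    hf.comp (cons p (cons q fun i _ v => v (i + k))) (by
      rintro (_ | _ | i) <;> simp only [cons_zero, cons_succ] <;> infer_instance)
  have hZ : ∀ k : ℕ, UFn fun M v => z₀ M (fun i => v (i + k)) := fun k =>
    h0.ren (g := fun i => i + k) (add_left_injective k)
  have hV : ∀ (k : ℕ) (p q r w : UFun b) [UFn p] [UFn q] [UFn r] [UFn w],
      USig fun M v => Rec.Valid z₀ f M (p M v) (q M v) (r M v) (w M v) (fun i => v (i + k)) := by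
    intro k p q r w hp hq hr hw
    have := hZ k
    have := hp.tail
    have := hq.tail
    have := hr.tail
    have := hF (k + 1) (fun M v => row (q M fun i => v (i + 1)) (r M fun i => v (i + 1)) (v 0 + 1))
      (fun M v => row (p M fun i => v (i + 1)) (r M fun i => v (i + 1)) (v 0))
    unfold Rec.Valid
    infer_instance
  have ex : ∀ (M : Mdl b) (v : ℕ → M) (W x : M), len x ≤ len W →
      len (z₀ M v) + len x * (c * (len (len W) + 1)) ≤ len W →
      ∃ s < smash W (2 * x + 1), ∃ t < smash W (2 * x + 1), Rec.Valid z₀ f M s t W x v ∧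
        row t W (len x) = x ∧
        len (row s W (len x)) ≤ len (z₀ M v) + len x * (c * (len (len W) + 1)) := by
    intro M v W x
    have := hV 4 (fun _ v => v 1) (fun _ v => v 0) (fun _ v => v 3) (fun _ v => v 2)
    have := hZ 2
    have := hZ 4
    refine pind_sig (fun M x v => len x ≤ len (v 0) →
      len (z₀ M fun i => v (i + 1)) + len x * (c * (len (len (v 0)) + 1)) ≤ len (v 0) →
      ∃ s < smash (v 0) (2 * x + 1), ∃ t < smash (v 0) (2 * x + 1),
        Rec.Valid z₀ f M s t (v 0) x (fun i => v (i + 1)) ∧ row t (v 0) (len x) = x ∧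
        len (row s (v 0) (len x)) ≤ len (z₀ M fun i => v (i + 1)) +
          len x * (c * (len (len (v 0)) + 1))) (cons W v) ?_ ?_ x
    · intro _ h2
      simp only [cons_zero, cons_succ, len_zero, zero_mul, add_zero, mul_zero, zero_add,
        smash_one] at h2 ⊢
      have e : row (z₀ M v) W 0 = z₀ M v :=
        row_eq (d := 0) (u := 0) (r := 0) len_zero (by simp) (by simp) (lt_pw_iff.2 h2)
      exact ⟨z₀ M v, lt_pw_iff.2 h2, 0, pw_pos _, ⟨by simp, e, fun i hi => by simp at hi⟩,
        by simp, by rw [e]⟩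
    · intro u hu ih h1 h2
      simp only [cons_zero, cons_succ] at ih h1 h2 ⊢
      have hl := len_half hu
      obtain ⟨s, hs, t, ht, hv, e1, e2⟩ := ih ((len_mono (half_le u)).trans h1)
        (le_trans (by gcongr; exact half_le u) h2)
      have e3 : len (f M u (row s W (len (half u))) v) ≤
          len (z₀ M v) + len u * (c * (len (len W) + 1)) := by
        refine (hc M _ _ _).trans ?_
        have a1 : len (len (row s W (len (half u)))) ≤ len (len W) :=
          len_mono (lt_pw_iff.1 (row_lt _ _ _))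
        calc _ ≤ len (z₀ M v) + len (half u) * (c * (len (len W) + 1)) +
              c * (len (len W) + 1) := by gcongr
          _ = _ := by rw [hl]; ring
      obtain ⟨p1, p2⟩ := row_push hs (lt_pw_iff.2 (e3.trans h2))
      obtain ⟨q1, q2⟩ := row_push ht (lt_pw_iff.2 h1)
      rw [len_two_mul_add_one, ← hl] at p1 p2 q1 q2
      have top : ∀ y r : M, y < pw W → r < smash W (2 * half u + 1) →
          y * smash W (2 * half u + 1) + r < smash W (2 * u + 1) := by
        intro y r hy hr
        rw [smash_half (c := 2 * u + 1) (one_le_iff.1 le_add_self), half_two_mul_add_one,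
          smash_comm W u, smash_congr (y := 2 * half u + 1) W (by rw [len_two_mul_add_one, hl]),
          smash_comm _ W]
        have h3 : (y + 1) * smash W (2 * half u + 1) ≤ pw W * smash W (2 * half u + 1) := by
          gcongr; exact succ_le_iff.2 hy
        zify at hr h3 ⊢
        linarith
      have hpos : (0 : M) < len u := by rw [hl, lt_succ_iff]; exact zero_le' _
      refine ⟨_, top _ _ (lt_pw_iff.2 (e3.trans h2)) hs, _, top _ _ (lt_pw_iff.2 h1) ht,
        ⟨by rw [q2 0 hpos, hv.1], by rw [p2 0 hpos, hv.2.1], fun i hi => ?_⟩, q1, by rwa [p1]⟩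
      rw [p2 i hi, q2 i hi]
      rcases (succ_le_iff.2 hi).lt_or_eq with h | h
      · rw [p2 _ h, q2 _ h]
        exact hv.2.2 i (by rwa [hl, lt_succ_iff, succ_le_iff] at h)
      · have : i = len (half u) := add_right_cancel (h.trans hl)
        rw [h, p1, q1, this, e1]
        exact ⟨hu, rfl, rfl⟩
  have ex' := fun (M : Mdl b) (x : M) (v : ℕ → M) => ex M v (wid c (z₀ M v) x) x
    (wid_spec c _ x).1 (wid_spec c _ x).2
  choose s hs t ht hv e1 _ using ex'
  refine ⟨fun M x v => row (s M x v) (wid c (z₀ M v) x) (len x), ?_, fun M v => ?_,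
    fun M v x hx => ?_⟩
  · have := hZ 1
    have := hZ 2
    have := hZ 3
    have := hZ 4
    have := hV 4 (fun _ v => v 1) (fun _ v => v 0) (fun M v => wid c (z₀ M fun i => v (i + 4)) (v 3))
      (fun _ v => v 3)
    refine UFn.of_graph _ (fun M y v =>
      ∃ s < smash (wid c (z₀ M fun i => v (i + 1)) (v 0)) (2 * v 0 + 1),
      ∃ t < smash (wid c (z₀ M fun i => v (i + 1)) (v 0)) (2 * v 0 + 1),
        Rec.Valid z₀ f M s t (wid c (z₀ M fun i => v (i + 1)) (v 0)) (v 0) (fun i => v (i + 1)) ∧
        row t (wid c (z₀ M fun i => v (i + 1)) (v 0)) (len (v 0)) = v 0 ∧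
        y = row s (wid c (z₀ M fun i => v (i + 1)) (v 0)) (len (v 0)))
      (fun M v => pw (wid c (z₀ M fun i => v (i + 1)) (v 0))) (fun M v y => ?_)
      (fun M v => (row_lt _ _ _).le)
    constructor
    · rintro ⟨s', -, t', -, h1, h2, rfl⟩
      exact Rec.uniq h1 (hv M _ _) _ _ le_rfl h2 _ le_rfl (e1 M _ _)
    · rintro rfl
      exact ⟨_, hs M _ _, _, ht M _ _, hv M _ _, e1 M _ _, rfl⟩
  · simpa using (hv M 0 v).2.1
  · obtain ⟨-, a1, a2⟩ := (hv M x v).2.2 (len (half x)) (by rw [len_half hx, lt_succ_iff])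
    rw [← len_half hx, e1] at a1 a2
    simp only
    rw [a2, Rec.uniq (hv M x v) (hv M (half x) v) _ _ (len_mono (half_le x)) a1.symm _ le_rfl
      (e1 M _ _)]

/-! ### Codes of numerals -/

theorem nm_exists (b : Bool) : ∃ g : ∀ M : Mdl b, M → (ℕ → M) → M,
    (UFn fun M v => g M (v 0) (fun i => v (i + 1))) ∧ (∀ M v, g M 0 v = (Tm.zero.code : ℕ)) ∧
    ∀ M v x, x ≠ 0 → g M x v = if x = 2 * half x then
      pr (6 : ℕ) (pr (Tm.two.code : ℕ) (g M (half x) v)) else
      pr (2 : ℕ) (pr (6 : ℕ) (pr (Tm.two.code : ℕ) (g M (half x) v))) :=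
  rec_exists (fun _ _ => (Tm.zero.code : ℕ)) (fun _ x z _ => if x = 2 * half x then
      pr (6 : ℕ) (pr (Tm.two.code : ℕ) z) else pr (2 : ℕ) (pr (6 : ℕ) (pr (Tm.two.code : ℕ) z)))
    (Tame.ite ((tame_id.pr_right _).pr_right _) (((tame_id.pr_right _).pr_right _).pr_right _) _)

/-- the code of the dyadic numeral of `x` -/
noncomputable def nm (x : M) : M := (nm_exists b).choose M x (fun _ => 0)

instance fnNm {f : UFun b} [hf : UFn f] : UFn fun M v => nm (f M v) :=
  UFn.app1 (F := fun _ x => nm x) ((nm_exists b).choose_spec.1.comp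
    (cons (fun _ v => v 0) fun _ _ _ => 0) (by
      rintro (_ | i) <;> simp only [cons_zero, cons_succ] <;> infer_instance)) hf

theorem nm_zero : nm (0 : M) = pr 1 0 := by
  rw [nm, (nm_exists b).choose_spec.2.1, Tm.code, cast_npr]; simp

theorem nm_even {x : M} (hx : x ≠ 0) : nm (2 * x) = pr 6 (pr (Tm.two.code : ℕ) (nm x)) := by
  rw [nm, (nm_exists b).choose_spec.2.2 _ _ _ (mul_ne_zero two_ne_zero hx)]
  simp [nm]

theorem nm_odd (x : M) : nm (2 * x + 1) = pr 2 (pr 6 (pr (Tm.two.code : ℕ) (nm x))) := by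
  rw [nm, (nm_exists b).choose_spec.2.2 _ _ _ (one_le_iff.1 le_add_self)]
  simp [nm]

theorem nm_cast (n : ℕ) : nm (n : M) = ((Tm.num n).code : ℕ) := by
  induction n using Nat.strong_induction_on with
  | _ n ih =>
    rw [Tm.num]
    split_ifs with h1 h2
    · simp [h1, nm_zero, Tm.code, cast_npr]
    · have e : (n : M) = 2 * (n / 2 : ℕ) := by exact_mod_cast (by omega : n = 2 * (n / 2))
      rw [e, nm_even (Nat.cast_ne_zero.2 (by omega)), ih _ (by omega), Tm.dbl, Tm.code, cast_npr,
        cast_npr]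
      rfl
    · have e : (n : M) = 2 * (n / 2 : ℕ) + 1 := by exact_mod_cast (by omega : n = 2 * (n / 2) + 1)
      rw [e, nm_odd, ih _ (by omega), Tm.dbl, Tm.code, Tm.code, cast_npr, cast_npr, cast_npr]
      rfl

attribute [irreducible] pr fst snd nm

end Pool.Agent.PLO

end Part1

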