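import Pool.Agent.PLO.Arr

section Part0

/-! The language extended by constants and unary predicate letters; first-order definability. -/

namespace Pool.Agent.PLO

open Function

inductive ETm : Type
  | var : ℕ → ETm
  | cst : ℕ → ETm
  | zero : ETm
  | succ : ETm → ETm
  | len : ETm → ETm
  | half : ETm → ETm
  | add : ETm → ETm → ETm
  | mul : ETm → ETm → ETm
  | smash : ETm → ETm → ETm

inductive EFm : Type
  | bot : EFm
  | eq : ETm → ETm → EFm
  | le : ETm → ETm → EFm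
  | imp : EFm → EFm → EFm
  | all : ℕ → EFm → EFm
  | prd : ℕ → ETm → EFm
  | orc : ETm → EFm

namespace ETm

def ev (S : Str) (c v : ℕ → S.α) : ETm → S.α
  | var x => v x
  | cst k => c k
  | zero => S.z
  | succ t => S.s (t.ev S c v)
  | len t => S.l (t.ev S c v)
  | half t => S.h (t.ev S c v)
  | add s t => S.a (s.ev S c v) (t.ev S c v)
  | mul s t => S.m (s.ev S c v) (t.ev S c v)
  | smash s t => S.sm (s.ev S c v) (t.ev S c v)

def occ (x : ℕ) : ETm → Prop
  | var y => x = y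
  | cst _ => False
  | zero => False
  | succ t => occ x t
  | len t => occ x t
  | half t => occ x t
  | add s t => occ x s ∨ occ x t
  | mul s t => occ x s ∨ occ x t
  | smash s t => occ x s ∨ occ x t

def subst : ETm → ℕ → ETm → ETm
  | var y, x, u => if x = y then u else var y
  | cst k, _, _ => cst k
  | zero, _, _ => zero
  | succ t, x, u => succ (t.subst x u)
  | len t, x, u => len (t.subst x u)
  | half t, x, u => half (t.subst x u)
  | add s t, x, u => add (s.subst x u) (t.subst x u)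
  | mul s t, x, u => mul (s.subst x u) (t.subst x u)
  | smash s t, x, u => smash (s.subst x u) (t.subst x u)

/-- a strict bound for the indices of all variables and constants -/
def mx : ETm → ℕ
  | var x => x + 1
  | cst k => k + 1
  | zero => 0
  | succ t => t.mx
  | len t => t.mx
  | half t => t.mx
  | add s t => max s.mx t.mx
  | mul s t => max s.mx t.mx
  | smash s t => max s.mx t.mx

def ren (g : ℕ → ℕ) : ETm → ETm
  | var x => var (g x)
  | cst k => cst k
  | zero => zero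
  | succ t => succ (t.ren g)
  | len t => len (t.ren g)
  | half t => half (t.ren g)
  | add s t => add (s.ren g) (t.ren g)
  | mul s t => mul (s.ren g) (t.ren g)
  | smash s t => smash (s.ren g) (t.ren g)

/-- the variables outside `B` become constants (old constants become zero) -/
def cl (B : List ℕ) : ETm → ETm
  | var x => if x ∈ B then var x else cst x
  | cst _ => zero
  | zero => zero
  | succ t => succ (t.cl B)
  | len t => len (t.cl B)
  | half t => half (t.cl B)
  | add s t => add (s.cl B) (t.cl B)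
  | mul s t => mul (s.cl B) (t.cl B)
  | smash s t => smash (s.cl B) (t.cl B)

/-- erase the constants -/
def er : ETm → Tm
  | var x => .var x
  | cst _ => .zero
  | zero => .zero
  | succ t => .succ t.er
  | len t => .len t.er
  | half t => .half t.er
  | add s t => .add s.er t.er
  | mul s t => .mul s.er t.er
  | smash s t => .smash s.er t.er

end ETm

namespace EFm

def ev (S : Str) (c : ℕ → S.α) (X : ℕ → S.α → Prop) : EFm → (ℕ → S.α) → Prop
  | bot, _ => False
  | eq s t, v => s.ev S c v = t.ev S c v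
  | le s t, v => S.le (s.ev S c v) (t.ev S c v)
  | imp φ ψ, v => φ.ev S c X v → ψ.ev S c X v
  | all x φ, v => ∀ u, φ.ev S c X (update v x u)
  | prd k t, v => X k (t.ev S c v)
  | orc t, v => S.o (t.ev S c v)

def neg (φ : EFm) : EFm := imp φ bot
def ball (x : ℕ) (t : ETm) (φ : EFm) : EFm := all x (imp (le (.var x) t) φ)

def free (x : ℕ) : EFm → Prop
  | bot => False
  | eq s t => s.occ x ∨ t.occ x
  | le s t => s.occ x ∨ t.occ x
  | imp φ ψ => free x φ ∨ free x ψ
  | all y φ => x ≠ y ∧ free x φ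
  | prd _ t => t.occ x
  | orc t => t.occ x

def subst (x : ℕ) (u : ETm) : EFm → EFm
  | bot => bot
  | eq s t => eq (s.subst x u) (t.subst x u)
  | le s t => le (s.subst x u) (t.subst x u)
  | imp φ ψ => imp (subst x u φ) (subst x u ψ)
  | all y φ => if x = y then all y φ else all y (subst x u φ)
  | prd k t => prd k (t.subst x u)
  | orc t => orc (t.subst x u)

def freeFor (x : ℕ) (u : ETm) : EFm → Prop
  | bot => True
  | eq _ _ => True
  | le _ _ => True
  | imp φ ψ => freeFor x u φ ∧ freeFor x u ψ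
  | all y φ => ¬ free x (all y φ) ∨ (¬ u.occ y ∧ freeFor x u φ)
  | prd _ _ => True
  | orc _ => True

/-- a strict bound for the indices of all variables, constants and predicate letters -/
def mx : EFm → ℕ
  | bot => 0
  | eq s t => max s.mx t.mx
  | le s t => max s.mx t.mx
  | imp φ ψ => max φ.mx ψ.mx
  | all x φ => max (x + 1) φ.mx
  | prd k t => max (k + 1) t.mx
  | orc t => t.mx

def ren (g : ℕ → ℕ) : EFm → EFm
  | bot => bot
  | eq s t => eq (s.ren g) (t.ren g)
  | le s t => le (s.ren g) (t.ren g)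
  | imp φ ψ => imp (φ.ren g) (ψ.ren g)
  | all x φ => all (g x) (φ.ren g)
  | prd k t => prd k (t.ren g)
  | orc t => orc (t.ren g)

/-- the free variables outside `B` become constants -/
def cl : EFm → List ℕ → EFm
  | bot, _ => bot
  | eq s t, B => eq (s.cl B) (t.cl B)
  | le s t, B => le (s.cl B) (t.cl B)
  | imp φ ψ, B => imp (φ.cl B) (ψ.cl B)
  | all x φ, B => all x (φ.cl (x :: B))
  | prd k t, B => prd k (t.cl B)
  | orc t, B => orc (t.cl B)

/-- erase constants and predicate letters -/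
def er : EFm → Fm
  | bot => .bot
  | eq s t => .eq s.er t.er
  | le s t => .le s.er t.er
  | imp φ ψ => .imp φ.er ψ.er
  | all x φ => .all x φ.er
  | prd _ _ => .bot
  | orc t => .orc t.er

end EFm

def Tm.e : Tm → ETm
  | var x => .var x
  | zero => .zero
  | succ t => .succ t.e
  | len t => .len t.e
  | half t => .half t.e
  | add s t => .add s.e t.e
  | mul s t => .mul s.e t.e
  | smash s t => .smash s.e t.e

def Fm.e : Fm → EFm
  | bot => .bot
  | eq s t => .eq s.e t.e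
  | le s t => .le s.e t.e
  | orc t => .orc t.e
  | imp φ ψ => .imp φ.e ψ.e
  | all x φ => .all x φ.e

/-- the classes for extended formulas: predicate letters count as `Σ` -/
inductive ECls (full : Bool) : Bool → EFm → Prop
  | bot (σ : Bool) : ECls full σ .bot
  | eq (σ : Bool) (s t : ETm) : ECls full σ (.eq s t)
  | le (σ : Bool) (s t : ETm) : ECls full σ (.le s t)
  | prd (k : ℕ) (t : ETm) : ECls full true (.prd k t)
  | orc (σ : Bool) (t : ETm) : ECls full σ (.orc t)
  | imp (σ : Bool) {φ ψ : EFm} : ECls full (!σ) φ → ECls full σ ψ → ECls full σ (.imp φ ψ)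
  | ball {x : ℕ} {t : ETm} {φ : EFm} :
      ¬ t.occ x → ECls full false φ → ECls full false (.ball x t φ)
  | sharp {x : ℕ} {t : ETm} {φ : EFm} :
      ¬ t.occ x → ECls full true φ → ECls full true (.ball x (.len t) φ)
  | wide {x : ℕ} {t : ETm} {φ : EFm} :
      full = true → ¬ t.occ x → ECls full true φ → ECls full true (.ball x t φ)

/-- derivations in the extended language from global hypotheses -/
inductive EPrv (b : Bool) (Γ : Set EFm) : EFm → Prop
  | hyp {φ : EFm} : φ ∈ Γ → EPrv b Γ φ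
  | k (φ ψ : EFm) : EPrv b Γ (.imp φ (.imp ψ φ))
  | s (φ ψ χ : EFm) : EPrv b Γ (.imp (.imp φ (.imp ψ χ)) (.imp (.imp φ ψ) (.imp φ χ)))
  | dn (φ : EFm) : EPrv b Γ (.imp φ.neg.neg φ)
  | inst (x : ℕ) (u : ETm) (φ : EFm) : φ.freeFor x u → EPrv b Γ (.imp (.all x φ) (φ.subst x u))
  | dist (x : ℕ) (φ ψ : EFm) : EPrv b Γ (.imp (.all x (.imp φ ψ)) (.imp (.all x φ) (.all x ψ)))
  | vac (x : ℕ) (φ : EFm) : ¬ φ.free x → EPrv b Γ (.imp φ (.all x φ))
  | mp {φ ψ : EFm} : EPrv b Γ (.imp φ ψ) → EPrv b Γ φ → EPrv b Γ ψ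
  | gen (x : ℕ) {φ : EFm} : EPrv b Γ φ → EPrv b Γ (.all x φ)
  | ax {φ : Fm} : φ ∈ eqAx ++ basic → EPrv b Γ φ.e
  | ind (x : ℕ) {φ : Fm} : Cls b true φ → EPrv b Γ (pind x φ).e
  | cong (k : ℕ) :
      EPrv b Γ (.imp (.eq (.var 0) (.var 1)) (.imp (.prd k (.var 0)) (.prd k (.var 1))))

section Raw
variable {S : Str} {c : ℕ → S.α} {X : ℕ → S.α → Prop}

@[simp] theorem Tm.ev_e (v : ℕ → S.α) (t : Tm) : t.e.ev S c v = t.ev S v := by
  induction t with
  | var y => rfl
  | zero => rfl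
  | succ t ih | len t ih | half t ih => simp only [Tm.e, Tm.ev, ETm.ev, ih]
  | add s t i1 i2 | mul s t i1 i2 | smash s t i1 i2 => simp only [Tm.e, Tm.ev, ETm.ev, i1, i2]

@[simp] theorem Fm.ev_e (φ : Fm) : ∀ v : ℕ → S.α, φ.e.ev S c X v ↔ φ.ev S v := by
  induction φ with
  | bot => intro _; rfl
  | eq s t | le s t | orc t => intro v; simp only [Fm.e, Fm.ev, EFm.ev, Tm.ev_e]
  | imp φ ψ i1 i2 => intro v; simp only [Fm.e, Fm.ev, EFm.ev, i1, i2]
  | all y φ ih => intro v; simp only [Fm.e, Fm.ev, EFm.ev, ih]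

theorem ETm.ev_er (v : ℕ → S.α) (t : ETm) : t.er.ev S v = t.ev S (fun _ => S.z) v := by
  induction t with
  | var y | cst k => rfl
  | zero => rfl
  | succ t ih | len t ih | half t ih => simp only [ETm.er, Tm.ev, ETm.ev, ih]
  | add s t i1 i2 | mul s t i1 i2 | smash s t i1 i2 => simp only [ETm.er, Tm.ev, ETm.ev, i1, i2]

theorem EFm.ev_er (φ : EFm) : ∀ v : ℕ → S.α,
    φ.er.ev S v ↔ φ.ev S (fun _ => S.z) (fun _ _ => False) v := by
  induction φ with
  | bot | prd => intro _; rfl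
  | eq s t | le s t | orc t => intro v; simp only [EFm.er, Fm.ev, EFm.ev, ETm.ev_er]
  | imp φ ψ i1 i2 => intro v; simp only [EFm.er, Fm.ev, EFm.ev, i1, i2]
  | all y φ ih => intro v; simp only [EFm.er, Fm.ev, EFm.ev, ih]

theorem ETm.ev_congr {v w : ℕ → S.α} (t : ETm) (h : ∀ x, t.occ x → v x = w x) :
    t.ev S c v = t.ev S c w := by
  induction t with
  | var y => exact h y rfl
  | cst k => rfl
  | zero => rfl
  | succ t ih | len t ih | half t ih => simp only [ETm.ev, ih h]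
  | add s t i1 i2 | mul s t i1 i2 | smash s t i1 i2 =>
    simp only [ETm.ev, i1 fun x hx => h x (Or.inl hx), i2 fun x hx => h x (Or.inr hx)]

theorem EFm.ev_congr (φ : EFm) : ∀ {v w : ℕ → S.α}, (∀ x, φ.free x → v x = w x) →
    (φ.ev S c X v ↔ φ.ev S c X w) := by
  induction φ with
  | bot => intro _ _ _; rfl
  | eq s t | le s t =>
    intro v w h
    simp only [EFm.ev, s.ev_congr fun x hx => h x (Or.inl hx),
      t.ev_congr fun x hx => h x (Or.inr hx)]
  | imp φ ψ i1 i2 =>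
    intro v w h
    simp only [EFm.ev, i1 fun x hx => h x (Or.inl hx), i2 fun x hx => h x (Or.inr hx)]
  | all y φ ih =>
    intro v w h
    refine forall_congr' fun u => ih fun x hx => ?_
    by_cases hxy : x = y
    · subst hxy; simp
    · simp [update_of_ne hxy, h x ⟨hxy, hx⟩]
  | prd k t | orc t => intro v w h; simp only [EFm.ev, t.ev_congr h]

theorem ETm.ev_update {v : ℕ → S.α} {t : ETm} {x : ℕ} (h : ¬ t.occ x) (u : S.α) :
    t.ev S c (update v x u) = t.ev S c v :=
  t.ev_congr fun y hy => update_of_ne (by rintro rfl; exact h hy) _ _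

theorem EFm.ev_update {v : ℕ → S.α} {φ : EFm} {x : ℕ} (h : ¬ φ.free x) (u : S.α) :
    φ.ev S c X (update v x u) ↔ φ.ev S c X v :=
  φ.ev_congr fun y hy => update_of_ne (by rintro rfl; exact h hy) _ _

theorem ETm.ev_subst (v : ℕ → S.α) (x : ℕ) (u t : ETm) :
    (t.subst x u).ev S c v = t.ev S c (update v x (u.ev S c v)) := by
  induction t with
  | var y =>
    by_cases h : x = y
    · subst h; simp [ETm.subst, ETm.ev]
    · simp [ETm.subst, ETm.ev, h, update_of_ne (Ne.symm h)]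
  | cst k => rfl
  | zero => rfl
  | succ t ih | len t ih | half t ih => simp only [ETm.subst, ETm.ev, ih]
  | add s t i1 i2 | mul s t i1 i2 | smash s t i1 i2 => simp only [ETm.subst, ETm.ev, i1, i2]

theorem ETm.subst_of_not_occ {x : ℕ} (u : ETm) {t : ETm} (h : ¬ t.occ x) : t.subst x u = t := by
  induction t with
  | var y => exact if_neg h
  | cst k => rfl
  | zero => rfl
  | succ t ih | len t ih | half t ih => simp only [ETm.subst, ih h]
  | add s t i1 i2 | mul s t i1 i2 | smash s t i1 i2 =>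
    simp only [ETm.subst, i1 fun hx => h (Or.inl hx), i2 fun hx => h (Or.inr hx)]

theorem EFm.subst_of_not_free {x : ℕ} (u : ETm) {φ : EFm} (h : ¬ φ.free x) :
    φ.subst x u = φ := by
  induction φ with
  | bot => rfl
  | eq s t | le s t =>
    simp only [EFm.subst, ETm.subst_of_not_occ u fun hx => h (Or.inl hx),
      ETm.subst_of_not_occ u fun hx => h (Or.inr hx)]
  | imp φ ψ i1 i2 => simp only [EFm.subst, i1 fun hx => h (Or.inl hx), i2 fun hx => h (Or.inr hx)]
  | all y φ ih =>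
    by_cases hxy : x = y
    · simp [EFm.subst, hxy]
    · simp only [EFm.subst, if_neg hxy, ih fun hx => h ⟨hxy, hx⟩]
  | prd k t | orc t => simp only [EFm.subst, ETm.subst_of_not_occ u h]

theorem EFm.ev_subst (x : ℕ) (u : ETm) (φ : EFm) : ∀ (v : ℕ → S.α), φ.freeFor x u →
    ((φ.subst x u).ev S c X v ↔ φ.ev S c X (update v x (u.ev S c v))) := by
  induction φ with
  | bot => intro _ _; rfl
  | eq s t | le s t | prd k t | orc t => intro v _; simp only [EFm.subst, EFm.ev, ETm.ev_subst]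
  | imp φ ψ i1 i2 => intro v h; simp only [EFm.subst, EFm.ev, i1 v h.1, i2 v h.2]
  | all y φ ih =>
    intro v h
    by_cases hf : (all y φ).free x
    · have h2 := h.resolve_left (not_not.2 hf)
      simp only [EFm.subst, if_neg hf.1, EFm.ev]
      refine forall_congr' fun w => ?_
      rw [ih _ h2.2, ETm.ev_update h2.1, update_comm (Ne.symm hf.1)]
    · rw [EFm.subst_of_not_free u hf, EFm.ev_update hf]

theorem ETm.ev_ren (g : ℕ → ℕ) (v : ℕ → S.α) (t : ETm) :
    (t.ren g).ev S c v = t.ev S c (fun i => v (g i)) := by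
  induction t with
  | var y | cst k => rfl
  | zero => rfl
  | succ t ih | len t ih | half t ih => simp only [ETm.ren, ETm.ev, ih]
  | add s t i1 i2 | mul s t i1 i2 | smash s t i1 i2 => simp only [ETm.ren, ETm.ev, i1, i2]

theorem EFm.ev_ren {g : ℕ → ℕ} (hg : Injective g) (φ : EFm) : ∀ v : ℕ → S.α,
    ((φ.ren g).ev S c X v ↔ φ.ev S c X (fun i => v (g i))) := by
  induction φ with
  | bot => intro _; rfl
  | eq s t | le s t | prd k t | orc t => intro v; simp only [EFm.ren, EFm.ev, ETm.ev_ren]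
  | imp φ ψ i1 i2 => intro v; simp only [EFm.ren, EFm.ev, i1, i2]
  | all y φ ih =>
    intro v
    simp only [EFm.ren, EFm.ev, ih]
    refine forall_congr' fun u => ?_
    rw [show (fun i => update v (g y) u (g i)) = update (fun i => v (g i)) y u from
      update_comp_eq_of_injective v hg y u]

theorem ETm.ev_cl (B : List ℕ) (v : ℕ → S.α) (t : ETm) :
    (t.cl B).ev S c v = t.ev S (fun _ => S.z) (fun i => if i ∈ B then v i else c i) := by
  induction t with
  | var y => by_cases h : y ∈ B <;> simp [ETm.cl, ETm.ev, h]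
  | cst k => rfl
  | zero => rfl
  | succ t ih | len t ih | half t ih => simp only [ETm.cl, ETm.ev, ih]
  | add s t i1 i2 | mul s t i1 i2 | smash s t i1 i2 => simp only [ETm.cl, ETm.ev, i1, i2]

theorem EFm.ev_cl (φ : EFm) : ∀ (B : List ℕ) (v : ℕ → S.α),
    (φ.cl B).ev S c X v ↔ φ.ev S (fun _ => S.z) X (fun i => if i ∈ B then v i else c i) := by
  induction φ with
  | bot => intro _ _; rfl
  | eq s t | le s t | prd k t | orc t => intro B v; simp only [EFm.cl, EFm.ev, ETm.ev_cl]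
  | imp φ ψ i1 i2 => intro B v; simp only [EFm.cl, EFm.ev, i1, i2]
  | all y φ ih =>
    intro B v
    simp only [EFm.cl, EFm.ev, ih]
    refine forall_congr' fun u => iff_of_eq (congrArg _ (funext fun i => ?_))
    by_cases h : i = y
    · subst h; simp
    · simp [h, update_of_ne h]

theorem EFm.ev_cl_nil (φ : EFm) (v : ℕ → S.α) :
    (φ.cl []).ev S c X v ↔ φ.ev S (fun _ => S.z) X c := by
  simp [EFm.ev_cl]

theorem ETm.occ_cl {B : List ℕ} {x : ℕ} {t : ETm} (h : (t.cl B).occ x) : x ∈ B := by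
  induction t with
  | var y =>
    by_cases hy : y ∈ B
    · simp only [ETm.cl, hy, if_true, ETm.occ] at h; rwa [h]
    · simp [ETm.cl, hy, ETm.occ] at h
  | cst k => exact h.elim
  | zero => exact h.elim
  | succ t ih | len t ih | half t ih => exact ih h
  | add s t i1 i2 | mul s t i1 i2 | smash s t i1 i2 => exact h.elim i1 i2

theorem EFm.free_cl {x : ℕ} {φ : EFm} : ∀ {B : List ℕ}, (φ.cl B).free x → x ∈ B := by
  induction φ with
  | bot => exact fun h => h.elim
  | eq s t | le s t => exact fun h => h.elim ETm.occ_cl ETm.occ_cl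
  | imp φ ψ i1 i2 => exact fun h => h.elim i1 i2
  | all y φ ih => exact fun h => (List.mem_cons.1 (ih h.2)).resolve_left h.1
  | prd k t | orc t => exact fun h => ETm.occ_cl h

theorem ETm.lt_mx {x : ℕ} {t : ETm} (h : t.occ x) : x < t.mx := by
  induction t with
  | var y => cases h; exact Nat.lt_succ_self _
  | cst k => exact h.elim
  | zero => exact h.elim
  | succ t ih | len t ih | half t ih => exact ih h
  | add s t i1 i2 | mul s t i1 i2 | smash s t i1 i2 =>
    exact h.elim (fun h => lt_max_of_lt_left (i1 h)) (fun h => lt_max_of_lt_right (i2 h))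

theorem EFm.lt_mx {x : ℕ} {φ : EFm} (h : φ.free x) : x < φ.mx := by
  induction φ with
  | bot => exact h.elim
  | eq s t | le s t =>
    exact h.elim (fun h => lt_max_of_lt_left (ETm.lt_mx h))
      (fun h => lt_max_of_lt_right (ETm.lt_mx h))
  | imp φ ψ i1 i2 =>
    exact h.elim (fun h => lt_max_of_lt_left (i1 h)) (fun h => lt_max_of_lt_right (i2 h))
  | all y φ ih => exact lt_max_of_lt_right (ih h.2)
  | prd k t => exact lt_max_of_lt_right (ETm.lt_mx h)
  | orc t => exact ETm.lt_mx h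

end Raw

theorem Tm.occ_e (x : ℕ) (t : Tm) : t.e.occ x ↔ t.occ x := by
  induction t with
  | var y => rfl
  | zero => rfl
  | succ t ih | len t ih | half t ih => exact ih
  | add s t i1 i2 | mul s t i1 i2 | smash s t i1 i2 => exact or_congr i1 i2

theorem Fm.free_e (x : ℕ) (φ : Fm) : φ.e.free x ↔ φ.free x := by
  induction φ with
  | bot => rfl
  | eq s t | le s t => exact or_congr (s.occ_e x) (t.occ_e x)
  | orc t => exact t.occ_e x
  | imp φ ψ i1 i2 => exact or_congr i1 i2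
  | all y φ ih => exact and_congr_right fun _ => ih

theorem Tm.subst_e (x : ℕ) (u t : Tm) : (t.subst x u).e = t.e.subst x u.e := by
  induction t with
  | var y => by_cases h : x = y <;> simp [Tm.subst, ETm.subst, Tm.e, h]
  | zero => rfl
  | succ t ih | len t ih | half t ih => simp only [Tm.subst, Tm.e, ETm.subst, ih]
  | add s t i1 i2 | mul s t i1 i2 | smash s t i1 i2 =>
    simp only [Tm.subst, Tm.e, ETm.subst, i1, i2]

theorem Fm.subst_e (x : ℕ) (u : Tm) (φ : Fm) : (φ.subst x u).e = φ.e.subst x u.e := by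
  induction φ with
  | bot => rfl
  | eq s t | le s t | orc t => simp only [Fm.subst, Fm.e, EFm.subst, Tm.subst_e]
  | imp φ ψ i1 i2 => simp only [Fm.subst, Fm.e, EFm.subst, i1, i2]
  | all y φ ih => by_cases h : x = y <;> simp [Fm.subst, Fm.e, EFm.subst, h, ih]

theorem Cls.e {c σ : Bool} {φ : Fm} (h : Cls c σ φ) : ECls c σ φ.e := by
  induction h with
  | bot σ => exact .bot σ
  | eq σ s t => exact .eq σ _ _
  | le σ s t => exact .le σ _ _
  | orc σ t => exact .orc σ _
  | imp σ _ _ i1 i2 => exact .imp σ i1 i2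
  | ball h _ ih => exact .ball (mt (Tm.occ_e _ _).1 h) ih
  | sharp h _ ih => exact .sharp (mt (Tm.occ_e _ _).1 h) ih
  | wide h0 h _ ih => exact .wide h0 (mt (Tm.occ_e _ _).1 h) ih

variable {b : Bool}

theorem EPrv.mono {Γ Δ : Set EFm} {φ : EFm} (h : EPrv b Γ φ) (hs : Γ ⊆ Δ) : EPrv b Δ φ := by
  induction h with
  | hyp h => exact .hyp (hs h)
  | k => exact .k ..
  | s => exact .s ..
  | dn => exact .dn ..
  | inst x u φ h => exact .inst x u φ h
  | dist => exact .dist ..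
  | vac x φ h => exact .vac x φ h
  | mp _ _ i1 i2 => exact .mp i1 i2
  | gen x _ ih => exact .gen x ih
  | ax h => exact .ax h
  | ind x h => exact .ind x h
  | cong k => exact .cong k

/-- Soundness of the extended calculus. -/
theorem EPrv.sound {Γ : Set EFm} {φ : EFm} (h : EPrv b Γ φ) (M : Mdl b) (c : ℕ → M)
    (X : ℕ → M → Prop) (hΓ : ∀ ψ ∈ Γ, ∀ v, ψ.ev M.toStr c X v) : ∀ v, φ.ev M.toStr c X v := by
  induction h with
  | hyp h => exact hΓ _ h
  | k => exact fun _ h _ => h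
  | s => exact fun _ h1 h2 h3 => h1 h3 (h2 h3)
  | dn => exact fun _ h => not_not.1 h
  | inst x u φ h => exact fun v h1 => (EFm.ev_subst x u φ v h).2 (h1 _)
  | dist => exact fun _ h1 h2 u => h1 u (h2 u)
  | vac x φ h => exact fun v h1 u => (EFm.ev_update h u).2 h1
  | mp _ _ i1 i2 => exact fun v => i1 v (i2 v)
  | gen _ _ ih => exact fun v u => ih _
  | ax h => exact fun v => (Fm.ev_e _ v).2 ((BPrv.ax h).sound M v)
  | ind x h => exact fun v => (Fm.ev_e _ v).2 (M.hind x _ h v)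
  | cong k =>
    intro v h1 h2
    change v 0 = v 1 at h1
    change X k (v 0) at h2
    exact (h1 ▸ h2 : X k (v 1))

/-! ### First-order definability -/

abbrev XPred (b : Bool) : Type 1 := ∀ M : Mdl b, (ℕ → M → Prop) → (ℕ → M) → Prop

/-- defined by a formula with predicate letters -/
class UF (P : XPred b) : Prop where
  out : ∃ φ : EFm, ∀ (M : Mdl b) (c : ℕ → M) (X : ℕ → M → Prop) (v : ℕ → M),
    φ.ev M.toStr c X v ↔ P M X v

/-- defined by a formula -/
class UP (P : UPred b) : Prop where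
  out : ∃ φ : Fm, ∀ (M : Mdl b) (v : ℕ → M), φ.ev M.toStr v ↔ P M v

section
variable {P Q : XPred b} {R : UPred b} {f : UFun b}
  {B : ∀ M : Mdl b, (ℕ → M → Prop) → (ℕ → M) → M → Prop}

instance UP.ofUF [h : UF fun M _ v => R M v] : UP R := by
  obtain ⟨φ, h⟩ := h.out
  exact ⟨φ.er, fun M v => by rw [EFm.ev_er, h]⟩

/-- not an instance; use it to register a definable predicate -/
theorem UP.uf (h : UP R) : UF fun M _ v => R M v := by
  obtain ⟨φ, h⟩ := h.out
  exact ⟨φ.e, fun M c X v => by rw [Fm.ev_e, h]⟩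

theorem UC.up {c σ : Bool} (h : UC c σ R) : UP R := by
  obtain ⟨φ, _, h⟩ := h
  exact ⟨φ, h⟩

theorem UF.congr (h : UF P) (e : ∀ M X v, P M X v ↔ Q M X v) : UF Q := by
  obtain ⟨φ, h⟩ := h.out
  exact ⟨φ, fun M c X v => (h M c X v).trans (e M X v)⟩

theorem UP.congr {R' : UPred b} (h : UP R) (e : ∀ M v, R M v ↔ R' M v) : UP R' := by
  obtain ⟨φ, h⟩ := h.out
  exact ⟨φ, fun M v => (h M v).trans (e M v)⟩

theorem UF.ren (h : UF P) {g : ℕ → ℕ} (hg : Injective g) :
    UF fun M X v => P M X (fun i => v (g i)) := by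
  obtain ⟨φ, h⟩ := h.out
  exact ⟨φ.ren g, fun M c X v => by rw [EFm.ev_ren hg, h]⟩

instance (priority := 100) UF.sig [h : USig R] : UF fun M _ v => R M v := h.out.up.uf
instance (priority := 90) UF.pi [h : UPi R] : UF fun M _ v => R M v := h.out.up.uf
instance UF.imp [h : UF P] [h' : UF Q] : UF fun M X v => P M X v → Q M X v := by
  obtain ⟨φ, h⟩ := h.out
  obtain ⟨ψ, h'⟩ := h'.out
  exact ⟨φ.imp ψ, fun M c X v => by rw [EFm.ev, h, h']⟩
instance UF.not [h : UF P] : UF fun M X v => ¬ P M X v :=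
  (inferInstance : UF fun M X v => P M X v → False)
instance UF.and [UF P] [UF Q] : UF fun M X v => P M X v ∧ Q M X v :=
  (inferInstance : UF fun M X v => ¬ (P M X v → ¬ Q M X v)).congr fun _ _ _ => by tauto
instance UF.or [UF P] [UF Q] : UF fun M X v => P M X v ∨ Q M X v :=
  (inferInstance : UF fun M X v => ¬ P M X v → Q M X v).congr fun _ _ _ => by tauto
instance UF.iff [UF P] [UF Q] : UF fun M X v => P M X v ↔ Q M X v :=
  (inferInstance : UF fun M X v => (P M X v → Q M X v) ∧ (Q M X v → P M X v)).congr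
    fun _ _ _ => by tauto

theorem UF.allC (h : UF P) : UF fun M X v => ∀ x, P M X (cons x v) := by
  obtain ⟨φ, h⟩ := h.out
  refine ⟨.all φ.mx (φ.ren (bindF φ.mx)), fun M c X v => forall_congr' fun x => ?_⟩
  rw [EFm.ev_ren (bindF_inj _), ← h M c]
  refine φ.ev_congr fun y hy => ?_
  have := EFm.lt_mx hy
  rcases y with _ | y
  · simp [bindF]
  · have h1 : y < φ.mx := by omega
    simp [bindF, h1, update_of_ne h1.ne]

instance UF.all [h : UF fun M X v => B M X (fun i => v (i + 1)) (v 0)] :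
    UF fun M X v => ∀ x, B M X v x := h.allC
instance UF.ex [h : UF fun M X v => B M X (fun i => v (i + 1)) (v 0)] :
    UF fun M X v => ∃ x, B M X v x :=
  (inferInstance : UF fun M X v => ¬ ∀ x, ¬ B M X v x).congr fun _ _ _ => by simp

theorem UF.sub1 (hf : UFn f) (h : UF P) : UF fun M X v => P M X (cons (f M v) v) := by
  have := hf.gr.up.uf
  exact (UF.allC (P := fun M X v => v 0 = f M (fun i => v (i + 1)) → P M X v)
    inferInstance).congr fun M X v => by simp

theorem UF.compN (N : ℕ) : ∀ {P : XPred b} (g : ℕ → UFun b), UF P → (∀ i, UFn (g i)) →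
    UF fun M X v => P M X (fun i => if i < N then g i M v else v (i - N)) := by
  induction N with
  | zero => intro P g h _; simpa using h
  | succ N ih =>
    intro P g h hg
    have h1 := ih (fun i M v => g i M (fun j => v (j + 1))) h (fun i => (hg i).tail)
    refine (UF.sub1 (hg N) h1).congr fun M X v => ?_
    refine iff_of_eq (congrArg _ (funext fun i => ?_))
    rcases lt_trichotomy i N with h | h | h
    · simp [h, Nat.lt_succ_of_lt h]
    · simp [h]
    · have : i - N = (i - (N + 1)) + 1 := by omega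
      rw [if_neg (by omega), if_neg (by omega), this, cons_succ]

theorem UF.comp (h : UF P) (g : ℕ → UFun b) (hg : ∀ i, UFn (g i)) :
    UF fun M X v => P M X (fun i => g i M v) := by
  obtain ⟨φ, hφ⟩ := h.out
  refine (UF.compN φ.mx g h hg).congr fun M X v => ?_
  rw [← hφ M v, ← hφ M v]
  exact φ.ev_congr fun i hi => if_pos (EFm.lt_mx hi)

theorem UP.comp (h : UP R) (g : ℕ → UFun b) (hg : ∀ i, UFn (g i)) :
    UP fun M v => R M (fun i => g i M v) := @UP.ofUF _ _ (h.uf.comp g hg)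

instance UF.prd (k : ℕ) [hf : UFn f] : UF fun M X v => X k (f M v) :=
  UF.comp (P := fun _ X v => X k (v 0)) ⟨.prd k (.var 0), fun _ _ _ _ => Iff.rfl⟩
    (fun _ => f) fun _ => hf

theorem UF.app1 {T : ∀ M : Mdl b, (ℕ → M → Prop) → M → Prop} (h : UF fun M X v => T M X (v 0))
    (hf : UFn f) : UF fun M X v => T M X (f M v) :=
  h.comp (args [f]) (args_UFn _ (by simpa using hf))
theorem UF.app2 {T : ∀ M : Mdl b, (ℕ → M → Prop) → M → M → Prop} {g : UFun b}
    (h : UF fun M X v => T M X (v 0) (v 1)) (hf : UFn f) (hg : UFn g) :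
    UF fun M X v => T M X (f M v) (g M v) :=
  h.comp (args [f, g]) (args_UFn _ (by simpa using ⟨hf, hg⟩))
theorem UF.app3 {T : ∀ M : Mdl b, (ℕ → M → Prop) → M → M → M → Prop} {g k : UFun b}
    (h : UF fun M X v => T M X (v 0) (v 1) (v 2)) (hf : UFn f) (hg : UFn g) (hk : UFn k) :
    UF fun M X v => T M X (f M v) (g M v) (k M v) :=
  h.comp (args [f, g, k]) (args_UFn _ (by simpa using ⟨hf, hg, hk⟩))
theorem UF.app4 {T : ∀ M : Mdl b, (ℕ → M → Prop) → M → M → M → M → Prop} {g k j : UFun b}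
    (h : UF fun M X v => T M X (v 0) (v 1) (v 2) (v 3)) (hf : UFn f) (hg : UFn g) (hk : UFn k)
    (hj : UFn j) : UF fun M X v => T M X (f M v) (g M v) (k M v) (j M v) :=
  h.comp (args [f, g, k, j]) (args_UFn _ (by simpa using ⟨hf, hg, hk, hj⟩))

instance UF.listAll {ι : Type} (l : List ι) {T : ι → XPred b} [h : ∀ r, UF (T r)] :
    UF fun M X v => ∀ r ∈ l, T r M X v := by
  induction l with
  | nil => exact (inferInstance : UF fun (_ : Mdl b) _ _ => True).congr fun _ _ _ => by simp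
  | cons a l ih =>
    exact (inferInstance : UF fun M X v => T a M X v ∧ ∀ r ∈ l, T r M X v).congr
      fun _ _ _ => by simp
instance UF.listEx {ι : Type} (l : List ι) {T : ι → XPred b} [h : ∀ r, UF (T r)] :
    UF fun M X v => ∃ r ∈ l, T r M X v :=
  (inferInstance : UF fun M X v => ¬ ∀ r ∈ l, ¬ T r M X v).congr fun _ _ _ => by simp
instance (priority := 110) UF.finAll {ι : Type} [Finite ι] {T : ι → XPred b} [h : ∀ r, UF (T r)] :
    UF fun M X v => ∀ r, T r M X v := by
  have := Fintype.ofFinite ι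
  exact (UF.listAll (T := T) (Finset.univ : Finset ι).toList).congr fun _ _ _ => by simp
instance (priority := 110) UF.finEx {ι : Type} [Finite ι] {T : ι → XPred b} [h : ∀ r, UF (T r)] :
    UF fun M X v => ∃ r, T r M X v :=
  (inferInstance : UF fun M X v => ¬ ∀ r, ¬ T r M X v).congr fun _ _ _ => by simp

end

end Pool.Agent.PLO

end Part0

section Part1

/-! Cuts, cut models, absoluteness, and the cut `Jc`. -/

namespace Pool.Agent.PLO

open Function

variable {b : Bool} {M : Mdl b}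

/-- an initial segment closed under the operations -/
structure IsCut (I : M → Prop) : Prop where
  zero : I 0
  down : ∀ {x y : M}, x ≤ y → I y → I x
  succ : ∀ {x : M}, I x → I (x + 1)
  add : ∀ {x y : M}, I x → I y → I (x + y)
  mul : ∀ {x y : M}, I x → I y → I (x * y)
  smash : ∀ {x y : M}, I x → I y → I (smash x y)

namespace IsCut
variable {I : M → Prop} (h : IsCut I)
include h

theorem len {x : M} (hx : I x) : I (len x) := h.down (len_le x) hx
theorem half {x : M} (hx : I x) : I (half x) := h.down (half_le x) hx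
theorem one : I 1 := by simpa using h.succ h.zero
theorem nat (n : ℕ) : I (n : M) := by
  induction n with
  | zero => simpa using h.zero
  | succ n ih => simpa using h.succ ih
theorem two : I 2 := h.nat 2
theorem pw {x : M} (hx : I x) : I (pw x) := h.smash h.one hx
theorem tm {v : ℕ → M} (hv : ∀ i, I (v i)) (t : Tm) : I (t.ev M.toStr v) := by
  induction t with
  | var x => exact hv x
  | zero => exact h.zero
  | succ t ih => rw [Tm.ev_succ]; exact h.succ ih
  | len t ih => exact h.len ih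
  | half t ih => exact h.half ih
  | add s t i1 i2 => exact h.add i1 i2
  | mul s t i1 i2 => exact h.mul i1 i2
  | smash s t i1 i2 => exact h.smash i1 i2
theorem fn {f : UFun b} (hf : UFn f) {v : ℕ → M} (hv : ∀ i, I (v i)) : I (f M v) := by
  obtain ⟨t, ht⟩ := hf.bd
  exact h.down (ht M v) (h.tm hv t)
theorem pr {x y : M} (hx : I x) (hy : I y) : I (pr x y) :=
  h.fn (f := fun _ v => PLO.pr (v 0) (v 1)) inferInstance (v := cons x fun _ => y)
    (by rintro (_ | i); exacts [hx, hy])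

/-- the substructure on a cut -/
def str : Str where
  α := {x : M // I x}
  z := ⟨0, h.zero⟩
  s x := ⟨M.s x.1, by have := h.succ x.2; rwa [← Boot.S_eq] at this⟩
  l x := ⟨M.l x.1, h.len x.2⟩
  h x := ⟨M.h x.1, h.half x.2⟩
  a x y := ⟨M.a x.1 y.1, h.add x.2 y.2⟩
  m x y := ⟨M.m x.1 y.1, h.mul x.2 y.2⟩
  sm x y := ⟨M.sm x.1 y.1, h.smash x.2 y.2⟩
  le x y := M.le x.1 y.1
  o x := M.o x.1

theorem ev_tm (v : ℕ → h.str.α) (t : Tm) : (t.ev h.str v).1 = t.ev M.toStr (fun i => (v i).1) := by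
  induction t with
  | var x => rfl
  | zero => rfl
  | succ t ih | len t ih | half t ih => simp only [Tm.ev, ← ih]; rfl
  | add s t i1 i2 | mul s t i1 i2 | smash s t i1 i2 => simp only [Tm.ev, ← i1, ← i2]; rfl

theorem val_update (v : ℕ → h.str.α) (x : ℕ) (u : h.str.α) :
    (fun i => (update v x u i).1) = update (fun i => (v i).1) x u.1 := by
  funext i
  by_cases e : i = x
  · subst e; simp
  · simp [update_of_ne e]

theorem ev_ball {x : ℕ} {t : Tm} {φ : Fm} (ht : ¬ t.occ x)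
    (ih : ∀ v : ℕ → h.str.α, φ.ev h.str v ↔ φ.ev M.toStr (fun i => (v i).1)) (v : ℕ → h.str.α) :
    (Fm.ball x t φ).ev h.str v ↔ (Fm.ball x t φ).ev M.toStr (fun i => (v i).1) := by
  rw [Fm.ev_ball _ ht]
  have e : ∀ u : h.str.α, (Fm.le (.var x) t).ev h.str (update v x u) ↔
      u.1 ≤ t.ev M.toStr (fun i => (v i).1) := fun u => by
    show M.le ((update v x u) x).1 (t.ev h.str (update v x u)).1 ↔ _
    rw [Tm.ev_update ht, h.ev_tm, update_self]; rfl
  constructor
  · intro h1 u hu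
    have hI : I u := h.down hu (h.tm (fun i => (v i).2) t)
    have := h1 ⟨u, hI⟩ ((e _).2 hu)
    rwa [ih, h.val_update] at this
  · intro h1 u hu
    rw [ih, h.val_update]
    exact h1 _ ((e _).1 hu)

/-- bounded formulas are absolute -/
theorem ev_cls {c σ : Bool} {φ : Fm} (hφ : Cls c σ φ) :
    ∀ v : ℕ → h.str.α, φ.ev h.str v ↔ φ.ev M.toStr (fun i => (v i).1) := by
  induction hφ with
  | bot => intro _; rfl
  | eq σ s t => intro v; simp only [Fm.ev, ← h.ev_tm]; exact Subtype.ext_iff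
  | le σ s t => intro v; simp only [Fm.ev, ← h.ev_tm]; rfl
  | orc σ t => intro v; simp only [Fm.ev, ← h.ev_tm]; rfl
  | imp σ _ _ i1 i2 => intro v; simp only [Fm.ev, i1, i2]
  | ball ht _ ih => exact h.ev_ball ht ih
  | sharp ht _ ih => exact h.ev_ball (t := .len _) ht ih
  | wide _ ht _ ih => exact h.ev_ball ht ih

end IsCut

theorem basic_cls : ∀ φ ∈ basic, Cls true true φ := by
  have h : ∀ φ ∈ basic, ∀ σ, Cls true σ φ := by
    simp only [basic, List.mem_cons, List.not_mem_nil, or_false, forall_eq_or_imp, forall_eq,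
      Fm.iff, Fm.and, Fm.or, Fm.ne, Fm.neg]
    refine ⟨?_, ?_, ?_, ?_, ?_, ?_, ?_, ?_, ?_, ?_, ?_, ?_, ?_, ?_, ?_, ?_, ?_, ?_, ?_, ?_, ?_, ?_,
      ?_, ?_, ?_, ?_, ?_, ?_, ?_, ?_, ?_, ?_⟩ <;> intro σ <;> repeat' constructor
  exact fun φ hφ => h φ hφ true

/-- the model on a cut -/
def IsCut.mdl {I : M → Prop} (h : IsCut I) : Mdl b where
  toStr := h.str
  hax φ hφ v := (h.ev_cls (basic_cls φ hφ) v).2 (M.hax φ hφ _)
  hind x φ hφ v := by
    have f0 : φ.freeFor x .zero := Fm.freeFor_of_occ (u := .zero) (fun _ h => False.elim h) φ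
    have f1 : φ.freeFor x (.half (.var x)) := Fm.freeFor_of_occ (u := .half (.var x)) (fun _ h => h) φ
    intro h0 hs u
    rw [Fm.ev_subst _ _ _ _ f0, h.ev_cls hφ, h.val_update] at h0
    rw [h.ev_cls hφ, h.val_update]
    have hP : UC b true fun (M : Mdl b) v => φ.ev M.toStr (update (fun i => v (i + 2)) x (v 0)) :=
      (UC.comp (P := fun M v => φ.ev M.toStr v) ⟨φ, hφ, fun _ _ => Iff.rfl⟩
        (fun i _ v => if i = x then v 0 else v (i + 2)) (fun i => by
          by_cases e : i = x <;> simp only [e, if_true, if_false] <;> infer_instance)).congr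
        fun M v => iff_of_eq (congrArg _ (funext fun i => by simp [update_apply]))
    refine pind_cls (fun M y w => y ≤ w 0 → φ.ev M.toStr (update (fun i => w (i + 1)) x y))
      (UC.imp (UC.le inferInstance inferInstance) hP) (cons u.1 fun i => (v i).1)
      (fun _ => h0) (fun y _ ih hy => ?_) u.1 le_rfl
    have hy' : I y := h.down hy u.2
    have := hs ⟨y, hy'⟩
    rw [Fm.ev_imp, Fm.ev_subst _ _ _ _ f1, update_idem, h.ev_cls hφ, h.ev_cls hφ, h.val_update,
      h.val_update] at this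
    refine this ?_
    have h3 := ih ((half_le y).trans hy)
    have e : (Tm.ev h.str (update v x ⟨y, hy'⟩) (Tm.var x).half).1 = PLO.half y := by
      simp only [Tm.ev, update_self]; rfl
    rw [e]; exact h3

namespace IsCut
variable {I : M → Prop} (h : IsCut I)

/-- the inclusion of the cut model -/
def val (x : h.mdl) : M := Subtype.val (p := I) x
/-- an element of the cut as an element of the cut model -/
def elt (x : M) (hx : I x) : h.mdl := (⟨x, hx⟩ : {x : M // I x})

@[simp] theorem val_elt (x : M) (hx : I x) : h.val (h.elt x hx) = x := rfl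
@[simp] theorem elt_val (x : h.mdl) (hx : I (h.val x)) : h.elt (h.val x) hx = x := rfl
theorem val_mem (x : h.mdl) : I (h.val x) := Subtype.property (p := I) x
theorem val_inj {x y : h.mdl} : h.val x = h.val y ↔ x = y := Subtype.ext_iff.symm
theorem val_le {x y : h.mdl} : h.val x ≤ h.val y ↔ x ≤ y := Iff.rfl
theorem val_upd (v : ℕ → h.mdl) (x : ℕ) (u : h.mdl) :
    (fun i => h.val (update v x u i)) = update (fun i => h.val (v i)) x (h.val u) :=
  h.val_update v x u
theorem val_cons (v : ℕ → h.mdl) (u : h.mdl) :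
    (fun i => h.val (cons u v i)) = cons (h.val u) (fun i => h.val (v i)) := by
  funext i; cases i <;> rfl
theorem val_tm (v : ℕ → h.mdl) (t : Tm) :
    h.val (t.ev h.mdl.toStr v) = t.ev M.toStr (fun i => h.val (v i)) := h.ev_tm v t

/-- uniformly bounded predicates are absolute -/
theorem abs {c σ : Bool} {P : UPred b} (hP : UC c σ P) (v : ℕ → h.mdl) :
    P h.mdl v ↔ P M (fun i => h.val (v i)) := by
  obtain ⟨φ, h1, h2⟩ := hP
  rw [← h2, ← h2]
  exact h.ev_cls h1 v

/-- uniformly definable functions are absolute -/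
theorem abs_fn {f : UFun b} (hf : UFn f) (v : ℕ → h.mdl) :
    h.val (f h.mdl v) = f M (fun i => h.val (v i)) :=
  (h.abs hf.gr (cons (f h.mdl v) v)).1 rfl

@[simp] theorem val_zero : h.val 0 = 0 := rfl
@[simp] theorem val_add (x y : h.mdl) : h.val (x + y) = h.val x + h.val y := rfl
@[simp] theorem val_mul (x y : h.mdl) : h.val (x * y) = h.val x * h.val y := rfl
@[simp] theorem val_nat (n : ℕ) : h.val (n : h.mdl) = n :=
  h.abs_fn (f := fun M _ => (n : M)) inferInstance fun _ => 0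
@[simp] theorem val_half (x : h.mdl) : h.val (PLO.half x) = PLO.half (h.val x) :=
  rfl
@[simp] theorem val_len (x : h.mdl) : h.val (PLO.len x) = PLO.len (h.val x) :=
  rfl

end IsCut

/-- the cut generated by an assignment -/
theorem isCut_gen (v : ℕ → M) : IsCut fun x : M => ∃ t : Tm, x ≤ t.ev M.toStr v where
  zero := ⟨.zero, le_rfl⟩
  down h := fun ⟨t, ht⟩ => ⟨t, h.trans ht⟩
  succ := fun ⟨t, ht⟩ => ⟨t.succ, by rw [Tm.ev_succ]; gcongr⟩
  add := fun ⟨s, hs⟩ ⟨t, ht⟩ => ⟨s.add t, by rw [Tm.ev_add]; gcongr⟩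
  mul := fun ⟨s, hs⟩ ⟨t, ht⟩ => ⟨s.mul t, by rw [Tm.ev_mul]; gcongr⟩
  smash := fun ⟨s, hs⟩ ⟨t, ht⟩ => ⟨s.smash t, smash_mono_len (len_mono hs) (len_mono ht)⟩

theorem pw_le (x : M) : pw x ≤ 2 * x + 1 := by
  by_cases h : x = 0
  · simp [h]
  · rw [pw_half h]
    have := pw_half_le h
    zify at this ⊢
    linarith

theorem len_pw_mul_pw (x y : M) : len (pw x * pw y) = len x + len y + 1 := by
  rw [len_mul_pw (pw_pos x).ne', len_pw]; ring

end Pool.Agent.PLO

end Part1

section Part2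

/-! The arithmetised calculus inside a model; codes of extended formulas; the box. -/

namespace Pool.Agent.PLO

open Function

variable {b : Bool} {M : Mdl b}

/-! ### Judgements and codes -/

abbrev jT (p : M) : M := pr 0 p
abbrev jF (p : M) : M := pr 1 p
abbrev jN (x p : M) : M := pr 2 (pr x p)
abbrev jS (x u p q : M) : M := pr 3 (pr (pr x u) (pr p q))
abbrev jC (σ : Bool) (p : M) : M := pr ((if σ then 4 else 5 : ℕ) : M) p
abbrev jP (p : M) : M := pr 6 p
abbrev jM (x p : M) : M := pr 7 (pr x p)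
abbrev cOrc (t : M) : M := pr 13 t
abbrev cDbl (t : M) : M := pr 6 (pr ((Tm.two.code : ℕ) : M) t)
abbrev cVar (x : M) : M := pr 0 x
abbrev cZero : M := pr 1 0
abbrev cBot : M := pr 8 0
abbrev cEq (s t : M) : M := pr 9 (pr s t)
abbrev cLe (s t : M) : M := pr 10 (pr s t)
abbrev cImp (p q : M) : M := pr 11 (pr p q)
abbrev cAll (x p : M) : M := pr 12 (pr x p)
abbrev cNeg (p : M) : M := cImp p cBot
abbrev cBall (x t p : M) : M := cAll x (cImp (cLe (cVar x) t) p)

/-- the value of a pattern -/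
def Pat.ev (m : ℕ → M) : Pat → M
  | .mv i => m i
  | .cst n => (n : M)
  | .pr p q => PLO.pr (p.ev m) (q.ev m)

/-- `y` follows by one rule from judgements in `Pm` -/
inductive Rl (Pm : M → Prop) : M → Prop
  | tVar (a : M) : Rl Pm (jT (cVar a))
  | tZero : Rl Pm (jT cZero)
  | t1 (k : ℕ) (hk : k ∈ [2, 3, 4]) {a : M} : Pm (jT a) → Rl Pm (jT (pr k a))
  | t2 (k : ℕ) (hk : k ∈ [5, 6, 7]) {a c : M} : Pm (jT a) → Pm (jT c) → Rl Pm (jT (pr k (pr a c)))
  | fBot : Rl Pm (jF cBot)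
  | fImp {a c : M} : Pm (jF a) → Pm (jF c) → Rl Pm (jF (cImp a c))
  | fAll (a : M) {c : M} : Pm (jF c) → Rl Pm (jF (cAll a c))
  | fOrc {a : M} : Pm (jT a) → Rl Pm (jF (cOrc a))
  | f2 (k : ℕ) (hk : k ∈ [9, 10]) {a c : M} : Pm (jT a) → Pm (jT c) → Rl Pm (jF (pr k (pr a c)))
  | nVar {a c : M} : a ≠ c → Rl Pm (jN a (cVar c))
  | nZero (a : M) : Rl Pm (jN a cZero)
  | nBot (a : M) : Rl Pm (jN a cBot)
  | nSelf (a c : M) : Rl Pm (jN a (cAll a c))
  | nAll {a : M} (c : M) {d : M} : Pm (jN a d) → Rl Pm (jN a (cAll c d))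
  | n1 (k : ℕ) (hk : k ∈ [2, 3, 4, 13]) {a c : M} : Pm (jN a c) → Rl Pm (jN a (pr k c))
  | n2 (k : ℕ) (hk : k ∈ [5, 6, 7, 9, 10, 11]) {a c d : M} :
      Pm (jN a c) → Pm (jN a d) → Rl Pm (jN a (pr k (pr c d)))
  | sVar (a u : M) : Rl Pm (jS a u (cVar a) u)
  | sN {a : M} (u : M) {c : M} : Pm (jN a c) → Rl Pm (jS a u c c)
  | sAll {a u c d e : M} : Pm (jN a (cVar c)) → Pm (jN c u) → Pm (jS a u d e) →
      Rl Pm (jS a u (cAll c d) (cAll c e))
  | s1 (k : ℕ) (hk : k ∈ [2, 3, 4, 13]) {a u c d : M} :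
      Pm (jS a u c d) → Rl Pm (jS a u (pr k c) (pr k d))
  | s2 (k : ℕ) (hk : k ∈ [5, 6, 7, 9, 10, 11]) {a u c d e f : M} :
      Pm (jS a u c d) → Pm (jS a u e f) → Rl Pm (jS a u (pr k (pr c e)) (pr k (pr d f)))
  | kBot (σ : Bool) : Rl Pm (jC σ cBot)
  | kEq (σ : Bool) {a c : M} : Pm (jT a) → Pm (jT c) → Rl Pm (jC σ (cEq a c))
  | kLe (σ : Bool) {a c : M} : Pm (jT a) → Pm (jT c) → Rl Pm (jC σ (cLe a c))
  | kOrc (σ : Bool) {a : M} : Pm (jT a) → Rl Pm (jC σ (cOrc a))
  | kImp (σ : Bool) {a c : M} : Pm (jC (!σ) a) → Pm (jC σ c) → Rl Pm (jC σ (cImp a c))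
  | kBall {a t c : M} : Pm (jT t) → Pm (jN a t) → Pm (jC false c) →
      Rl Pm (jC false (cBall a t c))
  | kSharp {a t c : M} : Pm (jT t) → Pm (jN a t) → Pm (jC true c) →
      Rl Pm (jC true (cBall a (pr 3 t) c))
  | kWide {a t c : M} : b = true → Pm (jT t) → Pm (jN a t) → Pm (jC true c) →
      Rl Pm (jC true (cBall a t c))
  | mZero : Rl Pm (jM 0 cZero)
  | mEven {a c : M} : a ≠ 0 → Pm (jM a c) → Rl Pm (jM (2 * a) (cDbl c))
  | mOdd {a c : M} : Pm (jM a c) → Rl Pm (jM (2 * a + 1) (pr 2 (cDbl c)))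
  | pYes {a c : M} : Orc a → Pm (jM a c) → Rl Pm (jP (cOrc c))
  | pNo {a c : M} : ¬ Orc a → Pm (jM a c) → Rl Pm (jP (cNeg (cOrc c)))
  | pLst {a c : M} : Orc (pr a c) → Pm (jT (cVar a)) → Pm (jF c) → Rl Pm (jP c)
  | pK {a c : M} : Pm (jF a) → Pm (jF c) → Rl Pm (jP (cImp a (cImp c a)))
  | pS {a c d : M} : Pm (jF a) → Pm (jF c) → Pm (jF d) →
      Rl Pm (jP (cImp (cImp a (cImp c d)) (cImp (cImp a c) (cImp a d))))
  | pDn {a : M} : Pm (jF a) → Rl Pm (jP (cImp (cNeg (cNeg a)) a))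
  | pInst {a u c d : M} : Pm (jF c) → Pm (jT u) → Pm (jS a u c d) →
      Rl Pm (jP (cImp (cAll a c) d))
  | pDist (a : M) {c d : M} : Pm (jF c) → Pm (jF d) →
      Rl Pm (jP (cImp (cAll a (cImp c d)) (cImp (cAll a c) (cAll a d))))
  | pVac {a c : M} : Pm (jF c) → Pm (jN a c) → Rl Pm (jP (cImp c (cAll a c)))
  | pMp {a c : M} : Pm (jP (cImp a c)) → Pm (jP a) → Rl Pm (jP c)
  | pGen (a : M) {c : M} : Pm (jP c) → Rl Pm (jP (cAll a c))
  | pInd {a c d e : M} : Pm (jC true c) → Pm (jS a cZero c d) → Pm (jS a (pr 4 (cVar a)) c e) →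
      Rl Pm (jP (cImp d (cImp (cAll a (cImp e c)) (cAll a c))))
  | pAx {φ : Fm} : φ ∈ eqAx ++ basic → Rl Pm (jP ((φ.code : ℕ) : M))

theorem Rl.mono {Pm Pm' : M → Prop} (h : ∀ j, Pm j → Pm' j) {y : M} (hy : Rl Pm y) :
    Rl Pm' y := by
  cases hy with
  | tVar a => exact .tVar a
  | tZero  => exact .tZero
  | t1 k hk h0 => exact .t1 k hk (h _ h0)
  | t2 k hk h0 h1 => exact .t2 k hk (h _ h0) (h _ h1)
  | fBot  => exact .fBot
  | fImp h0 h1 => exact .fImp (h _ h0) (h _ h1)
  | fAll a h0 => exact .fAll a (h _ h0)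
  | fOrc h0 => exact .fOrc (h _ h0)
  | f2 k hk h0 h1 => exact .f2 k hk (h _ h0) (h _ h1)
  | nVar h0 => exact .nVar h0
  | nZero a => exact .nZero a
  | nBot a => exact .nBot a
  | nSelf a c => exact .nSelf a c
  | nAll c h0 => exact .nAll c (h _ h0)
  | n1 k hk h0 => exact .n1 k hk (h _ h0)
  | n2 k hk h0 h1 => exact .n2 k hk (h _ h0) (h _ h1)
  | sVar a u => exact .sVar a u
  | sN u h0 => exact .sN u (h _ h0)
  | sAll h0 h1 h2 => exact .sAll (h _ h0) (h _ h1) (h _ h2)
  | s1 k hk h0 => exact .s1 k hk (h _ h0)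
  | s2 k hk h0 h1 => exact .s2 k hk (h _ h0) (h _ h1)
  | kBot σ => exact .kBot σ
  | kEq σ h0 h1 => exact .kEq σ (h _ h0) (h _ h1)
  | kLe σ h0 h1 => exact .kLe σ (h _ h0) (h _ h1)
  | kOrc σ h0 => exact .kOrc σ (h _ h0)
  | mZero => exact .mZero
  | mEven h0 h1 => exact .mEven h0 (h _ h1)
  | mOdd h0 => exact .mOdd (h _ h0)
  | pYes h0 h1 => exact .pYes h0 (h _ h1)
  | pNo h0 h1 => exact .pNo h0 (h _ h1)
  | pLst h0 h1 h2 => exact .pLst h0 (h _ h1) (h _ h2)
  | kImp σ h0 h1 => exact .kImp σ (h _ h0) (h _ h1)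
  | kBall h0 h1 h2 => exact .kBall (h _ h0) (h _ h1) (h _ h2)
  | kSharp h0 h1 h2 => exact .kSharp (h _ h0) (h _ h1) (h _ h2)
  | kWide h0 h1 h2 h3 => exact .kWide h0 (h _ h1) (h _ h2) (h _ h3)
  | pK h0 h1 => exact .pK (h _ h0) (h _ h1)
  | pS h0 h1 h2 => exact .pS (h _ h0) (h _ h1) (h _ h2)
  | pDn h0 => exact .pDn (h _ h0)
  | pInst h0 h1 h2 => exact .pInst (h _ h0) (h _ h1) (h _ h2)
  | pDist a h0 h1 => exact .pDist a (h _ h0) (h _ h1)
  | pVac h0 h1 => exact .pVac (h _ h0) (h _ h1)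
  | pMp h0 h1 => exact .pMp (h _ h0) (h _ h1)
  | pGen a h0 => exact .pGen a (h _ h0)
  | pInd h0 h1 h2 => exact .pInd (h _ h0) (h _ h1) (h _ h2)
  | pAx h0 => exact .pAx h0

theorem Rl.ne_zero {Pm : M → Prop} {y : M} (hy : Rl Pm y) : y ≠ 0 := by
  cases hy <;> exact pr_ne_zero _ _

/-- `y` follows by one rule from rows before row `i` -/
def Step (s a i y : M) : Prop := Rl (fun j => ∃ k < i, row s a k = j) y
/-- the array is a derivation from the hypotheses `H` -/
def HDer (H : M → Prop) (s a : M) : Prop :=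
  ∀ i ≤ len s, row s a i = 0 ∨ H (row s a i) ∨ Step s a i (row s a i)
/-- `y` is a row of the array -/
def Mem (y s a : M) : Prop := ∃ i ≤ len s, row s a i = y
/-- derivable from the hypotheses `H` -/
def HD (H : M → Prop) (y : M) : Prop := ∃ s a, HDer H s a ∧ Mem y s a
/-- derivable -/
def Dv (y : M) : Prop := HD (fun _ => False) y
/-- derivable by a derivation below `q` -/
def Pf (y q : M) : Prop := ∃ s ≤ q, ∃ a ≤ q, HDer (fun _ => False) s a ∧ Mem y s a

theorem HDer.mono {H H' : M → Prop} (h : ∀ j, H j → H' j) {s a : M} (hs : HDer H s a) :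
    HDer H' s a := fun i hi => (hs i hi).imp_right (Or.imp_left (h _))
theorem HD.mono {H H' : M → Prop} (h : ∀ j, H j → H' j) {y : M} (hy : HD H y) : HD H' y :=
  let ⟨s, a, h1, h2⟩ := hy; ⟨s, a, h1.mono h, h2⟩
theorem Dv.hd {y : M} (h : Dv y) (H : M → Prop) : HD H y := HD.mono (fun _ h => h.elim) h
theorem Pf.dv {y q : M} (h : Pf y q) : Dv y := let ⟨s, _, a, _, h⟩ := h; ⟨s, a, h⟩
theorem Pf.mono {y q q' : M} (h : Pf y q) (e : q ≤ q') : Pf y q' :=
  let ⟨s, hs, a, ha, h⟩ := h; ⟨s, hs.trans e, a, ha.trans e, h⟩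
theorem Dv.pf {y : M} (h : Dv y) : ∃ q, Pf y q :=
  let ⟨s, a, h⟩ := h; ⟨s + a, s, le_self_add, a, le_add_self, h⟩
theorem Mem.le {y s a : M} (h : Mem y s a) : y ≤ s := by
  obtain ⟨i, _, rfl⟩ := h; exact row_le _ _ _

/-- the step relation is `Σ^b_1` (proved in row POSTA) -/
class HasPost (b : Bool) : Prop where
  out : USig fun (_ : Mdl b) v => Step (v 0) (v 1) (v 2) (v 3)

section Inst
variable {f g h k : UFun b}

instance sigMem [hf : UFn f] [hg : UFn g] [hh : UFn h] :
    USig fun M v => Mem (f M v) (g M v) (h M v) :=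
  ⟨UC.app3 (P := fun _ y s a => Mem y s a) (by unfold Mem; exact USig.out) hf hg hh⟩

variable [hp : HasPost b]

instance sigStep [hf : UFn f] [hg : UFn g] [hh : UFn h] [hk : UFn k] :
    USig fun M v => Step (f M v) (g M v) (h M v) (k M v) :=
  ⟨UC.app4 (P := fun _ s a i y => Step s a i y) hp.out.out hf hg hh hk⟩
instance sigDer [hf : UFn f] [hg : UFn g] :
    USig fun M v => HDer (fun _ => False) (f M v) (g M v) :=
  ⟨UC.app2 (P := fun _ s a => HDer (fun _ => False) s a) (by unfold HDer; exact USig.out) hf hg⟩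
instance sigDer1 [hf : UFn f] [hg : UFn g] [hh : UFn h] :
    USig fun M v => HDer (fun j => j = f M v) (g M v) (h M v) :=
  ⟨UC.app3 (P := fun _ y s a => HDer (fun j => j = y) s a) (by unfold HDer; exact USig.out)
    hf hg hh⟩
instance sigPf [hf : UFn f] [hg : UFn g] : USig fun M v => Pf (f M v) (g M v) :=
  ⟨UC.app2 (P := fun _ y q => Pf y q) (by unfold Pf; exact USig.out) hf hg⟩
instance ufDv [hf : UFn f] : UF fun M _ v => Dv (f M v) :=
  UF.app1 (T := fun _ _ y => Dv y) (by unfold Dv HD; infer_instance) hf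

end Inst

/-- closed under the rules -/
def Clo (D : M → Prop) : Prop := ∀ y, Rl D y → D y

/-- closed under the rules and containing everything derivable -/
structure Th (D : M → Prop) : Prop where
  clo : Clo D
  dv : ∀ y, Dv y → D y

/-! ### Codes of extended terms and formulas -/

/-- the code of an extended term: variables are renamed by `ι`, constant `k` becomes `c k` -/
def ETm.cd (ι : ℕ → ℕ) (c : ℕ → M) : ETm → M
  | var x => cVar (ι x : M)
  | cst k => c k
  | zero => cZero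
  | succ t => pr 2 (t.cd ι c)
  | len t => pr 3 (t.cd ι c)
  | half t => pr 4 (t.cd ι c)
  | add s t => pr 5 (pr (s.cd ι c) (t.cd ι c))
  | mul s t => pr 6 (pr (s.cd ι c) (t.cd ι c))
  | smash s t => pr 7 (pr (s.cd ι c) (t.cd ι c))

/-- the code of an extended formula: `prd k t` becomes `∀ p (p = t → ψ k)` -/
def EFm.cd (ι : ℕ → ℕ) (p : ℕ) (c ψ : ℕ → M) : EFm → M
  | bot => cBot
  | eq s t => cEq (s.cd ι c) (t.cd ι c)
  | le s t => cLe (s.cd ι c) (t.cd ι c)
  | imp φ χ => cImp (φ.cd ι p c ψ) (χ.cd ι p c ψ)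
  | all x φ => cAll (ι x : M) (φ.cd ι p c ψ)
  | prd k t => cAll (p : M) (cImp (cEq (cVar (p : M)) (t.cd ι c)) (ψ k))
  | orc t => cOrc (t.cd ι c)

/-- a good environment: the `c k` are closed terms, the `ψ k` formulas with only `p` free -/
structure Good (D : M → Prop) (ι : ℕ → ℕ) (p : ℕ) (c ψ : ℕ → M) : Prop where
  inj : Injective ι
  low : ∀ n < 5, ι n = n
  ne : ∀ n, ι n ≠ p
  tm : ∀ k, D (jT (c k))
  nc : ∀ k (x : ℕ), D (jN (x : M) (c k))
  fm : ∀ k, D (jF (ψ k))
  nf : ∀ k (x : ℕ), x ≠ p → D (jN (x : M) (ψ k))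

/-- the renaming that avoids `p` -/
def skip (p n : ℕ) : ℕ := if n < p then n else n + 1

theorem skip_inj (p : ℕ) : Injective (skip p) := by
  intro m n h; unfold skip at h; split_ifs at h <;> omega
theorem skip_ne (p n : ℕ) : skip p n ≠ p := by unfold skip; split_ifs <;> omega
theorem skip_lt {p n : ℕ} (h : n < p) : skip p n = n := if_pos h

theorem ETm.cd_congr {ι ι' : ℕ → ℕ} {c c' : ℕ → M} (t : ETm) (h : ∀ n < t.mx, ι n = ι' n)
    (h' : ∀ n < t.mx, c n = c' n) : t.cd ι c = t.cd ι' c' := by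
  induction t with
  | var x => simp only [ETm.cd, h x (Nat.lt_succ_self x)]
  | cst k => exact h' k (Nat.lt_succ_self k)
  | zero => rfl
  | succ t ih | len t ih | half t ih => simp only [ETm.cd, ih h h']
  | add s t i1 i2 | mul s t i1 i2 | smash s t i1 i2 =>
    simp only [ETm.cd, i1 (fun n hn => h n (lt_max_of_lt_left hn))
      (fun n hn => h' n (lt_max_of_lt_left hn)), i2 (fun n hn => h n (lt_max_of_lt_right hn))
      (fun n hn => h' n (lt_max_of_lt_right hn))]

theorem EFm.cd_congr {ι ι' : ℕ → ℕ} {p : ℕ} {c c' ψ ψ' : ℕ → M} (φ : EFm)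
    (h : ∀ n < φ.mx, ι n = ι' n) (h' : ∀ n < φ.mx, c n = c' n) (h'' : ∀ n < φ.mx, ψ n = ψ' n) :
    φ.cd ι p c ψ = φ.cd ι' p c' ψ' := by
  induction φ with
  | bot => rfl
  | eq s t | le s t =>
    simp only [EFm.cd, s.cd_congr (fun n hn => h n (lt_max_of_lt_left hn))
      (fun n hn => h' n (lt_max_of_lt_left hn)), t.cd_congr (fun n hn => h n (lt_max_of_lt_right hn))
      (fun n hn => h' n (lt_max_of_lt_right hn))]
  | imp φ χ i1 i2 =>
    simp only [EFm.cd, i1 (fun n hn => h n (lt_max_of_lt_left hn))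
      (fun n hn => h' n (lt_max_of_lt_left hn)) (fun n hn => h'' n (lt_max_of_lt_left hn)),
      i2 (fun n hn => h n (lt_max_of_lt_right hn)) (fun n hn => h' n (lt_max_of_lt_right hn))
      (fun n hn => h'' n (lt_max_of_lt_right hn))]
  | all x φ ih =>
    simp only [EFm.cd, h x (lt_max_of_lt_left (Nat.lt_succ_self x)),
      ih (fun n hn => h n (lt_max_of_lt_right hn)) (fun n hn => h' n (lt_max_of_lt_right hn))
      (fun n hn => h'' n (lt_max_of_lt_right hn))]
  | prd k t =>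
    simp only [EFm.cd, h'' k (lt_max_of_lt_left (Nat.lt_succ_self k)),
      t.cd_congr (fun n hn => h n (lt_max_of_lt_right hn)) (fun n hn => h' n (lt_max_of_lt_right hn))]
  | orc t => simp only [EFm.cd, t.cd_congr h h']

/-- without predicate letters the code does not depend on `p` and `ψ` -/
theorem Fm.cd_cl (ι : ℕ → ℕ) (p p' : ℕ) (c ψ ψ' : ℕ → M) (φ : Fm) :
    ∀ B, (φ.e.cl B).cd ι p c ψ = (φ.e.cl B).cd ι p' c ψ' := by
  induction φ with
  | bot | eq | le | orc => intro _; rfl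
  | imp φ χ i1 i2 => intro B; simp only [Fm.e, EFm.cl, EFm.cd, i1 B, i2 B]
  | all x φ ih => intro B; simp only [Fm.e, EFm.cl, EFm.cd, ih]

theorem Tm.cd_e (ι : ℕ → ℕ) (c : ℕ → M) (t : Tm) : t.e.cd ι c = ((t.ren ι).code : ℕ) := by
  induction t with
  | var x => simp [Tm.e, ETm.cd, Tm.ren, Tm.code, cast_npr]
  | zero => simp [Tm.e, ETm.cd, Tm.ren, Tm.code, cast_npr]
  | succ t ih | len t ih | half t ih => simp [Tm.e, ETm.cd, Tm.ren, Tm.code, cast_npr, ih]
  | add s t i1 i2 | mul s t i1 i2 | smash s t i1 i2 =>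
    simp [Tm.e, ETm.cd, Tm.ren, Tm.code, cast_npr, i1, i2]

theorem Fm.cd_e (ι : ℕ → ℕ) (p : ℕ) (c ψ : ℕ → M) (φ : Fm) :
    φ.e.cd ι p c ψ = ((φ.ren ι).code : ℕ) := by
  induction φ with
  | bot => simp [Fm.e, EFm.cd, Fm.ren, Fm.code, cast_npr]
  | eq s t | le s t | orc t => simp [Fm.e, EFm.cd, Fm.ren, Fm.code, cast_npr, Tm.cd_e]
  | imp φ χ i1 i2 => simp [Fm.e, EFm.cd, Fm.ren, Fm.code, cast_npr, i1, i2]
  | all x φ ih => simp [Fm.e, EFm.cd, Fm.ren, Fm.code, cast_npr, ih]

theorem ETm.fn_cd (ι : ℕ → ℕ) {c : ℕ → UFun b} (hc : ∀ k, UFn (c k)) (t : ETm) :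
    UFn fun M v => t.cd ι (fun k => c k M v) := by
  induction t with
  | cst k => exact hc k
  | var | zero | succ | len | half | add | mul | smash => simp only [ETm.cd]; infer_instance

theorem EFm.fn_cd (ι : ℕ → ℕ) (p : ℕ) {c ψ : ℕ → UFun b} (hc : ∀ k, UFn (c k))
    (hψ : ∀ k, UFn (ψ k)) (φ : EFm) :
    UFn fun M v => φ.cd ι p (fun k => c k M v) (fun k => ψ k M v) := by
  induction φ with
  | bot | imp | all => simp only [EFm.cd]; infer_instance
  | eq s t | le s t =>
    have := s.fn_cd ι hc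
    have := t.fn_cd ι hc
    simp only [EFm.cd]; infer_instance
  | prd k t =>
    have := t.fn_cd ι hc
    have := hψ k
    simp only [EFm.cd]; infer_instance
  | orc t =>
    have := t.fn_cd ι hc
    simp only [EFm.cd]; infer_instance

/-- rename the constants -/
def ETm.rn (g : ℕ → ℕ) : ETm → ETm
  | var x => var x
  | cst k => cst (g k)
  | zero => zero
  | succ t => succ (t.rn g)
  | len t => len (t.rn g)
  | half t => half (t.rn g)
  | add s t => add (s.rn g) (t.rn g)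
  | mul s t => mul (s.rn g) (t.rn g)
  | smash s t => smash (s.rn g) (t.rn g)

/-- rename the constants and the predicate letters -/
def EFm.rn (g h : ℕ → ℕ) : EFm → EFm
  | bot => bot
  | eq s t => eq (s.rn g) (t.rn g)
  | le s t => le (s.rn g) (t.rn g)
  | imp φ χ => imp (φ.rn g h) (χ.rn g h)
  | all x φ => all x (φ.rn g h)
  | prd k t => prd (h k) (t.rn g)
  | orc t => orc (t.rn g)

theorem ETm.ev_rn {S : Str} (g : ℕ → ℕ) (c v : ℕ → S.α) (t : ETm) :
    (t.rn g).ev S c v = t.ev S (fun i => c (g i)) v := by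
  induction t with
  | var | cst | zero => rfl
  | succ t ih | len t ih | half t ih => simp only [ETm.rn, ETm.ev, ih]
  | add s t i1 i2 | mul s t i1 i2 | smash s t i1 i2 => simp only [ETm.rn, ETm.ev, i1, i2]

theorem EFm.ev_rn {S : Str} (g h : ℕ → ℕ) (c : ℕ → S.α) (X : ℕ → S.α → Prop) (φ : EFm) :
    ∀ v, (φ.rn g h).ev S c X v ↔ φ.ev S (fun i => c (g i)) (fun i => X (h i)) v := by
  induction φ with
  | bot => intro _; rfl
  | eq s t | le s t | prd k t | orc t => intro v; simp only [EFm.rn, EFm.ev, ETm.ev_rn]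
  | imp φ χ i1 i2 => intro v; simp only [EFm.rn, EFm.ev, i1, i2]
  | all x φ ih => intro v; simp only [EFm.rn, EFm.ev, ih]

theorem ETm.cd_rn (g ι : ℕ → ℕ) (c : ℕ → M) (t : ETm) :
    (t.rn g).cd ι c = t.cd ι (fun i => c (g i)) := by
  induction t with
  | var | cst | zero => rfl
  | succ t ih | len t ih | half t ih => simp only [ETm.rn, ETm.cd, ih]
  | add s t i1 i2 | mul s t i1 i2 | smash s t i1 i2 => simp only [ETm.rn, ETm.cd, i1, i2]

theorem EFm.cd_rn (g h ι : ℕ → ℕ) (p : ℕ) (c ψ : ℕ → M) (φ : EFm) :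
    (φ.rn g h).cd ι p c ψ = φ.cd ι p (fun i => c (g i)) (fun i => ψ (h i)) := by
  induction φ with
  | bot => rfl
  | eq s t | le s t | prd k t | orc t => simp only [EFm.rn, EFm.cd, ETm.cd_rn]
  | imp φ χ i1 i2 => simp only [EFm.rn, EFm.cd, i1, i2]
  | all x φ ih => simp only [EFm.rn, EFm.cd, ih]

theorem ETm.occ_er (x : ℕ) (t : ETm) : t.er.occ x ↔ t.occ x := by
  induction t with
  | var | cst | zero => rfl
  | succ t ih | len t ih | half t ih => exact ih
  | add s t i1 i2 | mul s t i1 i2 | smash s t i1 i2 => exact or_congr i1 i2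

theorem EFm.free_er {x : ℕ} {φ : EFm} (h : φ.er.free x) : φ.free x := by
  induction φ with
  | bot => exact h
  | eq s t | le s t => exact h.imp (s.occ_er x).1 (t.occ_er x).1
  | imp φ χ i1 i2 => exact h.imp i1 i2
  | all y φ ih => exact ⟨h.1, ih h.2⟩
  | prd k t => exact h.elim
  | orc t => exact (t.occ_er x).1 h

/-- a defining formula whose free variables lie in `B` -/
theorem UP.free_sub {P : UPred b} (h : UP P) (B : List ℕ) : ∃ φ : Fm, (∀ x, φ.free x → x ∈ B) ∧
    ∀ (N : Mdl b) (v : ℕ → N), φ.ev N.toStr v ↔ P N (fun i => if i ∈ B then v i else 0) := by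
  obtain ⟨φ, h⟩ := h.out
  exact ⟨(φ.e.cl B).er, fun x hx => EFm.free_cl (EFm.free_er hx), fun N v => by
    rw [EFm.ev_er, EFm.ev_cl, Fm.ev_e, h]; rfl⟩

/-- the code of `φ` with the numeral of `x i` for the free variable `i` -/
noncomputable def cdn (φ : Fm) (x : ℕ → M) : M :=
  (φ.e.cl []).cd id 0 (fun k => nm (x k)) (fun _ => cBot)

theorem fn_cdn (φ : Fm) {g : ℕ → UFun b} (hg : ∀ k, UFn (g k)) :
    UFn fun M v => cdn φ (fun k => g k M v) :=
  EFm.fn_cd id 0 (c := fun k M v => nm (g k M v)) (ψ := fun _ _ _ => cBot)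
    (fun k => by have := hg k; infer_instance) (fun _ => inferInstance) _

/-- `cdn` in the form needed for instantiation -/
theorem cdn_eq (φ : Fm) (x : ℕ → M) {p : ℕ} (hp : (φ.e.cl []).mx ≤ p) (ψ : ℕ → M) :
    cdn φ x = (φ.e.cl []).cd (skip p) p (fun k => nm (x k)) ψ := by
  rw [cdn, Fm.cd_cl id 0 p _ _ ψ]
  exact EFm.cd_congr _ (fun n hn => (skip_lt (hn.trans_le hp)).symm) (fun _ _ => rfl)
    fun _ _ => rfl

/-! ### The box -/

/-- `D` proves `P` at the numerals of `x` -/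
def BoxD (D : M → Prop) (P : UPred b) (x : ℕ → M) : Prop :=
  ∃ φ : Fm, (∀ (N : Mdl b) (v : ℕ → N), φ.ev N.toStr v ↔ P N v) ∧ D (jP (cdn φ x))

theorem BoxD.up {D : M → Prop} {P : UPred b} {x : ℕ → M} (h : BoxD D P x) : UP P :=
  let ⟨φ, h, _⟩ := h; ⟨φ, h⟩
theorem BoxD.mono {D D' : M → Prop} {P : UPred b} {x : ℕ → M} (h : BoxD D P x)
    (e : ∀ y, D y → D' y) : BoxD D' P x :=
  let ⟨φ, h, h'⟩ := h; ⟨φ, h, e _ h'⟩
theorem BoxD.congr {D : M → Prop} {P Q : UPred b} {x : ℕ → M} (h : BoxD D P x)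
    (e : ∀ N v, P N v ↔ Q N v) : BoxD D Q x :=
  let ⟨φ, h, h'⟩ := h; ⟨φ, fun N v => (h N v).trans (e N v), h'⟩

abbrev Box0 (D : M → Prop) (P : Mdl b → Prop) : Prop :=
  BoxD D (fun N _ => P N) (fun _ => 0)
abbrev Box1 (D : M → Prop) (P : ∀ N : Mdl b, N → Prop) (x : M) : Prop :=
  BoxD D (fun N v => P N (v 0)) (fun _ => x)
abbrev Box2 (D : M → Prop) (P : ∀ N : Mdl b, N → N → Prop) (x y : M) : Prop :=
  BoxD D (fun N v => P N (v 0) (v 1)) (cons x fun _ => y)
abbrev Box3 (D : M → Prop) (P : ∀ N : Mdl b, N → N → N → Prop) (x y z : M) : Prop :=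
  BoxD D (fun N v => P N (v 0) (v 1) (v 2)) (cons x (cons y fun _ => z))

end Pool.Agent.PLO

end Part2

section Part3

/-! Statements of the rows of project PL. -/

namespace Pool.Agent.PLO

open Function

/-! ### Completeness -/

/-- completeness of the extended calculus -/
def COMP (b : Bool) : Prop := ∀ (Γ : Set EFm) (φ : EFm),
  (∀ (M : Mdl b) (c : ℕ → M) (X : ℕ → M → Prop), (∀ γ ∈ Γ, ∀ v, γ.ev M.toStr c X v) →
    ∀ v, φ.ev M.toStr c X v) → EPrv b Γ φ

/-- completeness of the calculus of the statement -/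
def CPL (b : Bool) : Prop := ∀ φ : Fm, (∀ (M : Mdl b) (v : ℕ → M), φ.ev M.toStr v) → BPrv b φ

/-- without loss of generality there is an element above all terms -/
def TALL (b : Bool) : Prop := ∀ P : UPred b, UP P →
  (∀ (M : Mdl b) (v : ℕ → M) (B : M), (∀ t : Tm, t.ev M.toStr v ≤ B) → P M v) → ∀ M v, P M v

/-! ### The arithmetised calculus -/

structure POSTA (b : Bool) : Prop where
  post : HasPost b
  ev : ∀ (φ : Fm) (M : Mdl b) (v : ℕ → M), (prov b φ).ev M.toStr v ↔ Dv (jP ((φ.code : ℕ) : M))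
  closed : ∀ (φ : Fm) (x : ℕ), ¬ (prov b φ).free x
  evP : ∀ (t : Tm), (∀ x, t.occ x → 16 ≤ x) → ∀ (M : Mdl b) (v : ℕ → M),
    (prfF b t).ev M.toStr v ↔
      HDer (fun _ => False) (v 1) (v 2) ∧ Mem (t.ev M.toStr v) (v 1) (v 2)
  freeP : ∀ (t : Tm) (x : ℕ), (prfF b t).free x → x = 1 ∨ x = 2 ∨ t.occ x

structure POSTB (b : Bool) : Prop where
  hyp : ∀ {M : Mdl b} {H : M → Prop} {y : M}, H y → HD H y
  clo : ∀ {M : Mdl b} (H : M → Prop), Clo (HD H)
  app : ∀ {M : Mdl b} {H H' : M → Prop} {W c s s' a' : M}, HDer H s W → s < smash W c →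
    HDer H' s' a' → s' < pw W → (∀ j, H' j → H j ∨ Mem j s W) →
    ∃ s'' < smash W (pw c * pw s'), HDer H s'' W ∧ (∀ j, Mem j s W → Mem j s'' W) ∧
      ∀ j, Mem j s' a' → Mem j s'' W

/-- chains of uniformly short derivations -/
def CHAIN (b : Bool) : Prop := ∀ (J : ∀ M : Mdl b, M → (ℕ → M) → M) (C : UPred b),
  (UFn fun M v => J M (v 0) (fun i => v (i + 1))) → USig C →
  (∀ (M : Mdl b) (v : ℕ → M) (y : M) (D : M → Prop), Th D → C M v → y ≠ 0 → y ≤ v 0 →
    D (J M (half y) v) → D (J M y v)) →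
  ∀ (M : Mdl b) (v : ℕ → M), C M v → Dv (J M 0 v) → Dv (J M (v 0) v)

/-- syntactic judgements for codes of extended expressions -/
structure SIA (b : Bool) : Prop where
  tm : ∀ {M : Mdl b} {D : M → Prop} (ι : ℕ → ℕ) {c : ℕ → M}, Clo D → (∀ k, D (jT (c k))) →
    ∀ t : ETm, D (jT (t.cd ι c))
  fm : ∀ {M : Mdl b} {D : M → Prop} (ι : ℕ → ℕ) (p : ℕ) {c ψ : ℕ → M}, Clo D →
    (∀ k, D (jT (c k))) → (∀ k, D (jF (ψ k))) → ∀ φ : EFm, D (jF (φ.cd ι p c ψ))
  ntm : ∀ {M : Mdl b} {D : M → Prop} (ι : ℕ → ℕ) {c : ℕ → M} (x : ℕ), Clo D →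
    (∀ k, D (jN (x : M) (c k))) → ∀ t : ETm, (∀ n, t.occ n → ι n ≠ x) → D (jN (x : M) (t.cd ι c))
  nfm : ∀ {M : Mdl b} {D : M → Prop} (ι : ℕ → ℕ) (p : ℕ) {c ψ : ℕ → M} (x : ℕ), Clo D →
    (∀ k, D (jN (x : M) (c k))) → (x = p ∨ ∀ k, D (jN (x : M) (ψ k))) →
    ∀ φ : EFm, (∀ n, φ.free n → ι n ≠ x) → D (jN (x : M) (φ.cd ι p c ψ))
  sb : ∀ {M : Mdl b} {D : M → Prop} {ι : ℕ → ℕ} {p : ℕ} {c ψ : ℕ → M}, Clo D → Good D ι p c ψ →
    ∀ (x : ℕ) (u : ETm) (φ : EFm), φ.freeFor x u →
      D (jS (ι x : M) (u.cd ι c) (φ.cd ι p c ψ) ((φ.subst x u).cd ι p c ψ))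
  cls : ∀ {M : Mdl b} {D : M → Prop}, Clo D → ∀ {σ : Bool} {φ : Fm}, Cls b σ φ →
    D (jC σ ((φ.code : ℕ) : M))

/-- instantiation of derivations -/
structure SIB (b : Bool) : Prop where
  prv : ∀ {M : Mdl b} {D : M → Prop}, Clo D → ∀ {φ : Fm}, BPrv b φ → D (jP ((φ.code : ℕ) : M))
  inst : ∀ {M : Mdl b} {D : M → Prop} {ι : ℕ → ℕ} {p : ℕ} {c ψ : ℕ → M}, Clo D →
    Good D ι p c ψ → ∀ {Γ : Set EFm} {φ : EFm}, EPrv b Γ φ →
    (∀ γ ∈ Γ, D (jP (γ.cd ι p c ψ))) → D (jP (φ.cd ι p c ψ))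

/-! ### The box -/

/-- the basic properties of the box; derived forms are in the file Api -/
class HasBox (b : Bool) : Prop extends HasPost b where
  thDv : ∀ M : Mdl b, Th (Dv : M → Prop)
  nmT : ∀ {M : Mdl b} (x : M), Dv (jT (nm x))
  nmN : ∀ {M : Mdl b} (n : ℕ) (x : M), Dv (jN (n : M) (nm x))
  nmM : ∀ {M : Mdl b} (x : M), Dv (jM x (nm x))
  ent : ∀ {M : Mdl b} {D : M → Prop} {x : ℕ → M} {κ : Type} [Finite κ] (P : κ → UPred b)
    (Q : UPred b), Th D → UP Q → (∀ N v, (∀ i, P i N v) → Q N v) → (∀ i, BoxD D (P i) x) →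
    BoxD D Q x
  ren : ∀ {M : Mdl b} {D : M → Prop} (x : ℕ → M) (P : UPred b) (g : ℕ → ℕ), Th D → UP P →
    (BoxD D (fun N v => P N (fun i => v (g i))) x ↔ BoxD D P (fun i => x (g i)))
  sent : ∀ {M : Mdl b} {D : M → Prop} (x : ℕ → M) (φ : Fm), Th D → (∀ n, ¬ φ.free n) →
    (BoxD D (fun N v => φ.ev N.toStr v) x ↔ D (jP ((φ.code : ℕ) : M)))
  defn : ∀ {M : Mdl b} {D : M → Prop} (x : ℕ → M) {P : UPred b} (φ : Fm), Th D →
    (∀ (N : Mdl b) (v : ℕ → N), φ.ev N.toStr v ↔ P N v) → (BoxD D P x ↔ D (jP (cdn φ x)))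
  num0 : ∀ M : Mdl b, Box1 Dv (fun _ a => a = 0) (0 : M)
  num2 : ∀ {M : Mdl b} (x : M), Box2 Dv (fun _ a c => a = 2 * c) (2 * x) x
  num3 : ∀ {M : Mdl b} (x : M), Box2 Dv (fun _ a c => a = 2 * c + 1) (2 * x + 1) x
  chn : CHAIN b

structure NUMA (b : Bool) : Prop where
  suc : ∀ {M : Mdl b} (x : M), Box2 Dv (fun _ a c => a = c + 1) (x + 1) x
  add : ∀ {M : Mdl b} (x y : M), Box3 Dv (fun _ a c d => a = c + d) (x + y) x y
  le : ∀ {M : Mdl b} {x y : M}, x ≤ y → Box2 Dv (fun _ a c => a ≤ c) x y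
  lt : ∀ {M : Mdl b} {x y : M}, x < y → Box2 Dv (fun _ a c => a < c) x y

/-- values of terms at numerals -/
def NUMB (b : Bool) : Prop := ∀ (t : Tm) (M : Mdl b) (x : ℕ → M),
  BoxD Dv (fun N v => v 0 = t.ev N.toStr (fun i => v (i + 1))) (cons (t.ev M.toStr x) x)

/-- `Σ^b_1` completeness -/
def SIG (b : Bool) : Prop := ∀ P : UPred b, USig P → ∀ M x, P M x → BoxD Dv P x

/-! ### Fixed points, the standard model, the modal part -/

def FIX (b : Bool) : Prop := ∀ (W : Type) [Finite W] (e : W → ℕ), Injective e →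
  ∀ P : W → ∀ N : Mdl b, (W → N) → Prop, (∀ z, UP fun N v => P z N (fun w => v (e w))) →
  ∃ S : W → Fm, (∀ z x, ¬ (S z).free x) ∧ ∀ z (N : Mdl b) (v : ℕ → N),
    (S z).ev N.toStr v ↔ P z N (fun w => (((S w).code : ℕ) : N))

/-- all elements are standard -/
def Std {b : Bool} (M : Mdl b) : Prop := ∀ x : M, ∃ n : ℕ, x = n

def GLS (b : Bool) : Prop := ∀ X, GLog X →
  ∀ f : ℕ → Fm, (∀ n x, ¬ (f n).free x) → BPrv b (interp b f X)

end Pool.Agent.PLO

end Part3

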