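import Pool.Agent.PLO.Defs

/-! Kripke frames. -/

namespace Pool.Agent.PLO

/-- Kripke forcing. -/
def Force {W : Type} (R : W → W → Prop) (V : ℕ → W → Prop) : W → MF → Prop
  | w, .atom n => V n w
  | _, .bot => False
  | w, .imp F G => Force R V w F → Force R V w G
  | w, .box F => ∀ u, R w u → Force R V u F

/-- The frame omits the tree `Y`: no point with a predecessor has two incomparable successors that
both have a successor. -/
def OmitsY {W : Type} (R : W → W → Prop) : Prop :=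
  ¬ ∃ x₀ x c₁ c₂ e₁ e₂, R x₀ x ∧ R x c₁ ∧ R x c₂ ∧ R c₁ e₁ ∧ R c₂ e₂ ∧
    c₁ ≠ c₂ ∧ ¬ R c₁ c₂ ∧ ¬ R c₂ c₁

end Pool.Agent.PLO
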