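import Pool.Agent.PLO.Box

section Part0

/-! Merging of coded derivations. -/

namespace Pool.Agent.PLO

namespace postb

variable {b : Bool} {M : Mdl b}

/-- a rule has at most three premises -/
theorem three {Pm : M → Prop} (z : Pm 0) {y : M} (hy : Rl Pm y) :
    ∃ j1 j2 j3, Pm j1 ∧ Pm j2 ∧ Pm j3 ∧ Rl (fun j => j = j1 ∨ j = j2 ∨ j = j3) y := by
  cases hy with
  | tVar a => exact ⟨_, _, _, z, z, z, .tVar a⟩
  | tZero  => exact ⟨_, _, _, z, z, z, .tZero⟩
  | t1 k hk h0 => exact ⟨_, _, _, h0, z, z, .t1 k hk (.inl rfl)⟩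
  | t2 k hk h0 h1 => exact ⟨_, _, _, h0, h1, z, .t2 k hk (.inl rfl) (.inr (.inl rfl))⟩
  | fBot  => exact ⟨_, _, _, z, z, z, .fBot⟩
  | fImp h0 h1 => exact ⟨_, _, _, h0, h1, z, .fImp (.inl rfl) (.inr (.inl rfl))⟩
  | fAll a h0 => exact ⟨_, _, _, h0, z, z, .fAll a (.inl rfl)⟩
  | f2 k hk h0 h1 => exact ⟨_, _, _, h0, h1, z, .f2 k hk (.inl rfl) (.inr (.inl rfl))⟩
  | fOrc h0 => exact ⟨_, _, _, h0, z, z, .fOrc (.inl rfl)⟩
  | kOrc σ h0 => exact ⟨_, _, _, h0, z, z, .kOrc σ (.inl rfl)⟩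
  | mZero => exact ⟨_, _, _, z, z, z, .mZero⟩
  | mEven h0 h1 => exact ⟨_, _, _, h1, z, z, .mEven h0 (.inl rfl)⟩
  | mOdd h1 => exact ⟨_, _, _, h1, z, z, .mOdd (.inl rfl)⟩
  | pYes h0 h1 => exact ⟨_, _, _, h1, z, z, .pYes h0 (.inl rfl)⟩
  | pNo h0 h1 => exact ⟨_, _, _, h1, z, z, .pNo h0 (.inl rfl)⟩
  | pLst h0 h1 h2 => exact ⟨_, _, _, h1, h2, z, .pLst h0 (.inl rfl) (.inr (.inl rfl))⟩
  | nVar h0 => exact ⟨_, _, _, z, z, z, .nVar h0⟩
  | nZero a => exact ⟨_, _, _, z, z, z, .nZero a⟩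
  | nBot a => exact ⟨_, _, _, z, z, z, .nBot a⟩
  | nSelf a c => exact ⟨_, _, _, z, z, z, .nSelf a c⟩
  | nAll c h0 => exact ⟨_, _, _, h0, z, z, .nAll c (.inl rfl)⟩
  | n1 k hk h0 => exact ⟨_, _, _, h0, z, z, .n1 k hk (.inl rfl)⟩
  | n2 k hk h0 h1 => exact ⟨_, _, _, h0, h1, z, .n2 k hk (.inl rfl) (.inr (.inl rfl))⟩
  | sVar a u => exact ⟨_, _, _, z, z, z, .sVar a u⟩
  | sN u h0 => exact ⟨_, _, _, h0, z, z, .sN u (.inl rfl)⟩
  | sAll h0 h1 h2 =>
    exact ⟨_, _, _, h0, h1, h2, .sAll (.inl rfl) (.inr (.inl rfl)) (.inr (.inr rfl))⟩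
  | s1 k hk h0 => exact ⟨_, _, _, h0, z, z, .s1 k hk (.inl rfl)⟩
  | s2 k hk h0 h1 => exact ⟨_, _, _, h0, h1, z, .s2 k hk (.inl rfl) (.inr (.inl rfl))⟩
  | kBot σ => exact ⟨_, _, _, z, z, z, .kBot σ⟩
  | kEq σ h0 h1 => exact ⟨_, _, _, h0, h1, z, .kEq σ (.inl rfl) (.inr (.inl rfl))⟩
  | kLe σ h0 h1 => exact ⟨_, _, _, h0, h1, z, .kLe σ (.inl rfl) (.inr (.inl rfl))⟩
  | kImp σ h0 h1 => exact ⟨_, _, _, h0, h1, z, .kImp σ (.inl rfl) (.inr (.inl rfl))⟩
  | kBall h0 h1 h2 =>
    exact ⟨_, _, _, h0, h1, h2, .kBall (.inl rfl) (.inr (.inl rfl)) (.inr (.inr rfl))⟩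
  | kSharp h0 h1 h2 =>
    exact ⟨_, _, _, h0, h1, h2, .kSharp (.inl rfl) (.inr (.inl rfl)) (.inr (.inr rfl))⟩
  | kWide h0 h1 h2 h3 =>
    exact ⟨_, _, _, h1, h2, h3, .kWide h0 (.inl rfl) (.inr (.inl rfl)) (.inr (.inr rfl))⟩
  | pK h0 h1 => exact ⟨_, _, _, h0, h1, z, .pK (.inl rfl) (.inr (.inl rfl))⟩
  | pS h0 h1 h2 => exact ⟨_, _, _, h0, h1, h2, .pS (.inl rfl) (.inr (.inl rfl)) (.inr (.inr rfl))⟩
  | pDn h0 => exact ⟨_, _, _, h0, z, z, .pDn (.inl rfl)⟩
  | pInst h0 h1 h2 =>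
    exact ⟨_, _, _, h0, h1, h2, .pInst (.inl rfl) (.inr (.inl rfl)) (.inr (.inr rfl))⟩
  | pDist a h0 h1 => exact ⟨_, _, _, h0, h1, z, .pDist a (.inl rfl) (.inr (.inl rfl))⟩
  | pVac h0 h1 => exact ⟨_, _, _, h0, h1, z, .pVac (.inl rfl) (.inr (.inl rfl))⟩
  | pMp h0 h1 => exact ⟨_, _, _, h0, h1, z, .pMp (.inl rfl) (.inr (.inl rfl))⟩
  | pGen a h0 => exact ⟨_, _, _, h0, z, z, .pGen a (.inl rfl)⟩
  | pInd h0 h1 h2 =>
    exact ⟨_, _, _, h0, h1, h2, .pInd (.inl rfl) (.inr (.inl rfl)) (.inr (.inr rfl))⟩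
  | pAx h0 => exact ⟨_, _, _, z, z, z, .pAx h0⟩

/-- every array has a blank row -/
theorem mem_zero (s a : M) : Mem 0 s a := by
  refine ⟨len s, le_rfl, ?_⟩
  by_cases ha : a = 0
  · have h := row_lt s a (len s)
    rw [ha, pw_zero] at h
    by_contra h0
    exact absurd (one_le_iff.2 (ha ▸ h0)) (not_le.2 h)
  · refine row_zero_of_lt (c := s) (lt_smash_iff.2 ?_) le_rfl
    exact le_mul_of_one_le_left (zero_le' _) (one_le_iff.2 (by rwa [Ne, len_eq_zero]))

theorem mem_row (s a i : M) : Mem (row s a i) s a := by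
  rcases le_or_gt i (len s) with h | h
  · exact ⟨i, h, rfl⟩
  · rw [row_big a h]; exact mem_zero s a

theorem der_all {H : M → Prop} {s a : M} (h : HDer H s a) (i : M) :
    row s a i = 0 ∨ H (row s a i) ∨ Step s a i (row s a i) := by
  rcases le_or_gt i (len s) with h1 | h1
  · exact h i h1
  · exact .inl (row_big a h1)

theorem der_zero (H : M → Prop) (a : M) : HDer H 0 a := fun i _ => .inl (row_zero a i)

theorem app {H H' : M → Prop} {W c s s' a' : M} (hd : HDer H s W) (hs : s < smash W c)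
    (hd' : HDer H' s' a') (hs' : s' < pw W) (hH : ∀ j, H' j → H j ∨ Mem j s W) :
    ∃ s'' < smash W (pw c * pw s'), HDer H s'' W ∧ (∀ j, Mem j s W → Mem j s'' W) ∧
      ∀ j, Mem j s' a' → Mem j s'' W := by
  obtain ⟨t, ht, h⟩ := arr_comp (fun _ i y v => (i < len (v 0) ∧ y = row (v 1) (v 2) i) ∨
      ∃ k ≤ len (v 3), i = len (v 0) + k ∧ y = row (v 3) (v 4) k)
    (vec [c, s, W, s', a']) W (pw c * pw s') (fun i hi => by
      rw [len_pw_mul_pw, lt_succ_iff] at hi
      show ∃ y < pw W, (i < len c ∧ y = row s W i) ∨ ∃ k ≤ len s', i = len c + k ∧ y = row s' a' k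
      rcases lt_or_ge i (len c) with h1 | h1
      · exact ⟨_, row_lt s W i, .inl ⟨h1, rfl⟩⟩
      · obtain ⟨k, rfl⟩ := exists_add_of_le h1
        exact ⟨_, (row_le s' a' k).trans_lt hs', .inr ⟨k, le_of_add_le_add_left hi, rfl, rfl⟩⟩)
  change ∀ i < len (pw c * pw s'), (i < len c ∧ row t W i = row s W i) ∨
    ∃ k ≤ len s', i = len c + k ∧ row t W i = row s' a' k at h
  rw [len_pw_mul_pw] at h
  have hA : ∀ i < len c, row t W i = row s W i := by
    intro i hi
    rcases h i (lt_succ_iff.2 (hi.le.trans le_self_add)) with h1 | ⟨k, -, h1, -⟩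
    · exact h1.2
    · exact absurd hi (not_lt.2 (h1 ▸ le_self_add))
  have hB : ∀ k ≤ len s', row t W (len c + k) = row s' a' k := by
    intro k hk
    rcases h (len c + k) (lt_succ_iff.2 (add_le_add_right hk _)) with h1 | ⟨k', -, h1, h2⟩
    · exact absurd h1.1 (not_lt.2 le_self_add)
    · rw [h2, add_left_cancel h1]
  have hS : ∀ i0 i, i0 ≤ i ∨ len c ≤ i →
      row s W i0 = 0 ∨ H (row s W i0) ∨ Step t W i (row s W i0) := by
    intro i0 i hi
    rcases lt_or_ge i0 (len c) with h1 | h1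
    · refine (der_all hd i0).imp_right (Or.imp_right fun h2 => Rl.mono ?_ h2)
      rintro j ⟨k, hk, rfl⟩
      exact ⟨k, hi.elim hk.trans_le (hk.trans h1).trans_le, hA k (hk.trans h1)⟩
    · exact .inl (row_zero_of_lt hs h1)
  refine ⟨t, ht, fun i _ => ?_, ?_, ?_⟩
  · rcases lt_or_ge i (len c) with h1 | h1
    · rw [hA i h1]
      exact hS i i (.inl le_rfl)
    obtain ⟨k, rfl⟩ := exists_add_of_le h1
    rcases le_or_gt k (len s') with h2 | h2
    · rw [hB k h2]
      rcases hd' k h2 with h3 | h3 | h3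
      · exact .inl h3
      · rcases hH _ h3 with h4 | ⟨i0, -, h4⟩
        · exact .inr (.inl h4)
        · rw [← h4]
          exact hS i0 _ (.inr h1)
      · refine .inr (.inr (Rl.mono ?_ h3))
        rintro j ⟨k', hk, rfl⟩
        exact ⟨len c + k', add_lt_add_right hk _, hB k' (hk.le.trans h2)⟩
    · refine .inl (row_zero_of_lt ht ?_)
      rw [len_pw_mul_pw, add_assoc]
      exact add_le_add_right (succ_le_iff.2 h2) _
  · rintro j ⟨i, -, rfl⟩
    rcases lt_or_ge i (len c) with h1 | h1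
    · rw [← hA i h1]; exact mem_row _ _ _
    · rw [row_zero_of_lt hs h1]; exact mem_zero _ _
  · rintro j ⟨k, hk, rfl⟩
    rw [← hB k hk]; exact mem_row _ _ _

/-- one more row -/
theorem push {H : M → Prop} {W c s y : M} (hd : HDer H s W) (hs : s < smash W c) (hy : y < pw W)
    (h : H y ∨ Rl (fun j => Mem j s W) y) : HD H y := by
  have e1 : len (2 * c + 1) = len c + 1 := len_two_mul_add_one c
  have hs1 : s < smash W (2 * c + 1) :=
    hs.trans_le (smash_mono_len le_rfl (by rw [e1]; exact le_self_add))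
  generalize 2 * c + 1 = d at e1 hs1
  obtain ⟨p1, p2⟩ := row_push hs1 hy
  have ht : y * smash W d + s < smash W (2 * d + 1) := by
    rw [smash_half (c := 2 * d + 1) (one_le_iff.1 le_add_self), half_two_mul_add_one]
    have h3 : (y + 1) * smash W d ≤ pw W * smash W d := by
      gcongr; exact succ_le_iff.2 hy
    zify at hs1 h3 ⊢
    linarith
  generalize y * smash W d + s = t at p1 p2 ht
  refine ⟨t, W, fun i _ => ?_, p1 ▸ mem_row _ _ _⟩
  rcases lt_trichotomy i (len d) with h1 | rfl | h1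
  · rw [p2 i h1]
    refine (der_all hd i).imp_right (Or.imp_right fun h2 => Rl.mono ?_ h2)
    rintro j ⟨k, hk, rfl⟩
    exact ⟨k, hk, p2 k (hk.trans h1)⟩
  · rw [p1]
    refine .inr (h.imp_right fun h2 => Rl.mono ?_ h2)
    rintro j ⟨k, -, rfl⟩
    rcases lt_or_ge k (len c) with h3 | h3
    · have h4 : k < len d := by rw [e1]; exact lt_succ_iff.2 h3.le
      exact ⟨k, h4, p2 k h4⟩
    · have h4 : len c < len d := by rw [e1]; exact lt_succ_iff.2 le_rfl
      exact ⟨len c, h4, by rw [p2 _ h4, row_zero_of_lt hs le_rfl, row_zero_of_lt hs h3]⟩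
  · exact .inl (row_zero_of_lt ht (by rw [len_two_mul_add_one]; exact succ_le_iff.2 h1))

/-- two derivations in one array that has room for `y` -/
theorem merge {H : M → Prop} {s a s' a' : M} (hd : HDer H s a) (hd' : HDer H s' a') (y : M) :
    ∃ t W c, HDer H t W ∧ t < smash W c ∧ y < pw W ∧ (∀ j, Mem j s a → Mem j t W) ∧
      ∀ j, Mem j s' a' → Mem j t W := by
  obtain ⟨t1, h1, h2, -, h3⟩ := app (W := s + s' + y) (c := 0) (der_zero H _) (smash_pos _ _) hd
    ((lt_pw s).trans_le (pw_mono (le_self_add.trans le_self_add))) fun _ => .inl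
  obtain ⟨t2, h4, h5, h6, h7⟩ := app h2 h1 hd'
    ((lt_pw s').trans_le (pw_mono (le_add_self.trans le_self_add))) fun _ => .inl
  exact ⟨t2, _, _, h5, h4, (lt_pw y).trans_le (pw_mono le_add_self), fun j hj => h6 j (h3 j hj), h7⟩

theorem hyp {H : M → Prop} {y : M} (h : H y) : HD H y :=
  push (W := y) (c := 0) (der_zero H y) (smash_pos _ _) (lt_pw y) (.inl h)

theorem clo (H : M → Prop) : Clo (HD H) := by
  intro y hy
  obtain ⟨j1, j2, j3, ⟨s1, a1, d1, m1⟩, ⟨s2, a2, d2, m2⟩, ⟨s3, a3, d3, m3⟩, h⟩ :=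
    three (Pm := HD H) ⟨0, 0, der_zero H 0, mem_zero 0 0⟩ hy
  obtain ⟨t, W, -, h1, -, -, h2, h3⟩ := merge d1 d2 y
  obtain ⟨t', W', c, h4, h5, h6, h7, h8⟩ := merge h1 d3 y
  refine push h4 h5 h6 (.inr (h.mono ?_))
  rintro j (rfl | rfl | rfl)
  exacts [h7 _ (h2 _ m1), h7 _ (h3 _ m2), h8 _ m3]

end postb

theorem row_POSTB : R_POSTB := fun _ => ⟨postb.hyp, postb.clo, postb.app⟩

end Pool.Agent.PLO

end Part0

section Part1

/-! Row SIA: judgements for the codes of extended expressions. -/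

namespace Pool.Agent.PLO

namespace SIAp

variable {b : Bool} {M : Mdl b} {D : M → Prop}

theorem tm (ι : ℕ → ℕ) {c : ℕ → M} (hD : Clo D) (hc : ∀ k, D (jT (c k))) (t : ETm) :
    D (jT (t.cd ι c)) := by
  induction t with
  | var x => exact hD _ (.tVar _)
  | cst k => exact hc k
  | zero => exact hD _ .tZero
  | succ t ih => exact hD _ (.t1 2 (by simp) ih)
  | len t ih => exact hD _ (.t1 3 (by simp) ih)
  | half t ih => exact hD _ (.t1 4 (by simp) ih)
  | add s t i1 i2 => exact hD _ (.t2 5 (by simp) i1 i2)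
  | mul s t i1 i2 => exact hD _ (.t2 6 (by simp) i1 i2)
  | smash s t i1 i2 => exact hD _ (.t2 7 (by simp) i1 i2)

theorem fm (ι : ℕ → ℕ) (p : ℕ) {c ψ : ℕ → M} (hD : Clo D) (hc : ∀ k, D (jT (c k)))
    (hψ : ∀ k, D (jF (ψ k))) (φ : EFm) : D (jF (φ.cd ι p c ψ)) := by
  induction φ with
  | bot => exact hD _ .fBot
  | eq s t => exact hD _ (.f2 9 (by simp) (tm ι hD hc s) (tm ι hD hc t))
  | le s t => exact hD _ (.f2 10 (by simp) (tm ι hD hc s) (tm ι hD hc t))
  | imp φ χ i1 i2 => exact hD _ (.fImp i1 i2)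
  | all x φ ih => exact hD _ (.fAll _ ih)
  | prd k t =>
    exact hD _ (.fAll _ (hD _ (.fImp
      (hD _ (.f2 9 (by simp) (hD _ (.tVar _)) (tm ι hD hc t))) (hψ k))))
  | orc t => exact hD _ (.fOrc (tm ι hD hc t))

theorem nvar (hD : Clo D) {x y : ℕ} (h : x ≠ y) : D (jN (x : M) (cVar (y : M))) :=
  hD _ (.nVar fun e => h (Nat.cast_injective e))

theorem ntm (ι : ℕ → ℕ) {c : ℕ → M} (x : ℕ) (hD : Clo D) (hc : ∀ k, D (jN (x : M) (c k)))
    (t : ETm) (h : ∀ n, t.occ n → ι n ≠ x) : D (jN (x : M) (t.cd ι c)) := by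
  induction t with
  | var y => exact nvar hD (h y rfl).symm
  | cst k => exact hc k
  | zero => exact hD _ (.nZero _)
  | succ t ih => exact hD _ (.n1 2 (by simp) (ih h))
  | len t ih => exact hD _ (.n1 3 (by simp) (ih h))
  | half t ih => exact hD _ (.n1 4 (by simp) (ih h))
  | add s t i1 i2 =>
    exact hD _ (.n2 5 (by simp) (i1 fun n hn => h n (.inl hn)) (i2 fun n hn => h n (.inr hn)))
  | mul s t i1 i2 =>
    exact hD _ (.n2 6 (by simp) (i1 fun n hn => h n (.inl hn)) (i2 fun n hn => h n (.inr hn)))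
  | smash s t i1 i2 =>
    exact hD _ (.n2 7 (by simp) (i1 fun n hn => h n (.inl hn)) (i2 fun n hn => h n (.inr hn)))

theorem nfm (ι : ℕ → ℕ) (p : ℕ) {c ψ : ℕ → M} (x : ℕ) (hD : Clo D)
    (hc : ∀ k, D (jN (x : M) (c k))) (hψ : x = p ∨ ∀ k, D (jN (x : M) (ψ k))) (φ : EFm)
    (h : ∀ n, φ.free n → ι n ≠ x) : D (jN (x : M) (φ.cd ι p c ψ)) := by
  induction φ with
  | bot => exact hD _ (.nBot _)
  | eq s t =>
    exact hD _ (.n2 9 (by simp) (ntm ι x hD hc s fun n hn => h n (.inl hn))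
      (ntm ι x hD hc t fun n hn => h n (.inr hn)))
  | le s t =>
    exact hD _ (.n2 10 (by simp) (ntm ι x hD hc s fun n hn => h n (.inl hn))
      (ntm ι x hD hc t fun n hn => h n (.inr hn)))
  | imp φ χ i1 i2 =>
    exact hD _ (.n2 11 (by simp) (i1 fun n hn => h n (.inl hn)) (i2 fun n hn => h n (.inr hn)))
  | all y φ ih =>
    by_cases e : ι y = x
    · subst e
      exact hD _ (.nSelf _ _)
    · refine hD _ (.nAll _ (ih fun n hn => ?_))
      by_cases e' : n = y
      · rwa [e']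
      · exact h n ⟨e', hn⟩
  | prd k t =>
    by_cases e : x = p
    · subst e
      exact hD _ (.nSelf _ _)
    · exact hD _ (.nAll _ (hD _ (.n2 11 (by simp)
        (hD _ (.n2 9 (by simp) (nvar hD e) (ntm ι x hD hc t h))) (hψ.resolve_left e k))))
  | orc t => exact hD _ (.n1 13 (by simp) (ntm ι x hD hc t h))

theorem stm {ι : ℕ → ℕ} {p : ℕ} {c ψ : ℕ → M} (hD : Clo D) (hg : Good D ι p c ψ) (x : ℕ)
    (u t : ETm) : D (jS (ι x : M) (u.cd ι c) (t.cd ι c) ((t.subst x u).cd ι c)) := by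
  induction t with
  | var y =>
    by_cases e : x = y
    · subst e
      rw [ETm.subst, if_pos rfl]
      exact hD _ (.sVar _ _)
    · rw [ETm.subst, if_neg e]
      exact hD _ (.sN _ (nvar hD fun h => e (hg.inj h)))
  | cst k => exact hD _ (.sN _ (hg.nc k _))
  | zero => exact hD _ (.sN _ (hD _ (.nZero _)))
  | succ t ih => exact hD _ (.s1 2 (by simp) ih)
  | len t ih => exact hD _ (.s1 3 (by simp) ih)
  | half t ih => exact hD _ (.s1 4 (by simp) ih)
  | add s t i1 i2 => exact hD _ (.s2 5 (by simp) i1 i2)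
  | mul s t i1 i2 => exact hD _ (.s2 6 (by simp) i1 i2)
  | smash s t i1 i2 => exact hD _ (.s2 7 (by simp) i1 i2)

theorem sb {ι : ℕ → ℕ} {p : ℕ} {c ψ : ℕ → M} (hD : Clo D) (hg : Good D ι p c ψ) (x : ℕ)
    (u : ETm) (φ : EFm) (h : φ.freeFor x u) :
    D (jS (ι x : M) (u.cd ι c) (φ.cd ι p c ψ) ((φ.subst x u).cd ι p c ψ)) := by
  induction φ with
  | bot => exact hD _ (.sN _ (hD _ (.nBot _)))
  | eq s t => exact hD _ (.s2 9 (by simp) (stm hD hg x u s) (stm hD hg x u t))
  | le s t => exact hD _ (.s2 10 (by simp) (stm hD hg x u s) (stm hD hg x u t))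
  | imp φ χ i1 i2 => exact hD _ (.s2 11 (by simp) (i1 h.1) (i2 h.2))
  | all y φ ih =>
    by_cases hf : (EFm.all y φ).free x
    · obtain ⟨h1, h2⟩ := h.resolve_left (not_not.2 hf)
      rw [EFm.subst, if_neg hf.1]
      exact hD _ (.sAll (nvar hD fun e => hf.1 (hg.inj e))
        (ntm ι (ι y) hD (fun k => hg.nc k _) u fun n hn e => h1 (hg.inj e ▸ hn)) (ih h2))
    · rw [EFm.subst_of_not_free u hf]
      exact hD _ (.sN _ (nfm ι p (ι x) hD (fun k => hg.nc k _) (.inr fun k => hg.nf k _ (hg.ne x))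
        _ fun n hn e => hf (hg.inj e ▸ hn)))
  | prd k t =>
    exact hD _ (.sAll (nvar hD (hg.ne x)) (ntm ι p hD (fun k => hg.nc k _) u fun n _ => hg.ne n)
      (hD _ (.s2 11 (by simp)
        (hD _ (.s2 9 (by simp) (hD _ (.sN _ (nvar hD (hg.ne x)))) (stm hD hg x u t)))
        (hD _ (.sN _ (hg.nf k _ (hg.ne x)))))))
  | orc t => exact hD _ (.s1 13 (by simp) (stm hD hg x u t))

theorem code_tm (t : Tm) : ((t.code : ℕ) : M) = t.e.cd id fun _ => cZero := by
  induction t with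
  | var x => simp [Tm.e, ETm.cd, Tm.code, cast_npr]
  | zero => simp [Tm.e, ETm.cd, Tm.code, cast_npr]
  | succ t ih | len t ih | half t ih => simp [Tm.e, ETm.cd, Tm.code, cast_npr, ih]
  | add s t i1 i2 | mul s t i1 i2 | smash s t i1 i2 =>
    simp [Tm.e, ETm.cd, Tm.code, cast_npr, i1, i2]

theorem jt (hD : Clo D) (t : Tm) : D (jT ((t.code : ℕ) : M)) := by
  rw [code_tm]
  exact tm id hD (fun _ => hD _ .tZero) _

theorem jn (hD : Clo D) {x : ℕ} {t : Tm} (h : ¬ t.occ x) : D (jN (x : M) ((t.code : ℕ) : M)) := by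
  rw [code_tm]
  exact ntm id x hD (fun _ => hD _ (.nZero _)) _ fun n hn e =>
    h ((Tm.occ_e _ _).1 ((show n = x from e) ▸ hn))

theorem code_ball (x : ℕ) (t : Tm) (φ : Fm) : (((Fm.ball x t φ).code : ℕ) : M) =
    cBall (x : M) ((t.code : ℕ) : M) ((φ.code : ℕ) : M) := by
  simp [Fm.ball, Fm.code, Tm.code, cast_npr]

theorem cls (hD : Clo D) {σ : Bool} {φ : Fm} (h : Cls b σ φ) : D (jC σ ((φ.code : ℕ) : M)) := by
  induction h with
  | bot σ =>
    have : ((Fm.bot.code : ℕ) : M) = cBot := by simp [Fm.code, cast_npr]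
    rw [this]
    exact hD _ (.kBot σ)
  | eq σ s t =>
    have : (((Fm.eq s t).code : ℕ) : M) = cEq ((s.code : ℕ) : M) ((t.code : ℕ) : M) := by
      simp [Fm.code, cast_npr]
    rw [this]
    exact hD _ (.kEq σ (jt hD s) (jt hD t))
  | le σ s t =>
    have : (((Fm.le s t).code : ℕ) : M) = cLe ((s.code : ℕ) : M) ((t.code : ℕ) : M) := by
      simp [Fm.code, cast_npr]
    rw [this]
    exact hD _ (.kLe σ (jt hD s) (jt hD t))
  | orc σ t =>
    have : (((Fm.orc t).code : ℕ) : M) = cOrc ((t.code : ℕ) : M) := by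
      simp [Fm.code, cast_npr]
    rw [this]
    exact hD _ (.kOrc σ (jt hD t))
  | @imp σ φ ψ _ _ i1 i2 =>
    have : (((Fm.imp φ ψ).code : ℕ) : M) = cImp ((φ.code : ℕ) : M) ((ψ.code : ℕ) : M) := by
      simp [Fm.code, cast_npr]
    rw [this]
    exact hD _ (.kImp σ i1 i2)
  | ball h _ ih =>
    rw [code_ball]
    exact hD _ (.kBall (jt hD _) (jn hD h) ih)
  | @sharp x t φ h _ ih =>
    have : (((Tm.len t).code : ℕ) : M) = pr 3 ((t.code : ℕ) : M) := by simp [Tm.code, cast_npr]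
    rw [code_ball, this]
    exact hD _ (.kSharp (jt hD _) (jn hD h) ih)
  | wide h0 h _ ih =>
    rw [code_ball]
    exact hD _ (.kWide h0 (jt hD _) (jn hD h) ih)

end SIAp

theorem row_SIA : R_SIA := fun _ =>
  ⟨SIAp.tm, SIAp.fm, SIAp.ntm, SIAp.nfm, SIAp.sb, fun hD _ _ h => SIAp.cls hD h⟩

end Pool.Agent.PLO

end Part1

section Part2

/-! Instantiation of derivations inside a model. -/

namespace Pool.Agent.PLO

open Function

namespace sib

theorem tm_ren {ι : ℕ → ℕ} (t : Tm) (h : ∀ n < t.e.mx, ι n = n) : t.ren ι = t := by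
  induction t with
  | var x => simp only [Tm.ren, h x (Nat.lt_succ_self x)]
  | zero => rfl
  | succ t ih | len t ih | half t ih => simp only [Tm.ren, ih h]
  | add s t i1 i2 | mul s t i1 i2 | smash s t i1 i2 =>
    simp only [Tm.ren, i1 (fun n hn => h n (lt_max_of_lt_left hn)),
      i2 (fun n hn => h n (lt_max_of_lt_right hn))]

theorem fm_ren {ι : ℕ → ℕ} (φ : Fm) (h : ∀ n < φ.e.mx, ι n = n) : φ.ren ι = φ := by
  induction φ with
  | bot => rfl
  | eq s t | le s t =>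
    simp only [Fm.ren, tm_ren s (fun n hn => h n (lt_max_of_lt_left hn)),
      tm_ren t (fun n hn => h n (lt_max_of_lt_right hn))]
  | orc t => simp only [Fm.ren, tm_ren t h]
  | imp φ χ i1 i2 =>
    simp only [Fm.ren, i1 (fun n hn => h n (lt_max_of_lt_left hn)),
      i2 (fun n hn => h n (lt_max_of_lt_right hn))]
  | all x φ ih =>
    simp only [Fm.ren, h x (lt_max_of_lt_left (Nat.lt_succ_self x)),
      ih (fun n hn => h n (lt_max_of_lt_right hn))]

theorem freeFor_e {x : ℕ} {u : Tm} {φ : Fm} (h : φ.freeFor x u) : φ.e.freeFor x u.e := by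
  induction φ with
  | bot | eq | le | orc => trivial
  | imp φ χ i1 i2 => exact ⟨i1 h.1, i2 h.2⟩
  | all y φ ih =>
    exact h.imp (mt (Fm.free_e x (.all y φ)).1) fun h => ⟨mt (Tm.occ_e y u).1 h.1, ih h.2⟩

theorem freeFor_self {x : ℕ} {u : ETm} (h : ∀ y, u.occ y → y = x) (φ : EFm) :
    φ.freeFor x u := by
  induction φ with
  | bot | eq | le | prd | orc => trivial
  | imp φ χ i1 i2 => exact ⟨i1, i2⟩
  | all y φ ih =>
    by_cases e : x = y
    · exact Or.inl fun h' => h'.1 e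
    · exact Or.inr ⟨fun h' => e (h y h').symm, ih⟩

theorem ax_mx : ∀ φ ∈ eqAx ++ basic, φ.e.mx ≤ 5 := by
  have h : (eqAx ++ basic).all (fun φ => decide (φ.e.mx ≤ 5)) = true := by decide
  intro φ hφ
  simpa using List.all_eq_true.1 h φ hφ

variable {b : Bool} {M : Mdl b} {D : M → Prop} {ι : ℕ → ℕ} {p : ℕ} {c ψ : ℕ → M}

section Prp
variable (hD : Clo D) {x y z : M}
include hD

theorem fimp (hx : D (jF x)) (hy : D (jF y)) : D (jF (cImp x y)) := hD _ (.fImp hx hy)

theorem fall (a : M) (hx : D (jF x)) : D (jF (cAll a x)) := hD _ (.fAll a hx)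

theorem trans (hx : D (jF x)) (hy : D (jF y)) (hz : D (jF z)) (h1 : D (jP (cImp x y)))
    (h2 : D (jP (cImp y z))) : D (jP (cImp x z)) :=
  hD _ (.pMp (hD _ (.pMp (hD _ (.pS hx hy hz))
    (hD _ (.pMp (hD _ (.pK (fimp hD hy hz) hx)) h2)))) h1)

theorem swap (hx : D (jF x)) (hy : D (jF y)) (hz : D (jF z))
    (h : D (jP (cImp x (cImp y z)))) : D (jP (cImp y (cImp x z))) :=
  trans hD hy (fimp hD hx hy) (fimp hD hx hz) (hD _ (.pK hy hx))
    (hD _ (.pMp (hD _ (.pS hx hy hz)) h))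

theorem syl (hx : D (jF x)) (hy : D (jF y)) (hz : D (jF z)) :
    D (jP (cImp (cImp x y) (cImp (cImp y z) (cImp x z)))) :=
  swap hD (fimp hD hy hz) (fimp hD hx hy) (fimp hD hx hz)
    (trans hD (fimp hD hy hz) (fimp hD hx (fimp hD hy hz))
      (fimp hD (fimp hD hx hy) (fimp hD hx hz)) (hD _ (.pK (fimp hD hy hz) hx))
      (hD _ (.pS hx hy hz)))

end Prp

section Env
variable (S : SIA b) (hD : Clo D) (hG : Good D ι p c ψ)
include S hD hG

theorem fF (φ : EFm) : D (jF (φ.cd ι p c ψ)) := S.fm ι p hD hG.tm hG.fm φ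

theorem aK (φ χ : EFm) : D (jP ((EFm.imp φ (.imp χ φ)).cd ι p c ψ)) :=
  hD _ (.pK (fF S hD hG φ) (fF S hD hG χ))

theorem aS (φ χ θ : EFm) :
    D (jP ((EFm.imp (.imp φ (.imp χ θ)) (.imp (.imp φ χ) (.imp φ θ))).cd ι p c ψ)) :=
  hD _ (.pS (fF S hD hG φ) (fF S hD hG χ) (fF S hD hG θ))

theorem aDn (φ : EFm) : D (jP ((EFm.imp φ.neg.neg φ).cd ι p c ψ)) :=
  hD _ (.pDn (fF S hD hG φ))

theorem aInst (x : ℕ) (u : ETm) (φ : EFm) (h : φ.freeFor x u) :
    D (jP ((EFm.imp (.all x φ) (φ.subst x u)).cd ι p c ψ)) :=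
  hD _ (.pInst (fF S hD hG φ) (S.tm ι hD hG.tm u) (S.sb hD hG x u φ h))

theorem aDist (x : ℕ) (φ χ : EFm) :
    D (jP ((EFm.imp (.all x (.imp φ χ)) (.imp (.all x φ) (.all x χ))).cd ι p c ψ)) :=
  hD _ (.pDist _ (fF S hD hG φ) (fF S hD hG χ))

theorem aVac (x : ℕ) (φ : EFm) (h : ¬ φ.free x) :
    D (jP ((EFm.imp φ (.all x φ)).cd ι p c ψ)) :=
  hD _ (.pVac (fF S hD hG φ) (S.nfm ι p (ι x) hD (fun k => hG.nc k _)
    (Or.inr fun k => hG.nf k _ (hG.ne x)) φ fun _ hn e => h (hG.inj e ▸ hn)))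

omit S in
theorem aAx {φ : Fm} (h : φ ∈ eqAx ++ basic) : D (jP (φ.e.cd ι p c ψ)) := by
  rw [Fm.cd_e, fm_ren φ fun n hn => hG.low n (hn.trans_le (ax_mx φ h))]
  exact hD _ (.pAx h)

theorem aInd (x : ℕ) {φ : Fm} (h : Cls b true φ) : D (jP ((pind x φ).e.cd ι p c ψ)) := by
  have h0 : D (jC true (φ.e.cd ι p c ψ)) := by
    rw [Fm.cd_e]; exact S.cls hD (h.ren hG.inj)
  have h1 := S.sb hD hG x .zero φ.e (freeFor_self (u := .zero) (fun _ hy => False.elim hy) _)
  have h2 := S.sb hD hG x (.half (.var x)) φ.e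
    (freeFor_self (u := .half (.var x)) (fun _ hy => hy) _)
  have h3 := hD _ (.pInd h0 h1 h2)
  simp only [pind, Fm.e, Fm.subst_e]
  exact h3

theorem prv_env {φ : Fm} (h : BPrv b φ) : D (jP (φ.e.cd ι p c ψ)) := by
  induction h with
  | k φ χ => exact aK S hD hG φ.e χ.e
  | s φ χ θ => exact aS S hD hG φ.e χ.e θ.e
  | dn φ => exact aDn S hD hG φ.e
  | inst x u φ h =>
    have := aInst S hD hG x u.e φ.e (freeFor_e h)
    rw [← Fm.subst_e] at this
    exact this
  | dist x φ χ => exact aDist S hD hG x φ.e χ.e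
  | vac x φ h => exact aVac S hD hG x φ.e (mt (Fm.free_e x φ).1 h)
  | mp _ _ i1 i2 => exact hD _ (.pMp i1 i2)
  | gen x _ ih => exact hD _ (.pGen _ ih)
  | ax h => exact aAx hD hG h
  | ind x h => exact aInd S hD hG x h

end Env

theorem prv (S : SIA b) (hD : Clo D) {φ : Fm} (h : BPrv b φ) : D (jP ((φ.code : ℕ) : M)) := by
  have hG : Good D (skip (max 5 φ.e.mx)) (max 5 φ.e.mx) (fun _ => cZero) (fun _ => cBot) :=
    ⟨skip_inj _, fun _ hn => skip_lt (lt_max_of_lt_left hn), skip_ne _, fun _ => hD _ .tZero,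
      fun _ _ => hD _ (.nZero _), fun _ => hD _ .fBot, fun _ _ _ => hD _ (.nBot _)⟩
  have := prv_env S hD hG h
  rwa [Fm.cd_e, fm_ren φ fun n hn => skip_lt (lt_max_of_lt_right hn)] at this

theorem aCong (C : CPL b) (S : SIA b) (hD : Clo D) (hG : Good D ι p c ψ) (k : ℕ) :
    D (jP ((EFm.imp (.eq (.var 0) (.var 1))
      (.imp (.prd k (.var 0)) (.prd k (.var 1)))).cd ι p c ψ)) := by
  have hE : D (jF (cEq (cVar (ι 0 : M)) (cVar (ι 1 : M)))) := fF S hD hG (.eq (.var 0) (.var 1))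
  have hA : D (jF (cEq (cVar (p : M)) (cVar (ι 0 : M)))) :=
    S.fm id p hD hG.tm hG.fm (.eq (.var p) (.var (ι 0)))
  have hB : D (jF (cEq (cVar (p : M)) (cVar (ι 1 : M)))) :=
    S.fm id p hD hG.tm hG.fm (.eq (.var p) (.var (ι 1)))
  have hN : D (jN (p : M) (cEq (cVar (ι 0 : M)) (cVar (ι 1 : M)))) :=
    S.nfm ι p (ψ := ψ) p hD (fun k => hG.nc k p) (Or.inl rfl) (.eq (.var 0) (.var 1))
      fun n _ => hG.ne n
  have hΨ := hG.fm k
  have h1 : D (jP (cImp (cEq (cVar (ι 0 : M)) (cVar (ι 1 : M)))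
      (cImp (cEq (cVar (p : M)) (cVar (ι 1 : M))) (cEq (cVar (p : M)) (cVar (ι 0 : M)))))) := by
    have h := prv S hD (C (.imp (.eq (.var (ι 0)) (.var (ι 1)))
      (.imp (.eq (.var p) (.var (ι 1))) (.eq (.var p) (.var (ι 0)))))
      fun N v (e1 : v (ι 0) = v (ι 1)) (e2 : v p = v (ι 1)) => (e2.trans e1.symm : v p = v (ι 0)))
    have e := Fm.cd_e id p c ψ (.imp (.eq (.var (ι 0)) (.var (ι 1)))
      (.imp (.eq (.var p) (.var (ι 1))) (.eq (.var p) (.var (ι 0)))))
    rw [fm_ren (ι := id) _ fun _ _ => rfl] at e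
    rw [← e] at h
    exact h
  have hAΨ := fimp hD hA hΨ
  have hBΨ := fimp hD hB hΨ
  have hX := fimp hD hAΨ hBΨ
  have h2 := trans hD hE (fimp hD hB hA) hX h1 (syl hD hB hA hΨ)
  have h3 := hD _ (.pMp (hD _ (.pDist (p : M) hE hX)) (hD _ (.pGen (p : M) h2)))
  have h4 := trans hD hE (fall hD _ hE) (fall hD _ hX) (hD _ (.pVac hE hN)) h3
  exact trans hD hE (fall hD _ hX) (fimp hD (fall hD _ hAΨ) (fall hD _ hBΨ)) h4
    (hD _ (.pDist (p : M) hAΨ hBΨ))

theorem inst (C : CPL b) (S : SIA b) (hD : Clo D) (hG : Good D ι p c ψ) {Γ : Set EFm} {φ : EFm}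
    (h : EPrv b Γ φ) (hΓ : ∀ γ ∈ Γ, D (jP (γ.cd ι p c ψ))) : D (jP (φ.cd ι p c ψ)) := by
  induction h with
  | hyp h => exact hΓ _ h
  | k φ χ => exact aK S hD hG φ χ
  | s φ χ θ => exact aS S hD hG φ χ θ
  | dn φ => exact aDn S hD hG φ
  | inst x u φ h => exact aInst S hD hG x u φ h
  | dist x φ χ => exact aDist S hD hG x φ χ
  | vac x φ h => exact aVac S hD hG x φ h
  | mp _ _ i1 i2 => exact hD _ (.pMp i1 i2)
  | gen x _ ih => exact hD _ (.pGen _ ih)
  | ax h => exact aAx hD hG h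
  | ind x h => exact aInd S hD hG x h
  | cong k => exact aCong C S hD hG k

end sib

theorem row_SIB : R_SIB := fun _ C S =>
  ⟨fun hD _ h => sib.prv S hD h, fun hD hG _ _ h hΓ => sib.inst C S hD hG h hΓ⟩

end Pool.Agent.PLO

end Part2

section Part3

/-! Successor, sum and order on numerals are in the box. -/

namespace Pool.Agent.PLO

namespace numa

variable {b : Bool} {M : Mdl b}

theorem msp_zero (x : M) : msp x 0 = x := (msp_lsp_eq (r := 0) (by simp) (by simp)).1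

theorem msp_of_lt {x c : M} (h : x < pw c) : msp x c = 0 := (msp_lsp_eq (by simp) h).1

theorem half_msp (x : M) {e e' : M} (h : len e' = len e + 1) : half (msp x e) = msp x e' := by
  have h2 : pw e' = pw e * 2 := by rw [pw_add (u := e) (v := 1) (by rw [h, len_one]), pw_one]
  have h1 := msp_add_lsp x e
  have h3 := lsp_lt x e
  have h0 := pw_pos e
  symm
  rcases half_spec (msp x e) with q | q
  · refine (msp_lsp_eq (r := lsp x e) ?_ ?_).1
    · rw [h2]; conv_lhs => rw [← h1, q]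
      ring
    · rw [h2, mul_two]; exact h3.trans_le le_self_add
  · refine (msp_lsp_eq (r := pw e + lsp x e) ?_ ?_).1
    · rw [h2]; conv_lhs => rw [← h1, q]
      ring
    · rw [h2, mul_two]; exact add_lt_add_right h3 _

/-- one more bit of `x` becomes visible in each step of the chain -/
theorem msp_step (x : M) {c d : M} (h0 : d ≠ 0) (hd : d ≤ c) :
    msp x (msp c (half d)) = half (msp x (msp c d)) := by
  have h1 : msp c (half d) ≠ 0 := by
    intro h
    have e := msp_add_lsp c (half d)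
    rw [h, zero_mul, zero_add] at e
    exact absurd (lsp_lt c (half d)) (not_lt.2 (e.symm ▸ (pw_half_le h0).trans hd))
  rw [half_msp x (e' := msp c (half d))]
  rw [← half_msp c (len_half h0)]
  exact len_half h1

variable [hb : HasBox b] {D : M → Prop}

theorem even (hD : Th D) {a h : M} (e : a = 2 * h) : Box2 D (fun _ a c => a = 2 * c) a h :=
  e ▸ (HasBox.num2 h).of_dv hD

theorem odd (hD : Th D) {a h : M} (e : a = 2 * h + 1) : Box2 D (fun _ a c => a = 2 * c + 1) a h :=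
  e ▸ (HasBox.num3 h).of_dv hD

theorem suc_step (hD : Th D) (y : M) (ih : Box2 D (fun _ a c => a = c + 1) (half y + 1) (half y)) :
    Box2 D (fun _ a c => a = c + 1) (y + 1) y := by
  refine Box2.of hD (P := fun _ a c => a = c + 1)
    (x := vec [y + 1, y, half y, half y + 1]) (i := 0) (j := 1) ?_
  rcases half_spec y with e | e
  · exact (Box2.at hD (odd hD (congrArg (· + 1) e)) _ 0 2 rfl rfl).ent2 hD
      (Box2.at hD (even hD e) _ 1 2 rfl rfl) fun N v h1 h2 => by rw [h1, h2]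
  · have e2 : y + 1 = 2 * (half y + 1) := by conv_lhs => rw [e]
                                             ring
    exact (Box2.at hD (even hD e2) _ 0 3 rfl rfl).ent3 hD (Box2.at hD (odd hD e) _ 1 2 rfl rfl)
      (Box2.at hD ih _ 3 2 rfl rfl) fun N v h1 h2 h3 => by rw [h1, h2, h3]; ring

theorem suc (x : M) : Box2 Dv (fun _ a c => a = c + 1) (x + 1) x := by
  refine box_chain (fun _ v => v 0 = v 1 + 1) (fun i _ y _ => cons (y + 1) (fun _ => y) i)
    (fun _ _ => True) ?_ (fun M _ y D hD _ _ _ h => suc_step hD y h) M (fun _ => x) trivial ?_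
  · rintro (_ | i)
    · exact (inferInstance : UFn fun _ v => v 0 + 1)
    · exact (inferInstance : UFn fun _ v => v 0)
  · exact (odd (a := (0 : M) + 1) (h := 0) thDv (by simp)).ent2 thDv
      (Box1.at thDv (HasBox.num0 M) _ 1 rfl) fun N v h1 h2 => by
        beta_reduce at h1 h2 ⊢; rw [h1, h2]; simp

theorem add_step (hD : Th D) (x y : M)
    (ih : Box3 D (fun _ a c d => a = c + d) (half x + half y) (half x) (half y)) :
    Box3 D (fun _ a c d => a = c + d) (x + y) x y := by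
  refine Box3.of hD (P := fun _ a c d => a = c + d)
    (x := vec [x + y, x, y, half x + half y, half x, half y, half x + half y + 1])
    (i := 0) (j := 1) (k := 2) ?_
  have ih' := Box3.at hD ih
    (vec [x + y, x, y, half x + half y, half x, half y, half x + half y + 1]) 3 4 5 rfl rfl rfl
  rcases half_spec x with e | e <;> rcases half_spec y with f | f
  · have g : x + y = 2 * (half x + half y) := by conv_lhs => rw [e, f]
                                                 ring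
    exact ih'.ent4 hD (Box2.at hD (even hD g) _ 0 3 rfl rfl) (Box2.at hD (even hD e) _ 1 4 rfl rfl)
      (Box2.at hD (even hD f) _ 2 5 rfl rfl) fun N v h1 h2 h3 h4 => by rw [h2, h3, h4, h1]; ring
  · have g : x + y = 2 * (half x + half y) + 1 := by conv_lhs => rw [e, f]
                                                     ring
    exact ih'.ent4 hD (Box2.at hD (odd hD g) _ 0 3 rfl rfl) (Box2.at hD (even hD e) _ 1 4 rfl rfl)
      (Box2.at hD (odd hD f) _ 2 5 rfl rfl) fun N v h1 h2 h3 h4 => by rw [h2, h3, h4, h1]; ring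
  · have g : x + y = 2 * (half x + half y) + 1 := by conv_lhs => rw [e, f]
                                                     ring
    exact ih'.ent4 hD (Box2.at hD (odd hD g) _ 0 3 rfl rfl) (Box2.at hD (odd hD e) _ 1 4 rfl rfl)
      (Box2.at hD (even hD f) _ 2 5 rfl rfl) fun N v h1 h2 h3 h4 => by rw [h2, h3, h4, h1]; ring
  · have g : x + y = 2 * (half x + half y + 1) := by conv_lhs => rw [e, f]
                                                     ring
    have sc : Box2 D (fun _ a c => a = c + 1) (half x + half y + 1) (half x + half y) :=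
      (suc (half x + half y)).of_dv hD
    exact (ih'.and hD (Box2.at hD sc _ 6 3 rfl rfl)).ent4 hD
      (Box2.at hD (even hD g) _ 0 6 rfl rfl) (Box2.at hD (odd hD e) _ 1 4 rfl rfl)
      (Box2.at hD (odd hD f) _ 2 5 rfl rfl) fun N v h1 h2 h3 h4 => by
        rw [h2, h3, h4, h1.2, h1.1]; ring

theorem add (x y : M) : Box3 Dv (fun _ a c d => a = c + d) (x + y) x y := by
  have key := box_chain (fun _ v => v 0 = v 1 + v 2)
    (fun i _ d v => cons (msp (v 1) (msp (v 0) d) + msp (v 2) (msp (v 0) d))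
      (cons (msp (v 1) (msp (v 0) d)) fun _ => msp (v 2) (msp (v 0) d)) i)
    (fun _ _ => True) ?_ (fun M v d D hD _ h0 hd h => ?_) M (vec [x + y, x, y]) trivial ?_
  · change Box3 Dv (fun _ a c d => a = c + d)
      (msp x (msp (x + y) (x + y)) + msp y (msp (x + y) (x + y))) (msp x (msp (x + y) (x + y)))
      (msp y (msp (x + y) (x + y))) at key
    rwa [msp_of_lt (lt_pw (x + y)), msp_zero, msp_zero] at key
  · rintro (_ | _ | i)
    · exact (inferInstance :
        UFn fun _ v => msp (v 2) (msp (v 1) (v 0)) + msp (v 3) (msp (v 1) (v 0)))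
    · exact (inferInstance : UFn fun _ v => msp (v 2) (msp (v 1) (v 0)))
    · exact (inferInstance : UFn fun _ v => msp (v 3) (msp (v 1) (v 0)))
  · rw [msp_step _ h0 hd, msp_step _ h0 hd] at h
    exact add_step hD _ _ h
  · change Box3 Dv (fun _ a c d => a = c + d)
      (msp x (msp (x + y) 0) + msp y (msp (x + y) 0)) (msp x (msp (x + y) 0))
      (msp y (msp (x + y) 0))
    rw [msp_zero, msp_of_lt ((lt_pw x).trans_le (pw_mono le_self_add)),
      msp_of_lt ((lt_pw y).trans_le (pw_mono le_add_self)), add_zero]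
    exact (Box1.at thDv (HasBox.num0 M) _ 0 rfl).ent3 thDv (Box1.at thDv (HasBox.num0 M) _ 1 rfl)
      (Box1.at thDv (HasBox.num0 M) _ 2 rfl) fun N v h1 h2 h3 => by rw [h1, h2, h3]; exact (add_zero _).symm

theorem le {x y : M} (h : x ≤ y) : Box2 Dv (fun _ a c => a ≤ c) x y := by
  obtain ⟨z, rfl⟩ := exists_add_of_le h
  refine Box2.of thDv (P := fun _ a c => a ≤ c) (x := vec [x + z, x, z]) (i := 1) (j := 0) ?_
  exact (Box3.at thDv (add x z) _ 0 1 2 rfl rfl rfl).ent thDv fun N v h => by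
    rw [h]; exact le_self_add

theorem lt {x y : M} (h : x < y) : Box2 Dv (fun _ a c => a < c) x y := by
  refine Box2.of thDv (P := fun _ a c => a < c) (x := vec [x, y, x + 1]) (i := 0) (j := 1) ?_
  exact (Box2.at thDv (le (succ_le_iff.2 h)) _ 2 1 rfl rfl).ent2 thDv
    (Box2.at thDv (suc x) _ 2 0 rfl rfl) fun N v h1 h2 => succ_le_iff.1 (h2 ▸ h1)

end numa

theorem row_NUMA : R_NUMA := fun _ _ => ⟨numa.suc, numa.add, numa.le, numa.lt⟩

end Pool.Agent.PLO

end Part3

section Part4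

/-! Values of terms at numerals. -/

namespace Pool.Agent.PLO

namespace numb

variable {b : Bool}

/-- the value of the function at numerals is provably the numeral of the value -/
structure Cp (f : UFun b) : Prop where
  fn : UFn f
  bx : ∀ (M : Mdl b) (x : ℕ → M),
    BoxD Dv (fun N v => v 0 = f N (fun i => v (i + 1))) (cons (f M x) x)

variable [hb : HasBox b] {f g : UFun b} {F G H : ∀ N : Mdl b, N → N → N}

theorem Cp.at2 (h : Cp fun N v => F N (v 0) (v 1)) {M : Mdl b} (x : ℕ → M) (i j k : ℕ)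
    (e : x i = F M (x j) (x k)) : BoxD Dv (fun N v => v i = F N (v j) (v k)) x :=
  (h.bx M (cons (x j) fun _ => x k)).at thDv x (cons i (cons j fun _ => k))
    (by rintro (_ | _ | _) <;> first | exact e | rfl)

theorem of3 (hF : UFn fun N v => F N (v 0) (v 1))
    (h : ∀ (M : Mdl b) (x y : M), Box3 Dv (fun N a c d => a = F N c d) (F M x y) x y) :
    Cp fun N v => F N (v 0) (v 1) :=
  ⟨hF, fun M x => Box3.at thDv (h M (x 0) (x 1)) (cons (F M (x 0) (x 1)) x) 0 1 2 rfl rfl rfl⟩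

theorem Cp.app2 (hF : Cp fun N v => F N (v 0) (v 1)) (hf : Cp f) (hg : Cp g) :
    Cp fun N v => F N (f N v) (g N v) := by
  have h0 := hF.fn.app2 hf.fn hg.fn
  refine ⟨h0, fun M x => ?_⟩
  have u := h0.gr.up
  have u' : UP fun N v => v 0 = F N (f N fun i => v (i + 3)) (g N fun i => v (i + 3)) :=
    (h0.gr.ren (consInj 2)).up
  refine BoxD.of_at thDv (x := cons (F M (f M x) (g M x)) (cons (f M x) (cons (g M x) x)))
    (g := cons 0 fun i => i + 3) ?_ (by rintro (_ | _) <;> rfl)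
  refine BoxD.ent3 thDv (Q := fun N v => v 0 = F N (f N fun i => v (i + 3))
    (g N fun i => v (i + 3))) (hF.at2 _ 0 1 2 rfl)
    ((hf.bx M x).at thDv _ (cons 1 fun i => i + 3) (by rintro (_ | _) <;> rfl))
    ((hg.bx M x).at thDv _ (cons 2 fun i => i + 3) (by rintro (_ | _) <;> rfl))
    fun N v h1 h2 h3 => ?_
  change v 1 = f N fun i => v (i + 3) at h2
  change v 2 = g N fun i => v (i + 3) at h3
  rw [h1, h2, h3]

theorem Cp.app1 {F : ∀ N : Mdl b, N → N} (hF : Cp fun N v => F N (v 0)) (hf : Cp f) :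
    Cp fun N v => F N (f N v) := Cp.app2 (F := fun N x _ => F N x) hF hf hf

omit hb in
theorem Cp.congr (h : Cp f) (e : ∀ N v, f N v = g N v) : Cp g := by
  rwa [← show f = g from funext fun M => funext (e M)]

theorem cp_var (i : ℕ) : Cp fun (_ : Mdl b) v => v i :=
  ⟨inferInstance, fun M x => BoxD.of_at thDv (x := x) (g := cons i id)
    (box_nec (Q := fun _ v => v i = v i) thDv fun _ _ => rfl) (by rintro (_ | _) <;> rfl)⟩

theorem cp_zero : Cp fun (N : Mdl b) _ => (0 : N) :=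
  ⟨inferInstance, fun M _ => Box1.at thDv (HasBox.num0 M) _ 0 rfl⟩

theorem cp_half : Cp fun (_ : Mdl b) v => half (v 0) :=
  ⟨inferInstance, fun _ x => Box2.at thDv (box_half (x 0)) (cons (half (x 0)) x) 1 0 rfl rfl⟩

theorem cp_suc (na : NUMA b) : Cp fun (_ : Mdl b) v => v 0 + 1 :=
  ⟨inferInstance, fun _ x => Box2.at thDv (na.suc (x 0)) (cons (x 0 + 1) x) 0 1 rfl rfl⟩

theorem cp_add (na : NUMA b) : Cp fun (_ : Mdl b) v => v 0 + v 1 :=
  of3 (F := fun _ x y => x + y) inferInstance fun _ => na.add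

/-- recursion on the binary digits of the second argument -/
theorem cp_rec (hF : UFn fun N v => F N (v 0) (v 1)) (h0 : Cp fun N v => F N (v 0) 0)
    (hG : Cp fun N v => G N (v 0) (v 1)) (hH : Cp fun N v => H N (v 0) (v 1))
    (e0 : ∀ N x y, y ≠ 0 → F N x (2 * y) = G N (F N x y) x)
    (e1 : ∀ N x y, F N x (2 * y + 1) = H N (F N x y) x) : Cp fun N v => F N (v 0) (v 1) := by
  have u : UP fun N v => v 0 = F N (v 1) (v 2) := hF.gr.up
  refine of3 hF fun M x y => ?_
  refine box_chain (fun N v => v 0 = F N (v 1) (v 2))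
    (fun i M y v => cons (F M (v 1) y) (cons (v 1) fun _ => y) i) (fun _ _ => True) ?_
    (fun M v y D hD _ hy _ h => ?_) M (cons y fun _ => x) trivial ?_
  · rintro (_ | _ | _)
    exacts [hF.app2 (UFn.var 2) (UFn.var 0), UFn.var 2, UFn.var 0]
  · refine Box3.of hD (P := fun N a c d => a = F N c d) (i := 0) (j := 1) (k := 2)
      (x := cons (F M (v 1) y) (cons (v 1) (cons y (cons (F M (v 1) (half y)) fun _ => half y)))) ?_
    have k := Box3.at hD (P := fun N a c d => a = F N c d) h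
      (cons (F M (v 1) y) (cons (v 1) (cons y (cons (F M (v 1) (half y)) fun _ => half y))))
      3 1 4 rfl rfl rfl
    rcases half_spec y with e | e
    · have h1 : half y ≠ 0 := fun h1 => hy (by rw [e, h1, mul_zero])
      refine k.ent4 hD ((hG.at2 _ 0 3 1 ((congrArg _ e).trans (e0 M _ _ h1))).of_dv hD)
        ((Box2.at thDv (HasBox.num2 (half y)) _ 2 4 e rfl).of_dv hD)
        ((Box1.at thDv (box_ne_zero h1) _ 4 rfl).of_dv hD) fun N w a1 a2 a3 a4 => ?_
      rw [a2, a3, a1, e0 N _ _ a4]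
    · refine k.ent3 hD ((hH.at2 _ 0 3 1 ((congrArg _ e).trans (e1 M _ _))).of_dv hD)
        ((Box2.at thDv (HasBox.num3 (half y)) _ 2 4 e rfl).of_dv hD) fun N w a1 a2 a3 => ?_
      rw [a2, a3, a1, e1 N]
  · refine (Cp.at2 (F := fun N a _ => F N a 0) h0 (cons (F M x 0) (cons x fun _ => 0)) 0 1 1
      rfl).ent2 thDv (Box1.at thDv (HasBox.num0 M) _ 2 rfl) fun N w a1 a2 => ?_
    rw [a1, a2]

theorem Cp.add (na : NUMA b) (hf : Cp f) (hg : Cp g) : Cp fun N v => f N v + g N v :=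
  Cp.app2 (F := fun _ x y => x + y) (cp_add na) hf hg

theorem Cp.suc (na : NUMA b) (hf : Cp f) : Cp fun N v => f N v + 1 :=
  Cp.app1 (F := fun _ x => x + 1) (cp_suc na) hf

theorem Cp.len (na : NUMA b) (hf : Cp f) : Cp fun N v => len (f N v) :=
  Cp.app2 (F := fun _ _ y => PLO.len y)
    (cp_rec (G := fun _ z _ => z + 1) (H := fun _ z _ => z + 1) inferInstance
      (cp_zero.congr fun _ _ => len_zero.symm) (cp_suc na) (cp_suc na)
      (fun _ _ _ => len_two_mul) fun _ _ => len_two_mul_add_one) hf hf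

theorem Cp.mul (na : NUMA b) (hf : Cp f) (hg : Cp g) : Cp fun N v => f N v * g N v :=
  Cp.app2 (F := fun _ x y => x * y)
    (cp_rec (G := fun _ z _ => z + z) (H := fun _ z x => z + z + x) inferInstance
      (cp_zero.congr fun _ _ => (mul_zero _).symm) ((cp_var 0).add na (cp_var 0))
      (((cp_var 0).add na (cp_var 0)).add na (cp_var 1))
      (fun _ _ _ _ => by ring) fun _ _ _ => by ring) hf hg

omit hb in
theorem odd_ne {N : Mdl b} (y : N) : 2 * y + 1 ≠ 0 := one_le_iff.1 le_add_self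

theorem Cp.pw (na : NUMA b) (hf : Cp f) : Cp fun N v => pw (f N v) :=
  Cp.app2 (F := fun _ _ y => PLO.pw y)
    (cp_rec (F := fun _ _ y => PLO.pw y) (G := fun _ z _ => z + z)
      (H := fun _ z _ => z + z) inferInstance
      ((cp_zero.suc na).congr fun _ _ => by rw [pw_zero, zero_add])
      ((cp_var 0).add na (cp_var 0)) ((cp_var 0).add na (cp_var 0))
      (fun _ _ y h => by rw [pw_half (mul_ne_zero two_ne_zero h), half_two_mul, two_mul])
      fun _ _ y => by rw [pw_half (odd_ne y), half_two_mul_add_one, two_mul]) hf hf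

theorem Cp.smash (na : NUMA b) (hf : Cp f) (hg : Cp g) : Cp fun N v => smash (f N v) (g N v) :=
  Cp.app2 (F := fun _ x y => PLO.smash x y)
    (cp_rec (G := fun _ z x => z * PLO.pw x) (H := fun _ z x => z * PLO.pw x)
      inferInstance ((cp_zero.suc na).congr fun _ _ => by rw [smash_zero, zero_add])
      ((cp_var 0).mul na ((cp_var 1).pw na)) ((cp_var 0).mul na ((cp_var 1).pw na))
      (fun _ _ y h => by rw [smash_half (mul_ne_zero two_ne_zero h), half_two_mul])
      fun _ _ y => by rw [smash_half (odd_ne y), half_two_mul_add_one]) hf hg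

theorem cp_tm (na : NUMA b) (t : Tm) : Cp fun (N : Mdl b) v => t.ev N.toStr v := by
  induction t with
  | var i => exact cp_var i
  | zero => exact cp_zero
  | succ t ih => exact (ih.suc na).congr fun _ v => (Tm.ev_succ v t).symm
  | len t ih => exact ih.len na
  | half t ih => exact Cp.app1 (F := fun _ x => half x) cp_half ih
  | add s t i1 i2 => exact i1.add na i2
  | mul s t i1 i2 => exact i1.mul na i2
  | smash s t i1 i2 => exact i1.smash na i2

end numb

theorem row_NUMB : R_NUMB := fun _ _ na t => (numb.cp_tm na t).bx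

end Pool.Agent.PLO

end Part4

section Part5

/-! Row SIG: completeness of the box for `Σ^b_1` predicates. -/

namespace Pool.Agent.PLO

open Function

namespace sig

variable {b : Bool}

theorem up_ev (φ : Fm) : UP fun (N : Mdl b) v => φ.ev N.toStr v := ⟨φ, fun _ _ => Iff.rfl⟩

theorem ufn_upd (x : ℕ) {f : UFun b} (hf : UFn f) (k : ℕ) (i : ℕ) :
    UFn fun (M : Mdl b) v => update (fun j => v (j + k)) x (f M v) i := by
  by_cases h : i = x
  · subst h
    exact hf.congr fun _ _ => by simp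
  · exact (UFn.var (i + k)).congr fun _ _ => by simp [update_of_ne h]

/-- the renaming that sends `x` to `0` and shifts the other variables up -/
def sh (x : ℕ) (i : ℕ) : ℕ := if i = x then 0 else i + 1

theorem comp_sh {α : Type} (x : ℕ) (v : ℕ → α) :
    (fun i => v (sh x i)) = update (fun i => v (i + 1)) x (v 0) := by
  funext i
  by_cases h : i = x
  · subst h; simp [sh]
  · simp [sh, h]

variable [hb : HasBox b]

/-- a box at an updated vector as a box at a longer vector -/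
theorem box_upd {M : Mdl b} {P : UPred b} {v : ℕ → M} {x : ℕ} {u : M}
    (h : BoxD Dv P (update v x u)) :
    BoxD Dv (fun N w => P N (update (fun i => w (i + 1)) x (w 0))) (cons u v) :=
  (h.at thDv (cons u v) (sh x) fun i => congrFun (comp_sh x (cons u v)) i).congr
    fun N w => by rw [comp_sh]

/-- a relation between the values of two terms -/
theorem two_terms (nb : NUMB b) (R : ∀ N : Mdl b, N → N → Prop)
    [hR : UP fun N v => R N (v 0) (v 1)] (s t : Tm) {M : Mdl b} (x : ℕ → M)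
    (h : Box2 Dv R (s.ev M.toStr x) (t.ev M.toStr x)) :
    BoxD Dv (fun N v => R N (s.ev N.toStr v) (t.ev N.toStr v)) x := by
  have hU : UP fun N v => R N (s.ev N.toStr v) (t.ev N.toStr v) :=
    @UP.ofUF _ _ (UF.app2 (T := fun N _ a c => R N a c) hR.uf (UFn.ofTm s) (UFn.ofTm t))
  have hU1 : UP fun N v => R N (s.ev N.toStr fun i => v (i + 1)) (t.ev N.toStr fun i => v (i + 1)) :=
    hU.comp (fun i _ v => v (i + 1)) fun _ => inferInstance
  have hU2 : UP fun N v => R N (s.ev N.toStr fun i => v (i + 1 + 1))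
      (t.ev N.toStr fun i => v (i + 1 + 1)) :=
    hU.comp (fun i _ v => v (i + 1 + 1)) fun _ => inferInstance
  refine BoxD.drop thDv (u := t.ev M.toStr x) (BoxD.drop thDv (u := s.ev M.toStr x) ?_)
  have h1 := (nb s M x).at thDv (cons (s.ev M.toStr x) (cons (t.ev M.toStr x) x))
    (cons 0 fun i => i + 1 + 1) (by rintro (_ | _) <;> rfl)
  have h2 := (nb t M x).lift thDv (s.ev M.toStr x)
  have h3 := Box2.at thDv h (cons (s.ev M.toStr x) (cons (t.ev M.toStr x) x)) 0 1 rfl rfl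
  refine h1.ent3 thDv h2 h3 fun N v e1 e2 e3 => ?_
  simp only [cons_zero, cons_succ, zero_add] at e1 e2
  rw [← e1, ← e2]
  exact e3

theorem sharp_case (nb : NUMB b) {x : ℕ} {t : Tm} {φ : Fm} (ht : ¬ t.occ x)
    (hφ : Cls false true φ)
    (ih : ∀ (M : Mdl b) (v : ℕ → M), φ.ev M.toStr v → BoxD Dv (fun N w => φ.ev N.toStr w) v)
    (M : Mdl b) (v : ℕ → M) (h : (Fm.ball x t.len φ).ev M.toStr v) :
    BoxD Dv (fun N w => (Fm.ball x t.len φ).ev N.toStr w) v := by
  have hc : UC false true fun (N : Mdl b) w => φ.ev N.toStr w := ⟨φ, hφ, fun _ _ => Iff.rfl⟩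
  have hP : USig fun (N : Mdl b) w =>
      ∀ j ≤ len (w 0), φ.ev N.toStr (update (fun i => w (i + 1)) x j) :=
    ⟨UC.sall (B := fun N w j => φ.ev N.toStr (update (fun i => w (i + 1)) x j)) (UFn.var 0)
      (hc.comp _ (ufn_upd x (UFn.var 0) 2))⟩
  have hP' := hP.out.up
  have hQ : UP fun (N : Mdl b) w => φ.ev N.toStr (update (fun i => w (i + 1)) x (len (w 0))) :=
    (up_ev φ).comp _ (ufn_upd x inferInstance 1)
  have hQ1 : UP fun (N : Mdl b) w =>
      φ.ev N.toStr (update (fun i => w (i + 1 + 1)) x (len (w (0 + 1)))) :=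
    hQ.comp (fun i _ w => w (i + 1)) fun _ => inferInstance
  have top : ∀ (M : Mdl b) (y : M) (v : ℕ → M), φ.ev M.toStr (update v x (len y)) →
      BoxD Dv (fun N w => φ.ev N.toStr (update (fun i => w (i + 1)) x (len (w 0)))) (cons y v) := by
    intro M y v hy
    refine BoxD.drop thDv (u := len y) ?_
    have h1 := (box_upd (ih M _ hy)).at thDv (cons (len y) (cons y v))
      (cons 0 fun i => i + 1 + 1) (by rintro (_ | _) <;> rfl)
    have h2 := nb (Tm.len (.var 0)) M (cons y v)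
    refine h1.ent2 thDv h2 fun N w e1 e2 => ?_
    simp only [cons_zero, cons_succ, Tm.ev_len, Tm.ev_var] at e1 e2
    rw [← e2]
    exact e1
  have hT : ∀ j ≤ len (t.ev M.toStr v), φ.ev M.toStr (update v x j) :=
    (Fm.ev_ball v (t := t.len) ht φ).1 h
  have key := box_chain
    (fun N w => ∀ j ≤ len (w 0), φ.ev N.toStr (update (fun i => w (i + 1)) x j))
    (fun i _ y w => cons y (fun j => w (j + 1)) i)
    (fun N w => ∀ j ≤ len (w 0), φ.ev N.toStr (update (fun i => w (i + 1)) x j))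
    (by rintro (_ | i)
        · exact UFn.var 0
        · exact UFn.var (i + 1 + 1))
    (fun M w y D hD hC _ hy h0 => ?_) M (cons (t.ev M.toStr v) v) hT ?_
  · have hU := up_ev (b := b) (Fm.ball x t.len φ)
    have hU1 : UP fun (N : Mdl b) w => (Fm.ball x t.len φ).ev N.toStr fun i => w (i + 1) :=
      hU.comp (fun i _ w => w (i + 1)) fun _ => inferInstance
    refine BoxD.drop thDv (u := t.ev M.toStr v) ?_
    refine BoxD.ent2 thDv key (nb t M v) fun N w e1 e2 => ?_
    refine (Fm.ev_ball _ (t := t.len) ht φ).2 fun j hj => e1 j ?_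
    rw [e2]
    exact hj
  · have hP1 : UP fun (N : Mdl b) w =>
        ∀ j ≤ len (w (0 + 1)), φ.ev N.toStr (update (fun i => w (i + 1 + 1)) x j) :=
      hP'.comp (fun i _ w => w (i + 1)) fun _ => inferInstance
    refine BoxD.drop hD (u := half y) ?_
    have h1 := h0.at hD (cons (half y) (cons y fun j => w (j + 1)))
      (cons 0 fun i => i + 1 + 1) (by rintro (_ | _) <;> rfl)
    have h2 := ((top M y _ (hC _ (len_mono hy))).of_dv hD).lift hD (half y)
    have h3 := Box2.at hD (P := fun _ a c => c = half a) ((box_half y).of_dv hD)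
      (cons (half y) (cons y fun j => w (j + 1))) 1 0 rfl rfl
    refine h1.ent3 hD h2 h3 fun N u e1 e2 e3 j hj => ?_
    simp only [cons_zero, cons_succ, zero_add] at e1 e2 e3 hj
    rcases hj.lt_or_eq with hj | rfl
    · have h0 : u 1 ≠ 0 := by
        rintro h0
        rw [h0, len_zero] at hj
        exact absurd hj (not_lt.2 (zero_le' j))
      rw [len_half h0, lt_succ_iff, ← e3] at hj
      exact e1 j hj
    · exact e2
  · have h1 := top M 0 v (hT _ (by rw [len_zero]; exact zero_le' _))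
    have h2 := Box1.at thDv (HasBox.num0 M) (cons (0 : M) v) 0 rfl
    refine h1.ent2 thDv h2 fun N u e1 e2 j hj => ?_
    beta_reduce at e1 e2
    rw [e2, len_zero] at hj e1
    rw [le_antisymm hj (zero_le' j)]
    exact e1

theorem main (na : NUMA b) (nb : NUMB b) {σ : Bool} {φ : Fm} (h : Cls false σ φ) :
    ∀ (M : Mdl b) (v : ℕ → M),
      (σ = true → φ.ev M.toStr v → BoxD Dv (fun N w => φ.ev N.toStr w) v) ∧
      (σ = false → ¬ φ.ev M.toStr v → BoxD Dv (fun N w => ¬ φ.ev N.toStr w) v) := by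
  induction h with
  | bot σ =>
    intro M v
    refine ⟨fun _ h => h.elim, fun _ _ => ?_⟩
    have := up_ev (b := b) Fm.bot.neg
    exact box_nec (Q := fun N w => Fm.bot.neg.ev N.toStr w) thDv fun _ _ => id
  | eq σ s t =>
    intro M v
    refine ⟨fun _ h => ?_, fun _ h => ?_⟩
    · refine two_terms nb (fun _ a c => a = c) s t v ?_
      have h' : s.ev M.toStr v = t.ev M.toStr v := h
      exact (na.le h'.le).ent2 thDv (Box2.at thDv (na.le h'.ge) _ 1 0 rfl rfl)
        fun N w e1 e2 => le_antisymm e1 e2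
    · refine two_terms nb (fun _ a c => ¬ a = c) s t v ?_
      have h' : s.ev M.toStr v ≠ t.ev M.toStr v := h
      rcases lt_or_gt_of_ne h' with h1 | h1
      · exact (na.lt h1).ent thDv fun N w e => ne_of_lt e
      · exact (Box2.at thDv (na.lt h1) _ 1 0 rfl rfl).ent thDv fun N w e => ne_of_gt e
  | le σ s t =>
    intro M v
    refine ⟨fun _ h => ?_, fun _ h => ?_⟩
    · exact two_terms nb (fun _ a c => a ≤ c) s t v (na.le h)
    · refine two_terms nb (fun _ a c => ¬ a ≤ c) s t v ?_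
      have h' : t.ev M.toStr v < s.ev M.toStr v := not_le.1 h
      exact (Box2.at thDv (na.lt h') _ 1 0 rfl rfl).ent thDv fun N w e => not_le.2 e
  | orc σ t =>
    intro M v
    refine ⟨fun _ h => ?_, fun _ h => ?_⟩
    · refine two_terms nb (fun _ a _ => Orc a) t t v ?_
      refine ⟨.orc (.var 0), fun _ _ => Iff.rfl, ?_⟩
      exact (thDv (M := M)).clo _ (.pYes h (HasBox.nmM _))
    · refine two_terms nb (fun _ a _ => ¬ Orc a) t t v ?_
      refine ⟨(Fm.orc (.var 0)).neg, fun _ _ => Iff.rfl, ?_⟩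
      exact (thDv (M := M)).clo _ (.pNo h (HasBox.nmM _))
  | @imp σ φ ψ _ _ i1 i2 =>
    intro M v
    have hU := up_ev (b := b) (φ.imp ψ)
    have hU' : UP fun (N : Mdl b) w => ¬ (φ.imp ψ).ev N.toStr w := up_ev (φ.imp ψ).neg
    refine ⟨fun hσ h => ?_, fun hσ h => ?_⟩
    · by_cases h1 : φ.ev M.toStr v
      · exact ((i2 M v).1 hσ (h h1)).ent thDv fun N w e _ => e
      · exact ((i1 M v).2 (by rw [hσ]; rfl) h1).ent thDv fun N w e e' => absurd e' e
    · have h' : φ.ev M.toStr v ∧ ¬ ψ.ev M.toStr v := Classical.not_imp.1 h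
      exact ((i1 M v).1 (by rw [hσ]; rfl) h'.1).ent2 thDv ((i2 M v).2 hσ h'.2)
        fun N w e1 e2 e => e2 (e e1)
  | @ball x t φ ht _ ih =>
    intro M v
    refine ⟨fun h => absurd h (by decide), fun _ h => ?_⟩
    rw [Fm.ev_ball v ht] at h
    obtain ⟨u, hu⟩ := not_forall.1 h
    obtain ⟨h1, h2⟩ := Classical.not_imp.1 hu
    have hU : UP fun (N : Mdl b) w => ¬ (Fm.ball x t φ).ev N.toStr w := up_ev (Fm.ball x t φ).neg
    have hU1 : UP fun (N : Mdl b) w => ¬ (Fm.ball x t φ).ev N.toStr fun i => w (i + 1) :=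
      hU.comp (fun i _ w => w (i + 1)) fun _ => inferInstance
    refine BoxD.drop thDv (u := u) ?_
    have h3 := two_terms nb (fun _ a c => a ≤ c) (.var 0) (t.ren (· + 1)) (cons u v)
      (na.le (by rw [Tm.ev_ren]; exact h1))
    refine (box_upd ((ih M _).2 rfl h2)).ent2 thDv h3 fun N w e1 e2 e => e1 ?_
    rw [Tm.ev_ren] at e2
    exact (Fm.ev_ball _ ht φ).1 e _ e2
  | @sharp x t φ ht hφ ih =>
    intro M v
    exact ⟨fun _ h => sharp_case nb ht hφ (fun M v => (ih M v).1 rfl) M v h,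
      fun h => absurd h (by decide)⟩
  | wide h => exact absurd h (by decide)

end sig

theorem row_SIG : R_SIG := by
  intro b hb na nb P hP M x h
  obtain ⟨φ, h1, h2⟩ := hP.out
  exact ((sig.main na nb h1 M x).1 rfl ((h2 M x).2 h)).congr h2

end Pool.Agent.PLO

end Part5

section Part6

/-! Row FIX: simultaneous fixed points. -/

namespace Pool.Agent.PLO

open Function

namespace FIX

variable {b : Bool}

/-- fix the variables of the list to the numerals of `n` -/
def wrap (n : ℕ → ℕ) : List ℕ → Fm → Fm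
  | [], θ => θ
  | i :: L, θ => .all i (.imp (.eq (.var i) (.num (n i))) (wrap n L θ))

theorem free_wrap (n : ℕ → ℕ) (θ : Fm) (x : ℕ) :
    ∀ L : List ℕ, (wrap n L θ).free x → θ.free x ∧ x ∉ L
  | [], h => ⟨h, by simp⟩
  | i :: L, h => by
    obtain ⟨h1, h2⟩ := h
    rcases h2 with (h2 | h2) | h2
    · exact absurd h2 h1
    · exact absurd h2 (Tm.not_occ_num _ _)
    · obtain ⟨h3, h4⟩ := free_wrap n θ x L h2
      exact ⟨h3, by simp [h1, h4]⟩

theorem ev_wrap {N : Mdl b} (n : ℕ → ℕ) (θ : Fm) : ∀ (L : List ℕ) (v : ℕ → N),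
    (wrap n L θ).ev N.toStr v ↔ θ.ev N.toStr (fun i => if i ∈ L then (n i : N) else v i)
  | [], v => by simp [wrap]
  | i :: L, v => by
    have e : (fun j => if j ∈ L then (n j : N) else update v i (n i : N) j) =
        fun j => if j ∈ i :: L then (n j : N) else v j := by
      funext j
      by_cases h1 : j = i
      · subst h1; simp
      · simp [h1]
    rw [← e, ← ev_wrap n θ L]
    constructor
    · intro h
      refine h (n i : N) ?_
      rw [Fm.ev_eq, Tm.ev_num]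
      exact update_self _ _ _
    · intro h u hu
      rw [Fm.ev_eq, Tm.ev_num] at hu
      have h2 : u = (n i : N) := by
        rw [← hu]
        exact (update_self i u v).symm
      rw [h2]
      exact h

/-- the code of `wrap` computed in a model -/
noncomputable def wc {N : Mdl b} (v : ℕ → N) (y : N) : List ℕ → N
  | [] => y
  | i :: L => cAll (i : N) (cImp (cEq (cVar (i : N)) (nm (v i))) (wc v y L))

theorem wc_congr {N : Mdl b} {v w : ℕ → N} (y : N) :
    ∀ L : List ℕ, (∀ i ∈ L, v i = w i) → wc v y L = wc w y L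
  | [], _ => rfl
  | i :: L, h => by
    rw [wc, wc, h i (by simp), wc_congr y L fun j hj => h j (by simp [hj])]

theorem code_wrap {N : Mdl b} (n : ℕ → ℕ) (θ : Fm) : ∀ L : List ℕ,
    (((wrap n L θ).code : ℕ) : N) = wc (fun i => (n i : N)) ((θ.code : ℕ) : N) L
  | [] => rfl
  | i :: L => by
    rw [wc, ← code_wrap n θ L, nm_cast]
    simp only [wrap, Fm.code, Tm.code, cast_npr, Nat.cast_ofNat, Nat.cast_zero]

theorem fn_wc (k : ℕ) : ∀ L : List ℕ, UFn fun (_ : Mdl b) v => wc v (v k) L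
  | [] => UFn.var k
  | i :: L => by
    have := fn_wc k L
    exact (inferInstance : UFn fun (N : Mdl b) v =>
      pr 12 (pr (i : N) (pr 11 (pr (pr 9 (pr (pr 0 (i : N)) (nm (v i)))) (wc v (v k) L)))))

end FIX

open FIX in
theorem row_FIX : R_FIX := by
  intro b W _ e he P hP
  have := Fintype.ofFinite W
  obtain ⟨L, hL⟩ : ∃ L : List ℕ, ∀ w, e w ∈ L :=
    ⟨(Finset.univ : Finset W).toList.map e, fun w => List.mem_map.2 ⟨w, by simp, rfl⟩⟩
  have h1 : ∀ z, UP fun (N : Mdl b) v => P z N (fun w => wc v (v (e w)) L) := fun z =>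
    (hP z).comp (fun k N v => wc v (v k) L) fun k => fn_wc k L
  choose θ hf hθ using fun z => (h1 z).free_sub L
  obtain ⟨n, hn⟩ : ∃ n : ℕ → ℕ, ∀ w, n (e w) = (θ w).code :=
    ⟨extend e (fun w => (θ w).code) 0, fun w => he.extend_apply _ _ w⟩
  refine ⟨fun z => wrap n L (θ z), fun z x h => ?_, fun z N v => ?_⟩
  · obtain ⟨h2, h3⟩ := free_wrap n _ x L h
    exact h3 (hf z x h2)
  · rw [ev_wrap, hθ]
    refine iff_of_eq (congrArg _ (funext fun w => ?_))
    beta_reduce
    rw [code_wrap, ← hn w, if_pos (hL w), if_pos (hL w)]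
    exact wc_congr _ L fun i hi => by simp [hi]

end Pool.Agent.PLO

end Part6

section Part7

/-! Row STD: the standard model. -/

namespace Pool.Agent.PLO

namespace STDp

open Function

/-- the natural numbers as a structure -/
@[reducible] def nS (W : Set ℕ) : Str where
  α := ℕ
  z := 0
  s x := x + 1
  l x := x.size
  h x := x / 2
  a x y := x + y
  m x y := x * y
  sm x y := 2 ^ (x.size * y.size)
  le x y := x ≤ y
  o x := x ∈ W

variable {W : Set ℕ}

theorem val_eq (v : ℕ → ℕ) (t : Tm) : t.ev (nS W) v = t.val v := by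
  induction t with
  | var | zero => rfl
  | succ t ih | len t ih | half t ih => simp only [Tm.ev, Tm.val, ih]
  | add s t i1 i2 | mul s t i1 i2 | smash s t i1 i2 => simp only [Tm.ev, Tm.val, i1, i2]

theorem holds_iff (φ : Fm) : ∀ v : ℕ → ℕ, φ.holds W v ↔ φ.ev (nS W) v := by
  induction φ with
  | bot => intro _; rfl
  | eq s t | le s t | orc t => intro v; simp only [Fm.holds, Fm.ev, val_eq]
  | imp φ ψ i1 i2 => intro v; simp only [Fm.holds, Fm.ev, i1, i2]
  | all x φ ih => intro v; simp only [Fm.holds, Fm.ev, ih]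

theorem size_two_mul {x : ℕ} (h : x ≠ 0) : (2 * x).size = x.size + 1 := by
  have := Nat.size_bit (b := false) (n := x) (by simp [Nat.bit_val, h])
  simpa [Nat.bit_val] using this

theorem size_two_mul_succ (x : ℕ) : (2 * x + 1).size = x.size + 1 := by
  have := Nat.size_bit (b := true) (n := x) (by simp [Nat.bit_val])
  simpa [Nat.bit_val] using this

theorem size_half {x : ℕ} (h : x ≠ 0) : x.size = (x / 2).size + 1 := by
  rcases Nat.even_or_odd' x with ⟨y, rfl | rfl⟩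
  · rw [size_two_mul (by omega), Nat.mul_div_cancel_left _ two_pos]
  · rw [size_two_mul_succ, show (2 * y + 1) / 2 = y by omega]

theorem ev_le (s t : Tm) (v : ℕ → ℕ) : 
    (Fm.le s t).ev (nS W) v ↔ s.ev (nS W) v ≤ t.ev (nS W) v := Iff.rfl

theorem hax : ∀ φ ∈ basic, ∀ v : ℕ → ℕ, φ.ev (nS W) v := by
  intro φ hφ v
  simp only [basic, List.mem_cons, List.not_mem_nil, or_false] at hφ
  rcases hφ with rfl | rfl | rfl | rfl | rfl | rfl | rfl | rfl | rfl | rfl | rfl | rfl | rfl | rfl |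
    rfl | rfl | rfl | rfl | rfl | rfl | rfl | rfl | rfl | rfl | rfl | rfl | rfl | rfl | rfl | rfl |
    rfl | rfl <;>
  simp only [Fm.ev_imp, Fm.ev_and, Fm.ev_or, Fm.ev_iff, Fm.ev_ne, Fm.ev_eq, ev_le, Tm.ev, Tm.dbl,
    Tm.two, Tm.one, zero_add, Nat.reduceAdd] <;>
  first
  | omega
  | exact Nat.size_zero
  | exact fun h => ⟨size_two_mul h, size_two_mul_succ _⟩
  | exact Nat.size_one
  | exact Nat.size_le_size
  | exact Nat.size_pow
  | exact size_half
  | (intro h; rw [size_two_mul h, size_two_mul_succ, Nat.size_one, one_mul, one_mul, pow_succ']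
     exact ⟨rfl, rfl⟩)
  | (intro h; rw [h, add_mul, pow_add])
  | (intro h; exact Nat.mul_le_mul_left_iff h)
  | (intro h; rw [h])
  | ring1
  | simp

theorem hind (x : ℕ) (φ : Fm) (v : ℕ → ℕ) : (pind x φ).ev (nS W) v := by
  intro h0 hs u
  replace h0 := (Fm.ev_subst (S := nS W) x .zero φ v
    (Fm.freeFor_of_occ (u := .zero) (fun _ h => False.elim h) φ)).1 h0
  change ℕ at u
  induction u using Nat.strong_induction_on with
  | _ u ih =>
    by_cases hu : u = 0
    · subst hu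
      exact h0
    · refine hs u ?_
      refine (Fm.ev_subst (S := nS W) x (.half (.var x)) φ _
        (Fm.freeFor_of_occ (u := .half (.var x)) (fun _ h => h) φ)).2 ?_
      have := ih (u / 2) (by omega)
      simpa [Tm.ev] using this

/-- the standard model -/
def nM (b : Bool) (W : Set ℕ) : Mdl b where
  toStr := nS W
  hax := hax
  hind x φ _ v := hind x φ v

/-- a natural number as an element of the standard model -/
def el (b : Bool) (W : Set ℕ) (n : ℕ) : nM b W := n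

theorem cast_eq (b : Bool) (W : Set ℕ) (n : ℕ) : @Nat.cast (nM b W) _ n = el b W n := by
  induction n with
  | zero => rw [Nat.cast_zero]; rfl
  | succ n ih => rw [Nat.cast_succ, ih]; rfl

end STDp

open STDp

theorem std_nM (b : Bool) (W : Set ℕ) : Std (nM b W) := fun x => ⟨x, (cast_eq b W x).symm⟩

theorem holds_nM (b : Bool) (W : Set ℕ) (φ : Fm) (v : ℕ → ℕ) :
    φ.holds W v ↔ φ.ev (nM b W).toStr (fun i => @Nat.cast (nM b W) _ (v i)) := by
  simp only [STDp.cast_eq]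
  exact holds_iff φ v

theorem orc_nM (b : Bool) (W : Set ℕ) (n : ℕ) : Orc (@Nat.cast (nM b W) _ n) ↔ n ∈ W := by
  rw [STDp.cast_eq]; rfl

end Pool.Agent.PLO

end Part7

section Part8

/-! Soundness of GL for the arithmetical interpretation. -/

namespace Pool.Agent.PLO

namespace gls

variable {b : Bool}

theorem closed_interp (pa : POSTA b) {f : ℕ → Fm} (hf : ∀ n x, ¬ (f n).free x) (X : MF) :
    ∀ x, ¬ (interp b f X).free x := by
  induction X with
  | atom n => exact hf n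
  | bot => exact fun _ h => h
  | imp F G i1 i2 => exact fun x h => h.elim (i1 x) (i2 x)
  | box F _ => exact pa.closed _

theorem up_ev (φ : Fm) : UP fun (N : Mdl b) v => φ.ev N.toStr v := ⟨⟨φ, fun _ _ => Iff.rfl⟩⟩

theorem ev_closed {φ : Fm} (h : ∀ x, ¬ φ.free x) {N : Mdl b} (v w : ℕ → N) :
    φ.ev N.toStr v ↔ φ.ev N.toStr w := φ.ev_congr fun x hx => absurd hx (h x)

variable [hb : HasBox b]

theorem d1 {φ : Fm} (h : ∀ x, ¬ φ.free x) (hv : ∀ (N : Mdl b) v, φ.ev N.toStr v) (M : Mdl b) :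
    Dv (jP ((φ.code : ℕ) : M)) :=
  (HasBox.sent (fun _ => (0 : M)) φ thDv h).1 (box_nec thDv (hQ := up_ev φ) hv)

theorem d3 (sig : SIG b) (n : ℕ) {M : Mdl b} (h : Dv (jP (n : M))) (x : ℕ → M) :
    BoxD Dv (fun N _ => Dv (jP (n : N))) x := by
  obtain ⟨q, hq⟩ := h.pf
  have h1 := sig (fun N v => Pf (jP (n : N)) (v 0)) inferInstance M (fun _ => q) hq
  have h2 : BoxD Dv (fun N _ => Dv (jP (n : N))) (fun _ => q) :=
    h1.ent thDv fun N v h => h.dv
  exact Box0.at thDv (P := fun N => Dv (jP (n : N))) h2 x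

theorem loeb (sig : SIG b) (fix : FIX b) {φ : Fm} (hφ : ∀ x, ¬ φ.free x) {M : Mdl b}
    {x : ℕ → M} (h : BoxD Dv (fun N v => Dv (jP ((φ.code : ℕ) : N)) → φ.ev N.toStr v) x) :
    Dv (jP ((φ.code : ℕ) : M)) := by
  have u0 : UP fun (N : Mdl b) (_ : ℕ → N) => φ.ev N.toStr (fun _ => (0 : N)) :=
    ⟨⟨φ, fun N v => ev_closed hφ _ _⟩⟩
  have u1 := u0.uf
  obtain ⟨S, hS, hev⟩ := fix Unit (fun _ => 0) (fun _ _ _ => rfl)
    (fun _ N c => Dv (jP (c ())) → φ.ev N.toStr (fun _ => (0 : N))) (fun _ => inferInstance)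
  have A : ∀ N : Mdl b, Dv (jP (((S ()).code : ℕ) : N)) → Dv (jP ((φ.code : ℕ) : N)) := by
    intro N hN
    have b1 := (HasBox.sent (fun _ => (0 : N)) (S ()) thDv (hS ())).2 hN
    have b2 := d3 sig _ hN (fun _ => (0 : N))
    refine (HasBox.sent (fun _ => (0 : N)) φ thDv hφ).1 ?_
    have := up_ev (b := b) φ
    exact b1.ent2 thDv b2 fun N' v h1 h2 => (ev_closed hφ _ _).1 ((hev () N' v).1 h1 h2)
  refine A M ((HasBox.sent x (S ()) thDv (hS ())).1 ?_)
  exact h.ent thDv (hQ := up_ev _) fun N v h1 =>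
    (hev () N v).2 fun h2 => (ev_closed hφ _ _).1 (h1 (A N h2))

end gls

theorem row_GLS : R_GLS := by
  intro b hb cpl pa sig fix X hX f hf
  have cl := gls.closed_interp pa hf
  induction hX with
  | k F G => exact .k _ _
  | s F G H => exact .s _ _ _
  | dn F => exact .dn _
  | dist F G =>
    refine cpl _ fun M v h1 h2 => ?_
    have a1 := (HasBox.sent v _ thDv (cl (.imp F G))).2 ((pa.ev _ M v).1 h1)
    have a2 := (HasBox.sent v _ thDv (cl F)).2 ((pa.ev _ M v).1 h2)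
    refine (pa.ev _ M v).2 ((HasBox.sent v _ thDv (cl G)).1 ?_)
    have := gls.up_ev (b := b) (interp b f G)
    exact a1.ent2 thDv a2 fun N w h3 h4 => h3 h4
  | loeb F =>
    refine cpl _ fun M v h1 => ?_
    have a1 := (HasBox.sent v _ thDv (cl (.imp (.box F) F))).2 ((pa.ev _ M v).1 h1)
    refine (pa.ev _ M v).2 (gls.loeb sig fix (cl F) (x := v) (a1.congr fun N w => ?_))
    exact imp_congr_left (pa.ev _ N w)
  | four F =>
    refine cpl _ fun M v h1 => ?_
    have a1 := gls.d3 sig _ ((pa.ev _ M v).1 h1) v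
    refine (pa.ev _ M v).2 ((HasBox.sent v _ thDv (cl (.box F))).1 (a1.congr fun N w => ?_))
    exact (pa.ev _ N w).symm
  | mp _ _ i1 i2 => exact .mp i1 i2
  | nec _ ih =>
    exact cpl _ fun M v => (pa.ev _ M v).2 (gls.d1 (cl _) (fun N w => ih.sound N w) M)

end Pool.Agent.PLO

end Part8

section Part9

/-! Row ADEQ: a derivation in a standard model decodes to a proof. -/

namespace Pool.Agent.PLO

/-- the extra postulates of `T^W` that look at the oracle below the bound `s` -/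
def Ax (W : Set ℕ) (s : ℕ) (φ : Fm) : Prop :=
  (∃ n ≤ s, n ∈ W ∧ φ = .orc (.num n)) ∨ (∃ n ≤ s, n ∉ W ∧ φ = (Fm.orc (.num n)).neg) ∨
    ∃ z ≤ s, φ.code ≤ s ∧ npr z φ.code ∈ W

/-- semantic consequence over the base theory -/
def Cons (b : Bool) (Γ : Fm → Prop) (φ : Fm) : Prop :=
  ∀ N : Mdl b, (∀ ψ, Γ ψ → ∀ v, ψ.ev N.toStr v) → ∀ v, φ.ev N.toStr v

theorem Cons.of_b {b : Bool} {Γ : Fm → Prop} {φ : Fm} (h : BPrv b φ) : Cons b Γ φ :=
  fun N _ => h.sound N

namespace adeq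

variable {b : Bool} {M : Mdl b} {Γ : Fm → Prop}

/-- the code of a term inside the model -/
def ct (M : Mdl b) (t : Tm) : M := ((t.code : ℕ) : M)
/-- the code of a formula inside the model -/
def cf (M : Mdl b) (φ : Fm) : M := ((φ.code : ℕ) : M)

@[simp] theorem ct_var (x : ℕ) : ct M (.var x) = pr 0 (x : M) := by simp [ct, Tm.code, cast_npr]
@[simp] theorem ct_zero : ct M .zero = pr 1 0 := by simp [ct, Tm.code, cast_npr]
@[simp] theorem ct_succ (t : Tm) : ct M (.succ t) = pr 2 (ct M t) := by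
  simp [ct, Tm.code, cast_npr]
@[simp] theorem ct_len (t : Tm) : ct M (.len t) = pr 3 (ct M t) := by
  simp [ct, Tm.code, cast_npr]
@[simp] theorem ct_half (t : Tm) : ct M (.half t) = pr 4 (ct M t) := by
  simp [ct, Tm.code, cast_npr]
@[simp] theorem ct_add (s t : Tm) : ct M (.add s t) = pr 5 (pr (ct M s) (ct M t)) := by
  simp [ct, Tm.code, cast_npr]
@[simp] theorem ct_mul (s t : Tm) : ct M (.mul s t) = pr 6 (pr (ct M s) (ct M t)) := by
  simp [ct, Tm.code, cast_npr]
@[simp] theorem ct_smash (s t : Tm) : ct M (.smash s t) = pr 7 (pr (ct M s) (ct M t)) := by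
  simp [ct, Tm.code, cast_npr]
@[simp] theorem cf_bot : cf M .bot = pr 8 0 := by simp [cf, Fm.code, cast_npr]
@[simp] theorem cf_eq (s t : Tm) : cf M (.eq s t) = pr 9 (pr (ct M s) (ct M t)) := by
  simp [cf, ct, Fm.code, cast_npr]
@[simp] theorem cf_le (s t : Tm) : cf M (.le s t) = pr 10 (pr (ct M s) (ct M t)) := by
  simp [cf, ct, Fm.code, cast_npr]
@[simp] theorem cf_imp (φ ψ : Fm) : cf M (.imp φ ψ) = pr 11 (pr (cf M φ) (cf M ψ)) := by
  simp [cf, Fm.code, cast_npr]
@[simp] theorem cf_all (x : ℕ) (φ : Fm) : cf M (.all x φ) = pr 12 (pr (x : M) (cf M φ)) := by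
  simp [cf, Fm.code, cast_npr]

@[simp] theorem cf_orc (t : Tm) : cf M (.orc t) = pr 13 (ct M t) := by
  simp [cf, ct, Fm.code, cast_npr]

@[simp] theorem ct_inj {s t : Tm} : ct M s = ct M t ↔ s = t := by
  refine ⟨fun h => ?_, fun h => by rw [h]⟩
  induction s generalizing t with
  | var x => cases t <;> simp at h ⊢; exact h
  | zero => cases t <;> simp at h ⊢
  | succ s ih | len s ih | half s ih => cases t <;> simp at h ⊢; exact ih h
  | add s1 s2 i1 i2 | mul s1 s2 i1 i2 | smash s1 s2 i1 i2 =>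
    cases t <;> simp at h ⊢; exact ⟨i1 h.1, i2 h.2⟩

@[simp] theorem cf_inj {φ ψ : Fm} : cf M φ = cf M ψ ↔ φ = ψ := by
  refine ⟨fun h => ?_, fun h => by rw [h]⟩
  induction φ generalizing ψ with
  | bot => cases ψ <;> simp at h ⊢
  | eq s t | le s t | orc t => cases ψ <;> simp at h ⊢; exact h
  | imp φ1 φ2 i1 i2 => cases ψ <;> simp at h ⊢; exact ⟨i1 h.1, i2 h.2⟩
  | all x φ ih => cases ψ <;> simp at h ⊢; exact ⟨h.1, ih h.2⟩

theorem freeFor_of_not_free {x : ℕ} (u : Tm) {φ : Fm} (h : ¬ φ.free x) : φ.freeFor x u := by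
  induction φ with
  | bot | eq | le | orc => trivial
  | imp φ ψ i1 i2 => exact ⟨i1 fun hx => h (Or.inl hx), i2 fun hx => h (Or.inr hx)⟩
  | all y φ _ => exact Or.inl h

/-- meaning of the judgement jT -/
def MT (c : M) : Prop := ∃ t, c = ct M t
/-- meaning of the judgement jF -/
def MFo (c : M) : Prop := ∃ φ, c = cf M φ
/-- meaning of the judgement jN -/
def MN (a c : M) : Prop := ∀ x : ℕ, a = x →
  (∀ t, c = ct M t → ¬ t.occ x) ∧ ∀ φ, c = cf M φ → ¬ φ.free x
/-- meaning of the judgement jS -/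
def MS (a u c d : M) : Prop := ∀ (x : ℕ) (w : Tm), a = x → u = ct M w →
  (∀ t, c = ct M t → d = ct M (t.subst x w)) ∧
    ∀ φ, c = cf M φ → φ.freeFor x w ∧ d = cf M (φ.subst x w)
/-- meaning of the judgement jC -/
def MC (σ : Bool) (c : M) : Prop := ∃ φ, c = cf M φ ∧ Cls b σ φ
/-- meaning of the judgement jP -/
def MPr (Γ : Fm → Prop) (c : M) : Prop := ∃ φ, c = cf M φ ∧ Cons b Γ φ
/-- meaning of the judgement jM -/
def MM (a c : M) : Prop := ∀ n : ℕ, a = n → c = ct M (.num n)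

/-- the invariant of the rows of a derivation -/
structure Inv (Γ : Fm → Prop) (y : M) : Prop where
  t : ∀ c, y = jT c → MT c
  f : ∀ c, y = jF c → MFo c
  n : ∀ a c, y = jN a c → MN a c
  s : ∀ a u c d, y = jS a u c d → MS a u c d
  k : ∀ σ c, y = jC σ c → MC σ c
  p : ∀ c, y = jP c → MPr Γ c
  m : ∀ a c, y = jM a c → MM a c

theorem inv_zero : Inv Γ (0 : M) :=
  ⟨fun _ e => by simp at e, fun _ e => by simp at e, fun _ _ e => by simp at e,
    fun _ _ _ _ e => by simp at e, fun _ _ e => by simp at e, fun _ e => by simp at e,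
    fun _ _ e => by simp at e⟩

theorem invT {c : M} (h : MT c) : Inv Γ (jT c) :=
  ⟨fun _ e => by simp at e; exact e ▸ h, fun _ e => by simp at e, fun _ _ e => by simp at e,
    fun _ _ _ _ e => by simp at e, fun σ _ e => by cases σ <;> simp at e, fun _ e => by simp at e,
    fun _ _ e => by simp at e⟩

theorem invF {c : M} (h : MFo c) : Inv Γ (jF c) :=
  ⟨fun _ e => by simp at e, fun _ e => by simp at e; exact e ▸ h, fun _ _ e => by simp at e,
    fun _ _ _ _ e => by simp at e, fun σ _ e => by cases σ <;> simp at e, fun _ e => by simp at e,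
    fun _ _ e => by simp at e⟩

theorem invN {a c : M} (h : MN a c) : Inv Γ (jN a c) :=
  ⟨fun _ e => by simp at e, fun _ e => by simp at e,
    fun _ _ e => by simp at e; obtain ⟨rfl, rfl⟩ := e; exact h,
    fun _ _ _ _ e => by simp at e, fun σ _ e => by cases σ <;> simp at e, fun _ e => by simp at e,
    fun _ _ e => by simp at e⟩

theorem invS {a u c d : M} (h : MS a u c d) : Inv Γ (jS a u c d) :=
  ⟨fun _ e => by simp at e, fun _ e => by simp at e, fun _ _ e => by simp at e,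
    fun _ _ _ _ e => by simp at e; obtain ⟨⟨rfl, rfl⟩, rfl, rfl⟩ := e; exact h,
    fun σ _ e => by cases σ <;> simp at e, fun _ e => by simp at e, fun _ _ e => by simp at e⟩

theorem invC {σ : Bool} {c : M} (h : MC σ c) : Inv Γ (jC σ c) :=
  ⟨fun _ e => by cases σ <;> simp at e, fun _ e => by cases σ <;> simp at e,
    fun _ _ e => by cases σ <;> simp at e, fun _ _ _ _ e => by cases σ <;> simp at e,
    fun τ _ e => by cases σ <;> cases τ <;> simp at e <;> exact e ▸ h,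
    fun _ e => by cases σ <;> simp at e, fun _ _ e => by cases σ <;> simp at e⟩

theorem invP {c : M} (h : MPr Γ c) : Inv Γ (jP c) :=
  ⟨fun _ e => by simp at e, fun _ e => by simp at e, fun _ _ e => by simp at e,
    fun _ _ _ _ e => by simp at e, fun σ _ e => by cases σ <;> simp at e,
    fun _ e => by simp at e; exact e ▸ h, fun _ _ e => by simp at e⟩

theorem invM {a c : M} (h : MM a c) : Inv Γ (jM a c) :=
  ⟨fun _ e => by simp at e, fun _ e => by simp at e, fun _ _ e => by simp at e,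
    fun _ _ _ _ e => by simp at e, fun σ _ e => by cases σ <;> simp at e,
    fun _ e => by simp at e, fun _ _ e => by simp at e; obtain ⟨rfl, rfl⟩ := e; exact h⟩

/-! ### Not free -/

theorem mn_var {a c : M} (h : a ≠ c) : MN a (cVar c) := by
  rintro x rfl
  refine ⟨fun t e => ?_, fun φ e => ?_⟩
  · cases t <;> simp at e
    subst e
    intro hx
    exact h (congrArg _ hx)
  · cases φ <;> simp at e

theorem mn_zero (a : M) : MN a cZero := by
  rintro x rfl
  refine ⟨fun t e => ?_, fun φ e => ?_⟩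
  · cases t <;> simp at e
    exact fun h => h
  · cases φ <;> simp at e

theorem mn_bot (a : M) : MN a cBot := by
  rintro x rfl
  refine ⟨fun t e => ?_, fun φ e => ?_⟩
  · cases t <;> simp at e
  · cases φ <;> simp at e
    exact fun h => h

theorem mn_self (a c : M) : MN a (cAll a c) := by
  rintro x rfl
  refine ⟨fun t e => ?_, fun φ e => ?_⟩
  · cases t <;> simp at e
  · cases φ <;> simp at e
    exact fun h => h.1 e.1

theorem mn_all {a d : M} (c : M) (h : MN a d) : MN a (cAll c d) := by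
  rintro x rfl
  refine ⟨fun t e => ?_, fun φ e => ?_⟩
  · cases t <;> simp at e
  · cases φ <;> simp at e
    exact fun h' => (h x rfl).2 _ e.2 h'.2

theorem mn_one (k : ℕ) (hk : k ∈ [2, 3, 4, 13]) {a c : M} (h : MN a c) : MN a (pr k c) := by
  rintro x rfl
  simp only [List.mem_cons, List.not_mem_nil, or_false] at hk
  refine ⟨fun t e => ?_, fun φ e => ?_⟩
  · rcases hk with rfl | rfl | rfl | rfl <;> cases t <;> simp at e <;>
      (have := (h x rfl).1 _ e; exact this)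
  · rcases hk with rfl | rfl | rfl | rfl <;> cases φ <;> simp at e
    exact (h x rfl).1 _ e

theorem mn_two (k : ℕ) (hk : k ∈ [5, 6, 7, 9, 10, 11]) {a c d : M} (h : MN a c) (h' : MN a d) :
    MN a (pr k (pr c d)) := by
  rintro x rfl
  simp only [List.mem_cons, List.not_mem_nil, or_false] at hk
  refine ⟨fun t e => ?_, fun φ e => ?_⟩
  · rcases hk with rfl | rfl | rfl | rfl | rfl | rfl <;> cases t <;> simp at e <;>
      exact fun hx => hx.elim ((h x rfl).1 _ e.1) ((h' x rfl).1 _ e.2)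
  · rcases hk with rfl | rfl | rfl | rfl | rfl | rfl <;> cases φ <;> simp at e
    · exact fun hx => hx.elim ((h x rfl).1 _ e.1) ((h' x rfl).1 _ e.2)
    · exact fun hx => hx.elim ((h x rfl).1 _ e.1) ((h' x rfl).1 _ e.2)
    · exact fun hx => hx.elim ((h x rfl).2 _ e.1) ((h' x rfl).2 _ e.2)

/-! ### Substitution -/

theorem ms_var (a u : M) : MS a u (cVar a) u := by
  rintro x w rfl rfl
  refine ⟨fun t e => ?_, fun φ e => ?_⟩
  · cases t <;> simp at e
    simp [Tm.subst, e]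
  · cases φ <;> simp at e

theorem ms_n {a c : M} (u : M) (h : MN a c) : MS a u c c := by
  rintro x w rfl rfl
  refine ⟨fun t e => ?_, fun φ e => ?_⟩
  · rw [Tm.subst_of_not_occ w ((h x rfl).1 t e), e]
  · rw [Fm.subst_of_not_free w ((h x rfl).2 φ e)]
    exact ⟨freeFor_of_not_free w ((h x rfl).2 φ e), e⟩

theorem ms_all {a u c d e : M} (h1 : MN a (cVar c)) (h2 : MN c u) (h3 : MS a u d e) :
    MS a u (cAll c d) (cAll c e) := by
  rintro x w rfl rfl
  refine ⟨fun t e => ?_, fun φ e => ?_⟩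
  · cases t <;> simp at e
  · cases φ <;> simp at e
    rename_i y φ
    obtain ⟨rfl, rfl⟩ := e
    have a1 : ¬ x = y := (h1 x rfl).1 (.var y) (by simp)
    have a2 : ¬ w.occ y := (h2 y rfl).1 w rfl
    obtain ⟨a3, a4⟩ := (h3 x w rfl rfl).2 φ rfl
    exact ⟨Or.inr ⟨a2, a3⟩, by simp [Fm.subst, a1, a4]⟩

theorem ms_one (k : ℕ) (hk : k ∈ [2, 3, 4, 13]) {a u c d : M} (h : MS a u c d) :
    MS a u (pr k c) (pr k d) := by
  rintro x w rfl rfl
  simp only [List.mem_cons, List.not_mem_nil, or_false] at hk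
  refine ⟨fun t e => ?_, fun φ e => ?_⟩
  · rcases hk with rfl | rfl | rfl | rfl <;> cases t <;> simp at e <;>
      simp [Tm.subst, (h x w rfl rfl).1 _ e]
  · rcases hk with rfl | rfl | rfl | rfl <;> cases φ <;> simp at e
    exact ⟨trivial, by simp [Fm.subst, (h x w rfl rfl).1 _ e]⟩

theorem ms_two (k : ℕ) (hk : k ∈ [5, 6, 7, 9, 10, 11]) {a u c d e f : M} (h : MS a u c d)
    (h' : MS a u e f) : MS a u (pr k (pr c e)) (pr k (pr d f)) := by
  rintro x w rfl rfl
  simp only [List.mem_cons, List.not_mem_nil, or_false] at hk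
  refine ⟨fun t e => ?_, fun φ e => ?_⟩
  · rcases hk with rfl | rfl | rfl | rfl | rfl | rfl <;> cases t <;> simp at e <;>
      simp [Tm.subst, (h x w rfl rfl).1 _ e.1, (h' x w rfl rfl).1 _ e.2]
  · rcases hk with rfl | rfl | rfl | rfl | rfl | rfl <;> cases φ <;> simp at e
    · exact ⟨trivial, by simp [Fm.subst, (h x w rfl rfl).1 _ e.1, (h' x w rfl rfl).1 _ e.2]⟩
    · exact ⟨trivial, by simp [Fm.subst, (h x w rfl rfl).1 _ e.1, (h' x w rfl rfl).1 _ e.2]⟩
    · obtain ⟨a1, a2⟩ := (h x w rfl rfl).2 _ e.1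
      obtain ⟨a3, a4⟩ := (h' x w rfl rfl).2 _ e.2
      exact ⟨⟨a1, a3⟩, by simp [Fm.subst, a2, a4]⟩

/-! ### The invariant is closed under the rules -/

theorem nm_ct (n : ℕ) : ct M (.num n) = nm (n : M) := (nm_cast n).symm

/-- the invariant together with a bound -/
structure Inv' (Γ : Fm → Prop) (B y : M) : Prop extends Inv Γ y where
  le : y ≤ B

theorem clo_inv (hM : Std M) (B : ℕ) {y : M} (hB : y ≤ B)
    (hy : Rl (Inv' (Ax {n | Orc (n : M)} B) B) y) : Inv (Ax {n | Orc (n : M)} B) y := by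
  cases hy with
  | tVar a =>
    obtain ⟨x, rfl⟩ := hM a
    exact invT ⟨.var x, by simp⟩
  | tZero => exact invT ⟨.zero, by simp⟩
  | t1 k hk h0 =>
    obtain ⟨t, rfl⟩ := h0.t _ rfl
    simp only [List.mem_cons, List.not_mem_nil, or_false] at hk
    rcases hk with rfl | rfl | rfl
    · exact invT ⟨.succ t, by simp⟩
    · exact invT ⟨.len t, by simp⟩
    · exact invT ⟨.half t, by simp⟩
  | t2 k hk h0 h1 =>
    obtain ⟨s, rfl⟩ := h0.t _ rfl
    obtain ⟨t, rfl⟩ := h1.t _ rfl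
    simp only [List.mem_cons, List.not_mem_nil, or_false] at hk
    rcases hk with rfl | rfl | rfl
    · exact invT ⟨.add s t, by simp⟩
    · exact invT ⟨.mul s t, by simp⟩
    · exact invT ⟨.smash s t, by simp⟩
  | fBot => exact invF ⟨.bot, by simp⟩
  | fImp h0 h1 =>
    obtain ⟨φ, rfl⟩ := h0.f _ rfl
    obtain ⟨ψ, rfl⟩ := h1.f _ rfl
    exact invF ⟨.imp φ ψ, by simp⟩
  | fAll a h0 =>
    obtain ⟨x, rfl⟩ := hM a
    obtain ⟨φ, rfl⟩ := h0.f _ rfl
    exact invF ⟨.all x φ, by simp⟩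
  | f2 k hk h0 h1 =>
    obtain ⟨s, rfl⟩ := h0.t _ rfl
    obtain ⟨t, rfl⟩ := h1.t _ rfl
    simp only [List.mem_cons, List.not_mem_nil, or_false] at hk
    rcases hk with rfl | rfl
    · exact invF ⟨.eq s t, by simp⟩
    · exact invF ⟨.le s t, by simp⟩
  | fOrc h0 =>
    obtain ⟨t, rfl⟩ := h0.t _ rfl
    exact invF ⟨.orc t, by simp⟩
  | kOrc σ h0 =>
    obtain ⟨t, rfl⟩ := h0.t _ rfl
    exact invC ⟨.orc t, by simp, .orc σ t⟩
  | mZero =>
    refine invM fun n e => ?_
    rw [nm_ct, ← e, nm_zero]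
  | @mEven a c h0 h1 =>
    obtain ⟨x, rfl⟩ := hM a
    refine invM fun n e => ?_
    rw [nm_ct, ← e, nm_even h0, h1.m _ _ rfl x rfl, nm_ct]
  | @mOdd a c h1 =>
    obtain ⟨x, rfl⟩ := hM a
    refine invM fun n e => ?_
    rw [nm_ct, ← e, nm_odd, h1.m _ _ rfl x rfl, nm_ct]
  | @pYes a c h0 h1 =>
    obtain ⟨x, rfl⟩ := hM a
    have hx : x ≤ B := Nat.cast_le.1 (((le_pr_left _ _).trans (le_pr_right _ _)).trans h1.le)
    exact invP ⟨.orc (.num x), by simp [h1.m _ _ rfl x rfl],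
      fun N hN => hN _ (Or.inl ⟨x, hx, h0, rfl⟩)⟩
  | @pNo a c h0 h1 =>
    obtain ⟨x, rfl⟩ := hM a
    have hx : x ≤ B := Nat.cast_le.1 (((le_pr_left _ _).trans (le_pr_right _ _)).trans h1.le)
    exact invP ⟨(Fm.orc (.num x)).neg, by simp [Fm.neg, h1.m _ _ rfl x rfl],
      fun N hN => hN _ (Or.inr (Or.inl ⟨x, hx, h0, rfl⟩))⟩
  | @pLst a c h0 h1 h2 =>
    obtain ⟨x, rfl⟩ := hM a
    obtain ⟨φ, rfl⟩ := h2.f _ rfl
    have hx : x ≤ B := Nat.cast_le.1 (((le_pr_right _ _).trans (le_pr_right _ _)).trans h1.le)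
    have hφ : φ.code ≤ B := Nat.cast_le.1 ((le_pr_right _ _).trans h2.le)
    refine invP ⟨φ, rfl, fun N hN => hN _ (Or.inr (Or.inr ⟨x, hx, hφ, ?_⟩))⟩
    show Orc ((npr x φ.code : ℕ) : M)
    rw [cast_npr]
    exact h0
  | nVar h0 => exact invN (mn_var h0)
  | nZero a => exact invN (mn_zero a)
  | nBot a => exact invN (mn_bot a)
  | nSelf a c => exact invN (mn_self a c)
  | nAll c h0 => exact invN (mn_all c (h0.n _ _ rfl))
  | n1 k hk h0 => exact invN (mn_one k hk (h0.n _ _ rfl))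
  | n2 k hk h0 h1 => exact invN (mn_two k hk (h0.n _ _ rfl) (h1.n _ _ rfl))
  | sVar a u => exact invS (ms_var a u)
  | sN u h0 => exact invS (ms_n u (h0.n _ _ rfl))
  | sAll h0 h1 h2 => exact invS (ms_all (h0.n _ _ rfl) (h1.n _ _ rfl) (h2.s _ _ _ _ rfl))
  | s1 k hk h0 => exact invS (ms_one k hk (h0.s _ _ _ _ rfl))
  | s2 k hk h0 h1 => exact invS (ms_two k hk (h0.s _ _ _ _ rfl) (h1.s _ _ _ _ rfl))
  | kBot σ => exact invC ⟨.bot, by simp, .bot σ⟩
  | kEq σ h0 h1 =>
    obtain ⟨s, rfl⟩ := h0.t _ rfl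
    obtain ⟨t, rfl⟩ := h1.t _ rfl
    exact invC ⟨.eq s t, by simp, .eq σ s t⟩
  | kLe σ h0 h1 =>
    obtain ⟨s, rfl⟩ := h0.t _ rfl
    obtain ⟨t, rfl⟩ := h1.t _ rfl
    exact invC ⟨.le s t, by simp, .le σ s t⟩
  | kImp σ h0 h1 =>
    obtain ⟨φ, rfl, a1⟩ := h0.k _ _ rfl
    obtain ⟨ψ, rfl, a2⟩ := h1.k _ _ rfl
    exact invC ⟨.imp φ ψ, by simp, .imp σ a1 a2⟩
  | @kBall a t c h0 h1 h2 =>
    obtain ⟨x, rfl⟩ := hM a
    obtain ⟨t, rfl⟩ := h0.t _ rfl
    obtain ⟨φ, rfl, a2⟩ := h2.k _ _ rfl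
    exact invC ⟨.ball x t φ, by simp [Fm.ball], .ball ((h1.n _ _ rfl x rfl).1 t rfl) a2⟩
  | @kSharp a t c h0 h1 h2 =>
    obtain ⟨x, rfl⟩ := hM a
    obtain ⟨t, rfl⟩ := h0.t _ rfl
    obtain ⟨φ, rfl, a2⟩ := h2.k _ _ rfl
    exact invC ⟨.ball x (.len t) φ, by simp [Fm.ball], .sharp ((h1.n _ _ rfl x rfl).1 t rfl) a2⟩
  | @kWide a t c hb h0 h1 h2 =>
    obtain ⟨x, rfl⟩ := hM a
    obtain ⟨t, rfl⟩ := h0.t _ rfl
    obtain ⟨φ, rfl, a2⟩ := h2.k _ _ rfl
    exact invC ⟨.ball x t φ, by simp [Fm.ball], .wide hb ((h1.n _ _ rfl x rfl).1 t rfl) a2⟩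
  | pK h0 h1 =>
    obtain ⟨φ, rfl⟩ := h0.f _ rfl
    obtain ⟨ψ, rfl⟩ := h1.f _ rfl
    exact invP ⟨_, by simp, .of_b (.k φ ψ)⟩
  | pS h0 h1 h2 =>
    obtain ⟨φ, rfl⟩ := h0.f _ rfl
    obtain ⟨ψ, rfl⟩ := h1.f _ rfl
    obtain ⟨χ, rfl⟩ := h2.f _ rfl
    exact invP ⟨_, by simp, .of_b (.s φ ψ χ)⟩
  | pDn h0 =>
    obtain ⟨φ, rfl⟩ := h0.f _ rfl
    exact invP ⟨_, by simp [Fm.neg], .of_b (.dn φ)⟩
  | @pInst a u c d h0 h1 h2 =>
    obtain ⟨x, rfl⟩ := hM a
    obtain ⟨φ, rfl⟩ := h0.f _ rfl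
    obtain ⟨w, rfl⟩ := h1.t _ rfl
    obtain ⟨a1, rfl⟩ := (h2.s _ _ _ _ rfl x w rfl rfl).2 φ rfl
    exact invP ⟨_, by simp, .of_b (.inst x w φ a1)⟩
  | pDist a h0 h1 =>
    obtain ⟨x, rfl⟩ := hM a
    obtain ⟨φ, rfl⟩ := h0.f _ rfl
    obtain ⟨ψ, rfl⟩ := h1.f _ rfl
    exact invP ⟨_, by simp, .of_b (.dist x φ ψ)⟩
  | @pVac a c h0 h1 =>
    obtain ⟨x, rfl⟩ := hM a
    obtain ⟨φ, rfl⟩ := h0.f _ rfl
    exact invP ⟨_, by simp, .of_b (.vac x φ ((h1.n _ _ rfl x rfl).2 φ rfl))⟩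
  | pMp h0 h1 =>
    obtain ⟨φ, rfl, a1⟩ := h1.p _ rfl
    obtain ⟨χ, e, a2⟩ := h0.p _ rfl
    cases χ <;> simp at e
    obtain ⟨rfl, rfl⟩ := e
    exact invP ⟨_, rfl, fun N hN v => a2 N hN v (a1 N hN v)⟩
  | pGen a h0 =>
    obtain ⟨x, rfl⟩ := hM a
    obtain ⟨φ, rfl, a1⟩ := h0.p _ rfl
    exact invP ⟨.all x φ, by simp, fun N hN v u => a1 N hN _⟩
  | @pInd a c d e h0 h1 h2 =>
    obtain ⟨x, rfl⟩ := hM a
    obtain ⟨φ, rfl, a1⟩ := h0.k _ _ rfl
    obtain ⟨-, rfl⟩ := (h1.s _ _ _ _ rfl x .zero rfl (by simp)).2 φ rfl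
    obtain ⟨-, rfl⟩ := (h2.s _ _ _ _ rfl x (.half (.var x)) rfl (by simp)).2 φ rfl
    exact invP ⟨_, by simp [pind], .of_b (.ind x a1)⟩
  | @pAx φ h0 => exact invP ⟨φ, rfl, .of_b (.ax h0)⟩

theorem rows_inv (hM : Std M) {s : ℕ} {a : M} (h : HDer (fun _ => False) (s : M) a) (n : ℕ) :
    (n : M) ≤ len (s : M) → Inv (Ax {n | Orc (n : M)} s) (row (s : M) a n) := by
  induction n using Nat.strong_induction_on with
  | _ n ih =>
    intro hn
    rcases h n hn with h0 | h0 | h0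
    · rw [h0]; exact inv_zero
    · exact h0.elim
    · refine clo_inv hM _ (row_le _ _ _) (Rl.mono ?_ h0)
      rintro j ⟨k, hk, rfl⟩
      obtain ⟨m, rfl⟩ := hM k
      exact ⟨ih m (Nat.cast_lt.1 hk) (hk.le.trans hn), row_le _ _ _⟩

end adeq

theorem adeq_std {b : Bool} {M : Mdl b} (hM : Std M) {φ : Fm} {s : ℕ} {a : M}
    (h : HDer (fun _ => False) (s : M) a) (h' : Mem (jP ((φ.code : ℕ) : M)) s a) :
    Cons b (Ax {n | Orc (n : M)} s) φ := by
  obtain ⟨i, hi, e⟩ := h'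
  obtain ⟨n, rfl⟩ := hM i
  obtain ⟨ψ, e', hψ⟩ := (adeq.rows_inv hM h n hi).p _ e
  have : φ = ψ := adeq.cf_inj.1 e'
  exact this ▸ hψ

end Pool.Agent.PLO

end Part9

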