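import Mathlib.Data.Finite.Sum
import Mathlib.Data.Int.Star
import Mathlib.Analysis.SpecificLimits.Normed
import Pool.Agent.PLO.Up
import Pool.Agent.PLO.DefsK

-- ======== part 0: formerly Pool.Agent.PLO.Std
section MrgPart0

/-! The theories `T^W`: completeness, finite use, adequacy, cuts. -/

namespace Pool.Agent.PLO

open Function STDp

variable {b : Bool}

theorem comp' (b : Bool) : COMP b := (row_COMP b).1
theorem cpl' (b : Bool) : CPL b := (row_COMP b).2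
theorem pa' (b : Bool) : POSTA b := row_POSTA b
theorem sia' (b : Bool) : SIA b := row_SIA b
theorem sib' (b : Bool) : SIB b := row_SIB b (cpl' b) (sia' b)
instance hasBox (b : Bool) : HasBox b :=
  row_BOX b (pa' b).post (comp' b) (row_POSTB b)
    (row_CHAIN b (pa' b).post (comp' b) (row_POSTB b)) (sib' b)
theorem sig' (b : Bool) : SIG b :=
  row_SIG b (hasBox b) (row_NUMA b (hasBox b)) (row_NUMB b (hasBox b) (row_NUMA b (hasBox b)))
theorem gls' (b : Bool) : GLS b := row_GLS b (hasBox b) (cpl' b) (pa' b) (sig' b) (row_FIX b)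

/-! ### Codes -/

theorem npr_inj {a c a' c' : ℕ} (h : npr a c = npr a' c') : a = a' ∧ c = c' := by
  have := congrArg (@Nat.cast (nM false ∅) _) h
  rw [cast_npr, cast_npr, pr_inj] at this
  exact ⟨Nat.cast_injective this.1, Nat.cast_injective this.2⟩

theorem npr_ge (a c : ℕ) : 2 * (a + c) + 1 ≤ npr a c := by
  have := pr_ge (@Nat.cast (nM false ∅) _ a) (@Nat.cast (nM false ∅) _ c)
  rw [← cast_npr] at this
  exact_mod_cast this

theorem npr_mono {a c a' c' : ℕ} (h : a ≤ a') (h' : c ≤ c') : npr a c ≤ npr a' c' := by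
  have := pr_mono (M := nM false ∅) (Nat.cast_le.2 h) (Nat.cast_le.2 h')
  rw [← cast_npr, ← cast_npr] at this
  exact Nat.cast_le.1 this

theorem code_inj {φ ψ : Fm} (h : φ.code = ψ.code) : φ = ψ :=
  (adeq.cf_inj (M := nM false ∅)).1 (congrArg (@Nat.cast (nM false ∅) _) h)

theorem le_code_num (n : ℕ) : n ≤ (Tm.num n).code := by
  induction n using Nat.strong_induction_on with
  | _ n ih =>
    rw [Tm.num]
    split_ifs with h1 h2
    · omega
    · have := ih (n / 2) (by omega)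
      have a1 := npr_ge Tm.two.code (Tm.num (n / 2)).code
      have a2 := npr_ge 6 (npr Tm.two.code (Tm.num (n / 2)).code)
      simp only [Tm.dbl, Tm.code] at a1 a2 ⊢
      omega
    · have := ih (n / 2) (by omega)
      have a1 := npr_ge Tm.two.code (Tm.num (n / 2)).code
      have a2 := npr_ge 6 (npr Tm.two.code (Tm.num (n / 2)).code)
      have a3 := npr_ge 2 (npr 6 (npr Tm.two.code (Tm.num (n / 2)).code))
      simp only [Tm.dbl, Tm.code] at a1 a2 a3 ⊢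
      omega

instance finite_code (s : ℕ) : Finite {φ : Fm // φ.code ≤ s} :=
  Finite.of_injective (fun φ => (⟨φ.1.code, Nat.lt_succ_of_le φ.2⟩ : Fin (s + 1)))
    fun _ _ h => Subtype.ext (code_inj (congrArg Fin.val h))

/-! ### The extra postulates -/

/-- the places at which `Ax W s` looks at the oracle -/
def Use (s n : ℕ) : Prop := n ≤ s ∨ ∃ z ≤ s, ∃ c ≤ s, n = npr z c

theorem Use.mono {r s n : ℕ} (h : Use r n) (e : r ≤ s) : Use s n :=
  h.imp (fun h => h.trans e) fun ⟨z, h1, c, h2, h3⟩ => ⟨z, h1.trans e, c, h2.trans e, h3⟩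

theorem Use.le {s n : ℕ} (h : Use s n) : n ≤ s + npr s s := by
  rcases h with h | ⟨z, h1, c, h2, rfl⟩
  · omega
  · exact (npr_mono h1 h2).trans le_add_self

theorem Ax.mono {W : Set ℕ} {r s : ℕ} {φ : Fm} (h : Ax W r φ) (e : r ≤ s) : Ax W s φ := by
  rcases h with ⟨n, h1, h2⟩ | ⟨n, h1, h2⟩ | ⟨z, h1, h2, h3⟩
  · exact Or.inl ⟨n, h1.trans e, h2⟩
  · exact Or.inr (Or.inl ⟨n, h1.trans e, h2⟩)
  · exact Or.inr (Or.inr ⟨z, h1.trans e, h2.trans e, h3⟩)

theorem Ax.congr {V W : Set ℕ} {s : ℕ} {φ : Fm} (h : Ax V s φ)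
    (e : ∀ n, Use s n → (n ∈ V ↔ n ∈ W)) : Ax W s φ := by
  rcases h with ⟨n, h1, h2, h3⟩ | ⟨n, h1, h2, h3⟩ | ⟨z, h1, h2, h3⟩
  · exact Or.inl ⟨n, h1, (e n (Or.inl h1)).1 h2, h3⟩
  · exact Or.inr (Or.inl ⟨n, h1, mt (e n (Or.inl h1)).2 h2, h3⟩)
  · exact Or.inr (Or.inr ⟨z, h1, h2, (e _ (Or.inr ⟨z, h1, _, h2, rfl⟩)).1 h3⟩)

theorem Ax.prv {W : Set ℕ} {s : ℕ} {φ : Fm} (h : Ax W s φ) : Prv b W φ := by
  rcases h with ⟨n, -, h2, rfl⟩ | ⟨n, -, h2, rfl⟩ | ⟨z, -, -, h3⟩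
  exacts [.yes h2, .no h2, .lst z h3]

theorem Cons.mono {Γ Δ : Fm → Prop} {φ : Fm} (h : Cons b Γ φ) (e : ∀ ψ, Γ ψ → Δ ψ) :
    Cons b Δ φ := fun N hN => h N fun ψ hψ => hN ψ (e ψ hψ)

theorem prv_cons {W : Set ℕ} {φ : Fm} (h : Prv b W φ) : ∃ s, Cons b (Ax W s) φ := by
  induction h with
  | k => exact ⟨0, .of_b (.k ..)⟩
  | s => exact ⟨0, .of_b (.s ..)⟩
  | dn => exact ⟨0, .of_b (.dn ..)⟩
  | inst x u φ h => exact ⟨0, .of_b (.inst x u φ h)⟩
  | dist => exact ⟨0, .of_b (.dist ..)⟩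
  | vac x φ h => exact ⟨0, .of_b (.vac x φ h)⟩
  | mp _ _ i1 i2 =>
    obtain ⟨r, h1⟩ := i1
    obtain ⟨s, h2⟩ := i2
    exact ⟨r + s, fun N hN v => h1 N (fun ψ hψ => hN ψ (hψ.mono le_self_add)) v
      (h2 N (fun ψ hψ => hN ψ (hψ.mono le_add_self)) v)⟩
  | gen x _ ih => exact ih.imp fun s h N hN v u => h N hN _
  | ax h => exact ⟨0, .of_b (.ax h)⟩
  | ind x h => exact ⟨0, .of_b (.ind x h)⟩
  | @yes n h => exact ⟨n, fun N hN => hN _ (Or.inl ⟨n, le_rfl, h, rfl⟩)⟩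
  | @no n h => exact ⟨n, fun N hN => hN _ (Or.inr (Or.inl ⟨n, le_rfl, h, rfl⟩))⟩
  | @lst z φ h =>
    exact ⟨z + φ.code, fun N hN => hN _ (Or.inr (Or.inr ⟨z, le_self_add, le_add_self, h⟩))⟩

theorem eprv_er {W : Set ℕ} {Γ : Set EFm} {φ : EFm} (h : EPrv b Γ φ)
    (hΓ : ∀ γ ∈ Γ, Prv b W γ.er) : Prv b W φ.er := by
  induction h with
  | hyp h => exact hΓ _ h
  | k => exact .k ..
  | s => exact .s ..
  | dn => exact .dn ..
  | inst x u φ h =>
    have := Prv.inst (full := b) (W := W) x _ _ (Comp.freeFor_er h)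
    rwa [← Comp.subst_er] at this
  | dist => exact .dist ..
  | vac x φ h => exact .vac x _ (mt Comp.free_er h)
  | mp _ _ i1 i2 => exact .mp i1 i2
  | gen x _ ih => exact .gen x ih
  | ax h => rw [Comp.er_e]; exact .ax h
  | ind x h => rw [Comp.er_e]; exact .ind x h
  | cong k => exact .mp (.k _ _) (.mp (.mp (.s _ (.imp _ _) _) (.k _ _)) (.k _ .bot))

theorem cons_prv {W : Set ℕ} {φ : Fm} (h : Cons b (fun ψ => ∃ s, Ax W s ψ) φ) : Prv b W φ := by
  have := eprv_er (W := W) (comp' b {γ | ∃ ψ : Fm, (∃ s, Ax W s ψ) ∧ γ = ψ.e} φ.e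
    fun M _ _ hΓ v => (Fm.ev_e φ v).2
      (h M (fun ψ hψ w => (Fm.ev_e ψ w).1 (hΓ _ ⟨ψ, hψ, rfl⟩ w)) v)) (by
    rintro _ ⟨ψ, ⟨s, hψ⟩, rfl⟩
    rw [Comp.er_e]
    exact hψ.prv)
  rwa [Comp.er_e] at this

theorem Cons.prv {W : Set ℕ} {s : ℕ} {φ : Fm} (h : Cons b (Ax W s) φ) : Prv b W φ :=
  cons_prv (h.mono fun _ h => ⟨s, h⟩)

/-- finite use -/
theorem Prv.use {W : Set ℕ} {φ : Fm} (h : Prv b W φ) :
    ∃ s, ∀ V : Set ℕ, (∀ n, Use s n → (n ∈ W ↔ n ∈ V)) → Prv b V φ :=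
  (prv_cons h).imp fun _ h _ e => (h.mono fun _ h' => h'.congr e).prv

/-! ### Provability inside a model -/

variable {N : Mdl b}

theorem dv_jF (φ : Fm) : Dv (jF ((φ.code : ℕ) : N)) := by
  have := (sia' b).fm id 0 (c := fun _ => cZero) (ψ := fun _ => cBot) (thDv (M := N)).clo
    (fun _ => thDv.clo _ .tZero) (fun _ => thDv.clo _ .fBot) φ.e
  rwa [Fm.cd_e, box.fm_ren_id] at this

theorem dv_lst {z : N} {φ : Fm} (h : Orc (pr z ((φ.code : ℕ) : N))) :
    Dv (jP ((φ.code : ℕ) : N)) :=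
  thDv.clo _ (.pLst h (thDv.clo _ (.tVar z)) (dv_jF φ))

theorem dv_mp {φ ψ : Fm} (h : Dv (jP (((φ.imp ψ).code : ℕ) : N))) (h' : Dv (jP ((φ.code : ℕ) : N))) :
    Dv (jP ((ψ.code : ℕ) : N)) := by
  have e : (((φ.imp ψ).code : ℕ) : N) = cImp (φ.code : ℕ) (ψ.code : ℕ) := by
    simp [Fm.code, cast_npr]
  rw [e] at h
  exact thDv.clo _ (.pMp h h')

theorem dv_b {φ : Fm} (h : BPrv b φ) : Dv (jP ((φ.code : ℕ) : N)) := (sib' b).prv thDv.clo h

theorem dv_prv {W : Set ℕ} (hW : ∀ n : ℕ, Orc (n : N) ↔ n ∈ W) {φ : Fm} (h : Prv b W φ) :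
    Dv (jP ((φ.code : ℕ) : N)) := by
  induction h with
  | k => exact dv_b (.k ..)
  | s => exact dv_b (.s ..)
  | dn => exact dv_b (.dn ..)
  | inst x u φ h => exact dv_b (.inst x u φ h)
  | dist => exact dv_b (.dist ..)
  | vac x φ h => exact dv_b (.vac x φ h)
  | mp _ _ i1 i2 => exact dv_mp i1 i2
  | @gen x φ _ ih =>
    have e : (((Fm.all x φ).code : ℕ) : N) = cAll (x : N) (φ.code : ℕ) := by
      simp [Fm.code, cast_npr]
    rw [e]
    exact thDv.clo _ (.pGen _ ih)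
  | ax h => exact dv_b (.ax h)
  | ind x h => exact dv_b (.ind x h)
  | @yes n h =>
    have e : (((Fm.orc (.num n)).code : ℕ) : N) = cOrc (nm (n : N)) := by
      simp [Fm.code, cast_npr, nm_cast]
    rw [e]
    exact thDv.clo _ (.pYes ((hW n).2 h) (HasBox.nmM _))
  | @no n h =>
    have e : (((Fm.orc (.num n)).neg.code : ℕ) : N) = cNeg (cOrc (nm (n : N))) := by
      simp [Fm.neg, Fm.code, cast_npr, nm_cast]
    rw [e]
    exact thDv.clo _ (.pNo (mt (hW n).1 h) (HasBox.nmM _))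
  | @lst z φ h =>
    refine dv_lst (z := (z : N)) ?_
    rw [← cast_npr]
    exact (hW _).2 h

/-! ### Cuts -/

theorem isCut_std (N : Mdl b) : IsCut fun x : N => ∃ n : ℕ, x = n where
  zero := ⟨0, by simp⟩
  down := by
    rintro x _ h ⟨n, rfl⟩
    obtain ⟨k, -, e⟩ := le_natCast h
    exact ⟨k, e⟩
  succ := by rintro _ ⟨n, rfl⟩; exact ⟨n + 1, by simp⟩
  add := by rintro _ _ ⟨m, rfl⟩ ⟨n, rfl⟩; exact ⟨m + n, by simp⟩
  mul := by rintro _ _ ⟨m, rfl⟩ ⟨n, rfl⟩; exact ⟨m * n, by simp⟩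
  smash := by
    rintro _ _ ⟨m, rfl⟩ ⟨n, rfl⟩
    have h : smash (m : N) (n : N) < pw ((2 ^ (m.size * n.size) : ℕ) : N) := by
      rw [lt_pw_iff, len_smash, cast_len, cast_len, cast_len, Nat.size_pow]
      push_cast
      exact le_rfl
    rw [cast_pw] at h
    obtain ⟨k, -, e⟩ := le_natCast h.le
    exact ⟨k, e⟩

theorem IsCut.std {I : N → Prop} (h : IsCut I) (e : ∀ x, I x → ∃ n : ℕ, x = n) : Std h.mdl :=
  fun x => (e _ (h.val_mem x)).imp fun n hn => h.val_inj.1 (by rw [hn, h.val_nat])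

theorem IsCut.orc_nat {I : N → Prop} (h : IsCut I) (n : ℕ) : Orc (n : h.mdl) ↔ Orc (n : N) := by
  rw [← h.val_nat n]; rfl

theorem IsCut.pf_iff {I : N → Prop} (h : IsCut I) (y q : h.mdl) :
    Pf y q ↔ Pf (h.val y) (h.val q) :=
  h.abs (inferInstance : USig fun (_ : Mdl b) v => Pf (v 0) (v 1)).out (cons y fun _ => q)

theorem IsCut.dv_up {I : N → Prop} (h : IsCut I) {y : h.mdl} (hy : Dv y) : Dv (h.val y) :=
  let ⟨q, hq⟩ := hy.pf; ((h.pf_iff y q).1 hq).dv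

theorem IsCut.val_pr {I : N → Prop} (h : IsCut I) (x y : h.mdl) :
    h.val (PLO.pr x y) = PLO.pr (h.val x) (h.val y) :=
  h.abs_fn (f := fun _ v => PLO.pr (v 0) (v 1)) inferInstance (cons x fun _ => y)

theorem IsCut.val_jP {I : N → Prop} (h : IsCut I) (n : ℕ) :
    h.val (jP (n : h.mdl)) = jP (n : N) :=
  h.abs_fn (f := fun M _ => jP (n : M)) inferInstance fun _ => 0

/-- a standard proof inside an arbitrary model -/
theorem pf_cons {φ : Fm} {q : ℕ} (h : Pf (jP ((φ.code : ℕ) : N)) (q : N)) :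
    Cons b (Ax {n | Orc (n : N)} q) φ := by
  have hc := isCut_std N
  have hs := hc.std fun _ h => h
  have h1 : Pf (jP ((φ.code : ℕ) : hc.mdl)) (q : hc.mdl) := by
    rw [hc.pf_iff, hc.val_jP, hc.val_nat]; exact h
  obtain ⟨s, h2, a, -, h3, h4⟩ := h1
  obtain ⟨σ, rfl⟩ := hs s
  refine (adeq_std hs h3 h4).mono fun ψ hψ => (hψ.mono (Nat.cast_le.1 h2)).congr fun n _ => ?_
  exact hc.orc_nat n

theorem dv_cons (hN : Std N) {φ : Fm} (h : Dv (jP ((φ.code : ℕ) : N))) :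
    ∃ q, Cons b (Ax {n | Orc (n : N)} q) φ := by
  obtain ⟨q, hq⟩ := h.pf
  obtain ⟨n, rfl⟩ := hN q
  exact ⟨n, pf_cons hq⟩

theorem prv_of_dv (hN : Std N) {W : Set ℕ} (hW : ∀ n : ℕ, Orc (n : N) ↔ n ∈ W) {φ : Fm}
    (h : Dv (jP ((φ.code : ℕ) : N))) : Prv b W φ := by
  obtain ⟨q, hq⟩ := dv_cons hN h
  exact (hq.mono fun ψ hψ => hψ.congr fun n _ => hW n).prv

theorem num_of_dv (hN : Std N) {n : ℕ} {c : N} (h : Dv (jM (n : N) c)) :
    c = ((Tm.num n).code : ℕ) := by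
  obtain ⟨s, a, h, i, hi, e⟩ := h
  obtain ⟨σ, rfl⟩ := hN s
  obtain ⟨k, rfl⟩ := hN i
  exact (adeq.rows_inv hN h k hi).m _ _ e n rfl

/-- adequacy of the provability predicate -/
theorem adequate (W : Set ℕ) (φ : Fm) (v : ℕ → ℕ) : (prov b φ).holds W v ↔ Prv b W φ := by
  rw [holds_nM b, (pa' b).ev]
  exact ⟨prv_of_dv (std_nM b W) (orc_nM b W), dv_prv (orc_nM b W)⟩

theorem agree_of_ax {W : Set ℕ} (h : ∀ ψ, (∃ s, Ax W s ψ) → ∀ v, ψ.ev N.toStr v) (n : ℕ) :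
    Orc (n : N) ↔ n ∈ W := by
  by_cases e : n ∈ W
  · have := h _ ⟨n, Or.inl ⟨n, le_rfl, e, rfl⟩⟩ fun _ => 0
    simpa [e] using this
  · have := h _ ⟨n, Or.inr (Or.inl ⟨n, le_rfl, e, rfl⟩)⟩ fun _ => 0
    simpa [e] using this

/-! ### The formulas of the statement -/

theorem ev_derF {t : Tm} (ht : ∀ x, t.occ x → 16 ≤ x) (v : ℕ → N) :
    (derF b t).ev N.toStr v ↔ Dv (t.ev N.toStr v) := by
  have h1 : ¬ t.occ 1 := fun h => by have := ht _ h; omega
  have h2 : ¬ t.occ 2 := fun h => by have := ht _ h; omega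
  simp only [derF, Fm.ev_ex, (pa' b).evP t ht, Tm.ev_update h1, Tm.ev_update h2]
  rfl

theorem occ_jP (n x : ℕ) : ¬ (Tm.pr (.num 6) (.num n)).occ x := by
  simp [posta.occ_pr, Tm.not_occ_num]

theorem ev_prfLe (φ : Fm) (v : ℕ → N) :
    (prfLe b φ).ev N.toStr v ↔ Pf (jP ((φ.code : ℕ) : N)) (v 0) := by
  rw [prfLe, Fm.ev_bex _ (by simp [Tm.occ])]
  simp only [Fm.ev_bex (x := 2) (t := .var 0) _ (by simp [Tm.occ]),
    (pa' b).evP _ fun x hx => absurd hx (occ_jP _ x), Tm.ev_pr, Tm.ev_num]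
  rfl

theorem free_prfLe {φ : Fm} {x : ℕ} (h : (prfLe b φ).free x) : x = 0 := by
  simp only [prfLe, posta.free_bex, Tm.occ] at h
  obtain ⟨h1, h | ⟨h2, h | h⟩⟩ := h
  · exact h
  · exact h
  · rcases (pa' b).freeP _ _ h with h | h | h
    · exact absurd h h1
    · exact absurd h h2
    · exact absurd h (occ_jP _ _)

/-- the code of `∀ x₀ (x₀ = c → θ)` -/
def fixc (c : N) (θ : Fm) : N := cAll 0 (cImp (cEq (cVar 0) c) ((θ.code : ℕ) : N))

/-- `θ` at the numeral of `y` -/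
def fixF (y : ℕ) (θ : Fm) : Fm := .all 0 (.imp (.eq (.var 0) (.num y)) θ)

theorem code_fixF (y : ℕ) (θ : Fm) :
    (((fixF y θ).code : ℕ) : N) = fixc (((Tm.num y).code : ℕ) : N) θ := by
  simp [fixF, fixc, Fm.code, Tm.code, cast_npr]

theorem lt_code_fixF (y : ℕ) (θ : Fm) : y < (fixF y θ).code := by
  have a0 := le_code_num y
  have a1 := npr_ge (npr 0 0) (Tm.num y).code
  have a2 := npr_ge 9 (npr (npr 0 0) (Tm.num y).code)
  have a3 := npr_ge (npr 9 (npr (npr 0 0) (Tm.num y).code)) θ.code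
  have a4 := npr_ge 11 (npr (npr 9 (npr (npr 0 0) (Tm.num y).code)) θ.code)
  have a5 := npr_ge 0 (npr 11 (npr (npr 9 (npr (npr 0 0) (Tm.num y).code)) θ.code))
  have a6 := npr_ge 12 (npr 0 (npr 11 (npr (npr 9 (npr (npr 0 0) (Tm.num y).code)) θ.code)))
  simp only [fixF, Fm.code, Tm.code]
  omega

theorem ev_fixF (y : ℕ) (θ : Fm) (v : ℕ → N) :
    (fixF y θ).ev N.toStr v ↔ θ.ev N.toStr (update v 0 (y : N)) := by
  simp [fixF]

theorem ev_fixP (θ : Fm) (v : ℕ → N) : (fixP θ).tm.ev N.toStr v = fixc (v 17) θ := by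
  simp [posta.ev_tm, fixP, fixc]

theorem occ_fixP {θ : Fm} {x : ℕ} (h : (fixP θ).tm.occ x) : x = 17 := by
  simpa [fixP, Pat.all, Pat.imp, Pat.var, Pat.n1, Pat.n2, Pat.tm, posta.occ_pr, Tm.not_occ_num,
    Tm.occ] using h

theorem ev_numF (v : ℕ → N) :
    (derF b (Pat.jM (.mv 6) (.mv 7)).tm).ev N.toStr v ↔ Dv (jM (v 16) (v 17)) := by
  rw [ev_derF, posta.ev_tm]
  · rfl
  · intro x hx
    simp only [Pat.jM, Pat.n2, Pat.tm, posta.occ_pr, Tm.not_occ_num, Tm.occ, false_or] at hx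
    omega

theorem ev_boxDot (θ : Fm) (v : ℕ → N) : (boxDot b θ).ev N.toStr v ↔
    ∃ c, Dv (jM (v 16) c) ∧ Dv (jP (fixc c θ)) := by
  rw [boxDot, Fm.ev_ex]
  refine exists_congr fun c => ?_
  rw [Fm.ev_and, ev_numF, ev_derF]
  · have : (Pat.jP (fixP θ)).tm = Tm.pr (.num 6) (fixP θ).tm := rfl
    rw [this, Tm.ev_pr, ev_fixP, Tm.ev_num]
    rfl
  · intro x hx
    have : (Pat.jP (fixP θ)).tm = Tm.pr (.num 6) (fixP θ).tm := rfl
    rw [this, posta.occ_pr] at hx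
    exact (occ_fixP (hx.resolve_left (Tm.not_occ_num _ _))).ge.trans' (by norm_num)

theorem cdn_fix {θ : Fm} (hθ : ∀ x, θ.free x → x = 0) (q : N) :
    cdn (.all 0 (.imp (.eq (.var 0) (.var 1)) θ)) (fun _ => q) = fixc (nm q) θ := by
  have e : θ.e.cl [0] = θ.e := box.fm_cl fun n hn => by simp [hθ n hn]
  simp only [cdn, Fm.e, EFm.cl, e, EFm.cd, Fm.cd_e, box.fm_ren_id]
  simp [Tm.e, ETm.cl, ETm.cd, fixc]

theorem dv_jF_fix {θ : Fm} (hθ : ∀ x, θ.free x → x = 0) (q : N) : Dv (jF (fixc (nm q) θ)) := by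
  rw [← cdn_fix hθ]
  exact (sia' b).fm id 0 (thDv (M := N)).clo (fun _ => HasBox.nmT _) (fun _ => thDv.clo _ .fBot) _

theorem box_fix {θ : Fm} (hθ : ∀ x, θ.free x → x = 0) (q : N) :
    Dv (jP (fixc (nm q) θ)) ↔ BoxD Dv (fun N v => θ.ev N.toStr v) (fun _ => q) := by
  rw [← cdn_fix hθ, ← HasBox.defn _ _ thDv fun _ _ => Iff.rfl]
  have u1 := sig.up_ev (b := b) θ
  have u2 := sig.up_ev (b := b) (.all 0 (.imp (.eq (.var 0) (.var 1)) θ))
  have key : ∀ (N : Mdl b) (v : ℕ → N), (Fm.all 0 (.imp (.eq (.var 0) (.var 1)) θ)).ev N.toStr v ↔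
      θ.ev N.toStr (fun _ => v 1) := fun N v => by
    have : θ.ev N.toStr (update v 0 (v 1)) ↔ θ.ev N.toStr (fun _ => v 1) :=
      θ.ev_congr fun x hx => by rw [hθ x hx]; simp
    simp [this]
  constructor
  · intro h
    exact BoxD.of_at thDv (g := fun _ => 1) (h.congr key) fun _ => rfl
  · intro h
    exact (h.at thDv (fun _ => q) (fun _ => 1) fun _ => rfl).congr fun N v => (key N v).symm

/-- the extension of `I` -/
def IP (I : Fm) (N : Mdl b) (u : N) : Prop := I.ev N.toStr fun _ => u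

theorem ev_atF {I : Fm} (hI : ∀ x, I.free x → x = 0) {t : Tm} (ht : ¬ t.occ 0) (v : ℕ → N) :
    (atF I t).ev N.toStr v ↔ IP I N (t.ev N.toStr v) := by
  have : I.ev N.toStr (update v 0 (t.ev N.toStr v)) ↔ IP I N (t.ev N.toStr v) :=
    I.ev_congr fun x hx => by rw [hI x hx]; simp
  simp [atF, Tm.ev_update ht, this]

theorem ev_cutF {I : Fm} (hI : ∀ x, I.free x → x = 0) {v : ℕ → N} (h : (cutF I).ev N.toStr v) :
    IsCut (IP I N) := by
  have k : ∀ x y : N, IP I N 0 ∧ (x ≤ y → IP I N y → IP I N x) ∧ (IP I N x → IP I N y →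
      IP I N (x + 1) ∧ IP I N (x + y) ∧ IP I N (x * y) ∧ IP I N (smash x y)) := fun x y => by
    have := h x y
    simp only [Fm.ev_and, Fm.ev_imp] at this
    rw [ev_atF hI (by simp [Tm.occ]), ev_atF hI (by simp [Tm.occ]), ev_atF hI (by simp [Tm.occ]),
      ev_atF hI (by simp [Tm.occ]), ev_atF hI (by simp [Tm.occ]), ev_atF hI (by simp [Tm.occ]),
      ev_atF hI (by simp [Tm.occ])] at this
    simpa using this
  exact ⟨(k 0 0).1, fun h1 h2 => (k _ _).2.1 h1 h2, fun h1 => ((k _ _).2.2 h1 h1).1,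
    fun h1 h2 => ((k _ _).2.2 h1 h2).2.1, fun h1 h2 => ((k _ _).2.2 h1 h2).2.2.1,
    fun h1 h2 => ((k _ _).2.2 h1 h2).2.2.2⟩

theorem ev_guard {I : Fm} (hI : ∀ x, I.free x → x = 0) (x : ℕ) (v : ℕ → N) :
    (if x = 0 then I else atF I (.var x)).ev N.toStr v ↔ IP I N (v x) := by
  split_ifs with e
  · subst e
    exact I.ev_congr fun y hy => by rw [hI y hy]
  · exact ev_atF hI (t := .var x) (fun h => e (Eq.symm h)) v

theorem ev_rel {I : Fm} (hI : ∀ x, I.free x → x = 0) (h : IsCut (IP I N)) (φ : Fm) :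
    ∀ v : ℕ → h.mdl, (rel I φ).ev N.toStr (fun i => h.val (v i)) ↔ φ.ev h.mdl.toStr v := by
  induction φ with
  | bot => intro _; rfl
  | eq s t => exact fun v => (h.ev_cls (Cls.eq (full := true) true s t) v).symm
  | le s t => exact fun v => (h.ev_cls (Cls.le (full := true) true s t) v).symm
  | orc t => exact fun v => (h.ev_cls (Cls.orc (full := true) true t) v).symm
  | imp φ ψ i1 i2 => exact fun v => imp_congr (i1 v) (i2 v)
  | all x φ ih =>
    intro v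
    simp only [rel, Fm.ev_all, Fm.ev_imp, ev_guard hI, update_self]
    constructor
    · intro k u
      rw [← ih, h.val_upd]
      exact k _ (h.val_mem u)
    · intro k u hu
      have := k (h.elt u hu)
      rwa [← ih, h.val_upd] at this

theorem free_atF {I : Fm} (hI : ∀ x, I.free x → x = 0) {t : Tm} {x : ℕ} (h : (atF I t).free x) :
    t.occ x := by
  obtain ⟨h0, (h | h) | h⟩ := h
  · exact absurd h h0
  · exact h
  · exact absurd (hI x h) h0

theorem free_rel {I : Fm} (hI : ∀ x, I.free x → x = 0) {φ : Fm} {x : ℕ} (h : (rel I φ).free x) :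
    φ.free x := by
  induction φ with
  | bot | eq | le | orc => exact h
  | imp φ ψ i1 i2 => exact h.imp i1 i2
  | all y φ ih =>
    obtain ⟨h0, h | h⟩ := h
    · split_ifs at h with e
      · exact absurd ((hI x h).trans e.symm) h0
      · exact absurd (free_atF hI h) h0
    · exact ⟨h0, ih h⟩

theorem free_cutF {I : Fm} (hI : ∀ x, I.free x → x = 0) (x : ℕ) : ¬ (cutF I).free x := by
  rintro ⟨h1, h2, h⟩
  have k : ∀ {t : Tm}, (atF I t).free x → t.occ x := free_atF hI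
  simp only [posta.free_and, Fm.free] at h
  rcases h with h | (h | h | h) | h | h | h | h | h | h
  any_goals have := k h; simp only [Tm.occ] at this
  any_goals simp only [Tm.occ] at h
  all_goals omega

end Pool.Agent.PLO

end MrgPart0

-- ======== part 1: formerly Pool.Agent.PLO.Par
section MrgPart1

/-! Parikh's theorem, the use of `Σ^b_1(α)` facts, and the colour lemma. -/

namespace Pool.Agent.PLO

open Function STDp

variable {b : Bool}

theorem tall' (P : ∀ M : Mdl b, M → (ℕ → M) → Prop)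
    (hP : UP fun M v => P M (v 0) (fun i => v (i + 1)))
    (h : ∀ (M : Mdl b) (v : ℕ → M) (B : M), (∀ t : Tm, t.ev M.toStr v ≤ B) → P M B v) :
    ∃ T : Tm, ∀ (M : Mdl b) (v : ℕ → M), P M (T.ev M.toStr v) v := by
  obtain ⟨ψ, hψ⟩ := hP.out
  have e : ∀ (N : Mdl b) (c : ℕ → N) (X : ℕ → N → Prop) (w : ℕ → N),
      (ψ.e.cl []).ev N.toStr c X w ↔ P N (c 0) (fun i => c (i + 1)) := by
    intro N c X w
    rw [EFm.ev_cl_nil, Fm.ev_e, hψ]
  obtain ⟨T, hT⟩ := chain.supp (comp' b (Set.range chain.gam) (ψ.e.cl [])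
    fun N c X hΓ w => (e N c X w).2
      (h N _ (c 0) fun t => (chain.ev_gam t N c X w).1 (hΓ _ ⟨t, rfl⟩ w)))
  refine ⟨T, fun M v => ?_⟩
  refine (e M (cons (T.ev M.toStr v) v) (fun _ _ => False) v).1 (hT.sound M _ _ ?_ v)
  rintro _ ⟨t, ht, rfl⟩ w
  exact (chain.ev_gam t M _ _ w).2 (ht M v)

/-- the universal closure passes to cuts -/
def Pres (b : Bool) (ψ : Fm) : Prop := ∀ (N : Mdl b) (I : N → Prop) (h : IsCut I),
  (∀ v, ψ.ev N.toStr v) → ∀ v, ψ.ev h.mdl.toStr v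

theorem Cls.pres {c σ : Bool} {ψ : Fm} (h : Cls c σ ψ) : Pres b ψ :=
  fun _ _ hI k v => (hI.ev_cls h v).2 (k _)

theorem parikh {ι : Type} [Finite ι] (G : ι → Fm) (hG : ∀ i, Pres b (G i)) {c σ c' σ' : Bool}
    {H Q : UPred b} (hH : UC c σ H) (hQ : UC c' σ' Q)
    (h : ∀ (N : Mdl b) (v : ℕ → N), (∀ i w, (G i).ev N.toStr w) → H N v → ∃ y, Q N (cons y v)) :
    ∃ T : Tm, ∀ (N : Mdl b) (v : ℕ → N), (∀ i w, (G i).ev N.toStr w) → H N v →
      ∃ y ≤ T.ev N.toStr v, Q N (cons y v) := by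
  have u1 : ∀ i, UF fun (M : Mdl b) _ _ => ∀ w, (G i).ev M.toStr w := fun i =>
    ⟨Comp.clo (G i).e.mx (G i).e, fun M c X v => by rw [Comp.ev_clo_mx]; simp⟩
  have u2 : UF fun (M : Mdl b) _ v => H M fun i => v (i + 1) := hH.tail.up.uf
  have u3 : UF fun (M : Mdl b) _ v => Q M (cons (v 0) fun i => v (i + 1 + 1)) :=
    ((hQ.ren (consInj 1)).congr fun M v => iff_of_eq (congrArg _ (funext fun i => by
      cases i <;> rfl))).up.uf
  refine tall' (fun N B v => (∀ i w, (G i).ev N.toStr w) → H N v → ∃ y ≤ B, Q N (cons y v))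
    inferInstance fun M v B hB k1 k2 => ?_
  have hc := isCut_gen v
  let v' : ℕ → hc.mdl := fun i => hc.elt (v i) ⟨.var i, le_rfl⟩
  obtain ⟨y, hy⟩ := h hc.mdl v' (fun i => hG i M _ hc (k1 i)) ((hc.abs hH v').2 k2)
  obtain ⟨t, ht⟩ := hc.val_mem y
  refine ⟨hc.val y, ht.trans (hB t), ?_⟩
  have := (hc.abs hQ (cons y v')).1 hy
  rwa [hc.val_cons] at this

/-! ### Sizes -/

theorem pow_add_le {N : ℕ} (hN : 2 ≤ N) (j k : ℕ) : N ^ j + N ^ k ≤ N ^ (j + k + 1) := by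
  have h1 : N ^ j ≤ N ^ (j + k) := Nat.pow_le_pow_right (by omega) le_self_add
  have h2 : N ^ k ≤ N ^ (j + k) := Nat.pow_le_pow_right (by omega) le_add_self
  have h3 := Nat.mul_le_mul_left (N ^ (j + k)) hN
  rw [pow_succ]
  omega

theorem size_le_self (n : ℕ) : n.size ≤ n := Nat.size_le.2 Nat.lt_two_pow_self

theorem val_size (t : Tm) : ∃ k, ∀ N, 2 ≤ N → ∀ v : ℕ → ℕ, (∀ i, (v i).size ≤ N) →
    (t.val v).size ≤ N ^ k := by
  induction t with
  | var x => exact ⟨1, fun N _ v h => by simpa [Tm.val] using h x⟩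
  | zero => exact ⟨0, fun N _ v _ => by simp [Tm.val]⟩
  | succ t ih =>
    obtain ⟨k, hk⟩ := ih
    refine ⟨k + 0 + 1, fun N hN v h => le_trans ?_ (pow_add_le hN k 0)⟩
    have := Nat.size_le.1 (hk N hN v h)
    rw [Tm.val, Nat.size_le, pow_zero, pow_succ]
    omega
  | len t ih =>
    exact ih.imp fun k hk N hN v h => (Nat.size_le_size (size_le_self _)).trans (hk N hN v h)
  | half t ih =>
    exact ih.imp fun k hk N hN v h => (Nat.size_le_size (Nat.div_le_self _ _)).trans (hk N hN v h)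
  | add s t i1 i2 =>
    obtain ⟨j, hj⟩ := i1
    obtain ⟨k, hk⟩ := i2
    refine ⟨j + k + 1, fun N hN v h => le_trans ?_ (pow_add_le hN j k)⟩
    have a1 := Nat.size_le.1 (hj N hN v h)
    have a2 := Nat.size_le.1 (hk N hN v h)
    have a3 : 2 ≤ 2 ^ N ^ j := Nat.le_self_pow (by positivity) 2
    have a4 : 2 ≤ 2 ^ N ^ k := Nat.le_self_pow (by positivity) 2
    rw [Tm.val, Nat.size_le, pow_add]
    nlinarith
  | mul s t i1 i2 =>
    obtain ⟨j, hj⟩ := i1
    obtain ⟨k, hk⟩ := i2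
    refine ⟨j + k + 1, fun N hN v h => le_trans ?_ (pow_add_le hN j k)⟩
    rw [Tm.val, Nat.size_le, pow_add]
    exact Nat.mul_lt_mul'' (Nat.size_le.1 (hj N hN v h)) (Nat.size_le.1 (hk N hN v h))
  | smash s t i1 i2 =>
    obtain ⟨j, hj⟩ := i1
    obtain ⟨k, hk⟩ := i2
    refine ⟨j + k + 0 + 1, fun N hN v h => le_trans ?_ (pow_add_le hN (j + k) 0)⟩
    rw [Tm.val, Nat.size_pow, pow_zero, pow_add]
    exact Nat.succ_le_succ (Nat.mul_le_mul (hj N hN v h) (hk N hN v h))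

/-- `P` is secured by at most `B` places of size at most `B` of the oracle `V` -/
def Loc (V : Set ℕ) (B : ℕ) (P : Set ℕ → Prop) : Prop :=
  ∃ Q : Finset ℕ, Q.card ≤ B ∧ (∀ q ∈ Q, q.size ≤ B) ∧ ∀ V', (∀ q ∈ Q, q ∈ V' ↔ q ∈ V) → P V'

theorem Loc.mono {V : Set ℕ} {B B' : ℕ} {P P' : Set ℕ → Prop} (h : Loc V B P) (e : B ≤ B')
    (e' : ∀ V', P V' → P' V') : Loc V B' P' :=
  let ⟨Q, h1, h2, h3⟩ := h
  ⟨Q, h1.trans e, fun q hq => (h2 q hq).trans e, fun V' k => e' _ (h3 V' k)⟩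

theorem Loc.const {V : Set ℕ} {B : ℕ} {P : Set ℕ → Prop} (h : ∀ V', P V') : Loc V B P :=
  ⟨∅, by simp, by simp, fun V' _ => h V'⟩

theorem Loc.and {V : Set ℕ} {B B' : ℕ} {P P' : Set ℕ → Prop} (h : Loc V B P) (h' : Loc V B' P') :
    Loc V (B + B') fun V' => P V' ∧ P' V' := by
  obtain ⟨Q, h1, h2, h3⟩ := h
  obtain ⟨Q', k1, k2, k3⟩ := h'
  refine ⟨Q ∪ Q', (Finset.card_union_le _ _).trans (add_le_add h1 k1), fun q hq => ?_,
    fun V' e => ⟨h3 V' fun q hq => e q (Finset.mem_union_left _ hq),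
      k3 V' fun q hq => e q (Finset.mem_union_right _ hq)⟩⟩
  rcases Finset.mem_union.1 hq with hq | hq
  · exact (h2 q hq).trans le_self_add
  · exact (k2 q hq).trans le_add_self

theorem Loc.all {V : Set ℕ} {B : ℕ} {P : ℕ → Set ℕ → Prop} (n : ℕ) (h : ∀ u < n, Loc V B (P u)) :
    Loc V (n * B) fun V' => ∀ u < n, P u V' := by
  induction n with
  | zero => exact Loc.const fun _ _ h => absurd h (Nat.not_lt_zero _)
  | succ n ih =>
    refine ((ih fun u hu => h u (by omega)).and (h n (by omega))).mono (by rw [Nat.succ_mul])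
      fun V' k u hu => ?_
    rcases Nat.lt_succ_iff_lt_or_eq.1 hu with hu | rfl
    exacts [k.1 u hu, k.2]

theorem holds_ball {W : Set ℕ} {x : ℕ} {t : Tm} (h : ¬ t.occ x) (φ : Fm) (v : ℕ → ℕ) :
    (Fm.ball x t φ).holds W v ↔ ∀ u ≤ t.val v, φ.holds W (update v x u) := by
  have e : ∀ u, t.val (update v x u) = t.val v := fun u => by
    rw [← val_eq (W := W), ← val_eq (W := W)]
    exact Tm.ev_update (S := nS W) h u
  simp [Fm.ball, Fm.holds, Tm.val, e]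

theorem size_update {N k : ℕ} (hN : 2 ≤ N) {v : ℕ → ℕ} (hv : ∀ i, (v i).size ≤ N) (x : ℕ) {u : ℕ}
    (hu : u.size ≤ N ^ k) (i : ℕ) : (update v x u i).size ≤ N ^ (k + 1) := by
  by_cases e : i = x
  · subst e
    rw [update_self]
    exact hu.trans (Nat.pow_le_pow_right (by omega) (by omega))
  · rw [update_of_ne e]
    exact (hv i).trans (Nat.le_self_pow (by omega) N)

theorem use_cls {σ : Bool} {θ : Fm} (h : Cls false σ θ) : ∃ e, ∀ N, 2 ≤ N →
    ∀ (V : Set ℕ) (v : ℕ → ℕ), (∀ i, (v i).size ≤ N) →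
      (σ = true → θ.holds V v → Loc V (N ^ e) fun V' => θ.holds V' v) ∧
      (σ = false → ¬ θ.holds V v → Loc V (N ^ e) fun V' => ¬ θ.holds V' v) := by
  induction h with
  | bot σ => exact ⟨0, fun N _ V v _ => ⟨fun _ h => h.elim, fun _ h => Loc.const fun _ => h⟩⟩
  | eq σ s t | le σ s t =>
    exact ⟨0, fun N _ V v _ => ⟨fun _ h => Loc.const fun _ => h, fun _ h => Loc.const fun _ => h⟩⟩
  | orc σ t =>
    obtain ⟨k, hk⟩ := val_size t
    refine ⟨k, fun N hN V v hv => ⟨fun _ h => ?_, fun _ h => ?_⟩⟩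
    · exact ⟨{t.val v}, by simpa using Nat.one_le_pow _ _ (by omega), by simpa using hk N hN v hv,
        fun V' e => (e _ (Finset.mem_singleton_self _)).2 h⟩
    · exact ⟨{t.val v}, by simpa using Nat.one_le_pow _ _ (by omega), by simpa using hk N hN v hv,
        fun V' e => mt (e _ (Finset.mem_singleton_self _)).1 h⟩
  | @imp σ φ ψ _ _ i1 i2 =>
    obtain ⟨j, hj⟩ := i1
    obtain ⟨k, hk⟩ := i2
    refine ⟨j + k + 1, fun N hN V v hv => ⟨fun hσ h => ?_, fun hσ h => ?_⟩⟩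
    · by_cases h1 : φ.holds V v
      · exact ((hk N hN V v hv).1 hσ (h h1)).mono (le_add_self.trans (pow_add_le hN j k))
          fun V' e _ => e
      · exact ((hj N hN V v hv).2 (by rw [hσ]; rfl) h1).mono (le_self_add.trans (pow_add_le hN j k))
          fun V' e e' => absurd e' e
    · have h' : φ.holds V v ∧ ¬ ψ.holds V v := Classical.not_imp.1 h
      exact (((hj N hN V v hv).1 (by rw [hσ]; rfl) h'.1).and ((hk N hN V v hv).2 hσ h'.2)).mono
        (pow_add_le hN j k) fun V' e e' => e.2 (e' e.1)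
  | @ball x t φ ht _ ih =>
    obtain ⟨k, hk⟩ := val_size t
    obtain ⟨e, he⟩ := ih
    refine ⟨(k + 1) * e, fun N hN V v hv => ⟨fun h => absurd h (by decide), fun _ h => ?_⟩⟩
    rw [holds_ball ht] at h
    obtain ⟨u, hu⟩ := not_forall.1 h
    obtain ⟨h1, h2⟩ := Classical.not_imp.1 hu
    refine ((he (N ^ (k + 1)) (hN.trans (Nat.le_self_pow (by omega) N)) V _
      (size_update hN hv x ((Nat.size_le_size h1).trans (hk N hN v hv)))).2 rfl h2).mono
      (by rw [pow_mul]) fun V' e1 e2 => e1 ((holds_ball ht _ _).1 e2 u h1)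
  | @sharp x t φ ht _ ih =>
    obtain ⟨k, hk⟩ := val_size t
    obtain ⟨e, he⟩ := ih
    refine ⟨(k + 0 + 1) + (k + 1) * e, fun N hN V v hv =>
      ⟨fun _ h => ?_, fun h => absurd h (by decide)⟩⟩
    rw [holds_ball (t := t.len) ht] at h
    have h0 := hk N hN v hv
    refine (Loc.all (V := V) (B := (N ^ (k + 1)) ^ e)
      (P := fun u V' => φ.holds V' (update v x u)) ((t.val v).size + 1) fun u hu => ?_).mono ?_
      fun V' e1 => (holds_ball (t := t.len) ht _ _).2 fun u hu => e1 u (Nat.lt_succ_of_le hu)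
    · have h1 : u ≤ (t.val v).size := Nat.le_of_lt_succ hu
      exact (he (N ^ (k + 1)) (hN.trans (Nat.le_self_pow (by omega) N)) V _
        (size_update hN hv x (((size_le_self u).trans h1).trans h0))).1 rfl (h u h1)
    · rw [pow_add N (k + 0 + 1), pow_mul]
      refine Nat.mul_le_mul_right _ (le_trans ?_ (pow_add_le hN k 0))
      simpa using h0
  | wide h => exact absurd h (by decide)

theorem loc_pf (φ : Fm) : ∃ e, ∀ N, 2 ≤ N → ∀ (V : Set ℕ) (q : ℕ), q.size ≤ N →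
    Pf (jP (@Nat.cast (nM b V) _ φ.code)) (@Nat.cast (nM b V) _ q) →
      Loc V (N ^ e) fun V' => Prv b V' φ := by
  obtain ⟨θ, h1, h2⟩ :=
    (inferInstance : USig fun (M : Mdl b) v => Pf (jP ((φ.code : ℕ) : M)) (v 0)).out
  obtain ⟨e, he⟩ := use_cls h1
  refine ⟨e, fun N hN V q hq h => ((he N hN V (fun _ => q) fun _ => hq).1 rfl
    ((holds_nM b V θ _).2 ((h2 _ _).2 h))).mono le_rfl fun V' k => ?_⟩
  exact prv_of_dv (std_nM b V') (orc_nM b V') ((h2 _ _).1 ((holds_nM b V' θ _).1 k)).dv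

/-! ### The colour lemma -/

theorem window (K l : ℕ) : ∃ n₁, l ≤ n₁ ∧ ∀ n, n₁ ≤ n →
    ∃ n₀, l ≤ n₀ + 1 ∧ (n₀ + 1) ^ K < n ∧ 2 * (n + 1) ^ K < 2 ^ n₀ := by
  have h := (tendsto_pow_const_div_const_pow_of_one_lt K (r := (2 : ℝ)) one_lt_two).const_mul
    (2 * ((K + l + 3 : ℕ) : ℝ) ^ K)
  rw [mul_zero] at h
  obtain ⟨L, hL⟩ := Filter.eventually_atTop.1 (h.eventually (gt_mem_nhds one_pos))
  refine ⟨l + 2 ^ L, le_self_add, fun n hn => ⟨n.size * K + 2 + l, by omega, ?_, ?_⟩⟩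
  · have h1 : L < n.size := Nat.lt_size.2 (le_add_self.trans hn)
    have h2 := hL n.size h1.le
    rw [← mul_div_assoc, div_lt_one (by positivity)] at h2
    have h3 : 2 * (K + l + 3) ^ K * n.size ^ K < 2 ^ n.size := by exact_mod_cast h2
    have h4 : 2 ^ (n.size - 1) ≤ n := Nat.lt_size.1 (by omega)
    have h5 : 2 ^ n.size = 2 * 2 ^ (n.size - 1) := by
      rw [← pow_succ']; congr 1; omega
    have h6 : (n.size * K + 2 + l + 1) ^ K ≤ (K + l + 3) ^ K * n.size ^ K := by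
      rw [← mul_pow]
      exact Nat.pow_le_pow_left (by nlinarith) K
    rw [mul_assoc] at h3
    omega
  · have h1 : n + 1 ≤ 2 ^ n.size := Nat.lt_size_self n
    calc 2 * (n + 1) ^ K ≤ 2 * (2 ^ n.size) ^ K := by gcongr
      _ = 2 ^ (n.size * K + 1) := by rw [← pow_mul, pow_succ']
      _ < 2 ^ (n.size * K + 2 + l) := Nat.pow_lt_pow_right (by norm_num) (by omega)

theorem size_two_pow_add {n i : ℕ} (h : i < 2 ^ n) : (2 ^ n + i).size = n + 1 :=
  le_antisymm (Nat.size_le.2 (by rw [pow_succ]; omega)) (Nat.lt_size.2 le_self_add)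

theorem colour (K l : ℕ) : ∃ n₁, l ≤ n₁ ∧ ∀ (p : ℕ → ℕ), Injective p → (∀ x, x ≤ p x) →
    ∀ (B : Set ℕ) (P : Bool → Set ℕ → Prop),
    (∀ x y c c', P c (insert (p x) (insert (p y) B)) → P c' (insert (p x) (insert (p y) B)) →
      c = c') →
    (∀ x, l ≤ x.size → ∃ c, Loc (insert (p x) B) (x.size ^ K) (P c)) →
    ∀ x x' c c', n₁ < x.size → n₁ < x'.size → Loc (insert (p x) B) (x.size ^ K) (P c) →
      Loc (insert (p x') B) (x'.size ^ K) (P c') → c = c' := by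
  obtain ⟨n₁, h1, hw⟩ := window K l
  refine ⟨n₁, h1, fun p inj big B P con ex => ?_⟩
  have near : ∀ x x' c c', n₁ < x.size → x.size ≤ x'.size → x'.size ≤ x.size + 1 →
      Loc (insert (p x) B) (x.size ^ K) (P c) → Loc (insert (p x') B) (x'.size ^ K) (P c') →
      c = c' := by
    rintro x x' c c' hx e1 e2 ⟨Q, a1, -, a3⟩ ⟨Q', b1, -, b3⟩
    obtain ⟨n₀, k1, k2, k3⟩ := hw x.size hx.le
    obtain ⟨_, hy, hy'⟩ := Finset.exists_mem_notMem_of_card_lt_card (s := Q ∪ Q')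
      (t := (Finset.range (2 ^ n₀)).image fun i => p (2 ^ n₀ + i)) (by
        rw [Finset.card_image_of_injective _ fun i j e => Nat.add_left_cancel (inj e),
          Finset.card_range]
        have c1 : x.size ^ K ≤ (x.size + 1) ^ K := Nat.pow_le_pow_left (by omega) K
        have c2 : x'.size ^ K ≤ (x.size + 1) ^ K := Nat.pow_le_pow_left e2 K
        have := Finset.card_union_le Q Q'
        omega)
    obtain ⟨i, hi, rfl⟩ := Finset.mem_image.1 hy
    have hs := size_two_pow_add (Finset.mem_range.1 hi)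
    obtain ⟨d, R, -, d2, d3⟩ := ex (2 ^ n₀ + i) (by rw [hs]; exact k1)
    rw [hs] at d2
    have am : ∀ z c (S : Finset ℕ), x.size ≤ z.size → p (2 ^ n₀ + i) ∉ S →
        (∀ V', (∀ q ∈ S, q ∈ V' ↔ q ∈ insert (p z) B) → P c V') → c = d := by
      intro z c S hz hS h
      refine con z (2 ^ n₀ + i) c d (h _ fun q hq => ?_) (d3 _ fun q hq => ?_)
      · have : q ≠ p (2 ^ n₀ + i) := fun e => hS (e ▸ hq)
        simp [this]
      · have : q ≠ p z := fun e => by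
          have := d2 q hq
          have := Nat.size_le_size (big z)
          rw [← e] at this
          omega
        simp [this]
    rw [am x c Q le_rfl (fun h => hy' (Finset.mem_union_left _ h)) a3,
      am x' c' Q' e1 (fun h => hy' (Finset.mem_union_right _ h)) b3]
  have up : ∀ x c, n₁ < x.size → Loc (insert (p x) B) (x.size ^ K) (P c) → ∀ m, x.size ≤ m →
      ∀ x' c', x'.size = m → Loc (insert (p x') B) (x'.size ^ K) (P c') → c = c' := by
    intro x c hx h m hm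
    induction m, hm using Nat.le_induction with
    | base => exact fun x' c' e h' => near x x' c c' hx e.ge (by omega) h h'
    | succ m hm ih =>
      intro x' c' e h'
      have hs : (2 ^ (m - 1)).size = m := by rw [Nat.size_pow]; omega
      obtain ⟨d, hd⟩ := ex (2 ^ (m - 1)) (by omega)
      exact (ih _ d hs hd).trans (near _ x' d c' (by omega) (by omega) (by omega) hd h')
  intro x x' c c' hx hx' h h'
  rcases le_total x.size x'.size with e | e
  · exact up x c hx h _ e x' c' rfl h'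
  · exact (up x' c' hx' h' _ e x c rfl h).symm

end Pool.Agent.PLO

end MrgPart1

-- ======== part 2: formerly Pool.Agent.PLO.Build
section MrgPart2

/-! The construction of the oracle. -/

namespace Pool.Agent.PLO

open Function STDp

def bb (b : Bool) : Fm := prov b .bot
def mark (b : Bool) (E : Fm) : Fm := .imp (prov b E) (bb b)
def XF (b : Bool) (D : Fm) : Fm := .imp (prov b (bb b)) (.or (prov b D) (prov b D.neg))
def thR (b : Bool) (I φ : Fm) : Fm := .imp (prfLe b φ) (.imp (cutF I) (rel I φ))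
def thX (b : Bool) (D : Fm) : Fm :=
  .imp (prfLe b (XF b D)) (.or (prov b (mark b D)) (prov b (mark b D.neg)))
/-- all numeral instances of `θ` are listed -/
def UU (b : Bool) (θ : Fm) : Fm :=
  .imp (derF b (Pat.jM (.mv 6) (.mv 7)).tm) (.orc (.pr .zero (fixP θ).tm))
def Th1 (b : Bool) (θ : Fm) : Prop :=
  ∃ I φ : Fm, (∀ x, I.free x → x = 0) ∧ (∀ x, ¬ φ.free x) ∧ θ = thR b I φ
/-- the fixed part of the oracle -/
def CC (b : Bool) : Set ℕ := {p | ∃ θ, (Th1 b θ ∨ ∃ D, θ = thX b D) ∧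
  (p = npr 0 (UU b θ).code ∨ ∃ y, p = npr 0 (fixF y θ).code)}

variable {b : Bool} {N : Mdl b}

theorem ev_UU (θ : Fm) (v : ℕ → N) : (UU b θ).ev N.toStr v ↔
    (Dv (jM (v 16) (v 17)) → Orc (pr 0 (fixc (v 17) θ))) := by
  rw [UU, Fm.ev_imp, ev_numF, Fm.ev_orc, Tm.ev_pr, ev_fixP, Tm.ev_zero]

theorem pres_UU (θ : Fm) : Pres b (UU b θ) := by
  intro N I h k v
  rw [ev_UU]
  intro h1
  have h2 := h.dv_up h1
  rw [h.abs_fn (f := fun _ v => jM (v 16) (v 17)) inferInstance v] at h2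
  have h3 := (ev_UU θ _).1 (k fun i => h.val (v i)) h2
  exact (h.abs (P := fun _ v => Orc (pr 0 (fixc (v 17) θ)))
    (UC.orc (c := false) (σ := true) (by unfold fixc; infer_instance)) v).2 h3

theorem pres_nprov (E : Fm) : Pres b (prov b E).neg := by
  intro N I h k v h1
  have h2 := h.dv_up (((pa' b).ev _ _ _).1 h1)
  rw [h.val_jP] at h2
  exact k (fun _ => 0) (((pa' b).ev _ _ _).2 h2)

theorem std_UU (hN : Std N) {W : Set ℕ} (hW : ∀ n : ℕ, Orc (n : N) ↔ n ∈ W) (hC : CC b ⊆ W)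
    {θ : Fm} (hθ : Th1 b θ ∨ ∃ D, θ = thX b D) (v : ℕ → N) : (UU b θ).ev N.toStr v := by
  rw [ev_UU]
  obtain ⟨y, hy⟩ := hN (v 16)
  rw [hy]
  intro h
  rw [num_of_dv hN h, ← code_fixF, ← Nat.cast_zero, ← cast_npr, hW]
  exact hC ⟨θ, hθ, Or.inr ⟨y, rfl⟩⟩

theorem ev_thX (y : ℕ) (D : Fm) (v : ℕ → N) : (fixF y (thX b D)).ev N.toStr v ↔
    (Pf (jP (((XF b D).code : ℕ) : N)) (y : N) →
      Dv (jP (((mark b D).code : ℕ) : N)) ∨ Dv (jP (((mark b D.neg).code : ℕ) : N))) := by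
  rw [ev_fixF, thX, Fm.ev_imp, ev_prfLe, Fm.ev_or, (pa' b).ev, (pa' b).ev, update_self]

/-- the reflection postulates take care of themselves -/
theorem ax_true (𝒩 : Mdl b → Prop) (hcut : ∀ (N : Mdl b) (I : N → Prop) (h : IsCut I), 𝒩 N → 𝒩 h.mdl)
    (B : Set ℕ) (s : ℕ) (agr : ∀ N, 𝒩 N → ∀ n : ℕ, Use s n → (Orc (n : N) ↔ n ∈ B))
    (oth : ∀ z (ψ : Fm), ψ.code ≤ s → npr z ψ.code ∈ B →
      (∃ y θ, Th1 b θ ∧ ψ = fixF y θ) ∨ ∀ N, 𝒩 N → ∀ v, ψ.ev N.toStr v) (r : ℕ) :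
    r ≤ s → ∀ ψ, Ax B r ψ → ∀ N, 𝒩 N → ∀ v, ψ.ev N.toStr v := by
  induction r using Nat.strong_induction_on with
  | _ r ih =>
    rintro hr ψ (⟨n, h1, h2, rfl⟩ | ⟨n, h1, h2, rfl⟩ | ⟨z, -, h2, h3⟩) N hN v
    · simpa using (agr N hN n (Or.inl (h1.trans hr))).2 h2
    · simpa using mt (agr N hN n (Or.inl (h1.trans hr))).1 h2
    · rcases oth z ψ (h2.trans hr) h3 with ⟨y, _, ⟨I, φ, hI, hφ, rfl⟩, rfl⟩ | h
      · have hy : y < r := (lt_code_fixF _ _).trans_le h2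
        rw [ev_fixF, thR, Fm.ev_imp, ev_prfLe, update_self]
        intro k1 k2
        have hc := ev_cutF hI k2
        have k3 := pf_cons k1 hc.mdl (fun χ hχ => ih y hy (by omega) χ
          (hχ.congr fun n hn => agr N hN n (hn.mono (by omega))) _ (hcut N _ hc hN)) fun _ => 0
        exact ((rel I φ).ev_congr fun x hx => absurd (free_rel hI hx) (hφ x)).1
          ((ev_rel hI hc φ _).2 k3)
      · exact h N hN v

/-! ### Consistency of the worlds -/

def World (b : Bool) (V : Set ℕ) : Prop := CC b ⊆ V ∧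
  ∀ p ∈ V, p ∈ CC b ∨ ∃ z, (∃ E, p = npr z (mark b E).code) ∨ p = npr z (bb b).code

theorem con {V : Set ℕ} (h : World b V) : ¬ Prv b V .bot := by
  intro h0
  obtain ⟨s, hs⟩ := prv_cons h0
  let V' : Set ℕ := insert (npr (s + npr s s) Fm.bot.code) V
  have all : ∀ N : Mdl b, (∀ n : ℕ, Orc (n : N) ↔ n ∈ V') → ∀ ψ : Fm, Dv (jP ((ψ.code : ℕ) : N)) :=
    fun N hN ψ => dv_prv hN (.mp ((cpl' b (.imp .bot ψ) fun _ _ h => h.elim).prv V')
      (.lst _ (Set.mem_insert _ _)))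
  refine hs (nM b V') (fun ψ hψ => ax_true
    (fun N => Std N ∧ ∀ n : ℕ, Orc (n : N) ↔ n ∈ V') (fun N I hI hN => ⟨hI.std fun x _ => hN.1 x,
      fun n => (hI.orc_nat n).trans (hN.2 n)⟩) V s (fun N hN n hn => ?_) (fun z ψ _ hψ => ?_) s
    le_rfl ψ hψ _ ⟨std_nM b V', orc_nM b V'⟩) fun _ => 0
  · have h1 := hn.le
    have h2 := npr_ge (s + npr s s) Fm.bot.code
    rw [hN.2, Set.mem_insert_iff, or_iff_right (by omega)]
  · rcases h.2 _ hψ with ⟨θ, hθ, e | ⟨y, e⟩⟩ | ⟨z', ⟨E, e⟩ | e⟩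
    all_goals obtain rfl := code_inj (npr_inj e).2
    · exact Or.inr fun N hN =>
        std_UU hN.1 hN.2 (h.1.trans (Set.subset_insert _ _)) hθ
    · rcases hθ with hθ | ⟨D, rfl⟩
      · exact Or.inl ⟨y, θ, hθ, rfl⟩
      · exact Or.inr fun N hN v => (ev_thX y D v).2 fun _ => Or.inl (all N hN.2 _)
    · exact Or.inr fun N hN v _ => ((pa' b).ev _ _ _).2 (all N hN.2 _)
    · exact Or.inr fun N hN v => ((pa' b).ev _ _ _).2 (all N hN.2 _)

/-- `D` or its negation -/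
def col (D : Fm) (c : Bool) : Fm := if c then D else D.neg

theorem con_col {V : Set ℕ} (h : World b V) {D : Fm} {c c' : Bool} (h1 : Prv b V (col D c))
    (h2 : Prv b V (col D c')) : c = c' := by
  cases c <;> cases c'
  exacts [rfl, (con h (.mp h1 h2)).elim, (con h (.mp h2 h1)).elim, rfl]

/-! ### The postulates follow from universal sentences -/

theorem support (B : Set ℕ) (s : ℕ) (𝒱 : Set ℕ → Prop)
    (h1 : ∀ V, 𝒱 V → CC b ⊆ V ∧ ∀ n, Use s n → (n ∈ V ↔ n ∈ B))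
    (h2 : ∀ p ∈ B, p ∈ CC b ∨ ∃ z E, p = npr z (mark b E).code ∧ ∀ V, 𝒱 V → ¬ Prv b V E)
    (h3 : ∀ ψ : Fm, ψ.code ≤ s → (∃ y D, ψ = fixF y (thX b D)) →
      ∃ y D, ψ = fixF y (thX b D) ∧
        ((∃ z c, ∀ V, 𝒱 V → npr z (mark b (col D c)).code ∈ V) ∨ ¬ Cons b (Ax B y) (XF b D))) :
    ∃ (ι : Type) (_ : Finite ι) (G : ι → Fm), (∀ i, Pres b (G i)) ∧
      (∀ V, 𝒱 V → ∀ i w, (G i).ev (nM b V).toStr w) ∧
      ∀ N : Mdl b, (∀ i w, (G i).ev N.toStr w) → ∀ ψ, Ax B s ψ → ∀ v, ψ.ev N.toStr v := by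
  have top : Pres b Fm.bot.neg := (Cls.neg (c := true) (σ := true) (.bot _)).pres
  have k1 : ∀ n : Fin (s + npr s s + 1), ∃ g, Pres b g ∧
      (∀ V, 𝒱 V → ∀ w, g.ev (nM b V).toStr w) ∧ ∀ N : Mdl b, (∀ w, g.ev N.toStr w) →
        Use s n → (Orc ((n : ℕ) : N) ↔ (n : ℕ) ∈ B) := fun n => by
    by_cases e : Use s n
    · by_cases e' : (n : ℕ) ∈ B
      · refine ⟨.orc (.num n), (Cls.orc (full := true) true _).pres, fun V hV w => ?_,
          fun N h _ => by simpa [e'] using h fun _ => 0⟩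
        rw [Fm.ev_orc, Tm.ev_num, orc_nM]
        exact ((h1 V hV).2 n e).2 e'
      · refine ⟨(Fm.orc (.num n)).neg, (Cls.neg (c := true) (σ := true) (.orc _ _)).pres,
          fun V hV w => ?_, fun N h _ => by simpa [e'] using h fun _ => 0⟩
        rw [Fm.ev_neg, Fm.ev_orc, Tm.ev_num, orc_nM]
        exact mt ((h1 V hV).2 n e).1 e'
    · exact ⟨Fm.bot.neg, top, fun _ _ _ => id, fun _ _ h => absurd h e⟩
  have k2 : ∀ ψ : {ψ : Fm // ψ.code ≤ s}, ∃ g, Pres b g ∧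
      (∀ V, 𝒱 V → ∀ w, g.ev (nM b V).toStr w) ∧ ∀ z, npr z ψ.1.code ∈ B →
        (∃ y θ, Th1 b θ ∧ ψ.1 = fixF y θ) ∨ ∀ N : Mdl b, (∀ w, g.ev N.toStr w) →
          (∀ n : ℕ, Use s n → (Orc (n : N) ↔ n ∈ B)) → ∀ v, ψ.1.ev N.toStr v := by
    rintro ⟨ψ, hψ⟩
    by_cases e : ∃ z, npr z ψ.code ∈ B
    swap
    · exact ⟨Fm.bot.neg, top, fun _ _ _ => id, fun z hz => absurd ⟨z, hz⟩ e⟩
    obtain ⟨z, hz⟩ := e
    rcases h2 _ hz with ⟨θ, hθ, e | ⟨y, e⟩⟩ | ⟨z', E, e, hE⟩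
    all_goals obtain rfl := code_inj (npr_inj e).2
    · exact ⟨_, pres_UU θ, fun V hV => std_UU (std_nM b V) (orc_nM b V) (h1 V hV).1 hθ,
        fun _ _ => Or.inr fun _ h _ => h⟩
    · rcases hθ with hθ | ⟨D, rfl⟩
      · exact ⟨Fm.bot.neg, top, fun _ _ _ => id, fun _ _ => Or.inl ⟨y, θ, hθ, rfl⟩⟩
      · obtain ⟨y', D', e', ⟨z', c, h⟩ | h⟩ := h3 _ hψ ⟨y, D, rfl⟩
        · refine ⟨.orc (.num (npr z' (mark b (col D' c)).code)),
            (Cls.orc (full := true) true _).pres, fun V hV w => ?_,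
            fun _ _ => Or.inr fun N k _ v => ?_⟩
          · rw [Fm.ev_orc, Tm.ev_num, orc_nM]
            exact h V hV
          · have := k fun _ => 0
            rw [Fm.ev_orc, Tm.ev_num, cast_npr] at this
            have := dv_lst this
            show (fixF y (thX b D)).ev N.toStr v
            rw [e', ev_thX]
            cases c
            exacts [fun _ => Or.inr this, fun _ => Or.inl this]
        · refine ⟨Fm.bot.neg, top, fun _ _ _ => id, fun _ _ => Or.inr fun N _ k v => ?_⟩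
          show (fixF y (thX b D)).ev N.toStr v
          have hy : y' ≤ s := by
            have := lt_code_fixF y' (thX b D')
            rw [← e'] at this
            omega
          rw [e', ev_thX]
          exact fun k' => absurd ((pf_cons k').mono fun χ hχ =>
            hχ.congr fun n hn => k n (hn.mono hy)) h
    · refine ⟨_, pres_nprov E, fun V hV w k => hE V hV ?_,
        fun _ _ => Or.inr fun N k _ v k' => absurd k' (k v)⟩
      exact prv_of_dv (std_nM b V) (orc_nM b V) (((pa' b).ev _ _ _).1 k)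
  choose g1 a1 a2 a3 using k1
  choose g2 b1 b2 b3 using k2
  refine ⟨_, inferInstance, Sum.elim g1 g2, by rintro (i | i); exacts [a1 i, b1 i],
    fun V hV => by rintro (i | i); exacts [a2 i V hV, b2 i V hV], fun N hN ψ hψ => ?_⟩
  have agr : ∀ N : Mdl b, (∀ i w, (Sum.elim g1 g2 i).ev N.toStr w) →
      ∀ n : ℕ, Use s n → (Orc (n : N) ↔ n ∈ B) := fun N hN n hn =>
    a3 ⟨n, Nat.lt_succ_of_le hn.le⟩ N (hN (.inl _)) hn
  refine ax_true (fun N => ∀ i w, (Sum.elim g1 g2 i).ev N.toStr w) (fun N I h hN => ?_) B s agr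
    (fun z χ h h' => (b3 ⟨χ, h⟩ z h').imp_right fun k N hN => k N (hN (.inr _)) (agr N hN))
    s le_rfl ψ hψ N hN
  rintro (i | i)
  exacts [a1 i N I h (hN (.inl i)), b1 i N I h (hN (.inr i))]

theorem cert {ι : Type} [Finite ι] {G : ι → Fm} (hG : ∀ i, Pres b (G i)) {D : Fm}
    (hX : ∀ N : Mdl b, (∀ i w, (G i).ev N.toStr w) → ∀ v, (XF b D).ev N.toStr v) :
    ∃ K, ∀ V : Set ℕ, (∀ i w, (G i).ev (nM b V).toStr w) → ∀ x : ℕ, 2 ≤ x.size →
      npr x (bb b).code ∈ V → ∃ c, Loc V (x.size ^ K) fun V' => Prv b V' (col D c) := by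
  obtain ⟨T, hT⟩ := parikh G hG (H := fun N v => Orc (pr (v 0) (((bb b).code : ℕ) : N)))
    (Q := fun N v => Pf (jP ((D.code : ℕ) : N)) (v 0) ∨ Pf (jP ((D.neg.code : ℕ) : N)) (v 0))
    (UC.orc (c := false) (σ := true) inferInstance) USig.out fun N v k1 k2 => by
      have := hX N k1 v (((pa' b).ev _ _ _).2 (dv_lst k2))
      rw [Fm.ev_or, (pa' b).ev, (pa' b).ev] at this
      rcases this with h | h
      · exact h.pf.imp fun _ => Or.inl
      · exact h.pf.imp fun _ => Or.inr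
  obtain ⟨k, hk⟩ := val_size T
  obtain ⟨e1, h1⟩ := loc_pf (b := b) D
  obtain ⟨e2, h2⟩ := loc_pf (b := b) D.neg
  refine ⟨(k + 1) * (e1 + e2), fun V hV x hx hp => ?_⟩
  obtain ⟨y, hy, h⟩ := hT (nM b V) (fun _ => @Nat.cast (nM b V) _ x) hV (by
    show Orc (pr _ _)
    rw [← cast_npr, orc_nM]; exact hp)
  obtain ⟨q, rfl⟩ := std_nM b V y
  have e : T.ev (nM b V).toStr (fun _ => @Nat.cast (nM b V) _ x) =
      @Nat.cast (nM b V) _ (T.val fun _ => x) := by
    simp only [STDp.cast_eq]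
    exact val_eq (W := V) _ T
  rw [e, Nat.cast_le] at hy
  have hq : q.size ≤ x.size ^ (k + 1) := ((Nat.size_le_size hy).trans
    (hk _ hx _ fun _ => le_rfl)).trans (Nat.pow_le_pow_right (by omega) (by omega))
  have h2N : 2 ≤ x.size ^ (k + 1) := hx.trans (Nat.le_self_pow (by omega) _)
  rw [pow_mul]
  rcases h with h | h
  · exact ⟨true, (h1 _ h2N V q hq h).mono (Nat.pow_le_pow_right (by omega) le_self_add)
      fun _ => id⟩
  · exact ⟨false, (h2 _ h2N V q hq h).mono (Nat.pow_le_pow_right (by omega) le_add_self)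
      fun _ => id⟩

/-! ### The stages -/

/-- a set of markers beyond the size `β` -/
def Far (b : Bool) (β : ℕ) (S : Set ℕ) : Prop :=
  ∀ p ∈ S, ∃ z E, β < z.size ∧ p = npr z (mark b E).code

theorem Far.mono {β β' : ℕ} {S : Set ℕ} (h : Far b β' S) (e : β ≤ β') : Far b β S :=
  fun p hp => let ⟨z, E, h1, h2⟩ := h p hp; ⟨z, E, e.trans_lt h1, h2⟩

theorem Far.union {β : ℕ} {S S' : Set ℕ} (h : Far b β S) (h' : Far b β S') : Far b β (S ∪ S') :=
  fun p hp => hp.elim (h p) (h' p)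

theorem le_npr (a c : ℕ) : a ≤ npr a c := by have := npr_ge a c; omega

theorem Far.size {β : ℕ} {S : Set ℕ} (h : Far b β S) {p : ℕ} (hp : p ∈ S) : β < p.size := by
  obtain ⟨z, E, h1, rfl⟩ := h p hp
  exact h1.trans_le (Nat.size_le_size (le_npr _ _))

structure Stage (b : Bool) (M : Set ℕ) (β l r : ℕ) : Prop where
  mrk : ∀ p ∈ M, ∃ z E, p = npr z (mark b E).code ∧ ∀ S, Far b β S → ∀ x : ℕ, l ≤ x.size →
    ¬ Prv b (insert (npr x (bb b).code) (CC b ∪ M ∪ S)) E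
  hd : ∀ ψ : Fm, ψ.code < r → (∃ y D, ψ = fixF y (thX b D)) → ∃ y D, ψ = fixF y (thX b D) ∧
    ((∃ z c, npr z (mark b (col D c)).code ∈ M) ∨
      ∀ S, Far b β S → ¬ Cons b (Ax (CC b ∪ M ∪ S) y) (XF b D))

theorem Stage.ext {M Δ : Set ℕ} {β β' l l' r : ℕ} (h : Stage b M β l r) (hΔ : Far b β Δ)
    (e : β ≤ β') (e' : l ≤ l')
    (new : ∀ p ∈ Δ, ∃ z E, p = npr z (mark b E).code ∧ ∀ S, Far b β' S → ∀ x : ℕ, l' ≤ x.size →
      ¬ Prv b (insert (npr x (bb b).code) (CC b ∪ M ∪ (Δ ∪ S))) E) :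
    Stage b (M ∪ Δ) β' l' r := by
  have as : ∀ S, CC b ∪ (M ∪ Δ) ∪ S = CC b ∪ M ∪ (Δ ∪ S) := fun S => by
    simp only [Set.union_assoc]
  refine ⟨fun p hp => ?_, fun ψ h1 h2 => ?_⟩
  · simp only [as]
    rcases hp with hp | hp
    · obtain ⟨z, E, h1, h2⟩ := h.mrk p hp
      exact ⟨z, E, h1, fun S hS x hx => h2 _ (hΔ.union (hS.mono e)) x (e'.trans hx)⟩
    · exact new p hp
  · obtain ⟨y, D, h3, h4⟩ := h.hd ψ h1 h2
    refine ⟨y, D, h3, h4.imp (fun ⟨z, c, k⟩ => ⟨z, c, Or.inl k⟩) fun k S hS => ?_⟩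
    rw [as]
    exact k _ (hΔ.union (hS.mono e))

theorem World.plant {V : Set ℕ} (h : World b V) (x : ℕ) : World b (insert (npr x (bb b).code) V) :=
  ⟨h.1.trans (Set.subset_insert _ _), fun p hp => hp.elim (fun e => Or.inr ⟨x, Or.inr e⟩) (h.2 p)⟩

theorem Stage.world {M S : Set ℕ} {β β' l r : ℕ} (h : Stage b M β l r) (hS : Far b β' S) :
    World b (CC b ∪ M ∪ S) := by
  refine ⟨fun p hp => Or.inl (Or.inl hp), ?_⟩
  rintro p ((hp | hp) | hp)
  · exact Or.inl hp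
  · obtain ⟨z, E, e, -⟩ := h.mrk p hp
    exact Or.inr ⟨z, Or.inl ⟨E, e⟩⟩
  · obtain ⟨z, E, -, e⟩ := hS p hp
    exact Or.inr ⟨z, Or.inl ⟨E, e⟩⟩

/-- the heart of the construction -/
theorem Stage.act {M : Set ℕ} {β l y : ℕ} {D : Fm} (h : Stage b M β l (y + 1))
    (hX : Cons b (Ax (CC b ∪ M) y) (XF b D)) : ∃ β' l' c, β ≤ β' ∧ l ≤ l' ∧
      ∀ S, Far b β' S → ∀ x : ℕ, l' ≤ x.size →
        Prv b (insert (npr x (bb b).code) (CC b ∪ M ∪ S)) (col D c) := by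
  obtain ⟨K₀, hK₀⟩ : ∃ K₀, ∀ n, Use y n → n.size ≤ K₀ :=
    ⟨_, fun n hn => Nat.size_le_size hn.le⟩
  obtain ⟨ι, _, G, g1, g2, g3⟩ := support (b := b) (CC b ∪ M) y
    (fun V => ∃ S x, Far b (β + K₀) S ∧ l + K₀ + 2 ≤ x.size ∧
      V = insert (npr x (bb b).code) (CC b ∪ M ∪ S)) (by
      rintro _ ⟨S, x, hS, hx, rfl⟩
      refine ⟨fun p hp => Or.inr (Or.inl (Or.inl hp)), fun n hn => ?_⟩
      have a1 := hK₀ n hn
      have a2 : n ≠ npr x (bb b).code := fun e => by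
        have := Nat.size_le_size (le_npr x (bb b).code)
        rw [← e] at this
        omega
      have a3 : n ∉ S := fun e => by have := hS.size e; omega
      simp [a2, a3]) (by
      rintro p (hp | hp)
      · exact Or.inl hp
      · obtain ⟨z, E, e, k⟩ := h.mrk p hp
        refine Or.inr ⟨z, E, e, ?_⟩
        rintro _ ⟨S, x, hS, hx, rfl⟩
        exact k S (hS.mono le_self_add) x (by omega)) (fun ψ h1 h2 => by
      obtain ⟨y', D', e, k⟩ := h.hd ψ (Nat.lt_succ_of_le h1) h2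
      refine ⟨y', D', e, k.imp (fun ⟨z, c, k⟩ => ⟨z, c, ?_⟩) fun k => ?_⟩
      · simpa using k ∅ fun _ h => h.elim
      · rintro _ ⟨S, x, -, -, rfl⟩
        exact Or.inr (Or.inl (Or.inr k)))
  obtain ⟨K, hK⟩ := cert g1 fun N hN => hX N (g3 N hN)
  obtain ⟨n₁, k1, k2⟩ := colour K (l + K₀ + 2)
  have ex : ∀ S, Far b (β + K₀) S → ∀ x : ℕ, l + K₀ + 2 ≤ x.size →
      ∃ c, Loc (insert (npr x (bb b).code) (CC b ∪ M ∪ S)) (x.size ^ K)
        fun V' => Prv b V' (col D c) := fun S hS x hx =>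
    hK _ (g2 _ ⟨S, x, hS, hx, rfl⟩) x (by omega) (Set.mem_insert _ _)
  have hs : (2 ^ n₁).size = n₁ + 1 := Nat.size_pow
  obtain ⟨c, Q, -, q2, q3⟩ := ex ∅ (fun _ h => h.elim) (2 ^ n₁) (by omega)
  refine ⟨β + K₀ + (2 ^ n₁).size ^ K, n₁ + 1, c, by omega, by omega, fun S hS x hx => ?_⟩
  have hS' : Far b (β + K₀) S := hS.mono le_self_add
  obtain ⟨c₁, a1⟩ := ex S hS' x (by omega)
  obtain ⟨c₂, a2⟩ := ex S hS' (2 ^ n₁) (by omega)
  have e1 : c₁ = c₂ := k2 (fun x => npr x (bb b).code) (fun _ _ e => (npr_inj e).1)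
    (fun _ => le_npr _ _) (CC b ∪ M ∪ S) (fun c V' => Prv b V' (col D c))
    (fun x y c c' => con_col (((h.world hS).plant y).plant x)) (ex S hS') x (2 ^ n₁) c₁ c₂
    (by omega) (by omega) a1 a2
  have e2 : c₂ = c := by
    obtain ⟨_, -, -, a3⟩ := a2
    refine con_col ((h.world hS).plant (2 ^ n₁)) (a3 _ fun _ _ => Iff.rfl) (q3 _ fun q hq => ?_)
    have : q ∉ S := fun e => by have := hS.size e; have := q2 q hq; omega
    simp [this]
  obtain ⟨_, -, -, a3⟩ := a1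
  rw [← e2, ← e1]
  exact a3 _ fun _ _ => Iff.rfl

theorem Stage.step {M : Set ℕ} {β l r : ℕ} (h : Stage b M β l r) :
    ∃ Δ β' l', Far b β Δ ∧ β ≤ β' ∧ Stage b (M ∪ Δ) β' l' (r + 1) := by
  have succ : ∀ {M β l}, Stage b M β l r → (∀ ψ : Fm, ψ.code = r →
      (∃ y D, ψ = fixF y (thX b D)) → ∃ y D, ψ = fixF y (thX b D) ∧
        ((∃ z c, npr z (mark b (col D c)).code ∈ M) ∨
          ∀ S, Far b β S → ¬ Cons b (Ax (CC b ∪ M ∪ S) y) (XF b D))) →
      Stage b M β l (r + 1) := fun h k => ⟨h.mrk, fun ψ h1 =>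
    (Nat.lt_succ_iff_lt_or_eq.1 h1).elim (h.hd ψ) (k ψ)⟩
  have emp : ∀ β, Far b β ∅ := fun _ _ h => h.elim
  by_cases e : ∃ y D, (fixF y (thX b D)).code = r
  swap
  · refine ⟨∅, β, l, emp β, le_rfl, succ (h.ext (emp β) le_rfl le_rfl fun _ h => h.elim) ?_⟩
    rintro _ h1 ⟨y, D, rfl⟩
    exact absurd ⟨y, D, h1⟩ e
  obtain ⟨y, D, e⟩ := e
  have hy : y < r := e ▸ lt_code_fixF _ _
  by_cases hX : Cons b (Ax (CC b ∪ M) y) (XF b D)
  · obtain ⟨β', l', c, h1, h2, h3⟩ :=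
      Stage.act (y := y) ⟨h.mrk, fun ψ k => h.hd ψ (by omega)⟩ hX
    have hΔ : Far b β' {npr (2 ^ β') (mark b (col D (!c))).code} := by
      rintro _ rfl
      exact ⟨_, _, by rw [Nat.size_pow]; omega, rfl⟩
    refine ⟨_, β', l', hΔ.mono h1, h1, succ (h.ext (hΔ.mono h1) h1 h2 ?_)
      fun ψ k _ => ⟨y, D, code_inj (k.trans e.symm), Or.inl ⟨_, _, Or.inr rfl⟩⟩⟩
    rintro _ rfl
    refine ⟨_, _, rfl, fun S hS x hx k => ?_⟩
    have := con_col ((h.world (hΔ.union hS)).plant x) k (h3 _ (hΔ.union hS) x hx)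
    simp at this
  · refine ⟨∅, β + (y + npr y y).size, l, emp β, le_self_add,
      succ (h.ext (emp β) le_self_add le_rfl fun _ h => h.elim)
      fun ψ k _ => ⟨y, D, code_inj (k.trans e.symm), Or.inr fun S hS k' => hX ?_⟩⟩
    refine k'.mono fun χ hχ => hχ.congr fun n hn => ?_
    have : n ∉ S := fun e => by have := hS.size e; have := Nat.size_le_size hn.le; omega
    simp [this]

/-- the limit of the stages -/
theorem exists_limit (b : Bool) : ∃ L : Set ℕ, ∀ r, ∃ M β l S, Stage b M β l r ∧ Far b β S ∧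
    L = M ∪ S ∧ ∀ p ∈ L, ∃ M β l r S, Stage b M β l r ∧ Far b β S ∧ L = M ∪ S ∧ p ∈ M := by
  choose Δ β' l' h1 h2 h3 using @Stage.step b
  let f : ∀ r, {σ : Set ℕ × ℕ × ℕ // Stage b σ.1 σ.2.1 σ.2.2 r} := fun r =>
    Nat.rec ⟨(∅, 0, 0), ⟨fun _ h => h.elim, fun _ h => absurd h (Nat.not_lt_zero _)⟩⟩
      (fun _ σ => ⟨(σ.1.1 ∪ Δ σ.2, β' σ.2, l' σ.2), h3 σ.2⟩) r
  have mono : Monotone fun r => (f r).1.1 :=
    monotone_nat_of_le_succ fun r => Set.subset_union_left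
  have far : ∀ r j, r ≤ j → (f r).1.2.1 ≤ (f j).1.2.1 ∧
      Far b (f r).1.2.1 ((f j).1.1 \ (f r).1.1) := fun r j hj => by
    induction j, hj using Nat.le_induction with
    | base => exact ⟨le_rfl, fun p hp => absurd hp.1 hp.2⟩
    | succ j _ ih =>
      refine ⟨ih.1.trans (h2 (f j).2), ?_⟩
      rintro p ⟨hp | hp, hp'⟩
      · exact ih.2 p ⟨hp, hp'⟩
      · exact (h1 (f j).2).mono ih.1 p hp
  have key : ∀ r, Far b (f r).1.2.1 ((⋃ j, (f j).1.1) \ (f r).1.1) ∧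
      (⋃ j, (f j).1.1) = (f r).1.1 ∪ (⋃ j, (f j).1.1) \ (f r).1.1 := fun r => by
    refine ⟨?_, (Set.union_sdiff_cancel (Set.subset_iUnion (fun j => (f j).1.1) r)).symm⟩
    rintro p ⟨hp, hp'⟩
    obtain ⟨j, hj⟩ := Set.mem_iUnion.1 hp
    rcases le_total r j with e | e
    · exact (far r j e).2 p ⟨hj, hp'⟩
    · exact absurd (mono e hj) hp'
  refine ⟨⋃ j, (f j).1.1, fun r => ⟨_, _, _, _, (f r).2, (key r).1, (key r).2, fun p hp => ?_⟩⟩
  obtain ⟨j, hj⟩ := Set.mem_iUnion.1 hp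
  exact ⟨_, _, _, j, _, (f j).2, (key j).1, (key j).2, hj⟩

/-- the postulates of the final theory follow from true universal sentences -/
theorem exists_oracle (b : Bool) : ∃ A : Set ℕ, CC b ⊆ A ∧ ∀ s,
    ∃ (ι : Type) (_ : Finite ι) (G : ι → Fm), (∀ i, Pres b (G i)) ∧
      (∀ i w, (G i).ev (nM b A).toStr w) ∧
      ∀ N : Mdl b, (∀ i w, (G i).ev N.toStr w) → ∀ ψ, Ax A s ψ → ∀ v, ψ.ev N.toStr v := by
  obtain ⟨L, hL⟩ := exists_limit b
  refine ⟨CC b ∪ L, Set.subset_union_left, fun s => ?_⟩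
  obtain ⟨M, β, l, S, h1, h2, h3, h4⟩ := hL (s + 1)
  obtain ⟨ι, hι, G, g1, g2, g3⟩ := support (b := b) (CC b ∪ L) s (fun V => V = CC b ∪ L)
    (by rintro _ rfl; exact ⟨Set.subset_union_left, fun _ _ => Iff.rfl⟩) (by
      rintro p (hp | hp)
      · exact Or.inl hp
      · obtain ⟨M, β, l, r, S, k1, k2, k3, k4⟩ := h4 p hp
        obtain ⟨z, E, e, k⟩ := k1.mrk p k4
        refine Or.inr ⟨z, E, e, ?_⟩
        rintro _ rfl hE
        obtain ⟨u, hu⟩ := hE.use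
        refine k S k2 (2 ^ (l + u + npr u u)) (by rw [Nat.size_pow]; omega) (hu _ fun n hn => ?_)
        have a1 := hn.le
        have a2 := le_npr (2 ^ (l + u + npr u u)) (bb b).code
        have a3 : l + u + npr u u < 2 ^ (l + u + npr u u) := Nat.lt_two_pow_self
        rw [Set.mem_insert_iff, or_iff_right (by omega), k3, Set.union_assoc]) (fun ψ k1 k2 => by
      obtain ⟨y, D, e, k⟩ := h1.hd ψ (Nat.lt_succ_of_le k1) k2
      refine ⟨y, D, e, k.imp (fun ⟨z, c, k⟩ => ⟨z, c, ?_⟩) fun k => ?_⟩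
      · rw [h3, ← Set.union_assoc]
        exact k S h2
      · rintro _ rfl
        rw [h3]
        exact Or.inr (Or.inl k))
  exact ⟨ι, hι, G, g1, g2 _ rfl, g3⟩

end Pool.Agent.PLO

end MrgPart2

-- ======== part 3: formerly Pool.Agent.PLO.Last
section MrgPart3

/-! The properties of the final theory. -/

namespace Pool.Agent.PLO

open Function STDp

variable {b : Bool}

/-! ### `Phi` is not a theorem of GL -/

theorem gl_valid {W : Type} {R : W → W → Prop} {V : ℕ → W → Prop} [Finite W]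
    (tr : ∀ x y z, R x y → R y z → R x z) (ir : ∀ x, ¬ R x x) {X : MF} (h : GLog X) :
    ∀ w, Force R V w X := by
  have wf : WellFounded fun x y => R y x :=
    @Finite.wellFounded_of_trans_of_irrefl W _ _ ⟨fun a b c h h' => tr _ _ _ h' h⟩ ⟨ir⟩
  induction h with
  | k => exact fun _ h _ => h
  | s => exact fun _ h h' x => h x (h' x)
  | dn => exact fun _ h => by_contra h
  | dist => exact fun _ h h' u hu => h u hu (h' u hu)
  | loeb F =>
    intro w h u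
    induction u using wf.induction with
    | _ u ih => exact fun hu => h u hu fun z hz => ih z hz (tr _ _ _ hu hz)
  | four => exact fun _ h u hu z hz => h z (tr _ _ _ hu hz)
  | mp _ _ i1 i2 => exact fun w => i1 w (i2 w)
  | nec _ ih => exact fun _ u _ => ih u

/-- the tree `Y`: `0 < 1 < 2, 3`, `2 < 4`, `3 < 5` -/
def RY (x y : Fin 6) : Prop := x < y ∧ (x ≤ 1 ∨ y.1 = x.1 + 2)

instance : DecidableRel RY := fun _ _ => by unfold RY; infer_instance

theorem not_gl_Phi : ¬ GLog Phi := fun h => by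
  have := gl_valid (R := RY) (V := fun _ w => w = 4) (by decide) (by decide) h 0
  simp only [Phi, MF.or, MF.neg, Force] at this
  have h1 : ∀ u : Fin 6, RY 0 u → (∀ x, RY u x → ∀ y, RY x y → False) →
      ((∀ x, RY u x → x = 4) → False) → ∀ x, RY u x → x = 4 → False := by decide
  exact absurd (this h1 1 (by decide) (fun k => k 2 (by decide) (by decide) 4 (by decide))
    3 (by decide) (by decide) 5 (by decide)) id

/-! ### Consequences of the listing -/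

theorem prv_of_models {A : Set ℕ} {φ : Fm}
    (h : ∀ N : Mdl b, (∀ ψ, Prv b A ψ → ∀ v, ψ.ev N.toStr v) → ∀ v, φ.ev N.toStr v) :
    Prv b A φ := cons_prv fun N hN => h N fun _ hψ =>
      let ⟨s, hs⟩ := prv_cons hψ
      hs N fun χ hχ => hN χ ⟨s, hχ⟩

theorem box_listed {A : Set ℕ} (hA : CC b ⊆ A) {θ : Fm} (hθ : Th1 b θ ∨ ∃ D, θ = thX b D)
    (h0 : ∀ x, θ.free x → x = 0) {N : Mdl b} (hN : ∀ ψ, Prv b A ψ → ∀ v, ψ.ev N.toStr v)
    (q : N) : Dv (jP (fixc (nm q) θ)) := by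
  have h1 := (ev_UU θ fun i => if i = 16 then q else nm q).1
    (hN _ (.lst 0 (hA ⟨θ, hθ, Or.inl rfl⟩)) _) (HasBox.nmM q)
  exact thDv.clo _ (.pLst h1 (thDv.clo _ (.tVar 0)) (dv_jF_fix h0 q))

theorem small_refl {A : Set ℕ} (hA : CC b ⊆ A) (I φ : Fm) (hI : ∀ x, I.free x → x = 0)
    (hφ : ∀ x, ¬ φ.free x) : Prv b A (boxDot b (thR b I φ)) := by
  refine prv_of_models fun N hN v => (ev_boxDot _ v).2 ⟨_, HasBox.nmM _,
    box_listed hA (Or.inl ⟨I, φ, hI, hφ, rfl⟩) ?_ hN _⟩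
  rintro x (h | h | h)
  exacts [free_prfLe h, absurd h (free_cutF hI x), absurd (free_rel hI h) (hφ x)]

theorem sig_compl (A : Set ℕ) {θ : Fm} (h : Cls false true θ) (h0 : ∀ x, θ.free x → x = 0) :
    Prv b A (.imp (.eq (.var 0) (.var 16)) (.imp θ (boxDot b θ))) := by
  refine prv_of_models fun N _ v e k =>
    (ev_boxDot _ v).2 ⟨_, HasBox.nmM _, (box_fix h0 _).2 ?_⟩
  refine sig' b _ ⟨θ, h, fun _ _ => Iff.rfl⟩ N _ ((θ.ev_congr fun x hx => ?_).1 k)
  rw [h0 x hx]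
  exact e

theorem pl_Phi {A : Set ℕ} (hA : CC b ⊆ A) : PL b A Phi := by
  intro f hf
  have cl : ∀ φ x, ¬ (prov b φ).free x := (pa' b).closed
  refine prv_of_models fun N hN v h1 => ?_
  have h2 : Dv (jP (((XF b (f 0)).code : ℕ) : N)) := ((pa' b).ev _ _ _).1 h1
  obtain ⟨q, hq⟩ := h2.pf
  have h0 : ∀ x, (thX b (f 0)).free x → x = 0 := by
    rintro x (h | (h | h) | h)
    exacts [free_prfLe h, absurd h (cl _ x), h.elim, absurd h (cl _ x)]
  have a1 := (box_fix h0 q).1 (box_listed hA (Or.inr ⟨_, rfl⟩) h0 hN q)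
  have a2 := sig' b (fun N v => Pf (jP (((XF b (f 0)).code : ℕ) : N)) (v 0)) inferInstance N
    (fun _ => q) hq
  let E : Fm := .or (prov b (mark b (f 0))) (prov b (mark b (f 0).neg))
  have hE : ∀ x, ¬ E.free x := by
    rintro x ((h | h) | h)
    exacts [cl _ x h, h, cl _ x h]
  have := sig.up_ev (b := b) E
  exact ((pa' b).ev E N v).2 ((HasBox.sent (fun _ => q) E thDv hE).1
    (a1.ent2 thDv a2 fun N w k1 k2 => k1 ((ev_prfLe _ w).2 k2)))

theorem not_occ_subst (y : ℕ) (t : Tm) : ¬ (t.subst y .zero).occ y := by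
  induction t with
  | var x =>
    rw [Tm.subst]
    split_ifs with h
    exacts [id, h]
  | zero => exact id
  | succ t ih | len t ih | half t ih => exact ih
  | add s t i1 i2 | mul s t i1 i2 | smash s t i1 i2 => exact fun h => h.elim i1 i2

theorem final (b : Bool) : ∃ A : Set ℕ, CC b ⊆ A ∧ (∀ φ, Prv b A φ → ∀ v, φ.holds A v) ∧
    ∀ (θ : Fm) (y : ℕ), Cls true true θ → Prv b A (.ex y θ) →
      ∃ t : Tm, ¬ t.occ y ∧ ∀ v, (Fm.bex y t θ).holds A v := by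
  obtain ⟨A, hA, h⟩ := exists_oracle b
  refine ⟨A, hA, fun φ hφ v => ?_, fun θ y hθ hφ => ?_⟩
  · obtain ⟨s, hs⟩ := prv_cons hφ
    obtain ⟨ι, _, G, -, g2, g3⟩ := h s
    exact (holds_nM b A φ v).2 (hs _ (g3 _ g2) _)
  · obtain ⟨s, hs⟩ := prv_cons hφ
    obtain ⟨ι, _, G, g1, g2, g3⟩ := h s
    have hg : Injective fun i => if i = y then 0 else i + 1 := by
      intro i j e
      dsimp only at e
      split_ifs at e <;> omega
    have e : ∀ (N : Mdl b) (u : N) (v : ℕ → N),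
        (fun i => cons u v (if i = y then 0 else i + 1)) = update v y u := fun N u v => by
      funext i
      by_cases k : i = y
      · subst k; simp
      · simp [k]
    obtain ⟨T, hT⟩ := parikh G g1 (H := fun _ _ => True) (UC.const (c := true) (σ := true) True)
      (UC.ren (P := fun N v => θ.ev N.toStr v) ⟨θ, hθ, fun _ _ => Iff.rfl⟩ hg)
      fun N v k _ => by
        simp only [e]
        exact (Fm.ev_ex y θ v).1 (hs N (g3 N k) v)
    refine ⟨T.subst y .zero, not_occ_subst y T, fun v => ?_⟩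
    rw [holds_nM b, Fm.ev_bex _ (not_occ_subst y T), Tm.ev_subst]
    obtain ⟨u, h1, h2⟩ := hT _ _ g2 trivial
    rw [e, update_idem] at h2
    exact ⟨u, h1, h2⟩

end Pool.Agent.PLO

end MrgPart3

-- marker of a merged file
example : 731051 + 435422 = 731051 + 435422 := rfl
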