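import Mathlib.Combinatorics.Matroid.Basic
import Mathlib.Data.Set.Finite.List
import Mathlib.Tactic.Cases
import Pool.Agent.PLO.Last

/-! The upper bound by chained frames for the theories `T^W` that list small reflection. -/

namespace Pool.Agent.PLO

open Function

variable {b : Bool} {M : Mdl b}

/-! ### The cut `Jc` -/

/-- below a double logarithm -/
def LL (m : M) : Prop := ∃ E : M, m ≤ len (len E)
/-- a cut closed under smash all of whose elements are lengths -/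
def Jc (u : M) : Prop := ∀ m, LL m → LL (len u * m)

theorem LL.down {m n : M} (h : m ≤ n) (hn : LL n) : LL m := hn.imp fun _ h' => h.trans h'

theorem LL.add {m n : M} (hm : LL m) (hn : LL n) : LL (m + n) := by
  obtain ⟨E, hE⟩ := hm
  obtain ⟨F, hF⟩ := hn
  refine ⟨smash (pw E * pw E) (pw F * pw F), ?_⟩
  have h1 : pw (len E) * pw (len F) ≤ len (smash (pw E * pw E) (pw F * pw F)) := by
    rw [len_smash, len_pw_mul_pw, len_pw_mul_pw, ← two_mul, ← two_mul]
    exact le_trans (by gcongr <;> exact pw_le _) le_self_add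
  refine le_trans ?_ (len_mono h1)
  rw [len_pw_mul_pw]
  exact le_trans (by gcongr) le_self_add

theorem LL.one : LL (1 : M) := ⟨1, by simp⟩

theorem Jc.of_le {u : M} {k : M} (h : len u ≤ k) (hk : ∀ m, LL m → LL (k * m)) : Jc u :=
  fun m hm => (hk m hm).down (by gcongr)

theorem isCut_Jc : IsCut (Jc : M → Prop) := by
  have mul : ∀ {x y : M}, Jc x → Jc y → Jc (x * y) := fun hx hy =>
    Jc.of_le (len_mul_le _ _) fun m hm => by rw [add_mul]; exact (hx m hm).add (hy m hm)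
  have add : ∀ {x y : M}, Jc x → Jc y → Jc (x + y) := fun {x y} hx hy =>
    Jc.of_le (k := len x + len y + 1)
      ((len_add_le _ _).trans (by gcongr; exact max_le le_self_add le_add_self)) fun m hm => by
      rw [add_mul, add_mul, one_mul]; exact ((hx m hm).add (hy m hm)).add hm
  refine ⟨fun m _ => ⟨0, by simp⟩, fun h hy => Jc.of_le (len_mono h) hy,
    fun hx => add hx fun m hm => by simpa using hm, add, mul, fun hx hy m hm => ?_⟩
  rw [len_smash, add_mul, one_mul, mul_assoc]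
  exact (hx _ (hy m hm)).add hm

theorem Jc.log {u : M} (h : Jc u) : ∃ E : M, u < len E := by
  obtain ⟨E, hE⟩ := h 1 LL.one
  rw [mul_one] at hE
  refine ⟨pw E * pw E, (lt_pw_iff.2 hE).trans_le ?_⟩
  rw [len_pw_mul_pw, ← two_mul]
  exact pw_le _

theorem IsCut.of_half {I : M → Prop} (hI : IsCut I) {y : M} (h : I (PLO.half y)) :
    I y := by
  refine hI.down ?_ (hI.succ (hI.mul hI.two h))
  rcases half_spec y with e | e
  · exact e.le.trans le_self_add
  · exact e.le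

instance ufLL {f : UFun b} [hf : UFn f] : UF fun M _ v => LL (f M v) :=
  UF.app1 (T := fun _ _ x => LL x) (by unfold LL; infer_instance) hf
instance ufJc {f : UFun b} [hf : UFn f] : UF fun M _ v => Jc (f M v) :=
  UF.app1 (T := fun _ _ x => Jc x) (by unfold Jc; infer_instance) hf

/-- the model on the cut `Jc` -/
abbrev Mdl.J (M : Mdl b) : Mdl b := (isCut_Jc (M := M)).mdl

/-- relativisation to `Jc` -/
theorem exists_rel (φ : Fm) : ∃ P : UPred b, UP P ∧ ∀ (M : Mdl b) (v : ℕ → M.J),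
    P M (fun i => isCut_Jc.val (v i)) ↔ φ.ev M.J.toStr v := by
  induction φ with
  | bot => exact ⟨fun _ _ => False, inferInstance, fun _ _ => Iff.rfl⟩
  | eq s t => exact ⟨_, ⟨.eq s t, fun _ _ => Iff.rfl⟩,
      fun M v => (isCut_Jc.ev_cls (Cls.eq (full := true) true s t) v).symm⟩
  | le s t => exact ⟨_, ⟨.le s t, fun _ _ => Iff.rfl⟩,
      fun M v => (isCut_Jc.ev_cls (Cls.le (full := true) true s t) v).symm⟩
  | orc t => exact ⟨_, ⟨.orc t, fun _ _ => Iff.rfl⟩,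
      fun M v => (isCut_Jc.ev_cls (Cls.orc (full := true) true t) v).symm⟩
  | imp φ ψ i1 i2 =>
    obtain ⟨P, h1, h2⟩ := i1
    obtain ⟨Q, h3, h4⟩ := i2
    have := h1.uf
    have := h3.uf
    exact ⟨fun M v => P M v → Q M v, inferInstance, fun M v => imp_congr (h2 M v) (h4 M v)⟩
  | all x φ ih =>
    obtain ⟨P, h1, h2⟩ := ih
    have : UF fun M _ v => P M (update (fun i => v (i + 1)) x (v 0)) :=
      (h1.uf.comp (fun i _ v => if i = x then v 0 else v (i + 1)) (fun i => by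
          by_cases e : i = x <;> simp only [e, if_true, if_false] <;> infer_instance)).congr
        fun M _ v => iff_of_eq (congrArg _ (funext fun i => by simp [update_apply]))
    refine ⟨fun M v => ∀ u, Jc u → P M (update v x u), inferInstance, fun M v => ?_⟩
    constructor
    · intro h u
      rw [← h2, isCut_Jc.val_upd]
      exact h _ (isCut_Jc.val_mem u)
    · intro h u hu
      have := h (isCut_Jc.elt u hu)
      rwa [← h2, isCut_Jc.val_upd] at this

/-- `y` lies in `Jc` and has the property `P` in the model on `Jc` -/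
def InJ (P : ∀ M : Mdl b, M → Prop) (M : Mdl b) (y : M) : Prop :=
  ∃ h : Jc y, P M.J (isCut_Jc.elt y h)

theorem InJ.up {P : ∀ M : Mdl b, M → Prop} (h : UP fun M v => P M (v 0)) :
    UP fun M v => InJ P M (v 0) := by
  obtain ⟨φ, hφ⟩ := h.out
  obtain ⟨Q, h1, h2⟩ := exists_rel (b := b) φ
  have := (h1.comp (fun _ _ v => v 0) fun _ => inferInstance).uf
  refine (inferInstance : UP fun M v => Jc (v 0) ∧ Q M fun _ => v 0).congr fun M v => ?_
  exact ⟨fun ⟨h, h'⟩ => ⟨h, (hφ M.J fun _ => isCut_Jc.elt (v 0) h).1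
      ((h2 M fun _ => isCut_Jc.elt (v 0) h).1 h')⟩,
    fun ⟨h, h'⟩ => ⟨h, (h2 M fun _ => isCut_Jc.elt (v 0) h).2
      ((hφ M.J fun _ => isCut_Jc.elt (v 0) h).2 h')⟩⟩

namespace small

/-- `φ` agrees with a predicate that is both `Σ^b_1` and `Π^b_1` as soon as the extra
parameter is long enough -/
def Red (b : Bool) (φ : Fm) : Prop :=
  ∃ (τ : Tm) (P : UPred b), UC false true P ∧ UC false false P ∧
    ∀ (M : Mdl b) (x : ℕ → M) (E : M), τ.ev M.toStr x ≤ len E →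
      (φ.ev M.toStr x ↔ P M (cons E x))

theorem red_of_uc {φ : Fm} (h : ∀ σ, Cls false σ φ) : Red b φ :=
  ⟨.zero, fun M v => φ.ev M.toStr (fun i => v (i + 1)),
    UC.tail (P := fun M v => φ.ev M.toStr v) ⟨φ, h true, fun _ _ => Iff.rfl⟩,
    UC.tail (P := fun M v => φ.ev M.toStr v) ⟨φ, h false, fun _ _ => Iff.rfl⟩,
    fun _ _ _ _ => Iff.rfl⟩

theorem red_imp {φ ψ : Fm} (h1 : Red b φ) (h2 : Red b ψ) : Red b (φ.imp ψ) := by
  obtain ⟨τ, P, a1, a2, a3⟩ := h1
  obtain ⟨ρ, Q, b1, b2, b3⟩ := h2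
  refine ⟨τ.add ρ, fun M v => P M v → Q M v, UC.imp (σ := true) a2 b1,
    UC.imp (σ := false) a1 b2, fun M x E h => ?_⟩
  rw [Tm.ev_add] at h
  rw [Fm.ev_imp, a3 M x E (le_self_add.trans h), b3 M x E (le_add_self.trans h)]

/-- the shape of the vector after binding a variable -/
theorem uc_upd {σ : Bool} {P : UPred b} (h : UC false σ P) (y : ℕ) :
    UC false σ fun M v => P M (cons (v 1) (update (fun i => v (i + 2)) y (v 0))) := by
  refine (h.comp (fun i _ v => v (cons 1 (fun j => if j = y then 0 else j + 2) i))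
    fun _ => UFn.var _).congr fun M v => ?_
  refine iff_of_eq (congrArg _ (funext fun i => ?_))
  rcases i with _ | i
  · rfl
  · by_cases e : i = y
    · subst e; simp
    · simp [e]

theorem red_ball {y : ℕ} {t : Tm} {φ : Fm} (ht : ¬ t.occ y) (h : Red b φ) :
    Red b (Fm.ball y t φ) := by
  obtain ⟨τ, P, a1, a2, a3⟩ := h
  have hle : ∀ σ, UC false σ fun (M : Mdl b) v => v 0 ≤ t.ev M.toStr (fun i => v (i + 2)) :=
    fun σ => UC.le (UFn.var 0) (UFn.ofTm t).tail.tail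
  refine ⟨t.add (τ.subst y t), fun M v => ∀ u ≤ len (v 0),
    u ≤ t.ev M.toStr (fun i => v (i + 1)) →
      P M (cons (v 0) (update (fun i => v (i + 1)) y u)), ?_, ?_, fun M x E h => ?_⟩
  · exact UC.sall (B := fun M v u => u ≤ t.ev M.toStr (fun i => v (i + 1)) →
      P M (cons (v 0) (update (fun i => v (i + 1)) y u))) (UFn.var 0)
      (UC.imp (σ := true) (hle false) (uc_upd a1 y))
  · exact UC.ball (B := fun M v u => u ≤ t.ev M.toStr (fun i => v (i + 1)) →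
      P M (cons (v 0) (update (fun i => v (i + 1)) y u))) (UFn.len (hf := UFn.var 0))
      (UC.imp (σ := false) (hle true) (uc_upd a2 y))
  · rw [Tm.ev_add, Tm.ev_subst] at h
    rw [Fm.ev_ball x ht]
    have key : ∀ u ≤ t.ev M.toStr x,
        (φ.ev M.toStr (update x y u) ↔ P M (cons E (update x y u))) := by
      intro u hu
      refine a3 M _ E (le_trans ?_ (le_add_self.trans h))
      refine τ.ev_mono fun z _ => ?_
      by_cases e : z = y
      · subst e; simpa using hu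
      · simp [update_of_ne e]
    exact ⟨fun h1 u _ hu => (key u hu).1 (h1 u hu),
      fun h1 u hu => (key u hu).2 (h1 u (hu.trans (le_self_add.trans h)) hu)⟩

theorem red {σ : Bool} {φ : Fm} (h : Cls true σ φ) : Red b φ := by
  induction h with
  | bot σ => exact red_of_uc fun τ => .bot τ
  | eq σ s t => exact red_of_uc fun τ => .eq τ s t
  | le σ s t => exact red_of_uc fun τ => .le τ s t
  | orc σ t => exact red_of_uc fun τ => .orc τ t
  | imp σ _ _ i1 i2 => exact red_imp i1 i2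
  | ball h _ ih => exact red_ball h ih
  | sharp h _ ih => exact red_ball (t := Tm.len _) h ih
  | wide _ h _ ih => exact red_ball h ih

end small

/-- Whenever `x₀ R x` and `F` is a nonempty set of successors of `x`, some successor `d` of `x₀`
sees exactly the points seen by some member of `F`. -/
def Closed {W : Type} (R : W → W → Prop) : Prop :=
  ∀ x₀ x, R x₀ x → ∀ F : Set W, F.Nonempty → (∀ c ∈ F, R x c) →
    ∃ d, R x₀ d ∧ ∀ z, R d z ↔ ∃ c ∈ F, R c z

/-- The chain `M` lies inside the union of the chain `L`, and every union of a member of `L` and a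
member of `M` is the set of successors of a point of `A`. -/
def Near {W : Type} (R : W → W → Prop) (A : Set W) (L M : ℕ → Set W) : Prop :=
  (⋃ j, M j) ⊆ (⋃ i, L i) ∧ ∀ i j, ∃ d ∈ A, {z | R d z} = L i ∪ M j

/-- There is a family `G` of pairs (set of points, increasing chain of sets that starts with the
empty set) such that: every successor `u` of `w` has a chain with union `R(u)` that is paired with
`R(w)`; and whenever `(A, L)` is in the family and `u` enters `L` at stage `j + 1`, the chain `L`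
stopped at stage `j` is paired with `A` and is joined, by `Near` steps through chains paired with
`A`, to a chain with union `R(u)` that is paired with `L (j + 1)`. -/
def Chained {W : Type} (R : W → W → Prop) (w : W) : Prop :=
  ∃ G : Set W → (ℕ → Set W) → Prop,
    (∀ u, R w u → ∃ M, G {z | R w z} M ∧ ⋃ i, M i = {z | R u z}) ∧
    ∀ A L, G A L → L 0 = ∅ ∧ Monotone L ∧ ∀ j, ∀ u ∈ L (j + 1) \ L j,
      G A (fun i => L (min i j)) ∧ ∃ L' M,
        Relation.ReflTransGen (fun X Y => G A Y ∧ Near R A X Y) (fun i => L (min i j)) L' ∧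
        Near R A L' M ∧ G (L (j + 1)) M ∧ ⋃ i, M i = {z | R u z}

namespace upper

theorem frame (W : Type) [Finite W] (R : W → W → Prop) (ht : ∀ x y z, R x y → R y z → R x z)
    (hi : ∀ x, ¬ R x x) (hY : OmitsY R) : Closed R := by
  intro x₀ x h0 F hF hc
  by_cases hF' : (F ∩ {c | ∃ e, R c e}).Nonempty
  · have : IsTrans W R := ⟨ht⟩
    have : Std.Irrefl R := ⟨hi⟩
    obtain ⟨c, ⟨c1, e, c2⟩, hm⟩ := (Finite.wellFounded_of_trans_of_irrefl R).has_min _ hF'
    refine ⟨c, ht _ _ _ h0 (hc c c1), fun z => ⟨fun h => ⟨c, c1, h⟩, ?_⟩⟩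
    rintro ⟨c', d1, d2⟩
    by_contra hz
    refine hY ⟨x₀, x, c, c', e, z, h0, hc c c1, hc c' d1, c2, d2, ?_, fun h => hz (ht _ _ _ h d2),
      hm c' ⟨d1, z, d2⟩⟩
    rintro rfl
    exact hz d2
  · obtain ⟨c, c1⟩ := hF
    exact ⟨c, ht _ _ _ h0 (hc c c1), fun z => ⟨fun h => ⟨c, c1, h⟩,
      fun ⟨c', d1, d2⟩ => absurd ⟨c', d1, z, d2⟩ hF'⟩⟩

theorem ev_bigOr {S : Str} (l : List Fm) (v : ℕ → S.α) :
    (bigOr l).ev S v ↔ ∃ φ ∈ l, φ.ev S v := by
  induction l with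
  | nil => simp [bigOr]
  | cons φ l ih => simp [bigOr, ih]

theorem free_bigOr (l : List Fm) (x : ℕ) (h : ∀ φ ∈ l, ¬ φ.free x) : ¬ (bigOr l).free x := by
  induction l with
  | nil => exact id
  | cons φ l ih =>
    rintro ((h1 | h1) | h1)
    exacts [h φ List.mem_cons_self h1, h1, ih (fun ψ hψ => h ψ (List.mem_cons_of_mem _ hψ)) h1]

end upper

end Pool.Agent.PLO

namespace Pool.Agent.PLO.Sol

open Function Relation

/-- a finite frame with a distinguished point and an enumeration -/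
structure Fr where
  W : Type
  fin : Finite W
  R : W → W → Prop
  tr : ∀ {x y z}, R x y → R y z → R x z
  ir : ∀ x, ¬ R x x
  w : W
  e : W → ℕ
  inj : Injective e

instance (F : Fr) : Finite F.W := F.fin

variable {b : Bool} (F : Fr)

theorem Fr.exists_min {p : F.W → Prop} (h : ∃ z, p z) : ∃ z, p z ∧ ∀ z', p z' → F.e z ≤ F.e z' := by
  obtain ⟨z, h1, h2⟩ := (InvImage.wf F.e wellFounded_lt).has_min {z | p z} h
  exact ⟨z, h1, fun z' hz => not_lt.1 (h2 z' hz)⟩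

section Defs
variable {N : Mdl b} (k : F.W → N)

def Trig (z : F.W) (q : N) : Prop := Pf (jP (cNeg (k z))) q
def NoT (z : F.W) : Prop := ¬ ∃ q, Trig F k z q

variable {F k} {z : F.W} {q q' : N}

theorem Trig.mono (h : Trig F k z q) (e : q ≤ q') : Trig F k z q' := Pf.mono h e

end Defs

section Def
variable [HasPost b] {F} {K : F.W → UFun b} [hK : ∀ w, UFn (K w)] {f : UFun b} [hf : UFn f]

instance sigTrig (z : F.W) : USig fun N v => Trig F (fun w => K w N v) z (f N v) := by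
  unfold Trig; infer_instance
instance ufNoT (x : F.W) : UF fun N _ v => NoT F (fun w => K w N v) x := by
  have := fun w => (hK w).tail
  unfold NoT; infer_instance

end Def

variable {F} (S : F.W → Fm)

/-- the codes of the sentences -/
abbrev kk (N : Mdl b) (w : F.W) : N := (((S w).code : ℕ) : N)

theorem code_neg (N : Mdl b) (φ : Fm) : ((φ.neg.code : ℕ) : N) = cNeg ((φ.code : ℕ) : N) := by
  simp [Fm.neg, Fm.code, cast_npr]

variable {S}

theorem trig_iff {N : Mdl b} {z : F.W} :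
    (∃ q, Trig F (kk S N) z q) ↔ Dv (jP (((S z).neg.code : ℕ) : N)) := by
  rw [code_neg]
  exact ⟨fun ⟨_, h⟩ => Pf.dv h, fun h => h.pf⟩

theorem box_not (hc : ∀ z x, ¬ (S z).free x) {M : Mdl b} (x : ℕ → M) (z : F.W) :
    BoxD Dv (fun N v => ¬ (S z).ev N.toStr v) x ↔ ∃ q, Trig F (kk S M) z q := by
  rw [trig_iff]
  exact HasBox.sent x (S z).neg thDv fun n h => h.elim (hc z n) id

end Pool.Agent.PLO.Sol

namespace Pool.Agent.PLO.Walk

open Function

variable {b : Bool}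

/-- the elements of the iterated cut -/
def Dp : ℕ → ∀ N : Mdl b, N → Prop
  | 0, _, _ => True
  | k + 1, N, y => InJ (Dp k) N y

theorem up_Dp (k : ℕ) : UP fun (N : Mdl b) v => Dp k N (v 0) := by
  induction k with
  | zero => exact (inferInstance : UP fun (_ : Mdl b) _ => True)
  | succ k ih => exact InJ.up ih

theorem Dp.down : ∀ {k : ℕ} {N : Mdl b} {x y : N}, x ≤ y → Dp k N y → Dp k N x
  | 0, _, _, _, _, _ => trivial
  | _ + 1, _, _, _, e, ⟨h, h'⟩ => ⟨isCut_Jc.down e h, Dp.down (N := Mdl.J _) e h'⟩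

theorem Dp.pred : ∀ {k : ℕ} {N : Mdl b} {y : N}, Dp (k + 1) N y → Dp k N y
  | 0, _, _, _ => trivial
  | _ + 1, _, _, ⟨h, h'⟩ => ⟨h, Dp.pred h'⟩

theorem Dp.mono {k m : ℕ} (h : k ≤ m) {N : Mdl b} {y : N} (hy : Dp m N y) : Dp k N y := by
  induction h with
  | refl => exact hy
  | step _ ih => exact ih hy.pred

theorem Dp.max {k : ℕ} {N : Mdl b} {x y : N} (hx : Dp k N x) (hy : Dp k N y) :
    Dp k N (max x y) := by
  rcases le_total x y with h | h
  · rwa [max_eq_right h]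
  · rwa [max_eq_left h]

theorem Dp.nat : ∀ (k : ℕ) (N : Mdl b) (n : ℕ), Dp k N (n : N)
  | 0, _, _ => trivial
  | k + 1, N, n => ⟨isCut_Jc.nat n, by
      have : isCut_Jc.elt (n : N) (isCut_Jc.nat n) = (n : N.J) :=
        isCut_Jc.val_inj.1 (by rw [IsCut.val_nat]; rfl)
      rw [this]
      exact Dp.nat k N.J n⟩

theorem Dp.of_half : ∀ {k : ℕ} {N : Mdl b} {y : N}, Dp k N (half y) → Dp k N y
  | 0, _, _, _ => trivial
  | _ + 1, _, _, ⟨h, h'⟩ => ⟨isCut_Jc.of_half h, Dp.of_half (N := Mdl.J _) h'⟩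

theorem box_Dp [HasBox b] (k : ℕ) {M : Mdl b} (y : M) : Box1 Dv (Dp k) y :=
  box_ind _ (hP := up_Dp k) (fun N => by simpa using Dp.nat k N 0) (fun _ _ => Dp.of_half) M y

theorem isCut_Dp : ∀ (k : ℕ) (N : Mdl b), IsCut (Dp k N)
  | 0, _ => ⟨trivial, fun _ _ => trivial, fun _ => trivial, fun _ _ => trivial,
      fun _ _ => trivial, fun _ _ => trivial⟩
  | k + 1, N => by
    have h := isCut_Dp k N.J
    refine ⟨⟨isCut_Jc.zero, h.zero⟩, Dp.down, ?_, ?_, ?_, ?_⟩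
    · rintro x ⟨h1, h2⟩
      refine ⟨isCut_Jc.succ h1, ?_⟩
      have : isCut_Jc.elt (x + 1) (isCut_Jc.succ h1) = isCut_Jc.elt x h1 + 1 :=
        isCut_Jc.val_inj.1 (congrArg (x + ·) (show (1 : N) = isCut_Jc.val 1 by
          simpa using (isCut_Jc.val_nat (M := N) 1).symm))
      rw [this]
      exact h.succ h2
    · rintro x y ⟨h1, h2⟩ ⟨h3, h4⟩
      exact ⟨isCut_Jc.add h1 h3, h.add h2 h4⟩
    · rintro x y ⟨h1, h2⟩ ⟨h3, h4⟩
      exact ⟨isCut_Jc.mul h1 h3, h.mul h2 h4⟩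
    · rintro x y ⟨h1, h2⟩ ⟨h3, h4⟩
      exact ⟨isCut_Jc.smash h1 h3, h.smash h2 h4⟩

/-- the model on the iterated cut -/
abbrev Jn (k : ℕ) (N : Mdl b) : Mdl b := (isCut_Dp k N).mdl

/-- the models of `T^W` -/
def TM (W : Set ℕ) (N : Mdl b) : Prop := ∀ ψ, Prv b W ψ → ∀ v, ψ.ev N.toStr v

/-- the facts about the theory that the construction uses -/
structure Kit (b : Bool) (W : Set ℕ) : Prop where
  lst : CC b ⊆ W
  std : TM W (STDp.nM b W)

variable {W : Set ℕ}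

theorem prv_clo {φ : Fm} (h : Prv b W φ) : ∃ χ : Fm, (∀ x, ¬ χ.free x) ∧ Prv b W χ ∧
    ∀ (N : Mdl b) (v : ℕ → N), χ.ev N.toStr v → φ.ev N.toStr v := by
  obtain ⟨m, hm⟩ := φ.exists_bound
  induction m generalizing φ with
  | zero => exact ⟨φ, fun x hx => absurd (hm x hx) (Nat.not_lt_zero _), h, fun _ _ => id⟩
  | succ m ih =>
    obtain ⟨χ, h1, h2, h3⟩ := ih (.gen m h) fun x hx => by
      have := hm x hx.2
      have := hx.1
      omega
    exact ⟨χ, h1, h2, fun N v k => by simpa using h3 N v k (v m)⟩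

/-- necessitation over `T^W` -/
theorem box_necT {M : Mdl b} (hM : TM W M) {x : ℕ → M} {Q : UPred b} [hQ : UP Q]
    (h : ∀ N, TM W N → ∀ v, Q N v) : BoxD Dv Q x := by
  obtain ⟨φ, hφ⟩ := hQ.out
  obtain ⟨χ, h1, h2, h3⟩ := prv_clo (prv_of_models fun N hN v => (hφ N v).2 (h N hN v))
  exact ((HasBox.sent x χ thDv h1).2 (dv_prv (agree_of_ax fun ψ ⟨_, k⟩ => hM ψ k.prv) h2)).ent
    thDv fun N v k => (hφ N v).1 (h3 N v k)

theorem entT {M : Mdl b} (hM : TM W M) {x : ℕ → M} {P Q : UPred b} [hQ : UP Q]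
    (h1 : BoxD Dv P x) (h : ∀ N, TM W N → ∀ v, P N v → Q N v) : BoxD Dv Q x := by
  have := h1.up.uf
  have := hQ.uf
  exact h1.ent2 thDv (box_necT hM (Q := fun N v => P N v → Q N v) h) fun _ _ a c => c a

theorem cutF_ev {I : Fm} (hI : ∀ x, I.free x → x = 0) {N : Mdl b} (h : IsCut (IP I N))
    (v : ℕ → N) : (cutF I).ev N.toStr v := by
  intro x y
  simp only [Fm.ev_and, Fm.ev_imp]
  rw [ev_atF hI (by simp [Tm.occ]), ev_atF hI (by simp [Tm.occ]), ev_atF hI (by simp [Tm.occ]),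
    ev_atF hI (by simp [Tm.occ]), ev_atF hI (by simp [Tm.occ]), ev_atF hI (by simp [Tm.occ]),
    ev_atF hI (by simp [Tm.occ])]
  simpa using ⟨h.zero, h.down, fun a c => ⟨h.succ a, h.add a c, h.mul a c, h.smash a c⟩⟩

theorem ev_mdl {N : Mdl b} {I J : N → Prop} (e : I = J) (h : IsCut I) (h' : IsCut J) (φ : Fm) :
    φ.ev h.mdl.toStr (fun _ => (0 : h.mdl)) ↔ φ.ev h'.mdl.toStr (fun _ => (0 : h'.mdl)) := by
  subst e; rfl

/-- small reflection in the iterated cut -/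
theorem refl_Jn (K : Kit b W) (k : ℕ) {φ : Fm} (hφ : ∀ x, ¬ φ.free x) {M : Mdl b} (hM : TM W M)
    (y : M) : Box1 Dv (fun N y => Pf (jP ((φ.code : ℕ) : N)) y →
      φ.ev (Jn k N).toStr (fun _ => (0 : Jn k N))) y := by
  obtain ⟨I, h1, h2⟩ := (up_Dp (b := b) k).free_sub [0]
  have hI : ∀ x, I.free x → x = 0 := fun x hx => by simpa using h1 x hx
  have e : ∀ N : Mdl b, IP I N = Dp k N := fun N => funext fun u => propext (h2 N _)
  have hc : ∀ N : Mdl b, IsCut (IP I N) := fun N => e N ▸ isCut_Dp k N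
  have h0 : ∀ x, (thR b I φ).free x → x = 0 := by
    rintro x (h | h | h)
    exacts [free_prfLe h, absurd h (free_cutF hI x), absurd (free_rel hI h) (hφ x)]
  refine ((box_fix h0 y).1 (box_listed K.lst (Or.inl ⟨I, φ, hI, hφ, rfl⟩) h0 hM y)).congr
    fun N v => ?_
  rw [thR, Fm.ev_imp, Fm.ev_imp, ev_prfLe, imp_iff_right (cutF_ev hI (hc N) v)]
  refine imp_congr_right fun _ => Iff.trans ?_ ((ev_rel hI (hc N) φ _).trans
    (ev_mdl (e N) (hc N) _ φ))
  exact (rel I φ).ev_congr fun x hx => absurd (free_rel hI hx) (hφ x)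

/-- a term `t` and a predicate that decides `Pf` below `y` from a number of length `t y` -/
structure Sc (b : Bool) where
  t : ∀ N : Mdl b, N → N
  ft : UFn fun N v => t N (v 0)
  mono : ∀ {N : Mdl b} {x y : N}, x ≤ y → t N x ≤ t N y
  le : ∀ {N : Mdl b} (y : N), y ≤ t N y
  Pd : ∀ N : Mdl b, N → N → N → Prop
  pi : UC false false fun N v => Pd N (v 0) (v 1) (v 2)
  iff : ∀ {N : Mdl b} {E j q y : N}, q ≤ y → t N y ≤ len E → (Pf j q ↔ Pd N E j q)

theorem exists_sc [HasPost b] : Nonempty (Sc b) := by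
  obtain ⟨φ, h1, h2⟩ := (inferInstance : USig fun (_ : Mdl b) v => Pf (v 0) (v 1)).out
  obtain ⟨τ, P, -, a2, a3⟩ := small.red (b := b) (h1.bdd true)
  have f1 := (UFn.ofTm (b := b) τ).comp (fun _ _ v => v 0) fun _ => inferInstance
  refine ⟨⟨fun N y => τ.ev N.toStr (fun _ => y) + y, inferInstance,
    fun h => add_le_add (τ.ev_mono fun _ _ => h) h, fun _ => le_add_self,
    fun N E j q => j ≤ q ∧ P N (cons E (cons j fun _ => q)), ?_, ?_⟩⟩
  · refine (UC.le inferInstance inferInstance).and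
      ((a2.comp (fun i _ v => v (min i 2)) fun _ => inferInstance).congr fun N v => ?_)
    refine iff_of_eq (congrArg _ (funext ?_))
    rintro (_ | _ | i)
    · rfl
    · rfl
    · rw [min_eq_right (by omega)]; rfl
  · intro N E j q y h3 h4
    by_cases h : j ≤ q
    · rw [and_iff_right h, ← a3 N (cons j fun _ => q) E, h2]
      · rfl
      · refine le_trans (τ.ev_mono ?_) (le_self_add.trans h4)
        rintro (_ | i) _
        exacts [h.trans h3, h3]
    · exact iff_of_false (fun ⟨_, h5, _, _, _, h6⟩ => h (h6.le.trans h5)) fun h5 => h h5.1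

namespace Sc
variable (σ : Sc b) {N : Mdl b}

/-- the next scale -/
def Nx (y E : N) : Prop := ∃ z ≤ E, len z = σ.t N y ∧ E = pw z

instance fn {f : UFun b} [hf : UFn f] : UFn fun N v => σ.t N (f N v) := UFn.app1 σ.ft hf
instance piPd {f g h : UFun b} [hf : UFn f] [hg : UFn g] [hh : UFn h] :
    UPi fun N v => σ.Pd N (f N v) (g N v) (h N v) := ⟨UC.app3 σ.pi hf hg hh⟩
instance sigNx {f g : UFun b} [hf : UFn f] [hg : UFn g] :
    USig fun N v => σ.Nx (f N v) (g N v) :=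
  ⟨UC.app2 (P := fun _ y E => σ.Nx y E) (by unfold Nx; exact USig.out) hf hg⟩

variable {σ} {x y E F : N}

theorem Nx.lt_len (h : σ.Nx y E) : σ.t N y < len E := by
  obtain ⟨z, -, h1, rfl⟩ := h
  rw [len_pw, h1]
  exact lt_succ_iff.2 le_rfl

theorem Nx.le_len (h : σ.Nx y E) : y ≤ len E := (σ.le y).trans h.lt_len.le
theorem Nx.le (h : σ.Nx y E) : y ≤ E := h.le_len.trans (len_le E)

theorem Nx.mono (h : σ.Nx x E) (h' : σ.Nx y F) (e : x ≤ y) : E ≤ F := by
  obtain ⟨z, -, h1, rfl⟩ := h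
  obtain ⟨z', -, h2, rfl⟩ := h'
  exact pw_mono_len (by rw [h1, h2]; exact σ.mono e)

theorem Nx.unique (h : σ.Nx y E) (h' : σ.Nx y F) : E = F :=
  le_antisymm (h.mono h' le_rfl) (h'.mono h le_rfl)

theorem exists_nx (h : σ.t N y ≤ len F) : ∃ E, σ.Nx y E := by
  obtain ⟨z, -, h1⟩ := exists_len h
  exact ⟨pw z, z, (lt_pw z).le, h1, rfl⟩

theorem Nx.far (h : σ.Nx y E) (e : len F < σ.t N y) : F ≤ E :=
  (lt_of_len_lt (e.trans h.lt_len)).le

theorem nx_J {y E : N.J} : σ.Nx y E ↔ σ.Nx (isCut_Jc.val y) (isCut_Jc.val E) :=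
  isCut_Jc.abs (inferInstance : USig fun _ v => σ.Nx (v 0) (v 1)).out (cons y fun _ => E)

theorem dp_nx : ∀ {k : ℕ} {N : Mdl b} {y : N}, Dp (k + 1) N y → ∃ E, σ.Nx y E ∧ Dp k N E
  | 0, _, y, ⟨h, _⟩ => by
    obtain ⟨F, hF⟩ := (isCut_Jc.fn σ.ft (v := fun _ => y) fun _ => h).log
    exact (exists_nx hF.le).imp fun _ h => ⟨h, trivial⟩
  | _ + 1, _, _, ⟨_, h⟩ => by
    obtain ⟨E, h1, h2⟩ := dp_nx h
    exact ⟨isCut_Jc.val E, nx_J.1 h1, isCut_Jc.val_mem E, h2⟩

end Sc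

end Pool.Agent.PLO.Walk

/-! The Solovay path with scales: definitions and facts inside one model. -/

namespace Pool.Agent.PLO.Walk

open Function Sol

/-- a strategy on a frame -/
structure Plan (F : Fr) where
  P : Type
  rest : P → Prop
  free : P → Prop
  top : P → F.W → Prop
  A : P → F.W → Prop
  B : P → F.W → Prop
  rk : P → F.W → ℕ
  c : P → F.W
  g : P → F.W → P
  n : P → P
  ht : P → ℕ
  s0 : P
  s0_rest : rest s0
  s0_c : c s0 = F.w
  r_top : ∀ {s} (z), rest s → (top s z ↔ F.R (c s) z)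
  g_nr : ∀ {s u}, top s u → ¬ rest (g s u)
  g_c : ∀ {s u}, top s u → c (g s u) = u
  g_ht : ∀ {s u}, top s u → ht (g s u) < ht s
  g_nf : ∀ {s u}, top s u → ¬ free (g s u)
  g_A : ∀ {s u}, top s u → A (g s u) = A s
  g_B : ∀ {s u z}, top s u → B (g s u) z → top s z
  g_B' : ∀ {s u z}, ¬ free s → top s u → B (g s u) z → rk s z ≤ rk s u
  g_top : ∀ {s u} (z), ¬ free s → top s u → (top (g s u) z ↔ top s z ∧ rk s z < rk s u)
  g_rk : ∀ {s u z}, ¬ free s → top s u → top (g s u) z → rk (g s u) z = rk s z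
  n_c : ∀ {s}, ¬ rest s → c (n s) = c s
  n_top : ∀ {s z}, ¬ rest s → top (n s) z → top s z
  n_ht : ∀ {s}, ¬ rest s → ht (n s) < ht s
  n_nf : ∀ {s}, ¬ rest s → ¬ free (n s)
  n_A : ∀ {s z}, ¬ rest s → ¬ rest (n s) → A (n s) z → A s z
  n_B : ∀ {s z}, ¬ rest s → ¬ rest (n s) → B (n s) z → B s z
  n_r : ∀ {s z}, ¬ rest s → rest (n s) → A (n s) z → B s z
  nr_top : ∀ {s z}, ¬ rest s → top s z → B s z
  nr_c : ∀ {s}, ¬ rest s → B s (c s)
  un : ∀ {s}, ¬ rest s → ∀ i j, ∃ d, A s d ∧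
    ∀ z, F.R d z ↔ (top s z ∧ rk s z < i) ∨ (top (n s) z ∧ rk (n s) z < j)

variable {b : Bool} {F : Fr} (G : Plan F) (σ : Sc b)

/-- the state at a position -/
def Plan.st : List (Option F.W) → G.P
  | [] => G.s0
  | some u :: l => G.g (Plan.st l) u
  | none :: l => G.n (Plan.st l)

section Defs
variable {N : Mdl b} (k : F.W → N)

/-- no trigger below `q` -/
def Nb (z : F.W) (q : N) : Prop := ∀ q' < q, ¬ Trig F k z q'
def TAt (s : G.P) (q : N) : Prop := ∃ u, G.top s u ∧ Trig F k u q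
def Time0 (nb : F.W → N → Prop) (s : G.P) (y y' : N) : Prop :=
  (G.rest s ∧ TAt G k s y' ∧ ∀ u, G.top s u → nb u y') ∨ (¬ G.rest s ∧ σ.Nx y y')
def Kind0 (nt nb : F.W → N → Prop) (s : G.P) (y : N) : Option F.W → Prop
  | none => ¬ G.rest s ∧ ∀ u, G.top s u → nt u y
  | some u => G.top s u ∧ (∀ u', G.top s u' → G.rk s u' < G.rk s u → nt u' y) ∧
      ∃ q ≤ y, Trig F k u q ∧ ∀ u', G.top s u' → G.rk s u' = G.rk s u →
        nb u' q ∧ (F.e u' < F.e u → nt u' q)
/-- the time of the next move -/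
def Time (s : G.P) (y y' : N) : Prop := Time0 G σ k (Nb k) s y y'
/-- the kind of the move made at time `y` -/
def Kind (s : G.P) (y : N) (a : Option F.W) : Prop :=
  Kind0 G k (fun z q => ¬ Trig F k z q) (Nb k) s y a
/-- a verified move -/
def Tr (s : G.P) (y : N) (a : Option F.W) (y' E : N) : Prop :=
  σ.Nx y' E ∧ Time G σ k s y y' ∧ Kind G k s y' a
/-- the path, with all data below `B` -/
def On (B : N) : List (Option F.W) → N → Prop
  | [], y => y = 0 ∧ Trig F k F.w B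
  | a :: l, y => ∃ y₀ ≤ B, ∃ E ≤ B, On B l y₀ ∧ Tr G σ k (G.st l) y₀ a y E
def End (l : List (Option F.W)) (y : N) : Prop :=
  (∃ B, On G σ k B l y) ∧ ¬ ∃ a y' E, Tr G σ k (G.st l) y a y' E
def Good (s : G.P) : Prop := G.rest s ∧ ¬ ∃ q, TAt G k s q
def Fit (s : G.P) (z : F.W) : Prop := G.A s z ∧ ∀ w, F.R z w ↔ NoT F k w
def Cl (s : G.P) (z : F.W) : Prop := (Good G k s ∧ G.c s = z) ∨
  (¬ Good G k s ∧ Fit G k s z ∧ ∀ z', Fit G k s z' → F.e z ≤ F.e z')
/-- the class of the model -/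
def Kl (z : F.W) : Prop := ∃ l y, End G σ k l y ∧ Cl G k (G.st l) z

variable {G σ k} {s : G.P} {y y' y'' q q' E E' B B' Y : N} {a a' : Option F.W}
  {l l' m : List (Option F.W)} {u u' z z' : F.W}

theorem TAt.mono (h : TAt G k s q) (e : q ≤ q') : TAt G k s q' :=
  h.imp fun _ h => ⟨h.1, h.2.mono e⟩

theorem Time.unique (h : Time G σ k s y y') (h' : Time G σ k s y y'') : y' = y'' := by
  rcases h with ⟨r, ⟨u, h1, h2⟩, h3⟩ | ⟨r, h⟩ <;>
    rcases h' with ⟨r', ⟨u', h1', h2'⟩, h3'⟩ | ⟨r', h'⟩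
  · exact le_antisymm (not_lt.1 fun l => h3 _ h1' _ l h2') (not_lt.1 fun l => h3' _ h1 _ l h2)
  · exact (r' r).elim
  · exact (r r').elim
  · exact h.unique h'

theorem Kind.trig (h : Kind G k s y (some u)) : Trig F k u y :=
  let ⟨_, _, _, e, h, _⟩ := h; h.mono e

theorem Kind.unique (h : Kind G k s y a) (h' : Kind G k s y a') : a = a' := by
  rcases a with _ | u <;> rcases a' with _ | u'
  · rfl
  · exact (h.2 _ h'.1 h'.trig).elim
  · exact (h'.2 _ h.1 h.trig).elim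
  · have e : G.rk s u = G.rk s u' := le_antisymm (not_lt.1 fun l => h.2.1 _ h'.1 l h'.trig)
      (not_lt.1 fun l => h'.2.1 _ h.1 l h.trig)
    obtain ⟨h1, -, q, -, h2, h3⟩ := h
    obtain ⟨h1', -, q', -, h2', h3'⟩ := h'
    have e' : q = q' := le_antisymm (not_lt.1 fun l => (h3 _ h1' e.symm).1 _ l h2')
      (not_lt.1 fun l => (h3' _ h1 e).1 _ l h2)
    subst e'
    rw [F.inj (le_antisymm (not_lt.1 fun l => (h3 _ h1' e.symm).2 l h2')
      (not_lt.1 fun l => (h3' _ h1 e).2 l h2))]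

theorem Tr.unique (h : Tr G σ k s y a y' E) (h' : Tr G σ k s y a' y'' E') : y' = y'' ∧ a = a' := by
  obtain rfl := h.2.1.unique h'.2.1
  exact ⟨rfl, h.2.2.unique h'.2.2⟩

theorem On.mono (h : On G σ k B l y) (e : B ≤ B') : On G σ k B' l y := by
  induction l generalizing y with
  | nil => exact ⟨h.1, h.2.mono e⟩
  | cons a l ih =>
    obtain ⟨y₀, h1, E, h2, h3, h4⟩ := h
    exact ⟨y₀, h1.trans e, E, h2.trans e, ih h3, h4⟩

theorem On.le (h : On G σ k B l y) : y ≤ B := by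
  cases l with
  | nil => exact h.1 ▸ zero_le' _
  | cons a l =>
    obtain ⟨_, _, E, h2, _, h4⟩ := h
    exact h4.1.le.trans h2

theorem On.unique (h : On G σ k B l y) (h' : On G σ k B' l y') : y = y' := by
  induction l generalizing y y' with
  | nil => exact h.1.trans h'.1.symm
  | cons a l ih =>
    obtain ⟨y₀, _, E, _, h3, h4⟩ := h
    obtain ⟨y₁, _, E', _, h3', h4'⟩ := h'
    obtain rfl := ih h3 h3'
    exact (h4.unique h4').1

theorem On.pre (h : On G σ k B (m ++ l) y) : ∃ y₀, On G σ k B l y₀ := by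
  induction m generalizing y with
  | nil => exact ⟨y, h⟩
  | cons a m ih =>
    obtain ⟨y₀, _, E, _, h3, _⟩ := h
    exact ih h3

theorem On.step (h : On G σ k B l y) (h' : Tr G σ k (G.st l) y a y' E) :
    On G σ k (max B E) (a :: l) y' :=
  ⟨y, h.le.trans (le_max_left _ _), E, le_max_right _ _, h.mono (le_max_left _ _), h'⟩

theorem On.total (h : On G σ k B l y) (h' : On G σ k B' l' y') (e : l.length ≤ l'.length) :
    ∃ m, l' = m ++ l := by
  induction l generalizing y with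
  | nil => exact ⟨l', by simp⟩
  | cons a l ih =>
    obtain ⟨y₀, _, E, _, h3, h4⟩ := h
    obtain ⟨m, rfl⟩ := ih h3 (by simp at e; omega)
    rcases m.eq_nil_or_concat' with rfl | ⟨m, a', rfl⟩
    · simp at e
    · rw [List.append_assoc] at h'
      obtain ⟨y₁, y₂, _, E', _, h5, h6⟩ := h'.pre
      obtain rfl := h3.unique h5
      exact ⟨m, by rw [(h4.unique h6).2]; simp⟩

theorem End.ext (h : End G σ k l' y') (h' : On G σ k B l y) : ∃ m, l' = m ++ l := by
  obtain ⟨⟨B', h1⟩, h2⟩ := h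
  rcases le_or_gt l.length l'.length with e | e
  · exact h'.total h1 e
  · obtain ⟨m, rfl⟩ := h1.total h' e.le
    rcases m.eq_nil_or_concat' with rfl | ⟨m, a', rfl⟩
    · simp at e
    · rw [List.append_assoc] at h'
      obtain ⟨y₁, y₂, _, E', _, h5, h6⟩ := h'.pre
      obtain rfl := h1.unique h5
      exact (h2 ⟨_, _, _, h6⟩).elim

theorem End.unique (h : End G σ k l y) (h' : End G σ k l' y') : l = l' := by
  obtain ⟨B, h1⟩ := h.1
  obtain ⟨B', h2⟩ := h'.1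
  obtain ⟨m, e⟩ := h.ext h2
  obtain ⟨m', e'⟩ := h'.ext h1
  have := congrArg List.length e
  have := congrArg List.length e'
  simp only [List.length_append] at *
  rw [e, List.length_eq_zero_iff.1 (show m.length = 0 by omega), List.nil_append]

theorem Kind.ht (h : Kind G k (G.st l) y a) : G.ht (G.st (a :: l)) < G.ht (G.st l) := by
  cases a
  exacts [G.n_ht h.1, G.g_ht h.1]

theorem On.length (h : On G σ k B l y) : l.length + G.ht (G.st l) ≤ G.ht G.s0 := by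
  induction l generalizing y with
  | nil => simp [Plan.st]
  | cons a l ih =>
    obtain ⟨y₀, _, E, _, h3, h4⟩ := h
    have := ih h3
    have := h4.2.2.ht
    simp only [List.length_cons]
    omega

theorem On.trig (h : On G σ k B l y) : Trig F k (G.c (G.st l)) B := by
  induction l generalizing y with
  | nil => exact G.s0_c ▸ h.2
  | cons a l ih =>
    have hl := h.le
    obtain ⟨y₀, _, E, _, h3, h4⟩ := h
    cases a with
    | none => exact G.n_c h4.2.2.1 ▸ ih h3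
    | some u =>
      rw [show G.c (G.st (some u :: l)) = u from G.g_c h4.2.2.1]
      exact h4.2.2.trig.mono hl

theorem On.nf (h : On G σ k B (a :: l) y) : ¬ G.free (G.st (a :: l)) := by
  obtain ⟨y₀, _, E, _, h3, h4⟩ := h
  cases a
  exacts [G.n_nf h4.2.2.1, G.g_nf h4.2.2.1]

theorem On.nx (h : On G σ k B l y) (r : ¬ G.rest (G.st l)) : ∃ E ≤ B, σ.Nx y E := by
  cases l with
  | nil => exact (r G.s0_rest).elim
  | cons a l =>
    obtain ⟨y₀, _, E, h2, _, h4⟩ := h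
    exact ⟨E, h2, h4.1⟩

theorem exists_end (h : On G σ k B l y) : ∃ m y', End G σ k (m ++ l) y' := by
  induction' e : G.ht (G.st l) using Nat.strong_induction_on with n ih generalizing l y B
  by_cases t : ∃ a y' E, Tr G σ k (G.st l) y a y' E
  · obtain ⟨a, y', E, t⟩ := t
    obtain ⟨m, y'', h1⟩ := ih _ (e ▸ t.2.2.ht) (h.step t) rfl
    exact ⟨m ++ [a], y'', by simpa using h1⟩
  · exact ⟨[], y, ⟨B, h⟩, t⟩

theorem Kl.unique (h : Kl G σ k z) (h' : Kl G σ k z') : z = z' := by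
  obtain ⟨l, y, h1, h2⟩ := h
  obtain ⟨l', y', h1', h2'⟩ := h'
  obtain rfl := h1.unique h1'
  rcases h2 with ⟨g, e⟩ | ⟨g, f, e⟩ <;> rcases h2' with ⟨g', e'⟩ | ⟨g', f', e'⟩
  · exact e.symm.trans e'
  · exact (g' g).elim
  · exact (g g').elim
  · exact F.inj (le_antisymm (e _ f') (e' _ f))

theorem Kl.noT (h : Kl G σ k z) (hz : F.R z z') : NoT F k z' := by
  obtain ⟨l, y, -, ⟨g, rfl⟩ | ⟨-, f, -⟩⟩ := h
  · exact fun ⟨q, hq⟩ => g.2 ⟨q, z', (G.r_top _ g.1).2 hz, hq⟩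
  · exact (f.2 _).1 hz

/-- the bound for the class after the path has come to rest again -/
def Bd (G : Plan F) (s : G.P) (z : F.W) : Prop := (G.rest s ∧ G.top s z) ∨ (¬ G.rest s ∧ G.B s z)

theorem Bd.of_top (h : G.top s z) : Bd G s z := by
  by_cases r : G.rest s
  exacts [.inl ⟨r, h⟩, .inr ⟨r, G.nr_top r h⟩]

theorem bd_back (t : Kind G k (G.st l) y a) (h : Bd G (G.st (a :: l)) z) : Bd G (G.st l) z := by
  cases a with
  | none =>
    rcases h with h | h
    · exact .of_top (G.n_top t.1 h.2)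
    · exact .inr ⟨t.1, G.n_B t.1 h.1 h.2⟩
  | some u =>
    rcases h with h | h
    · exact (G.g_nr t.1 h.1).elim
    · exact .of_top (G.g_B t.1 h.2)

theorem cls_U (h : End G σ k (m ++ l) y) (hc : Cl G k (G.st (m ++ l)) z) :
    G.A (G.st l) z ∨ Bd G (G.st l) z ∨ (G.rest (G.st l) ∧ G.c (G.st l) = z) := by
  induction m using List.reverseRecOn generalizing l with
  | nil =>
    rcases hc with h | h
    · exact .inr (.inr ⟨h.1.1, h.2⟩)
    · exact .inl h.2.1.1
  | append_singleton m a ih =>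
    rw [List.append_assoc] at h hc
    obtain ⟨B, h1⟩ := h.1
    obtain ⟨y₁, y₂, -, E, -, -, -, -, t⟩ := h1.pre
    rcases ih h hc with h2 | h2 | h2
    · cases a with
      | none =>
        by_cases r : G.rest (G.n (G.st l))
        · exact .inr (.inl (.inr ⟨t.1, G.n_r t.1 r h2⟩))
        · exact .inl (G.n_A t.1 r h2)
      | some u => exact .inl (G.g_A t.1 ▸ h2)
    · exact .inr (.inl (bd_back t h2))
    · cases a with
      | none =>
        refine .inr (.inl (.inr ⟨t.1, ?_⟩))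
        rw [← h2.2, show G.c (G.st ([none] ++ l)) = G.c (G.st l) from G.n_c t.1]
        exact G.nr_c t.1
      | some u => exact (G.g_nr t.1 h2.1).elim

variable (G σ k) in
/-- the path comes to rest after the position `l` -/
def Esc (l : List (Option F.W)) : Prop :=
  ∃ m a y B, On G σ k B (m ++ a :: l) y ∧ G.rest (G.st (m ++ a :: l))

theorem cls_E (h : Esc G σ k l) (hc : Kl G σ k z) : Bd G (G.st l) z := by
  obtain ⟨m, a, y, B, h1, r⟩ := h
  obtain ⟨l', y', h2, h3⟩ := hc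
  obtain ⟨m', rfl⟩ := h2.ext h1
  induction m using List.reverseRecOn generalizing a l with
  | nil =>
    obtain ⟨y₂, -, E, -, -, -, -, t⟩ := h1
    cases a with
    | some u => exact (G.g_nr t.1 r).elim
    | none =>
      rcases cls_U h2 h3 with h | h | h
      · exact .inr ⟨t.1, G.n_r t.1 r h⟩
      · exact bd_back t h
      · refine .inr ⟨t.1, ?_⟩
        rw [← h.2, show G.c (G.st ([] ++ none :: l)) = G.c (G.st l) from G.n_c t.1]
        exact G.nr_c t.1
  | append_singleton m a' ih =>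
    rw [List.append_assoc] at h1 r h2 h3
    obtain ⟨y₁, h4⟩ := On.pre (m := m ++ [a']) (l := a :: l) (by simpa using h1)
    obtain ⟨y₂, -, E, -, -, -, -, t⟩ := h4
    exact bd_back t (ih a' h1 r h2 h3)

theorem Esc.back (h : Esc G σ k (a :: l)) : Esc G σ k l := by
  obtain ⟨m, a', y, B, h1, r⟩ := h
  exact ⟨m ++ [a'], a, y, B, by simpa using h1, by simpa using r⟩

end Defs

/-! ### Definability -/

section Def
variable [HasPost b] {G σ} {K : F.W → UFun b} [hK : ∀ w, UFn (K w)] {f g h : UFun b}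
  [hf : UFn f] [hg : UFn g] [hh : UFn h]

instance sigTAt (s : G.P) : USig fun N v => TAt G (fun w => K w N v) s (f N v) := by
  unfold TAt; infer_instance

instance sigTr (s : G.P) (a : Option F.W) :
    USig fun N v => Tr G σ (fun w => K w N v) s (f N v) a (g N v) (h N v) := by
  have := fun w => (hK w).tail
  have := fun w => (hK w).tail.tail
  have := hg.tail
  have := hh.tail
  have := hh.tail.tail
  have i1 : USig fun N v => Time0 G σ (fun w => K w N v) (fun z q => ∀ q' ≤ len (h N v), q' < q →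
      ¬ σ.Pd N (h N v) (jP (cNeg (K z N v))) q') s (f N v) (g N v) := by
    unfold Time0; infer_instance
  have i2 : USig fun N v => Kind0 G (fun w => K w N v)
      (fun z q => ¬ σ.Pd N (h N v) (jP (cNeg (K z N v))) q)
      (fun z q => ∀ q' ≤ len (h N v), q' < q → ¬ σ.Pd N (h N v) (jP (cNeg (K z N v))) q')
      s (g N v) a := by
    cases a <;> unfold Kind0 <;> infer_instance
  refine ⟨(inferInstance : USig fun N v => σ.Nx (g N v) (h N v) ∧ _ ∧ _).out.congr (P := fun N v =>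
    σ.Nx (g N v) (h N v) ∧ Time0 G σ (fun w => K w N v) (fun z q => ∀ q' ≤ len (h N v), q' < q →
      ¬ σ.Pd N (h N v) (jP (cNeg (K z N v))) q') s (f N v) (g N v) ∧ Kind0 G (fun w => K w N v)
      (fun z q => ¬ σ.Pd N (h N v) (jP (cNeg (K z N v))) q)
      (fun z q => ∀ q' ≤ len (h N v), q' < q → ¬ σ.Pd N (h N v) (jP (cNeg (K z N v))) q')
      s (g N v) a) fun N v => and_congr_right fun x => ?_⟩
  have e1 : ∀ z q, q ≤ g N v → (σ.Pd N (h N v) (jP (cNeg (K z N v))) q ↔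
      Trig F (fun w => K w N v) z q) := fun z q hq => (σ.iff hq x.lt_len.le).symm
  have e2 : ∀ z q, q ≤ g N v → ((∀ q' ≤ len (h N v), q' < q →
      ¬ σ.Pd N (h N v) (jP (cNeg (K z N v))) q') ↔ Nb (fun w => K w N v) z q) := fun z q hq =>
    ⟨fun a q' l t => a q' ((l.le.trans hq).trans x.le_len) l ((e1 z q' (l.le.trans hq)).2 t),
      fun a q' _ l t => a q' l ((e1 z q' (l.le.trans hq)).1 t)⟩
  refine and_congr ?_ ?_
  · simp only [Time, Time0, e2 _ _ le_rfl]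
  · cases a with
    | none => simp only [Kind, Kind0, e1 _ _ le_rfl]
    | some u =>
      simp only [Kind, Kind0, e1 _ _ le_rfl]
      refine and_congr_right fun _ => and_congr_right fun _ => exists_congr fun q =>
        and_congr_right fun hq => ?_
      simp only [e1 _ _ hq, e2 _ _ hq]

omit hK hf hg in
theorem sigOn' (l : List (Option F.W)) : ∀ {K : F.W → UFun b} {f g : UFun b}, (∀ w, UFn (K w)) →
    UFn f → UFn g → USig fun N v => On G σ (fun w => K w N v) (f N v) l (g N v) := by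
  induction l with
  | nil => intro K f g _ _ _; unfold On; infer_instance
  | cons a l ih =>
    intro K f g hK hf hg
    have := fun w => (hK w).tail.tail
    have := hf.tail
    have := hg.tail.tail
    have := ih (fun w => (hK w).tail.tail) hf.tail.tail (UFn.var 1)
    unfold On; infer_instance

instance sigOn (l : List (Option F.W)) :
    USig fun N v => On G σ (fun w => K w N v) (f N v) l (g N v) := sigOn' l hK hf hg

instance ufEnd (l : List (Option F.W)) :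
    UF fun N _ v => End G σ (fun w => K w N v) l (f N v) := by
  have := fun w => (hK w).tail
  have := fun w => (hK w).tail.tail
  have := hf.tail
  have := hf.tail.tail
  unfold End; infer_instance
instance ufGood (s : G.P) : UF fun N _ v => Good G (fun w => K w N v) s := by
  have := fun w => (hK w).tail
  unfold Good; infer_instance
instance ufFit (s : G.P) (z : F.W) : UF fun N _ v => Fit G (fun w => K w N v) s z := by
  unfold Fit; infer_instance
instance ufCl (s : G.P) (z : F.W) : UF fun N _ v => Cl G (fun w => K w N v) s z := by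
  unfold Cl; infer_instance
instance ufKl (z : F.W) : UF fun N _ v => Kl G σ (fun w => K w N v) z := by
  have := fun w => (hK w).tail
  have : Finite {l : List (Option F.W) // l.length ≤ G.ht G.s0} :=
    (List.finite_length_le (Option F.W) (G.ht G.s0)).to_subtype
  refine (inferInstance : UF fun N _ v => ∃ l : {l : List (Option F.W) // l.length ≤ G.ht G.s0},
    ∃ y, End G σ (fun w => K w N v) l.1 y ∧ Cl G (fun w => K w N v) (G.st l.1) z).congr
    fun N _ v => ⟨fun ⟨l, h⟩ => ⟨l.1, h⟩, fun ⟨l, y, h⟩ => ⟨⟨l, ?_⟩, y, h⟩⟩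
  obtain ⟨B, h⟩ := h.1.1
  exact le_self_add.trans h.length

end Def

end Pool.Agent.PLO.Walk

/-! The Solovay path with scales: progress, and what the box of a bad model sees. -/

namespace Pool.Agent.PLO.Walk

open Function Sol

variable {b : Bool} [HasPost b] {F : Fr} {G : Plan F} {σ : Sc b}

section Facts
variable {N : Mdl b} {k : F.W → N} {s : G.P} {y y' q E B Y : N} {a : Option F.W}
  {l : List (Option F.W)} {u z : F.W} {m : ℕ}

theorem least (p : F.W → Prop) {c : N} (hq : q ≤ len c) (h : ∃ u, p u ∧ Trig F k u q) :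
    ∃ r ≤ q, (∃ u, p u ∧ Trig F k u r) ∧ ∀ u, p u → Nb k u r := by
  obtain ⟨v, rfl⟩ : ∃ v : ℕ → N, k = fun w => v (F.e w) :=
    ⟨extend F.e k 0, funext fun w => (F.inj.extend_apply _ _ w).symm⟩
  obtain ⟨r, h1, h2, h3⟩ :=
    lmin_sig (fun N q v => ∃ u, p u ∧ Trig F (fun w => v (F.e w)) u q) v hq h
  exact ⟨r, h1, h2, fun u hu q' l t => h3 q' l ⟨u, hu, t⟩⟩

theorem exists_grow (h : σ.Nx y E) (t : TAt G k s y) : ∃ u, Kind G k s y (some u) := by
  obtain ⟨u₀, h1, h2⟩ := (InvImage.wf (G.rk s) wellFounded_lt).has_min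
    {u | G.top s u ∧ Trig F k u y} t
  obtain ⟨q, h3, h4, h5⟩ := least (k := k) (fun u => G.top s u ∧ G.rk s u = G.rk s u₀) h.le_len
    ⟨u₀, ⟨h1.1, rfl⟩, h1.2⟩
  obtain ⟨u, ⟨⟨h6, h7⟩, h8⟩, h9⟩ := F.exists_min h4
  exact ⟨u, h6, fun u' a l t => h2 u' ⟨a, t⟩ (l.trans_eq h7), q, h3, h8, fun u' a e =>
    ⟨h5 u' ⟨a, e.trans h7⟩, fun l t => absurd (h9 u' ⟨⟨a, e.trans h7⟩, t⟩) (not_le.2 l)⟩⟩

theorem exists_kind (h : σ.Nx y E) (r : ¬ G.rest s) : ∃ a, Kind G k s y a := by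
  by_cases t : TAt G k s y
  · exact (exists_grow h t).elim fun u h => ⟨_, h⟩
  · exact ⟨none, r, fun u a t' => t ⟨u, a, t'⟩⟩

theorem exists_time (r : G.rest s) (h : σ.Nx q E) (t : TAt G k s q) (y : N) :
    ∃ y' ≤ q, Time G σ k s y y' ∧ TAt G k s y' := by
  obtain ⟨y', h1, h2, h3⟩ := least (G.top s) h.le_len t
  exact ⟨y', h1, .inl ⟨r, h2, h3⟩, h2⟩

theorem step_nr (h : On G σ k B l y) (r : ¬ G.rest (G.st l)) (d : Dp (m + 1) N B) :
    ∃ a y' B', σ.Nx y y' ∧ y' ≤ B ∧ Kind G k (G.st l) y' a ∧ On G σ k B' (a :: l) y' ∧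
      Dp m N B' := by
  obtain ⟨y', h1, h2⟩ := h.nx r
  obtain ⟨E, h3, h4⟩ := σ.dp_nx (d.down h1)
  obtain ⟨a, h5⟩ := exists_kind (k := k) h3 r
  exact ⟨a, y', _, h2, h1, h5, h.step ⟨h3, .inr ⟨r, h2⟩, h5⟩, d.pred.max h4⟩

theorem step_r (h : On G σ k B l y) (r : G.rest (G.st l)) (t : TAt G k (G.st l) q)
    (d : Dp (m + 1) N B) (d' : Dp (m + 1) N q) :
    ∃ u y' B', y' ≤ q ∧ Time G σ k (G.st l) y y' ∧ Kind G k (G.st l) y' (some u) ∧
      On G σ k B' (some u :: l) y' ∧ Dp m N B' := by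
  obtain ⟨E, h1, -⟩ := σ.dp_nx d'
  obtain ⟨y', h2, h3, h4⟩ := exists_time r h1 t y
  obtain ⟨E', h5, h6⟩ := σ.dp_nx (d'.down h2)
  obtain ⟨u, h7⟩ := exists_grow h5 h4
  exact ⟨u, y', _, h2, h3, h7, h.step ⟨h5, h3, h7⟩, d.pred.max h6⟩

theorem esc_nr (h : On G σ k B l y) (r : ¬ G.rest (G.st l)) (d : Dp m N B)
    (e : G.ht (G.st l) ≤ m) : Esc G σ k l := by
  induction m generalizing l y B with
  | zero => exact absurd (G.n_ht r) (by omega)
  | succ m ih =>
    obtain ⟨a, y', B', -, -, h1, h2, h3⟩ := step_nr h r d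
    by_cases r' : G.rest (G.st (a :: l))
    · exact ⟨[], a, y', B', h2, r'⟩
    · exact (ih h2 r' h3 (by have := h1.ht; omega)).back

theorem esc_r (h : On G σ k B l y) (r : G.rest (G.st l)) (t : TAt G k (G.st l) q)
    (d : Dp (m + 1) N B) (d' : Dp (m + 1) N q) (e : G.ht (G.st l) ≤ m + 1) : Esc G σ k l := by
  obtain ⟨u, y', B', -, -, h1, h2, h3⟩ := step_r h r t d d'
  exact (esc_nr h2 (G.g_nr h1.1) h3 (by have := h1.ht; omega)).back

variable (G σ k) in
/-- the path leaves every point that is refuted below `Y` -/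
def Key (Y : N) : Prop := ∀ l y B, On G σ k B l y → G.rest (G.st l) → Dp (G.ht G.s0 + 1) N B →
  Trig F k (G.c (G.st l)) Y → ∃ r, TAt G k (G.st l) r ∧ Dp (G.ht G.s0 + 1) N r

omit [HasPost b] in
theorem On.ht (h : On G σ k B l y) : G.ht (G.st l) ≤ G.ht G.s0 := le_add_self.trans h.length

theorem Key.esc (hK : Key G σ k Y) (h : On G σ k B l y) (r : G.rest (G.st l))
    (d : Dp (G.ht G.s0 + 1) N B) (t : Trig F k (G.c (G.st l)) Y) : Esc G σ k l :=
  let ⟨_, h1, h2⟩ := hK l y B h r d t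
  esc_r h r h1 d h2 (h.ht.trans (Nat.le_succ _))

theorem Key.rest (hK : Key G σ k Y) (h : On G σ k B l y) (r : G.rest (G.st l))
    (d : Dp (G.ht G.s0 + 1) N B) (t : Trig F k (G.c (G.st l)) Y) (hz : Kl G σ k z) :
    G.top (G.st l) z :=
  (cls_E (hK.esc h r d t) hz).elim (fun h => h.2) fun h => (h.1 r).elim

theorem grow_B (h : On G σ k B (some u :: l) y) (t : G.top (G.st l) u) (d : Dp m N B)
    (e : G.ht G.s0 ≤ m) (hz : Kl G σ k z) : G.B (G.g (G.st l) u) z :=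
  (cls_E (esc_nr h (G.g_nr t) d (h.ht.trans e)) hz).elim (fun h => (G.g_nr t h.1).elim)
    fun h => h.2

/-- with a dead candidate the class lies in the top set -/
theorem dead (hK : Key G σ k Y) (hz : Kl G σ k z) (h : On G σ k B l y) (r : ¬ G.rest (G.st l))
    (d : Dp (G.ht G.s0 + 1 + m) N B) (e : G.ht (G.st l) ≤ m) (t : Trig F k (G.c (G.st l)) Y) :
    G.top (G.st l) z := by
  induction m generalizing l y B with
  | zero => exact absurd (G.n_ht r) (by omega)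
  | succ m ih =>
    obtain ⟨a, y', B', -, -, h1, h2, h3⟩ := step_nr (m := G.ht G.s0 + 1 + m) h r d
    cases a with
    | some u => exact G.g_B h1.1 (grow_B h2 h1.1 h3 (by omega) hz)
    | none =>
      have t' : Trig F k (G.c (G.st (none :: l))) Y := (G.n_c r).symm ▸ t
      refine G.n_top r ?_
      by_cases r' : G.rest (G.st (none :: l))
      · exact hK.rest h2 r' (h3.mono (by omega)) t' hz
      · exact ih h2 r' h3 (by have := h1.ht; omega) t'

/-- the largest level inside `Z` -/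
def Mx (G : Plan F) (Z : F.W → Prop) (s : G.P) (z : F.W) : Prop :=
  G.top s z ∧ ∀ u, G.top s u → ¬ Z u → G.rk s z < G.rk s u

omit [HasPost b] in
theorem Mx.grow {Z : F.W → Prop} (f : ¬ G.free s) (t : G.top s u) (h : Mx G Z (G.g s u) z) :
    Mx G Z s z := by
  have h1 := (G.g_top z f t).1 h.1
  refine ⟨h1.1, fun u' a n => ?_⟩
  by_cases l : G.rk s u' < G.rk s u
  · have h2 := (G.g_top u' f t).2 ⟨a, l⟩
    rw [← G.g_rk f t h.1, ← G.g_rk f t h2]
    exact h.2 u' h2 n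
  · omega

/-- a move made when all of the complement of `Z` is seen to be refuted -/
theorem late {Z : F.W → Prop} (hK : Key G σ k Y) (hz : Kl G σ k z)
    (hZ : ∀ w, ¬ Z w → Trig F k w Y) (h : On G σ k B l y) (r : ¬ G.rest (G.st l))
    (f : ¬ G.free (G.st l)) (d : Dp (2 * G.ht G.s0 + 2) N B) (t : Trig F k (G.c (G.st l)) Y)
    (far : len Y < σ.t N y) : Mx G Z (G.st l) z := by
  obtain ⟨a, y', B', h0, -, h1, h2, h3⟩ := step_nr h r d
  have hY := h0.far far
  cases a with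
  | none =>
    exact ⟨dead hK hz h r (d.mono (by omega)) h.ht t,
      fun u a n => (h1.2 u a ((hZ u n).mono hY)).elim⟩
  | some u =>
    have b1 := grow_B h2 h1.1 h3 (by omega) hz
    refine ⟨G.g_B h1.1 b1, fun u' a n => ?_⟩
    have b2 := G.g_B' f h1.1 b1
    have b3 : G.rk (G.st l) u ≤ G.rk (G.st l) u' :=
      not_lt.1 fun l => h1.2.1 u' a l ((hZ u' n).mono hY)
    rcases b3.lt_or_eq with b4 | b4
    · omega
    · obtain ⟨t1, -, q, -, t2, t3⟩ := h1
      have t4 : Trig F k u Y := t2.mono (not_lt.1 fun l => (t3 u' a b4.symm).1 _ l (hZ u' n))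
      rw [← b4]
      exact ((G.g_top z f t1).1 (dead hK hz h2 (G.g_nr t1) (h3.mono (by omega)) h2.ht
        ((G.g_c t1).symm ▸ t4))).2

/-- what the box of a bad model sees -/
theorem tot_sem {Z : F.W → Prop} (hK : Key G σ k Y) (hz : Kl G σ k z)
    (hZ : ∀ w, ¬ Z w → Trig F k w Y) (h : On G σ k Y l y) (f : ¬ G.free (G.st l))
    (d : Dp (2 * G.ht G.s0 + 4) N Y) (hr : G.rest (G.st l) → ∃ u, G.top (G.st l) u ∧ ¬ Z u)
    (far : ∀ y', Time G σ k (G.st l) y y' → len Y < σ.t N y') :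
    Mx G Z (G.st l) z ∨ (¬ G.rest (G.st l) ∧ Mx G Z (G.n (G.st l)) z) := by
  by_cases r : G.rest (G.st l)
  · obtain ⟨u, h1, h2⟩ := hr r
    obtain ⟨u', y', B', h3, h4, h5, h6, h7⟩ := step_r h r ⟨u, h1, hZ u h2⟩ d d
    exact .inl (Mx.grow f h5.1 (late hK hz hZ h6 (G.g_nr h5.1) h6.nf h7.pred
      ((G.g_c h5.1).symm ▸ h5.trig.mono h3) (far y' h4)))
  obtain ⟨a, y', B', h0, h3, h5, h6, h7⟩ := step_nr h r d
  have far' := far y' (.inr ⟨r, h0⟩)
  cases a with
  | some u =>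
    exact .inl (Mx.grow f h5.1 (late hK hz hZ h6 (G.g_nr h5.1) h6.nf h7.pred
      ((G.g_c h5.1).symm ▸ h5.trig.mono h3) far'))
  | none =>
    refine .inr ⟨r, ?_⟩
    have t : Trig F k (G.c (G.st (none :: l))) Y := (G.n_c r).symm ▸ h.trig
    by_cases r' : G.rest (G.st (none :: l))
    swap
    · exact late hK hz hZ h6 r' h6.nf h7.pred t far'
    by_cases e : ∃ u, G.top (G.st (none :: l)) u ∧ ¬ Z u
    · obtain ⟨u, h1, h2⟩ := e
      obtain ⟨u', y'', B'', a3, a4, a5, a6, a7⟩ := step_r h6 r' ⟨u, h1, hZ u h2⟩ h7 d.pred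
      refine Mx.grow h6.nf a5.1 (late hK hz hZ a6 (G.g_nr a5.1) a6.nf a7
        ((G.g_c a5.1).symm ▸ a5.trig.mono a3) (far'.trans_le (σ.mono ?_)))
      exact (not_lt.1 fun l => h5.2 u' (G.n_top r a5.1) (a5.trig.mono l.le))
    · exact ⟨hK.rest h6 r' (h7.mono (by omega)) t hz, fun u a n => (e ⟨u, a, n⟩).elim⟩

omit [HasPost b] in
theorem Mx.level (Z : F.W → Prop) (s : G.P) :
    ∃ i, ∀ z, Mx G Z s z ↔ G.top s z ∧ G.rk s z < i := by
  by_cases e : ∃ u, G.top s u ∧ ¬ Z u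
  · obtain ⟨u, h1, h2⟩ := (InvImage.wf (G.rk s) wellFounded_lt).has_min {u | G.top s u ∧ ¬ Z u} e
    exact ⟨G.rk s u, fun z => and_congr_right fun _ => ⟨fun h => h u h1.1 h1.2,
      fun h u' a n => h.trans_le (not_lt.1 (h2 u' ⟨a, n⟩))⟩⟩
  · obtain ⟨i, hi⟩ := (Set.finite_range (G.rk s)).bddAbove
    exact ⟨i + 1, fun z => and_congr_right fun _ => ⟨fun _ => Nat.lt_succ_of_le (hi ⟨z, rfl⟩),
      fun _ u a n => (e ⟨u, a, n⟩).elim⟩⟩

omit [HasPost b] in
/-- the set seen by the box of a bad model is the set of successors of an allowed point -/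
theorem exists_fit {Z : F.W → Prop} (f : ¬ G.free s) (hr : G.rest s → ∃ u, G.top s u ∧ ¬ Z u) :
    ∃ d, G.A s d ∧ ∀ z, F.R d z ↔ Mx G Z s z ∨ (¬ G.rest s ∧ Mx G Z (G.n s) z) := by
  by_cases r : G.rest s
  · obtain ⟨u, h1, h2⟩ := (InvImage.wf (G.rk s) wellFounded_lt).has_min
      {u | G.top s u ∧ ¬ Z u} (hr r)
    obtain ⟨i, hi⟩ := (Set.finite_range (G.rk (G.g s u))).bddAbove
    obtain ⟨d, h3, h4⟩ := G.un (G.g_nr h1.1) (i + 1) 0
    refine ⟨d, G.g_A h1.1 ▸ h3, fun z => ?_⟩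
    rw [h4, G.g_top z f h1.1]
    constructor
    · rintro (h | h)
      · exact .inl ⟨h.1.1, fun u' a n => h.1.2.trans_le (not_lt.1 (h2 u' ⟨a, n⟩))⟩
      · exact absurd h.2 (Nat.not_lt_zero _)
    · rintro (h | h)
      · exact .inl ⟨⟨h.1, h.2 u h1.1 h1.2⟩, Nat.lt_succ_of_le (hi ⟨z, rfl⟩)⟩
      · exact (h.1 r).elim
  · obtain ⟨i, hi⟩ := Mx.level Z s
    obtain ⟨j, hj⟩ := Mx.level Z (G.n s)
    obtain ⟨d, h3, h4⟩ := G.un r i j
    exact ⟨d, h3, fun z => by rw [h4, hi, hj, and_iff_right r]⟩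

omit [HasPost b] in
/-- a model whose path comes to rest again has a class -/
theorem cls_exists (tot : ∀ l y, End G σ k l y → ¬ G.free (G.st l) → ¬ Good G k (G.st l) →
      ∃ d, Fit G k (G.st l) d) (h : Esc G σ k l) : ∃ z, Kl G σ k z := by
  obtain ⟨m, a, y, B, h1, -⟩ := h
  obtain ⟨m', y', h2⟩ := exists_end h1
  by_cases g : Good G k (G.st (m' ++ (m ++ a :: l)))
  · exact ⟨_, _, y', h2, .inl ⟨g, rfl⟩⟩
  · have f : ¬ G.free (G.st (m' ++ (m ++ a :: l))) := by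
      obtain ⟨B', h3⟩ := h2.1
      obtain ⟨a', l', e⟩ := List.exists_cons_of_ne_nil (show m' ++ (m ++ a :: l) ≠ [] by simp)
      rw [e] at h3 ⊢
      exact h3.nf
    obtain ⟨z, h3, h4⟩ := F.exists_min (tot _ _ h2 f g)
    exact ⟨z, _, y', h2, .inr ⟨g, h3, h4⟩⟩

end Facts

end Pool.Agent.PLO.Walk

/-! The Solovay sentences for a strategy. -/

namespace Pool.Agent.PLO.Walk

open Function Sol

variable {b : Bool} {W : Set ℕ} {F : Fr} {G : Plan F} {σ : Sc b} {S : F.W → Fm}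

theorem key_aux0 {N : Mdl b} {l : List (Option F.W)} {y B : N}
    (h : On G σ (kk S N) B l y) (r : G.rest (G.st l))
    (n : ¬ Kl G σ (kk S N) (G.c (G.st l))) : ∃ r, TAt G (kk S N) (G.st l) r := by
  by_contra t'
  refine n ⟨l, y, ⟨⟨B, h⟩, ?_⟩, .inl ⟨⟨r, t'⟩, rfl⟩⟩
  rintro ⟨a, y', E, -, h1 | h1, -⟩
  exacts [t' ⟨y', h1.2.1⟩, h1.1 r]

theorem key_aux {N : Mdl b} {I : N → Prop} (c : IsCut I) {l : List (Option F.W)} {y B : N}
    (h : On G σ (kk S N) B l y) (r : G.rest (G.st l)) (hB : I B)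
    (n : ¬ Kl G σ (kk S c.mdl) (G.c (G.st l))) : ∃ r, TAt G (kk S N) (G.st l) r ∧ I r := by
  have hy : I y := c.down h.le hB
  obtain ⟨q, h1⟩ := key_aux0 (N := c.mdl) (y := c.elt y hy) (B := c.elt B hB)
    ((c.abs (inferInstance : USig fun N v => On G σ (kk S N) (v 0) l (v 1)).out
      (cons (c.elt B hB) fun _ => c.elt y hy)).2 h) r n
  exact ⟨c.val q, (c.abs (inferInstance : USig fun N v =>
    TAt G (kk S N) (G.st l) (v 0)).out fun _ => q).1 h1, c.val_mem q⟩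

variable (G σ S) in
/-- what holds in the box for the numeral of every number -/
def Hy (N : Mdl b) (Y : N) : Prop := Dp (2 * G.ht G.s0 + 4) N Y ∧
  ∀ c, Pf (jP (((S c).neg.code : ℕ) : N)) Y →
    (S c).neg.ev (Jn (G.ht G.s0 + 1) N).toStr (fun _ => (0 : Jn (G.ht G.s0 + 1) N))

theorem box_Hy (K : Kit b W) (hc : ∀ z x, ¬ (S z).free x) {M : Mdl b} (hM : TM W M) (Y : M) :
    Box1 Dv (Hy G S) Y :=
  (box_Dp _ Y).and thDv
    (BoxD.fin thDv fun c => refl_Jn K _ (φ := (S c).neg) (fun x h => h.elim (hc c x) id) hM Y)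

theorem Hy.key (hS : ∀ z (N : Mdl b) (v : ℕ → N), (S z).ev N.toStr v ↔ Kl G σ (kk S N) z)
    {N : Mdl b} {Y : N} (h : Hy G S N Y) : Key G σ (kk S N) Y := fun l y B h1 r d t =>
  key_aux (isCut_Dp _ N) h1 r d (by
    have := h.2 _ (by rw [code_neg]; exact t)
    rwa [Fm.ev_neg, hS] at this)

theorem box_far {M : Mdl b} {l : List (Option F.W)} {y Y : M}
    (h : On G σ (kk S M) Y l y) (e : ¬ ∃ a y' E, Tr G σ (kk S M) (G.st l) y a y' E) :
    Box2 Dv (fun N Y y => ∀ y', Time G σ (kk S N) (G.st l) y y' → len Y < σ.t N y') Y y := by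
  have u : UP fun (N : Mdl b) v => ∀ y', Time G σ (kk S N) (G.st l) (v 1) y' →
      len (v 0) < σ.t N y' := by
    unfold Time Time0 Nb; infer_instance
  by_cases r : G.rest (G.st l)
  · refine (sig' b (fun N v => ∀ q ≤ len (v 0), σ.t N q ≤ len (v 0) → ∀ u, G.top (G.st l) u →
      ¬ σ.Pd N (v 0) (jP (cNeg (kk S N u))) q) inferInstance M _ ?_).ent thDv ?_
    · intro q _ h1 u h2 h3
      obtain ⟨E, h4⟩ := σ.exists_nx h1
      obtain ⟨y', h5, h6, h7⟩ := exists_time (k := kk S M) r h4 ⟨u, h2, (σ.iff le_rfl h1).2 h3⟩ y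
      obtain ⟨E', h8⟩ := σ.exists_nx ((σ.mono h5).trans h1)
      obtain ⟨u', h9⟩ := exists_grow h8 h7
      exact e ⟨_, y', E', h8, h6, h9⟩
    · rintro N v h1 y' (⟨-, ⟨u, h2, h3⟩, -⟩ | h2)
      · exact not_le.1 fun h4 => h1 y' ((σ.le y').trans h4) h4 u h2 ((σ.iff le_rfl h4).1 h3)
      · exact (h2.1 r).elim
  · refine (sig' b (fun N v => ∃ y' ≤ v 0, σ.Nx (v 1) y' ∧ len (v 0) < σ.t N y')
      inferInstance M _ ?_).ent thDv ?_
    · obtain ⟨y', h1, h2⟩ := h.nx r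
      refine ⟨y', h1, h2, not_le.1 fun h3 => ?_⟩
      obtain ⟨E, h4⟩ := σ.exists_nx h3
      obtain ⟨a, h5⟩ := exists_kind (k := kk S M) h4 r
      exact e ⟨a, y', E, h4, .inr ⟨r, h2⟩, h5⟩
    · rintro N v ⟨y', -, h1, h2⟩ y'' (h3 | h3)
      · exact (r h3.1).elim
      · exact h1.unique h3.2 ▸ h2

theorem exists_bound {M : Mdl b} (k : F.W → M) (B : M) :
    ∃ Y, B ≤ Y ∧ ∀ w, ¬ NoT F k w → Trig F k w Y := by
  have h9 : ∀ w, ∃ q, ¬ NoT F k w → Trig F k w q := fun w => by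
    by_cases h : NoT F k w
    · exact ⟨0, fun h' => (h' h).elim⟩
    · obtain ⟨q, h⟩ := not_not.1 h
      exact ⟨q, fun _ => h⟩
  choose f hf using h9
  obtain ⟨m, hm⟩ := Finite.exists_le f
  exact ⟨B + m, le_self_add, fun w hw => (hf w hw).mono ((hm w).trans le_add_self)⟩

theorem bad_rest {M : Mdl b} {k : F.W → M} {s : G.P} (g : ¬ Good G k s) (r : G.rest s) :
    ∃ u, G.top s u ∧ ¬ NoT F k u := by
  obtain ⟨q, u, h1, h2⟩ := not_not.1 fun t => g ⟨r, t⟩
  exact ⟨u, h1, fun n => n ⟨q, h2⟩⟩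

theorem box_on {M : Mdl b} {l : List (Option F.W)} {y Y : M}
    (h : On G σ (kk S M) Y l y) : Box2 Dv (fun N Y y => On G σ (kk S N) Y l y) Y y :=
  sig' b (fun N v => On G σ (kk S N) (v 0) l (v 1)) inferInstance M _ h

theorem box_trig {M : Mdl b} {Y : M} (y : M) {p : F.W → Prop}
    (h : ∀ w, p w → Trig F (kk S M) w Y) :
    Box2 Dv (fun N Y _ => ∀ w, p w → Trig F (kk S N) w Y) Y y :=
  BoxD.fin' thDv fun w hw => sig' b (fun N v => Trig F (kk S N) w (v 0)) inferInstance M _ (h w hw)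

theorem tot (K : Kit b W) (hc : ∀ z x, ¬ (S z).free x)
    (hS : ∀ z (N : Mdl b) (v : ℕ → N), (S z).ev N.toStr v ↔ Kl G σ (kk S N) z)
    (M : Mdl b) (hM : TM W M) (l : List (Option F.W)) (y : M) (h : End G σ (kk S M) l y)
    (f : ¬ G.free (G.st l)) (g : ¬ Good G (kk S M) (G.st l)) : ∃ d, Fit G (kk S M) (G.st l) d := by
  obtain ⟨d, h1, h2⟩ := exists_fit (Z := NoT F (kk S M)) f (bad_rest g)
  refine ⟨d, h1, fun z => (h2 z).trans ⟨?_, fun hz => ?_⟩⟩
  · rintro (h3 | ⟨-, h3⟩) <;> exact by_contra fun n => lt_irrefl _ (h3.2 z h3.1 n)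
  by_contra hn
  obtain ⟨⟨B, h3⟩, h4⟩ := h
  obtain ⟨Y, h5, h6⟩ := exists_bound (kk S M) B
  refine hz ((box_not hc (cons Y fun _ => y) z).1 ?_)
  have : UP fun (N : Mdl b) v => ¬ (S z).ev N.toStr v := ⟨(S z).neg, fun _ _ => Iff.rfl⟩
  exact (Box1.at thDv (box_Hy (G := G) K hc hM Y) _ 0 rfl).ent4 thDv (box_on (h3.mono h5))
    (box_trig y h6) (box_far (h3.mono h5) h4) fun N v a1 a2 a3 a4 a5 =>
      hn (tot_sem (a1.key hS) ((hS _ _ _).1 a5) a3 a2 f a1.1 (bad_rest g) a4)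

theorem box_cls (K : Kit b W) (hc : ∀ z x, ¬ (S z).free x)
    (hS : ∀ z (N : Mdl b) (v : ℕ → N), (S z).ev N.toStr v ↔ Kl G σ (kk S N) z)
    (M : Mdl b) (hM : TM W M) (v : ℕ → M) (z : F.W) (h : Kl G σ (kk S M) z) :
    BoxD Dv (fun N v => ∃ z', F.R z z' ∧ (S z').ev N.toStr v) v := by
  have e : ∀ (N : Mdl b) (v : ℕ → N), (∃ z', F.R z z' ∧ Kl G σ (kk S N) z') ↔
      ∃ z', F.R z z' ∧ (S z').ev N.toStr v := fun N v => by simp only [hS]
  refine BoxD.congr ?_ e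
  obtain ⟨l, y, ⟨⟨B, h1⟩, -⟩, ⟨g, rfl⟩ | ⟨g, h4, -⟩⟩ := h
  · refine Box0.at thDv (x' := cons B fun _ => y) ?_ v
    refine entT hM ((Box1.at thDv (box_Hy (G := G) K hc hM B) _ 0 rfl).and thDv (box_on h1))
      fun N hN v ⟨a1, a2⟩ => ?_
    have d := a1.1.mono (show G.ht G.s0 + 1 ≤ _ by omega)
    obtain ⟨z', a3⟩ := cls_exists (tot K hc hS N hN) ((a1.key hS).esc a2 g.1 d a2.trig)
    exact ⟨z', (G.r_top _ g.1).1 ((a1.key hS).rest a2 g.1 d a2.trig a3), a3⟩
  · obtain ⟨Y, h5, h6⟩ := exists_bound (kk S M) B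
    refine Box0.at thDv (x' := cons Y fun _ => y) ?_ v
    refine entT hM (((box_Dp (G.ht G.s0 + 1) Y |> (Box1.at thDv · _ 0 rfl)).and thDv
      (box_on (h1.mono h5))).and thDv ((box_trig y h6).and thDv
        (BoxD.fin' thDv (p := fun w => ¬ NoT F (kk S M) w) fun w hw =>
          (box_not hc _ w).2 (not_not.1 hw)))) fun N hN v ⟨⟨a1, a2⟩, a3, a4⟩ => ?_
    have a5 : Esc G σ (kk S N) l := by
      by_cases r : G.rest (G.st l)
      · obtain ⟨u, h7, h8⟩ := bad_rest g r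
        exact esc_r a2 r ⟨u, h7, a3 u h8⟩ a1 a1 (a2.ht.trans (Nat.le_succ _))
      · exact esc_nr a2 r a1 (a2.ht.trans (Nat.le_succ _))
    obtain ⟨z', a6⟩ := cls_exists (tot K hc hS N hN) a5
    exact ⟨z', (h4.2 z').2 (by_contra fun hn => a4 z' hn ((hS _ _ _).2 a6)), a6⟩

theorem consistent (K : Kit b W) (hc : ∀ z x, ¬ (S z).free x)
    (hS : ∀ z (N : Mdl b) (v : ℕ → N), (S z).ev N.toStr v ↔ Kl G σ (kk S N) z) :
    ∃ (N : Mdl b) (v : ℕ → N), TM W N ∧ (S F.w).ev N.toStr v := by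
  by_contra hn
  let M := STDp.nM b W
  have hM : Std M := std_nM b W
  have hJ : ∀ k (q : M), Dp k M q := fun k q => by
    obtain ⟨n, rfl⟩ := hM q
    exact Dp.nat k M n
  have : UP fun (N : Mdl b) v => ¬ (S F.w).ev N.toStr v := ⟨(S F.w).neg, fun _ _ => Iff.rfl⟩
  obtain ⟨q, h3⟩ := (box_not hc (M := M) (fun _ => 0) F.w).1
    (box_necT K.std fun N hN v h => hn ⟨N, v, hN, h⟩)
  obtain ⟨l, y, h4⟩ := exists_end (G := G) (σ := σ) (l := []) (y := 0) ⟨rfl, h3⟩
  obtain ⟨B, h5⟩ := h4.1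
  have g : Good G (kk S M) (G.st (l ++ [])) := by
    by_contra g
    by_cases r : G.rest (G.st (l ++ []))
    · obtain ⟨q, t⟩ := not_not.1 fun t => g ⟨r, t⟩
      obtain ⟨u, y', B', -, -, -, ⟨y₀, -, E, -, h6, h7⟩, -⟩ := step_r h5 r t (hJ 1 _) (hJ 1 _)
      exact h4.2 ⟨_, y', E, h5.unique h6 ▸ h7⟩
    · obtain ⟨a, y', B', -, -, -, ⟨y₀, -, E, -, h6, h7⟩, -⟩ := step_nr h5 r (hJ 1 _)
      exact h4.2 ⟨_, y', E, h5.unique h6 ▸ h7⟩
  exact K.std _ (prv_of_dv hM (orc_nM b W) (trig_iff.1 ⟨B, h5.trig⟩)) (fun _ => 0)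
    ((hS _ _ _).2 ⟨_, y, h4, .inl ⟨g, rfl⟩⟩)

/-- a frame with a strategy embeds -/
theorem upper (K : Kit b W) (F : Fr) (G : Plan F) {X : MF} (hX : PL b W X)
    (V : ℕ → F.W → Prop) : Force F.R V F.w X := by
  classical
  obtain ⟨σ⟩ := exists_sc (b := b)
  obtain ⟨S, s0, hS⟩ := row_FIX b F.W F.e F.inj (fun z _ k => Kl G σ k z) fun z => inferInstance
  obtain ⟨N, v, hN, s4⟩ := consistent K s0 hS
  have := Fintype.ofFinite F.W
  obtain ⟨f, f0, f1⟩ : ∃ f : ℕ → Fm, (∀ n x, ¬ (f n).free x) ∧ ∀ n (N : Mdl b) (v : ℕ → N),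
      (f n).ev N.toStr v ↔ ∃ z, V n z ∧ (S z).ev N.toStr v := by
    refine ⟨fun n => bigOr ((Finset.univ.filter (V n)).toList.map S),
      fun n x => upper.free_bigOr _ x fun φ hφ => ?_, fun n N v => ?_⟩
    · obtain ⟨z, -, rfl⟩ := List.mem_map.1 hφ
      exact s0 z x
    · simp [upper.ev_bigOr]
  have key : ∀ (X : MF) (z : F.W) (N : Mdl b), TM W N → ∀ v : ℕ → N, (S z).ev N.toStr v →
      (Force F.R V z X ↔ (interp b f X).ev N.toStr v) := by
    intro X
    induction X with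
    | atom n =>
      intro z N _ v hz
      exact ⟨fun h => (f1 n N v).2 ⟨z, h, hz⟩, fun h => by
        obtain ⟨z', h1, h2⟩ := (f1 n N v).1 h
        exact ((hS _ _ _).1 hz).unique ((hS _ _ _).1 h2) ▸ h1⟩
    | bot => exact fun _ _ _ _ _ => Iff.rfl
    | imp X Y i1 i2 => exact fun z N k v hz => imp_congr (i1 z N k v hz) (i2 z N k v hz)
    | box X ih =>
      intro z N k v hz
      refine Iff.trans ?_ ((pa' b).ev _ N v).symm
      rw [← HasBox.sent v _ thDv (gls.closed_interp (pa' b) f0 X)]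
      constructor
      · intro h
        exact entT k (hQ := ⟨⟨_, fun _ _ => Iff.rfl⟩⟩) (box_cls K s0 hS N k v z ((hS _ _ _).1 hz))
          fun N' k' v' ⟨u, u1, u2⟩ => (ih u N' k' v' u2).1 (h u u1)
      · intro h u hu
        by_contra hn
        refine ((hS _ _ _).1 hz).noT hu ((box_not s0 v u).1 ?_)
        exact entT k (hQ := ⟨⟨(S u).neg, fun _ _ => Iff.rfl⟩⟩) h
          fun N' k' v' h1 h2 => hn ((ih u N' k' v' h2).2 h1)
  exact (key X F.w N hN v s4).2 (hN _ (hX f f0) v)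

end Pool.Agent.PLO.Walk

/-! From a system of chains to a strategy. -/

namespace Pool.Agent.PLO.Walk

open Function Sol Relation

theorem exists_ht {P ι : Type} [Finite ι] (ch : P → ι → P) (ok : P → ι → Prop)
    (wf : WellFounded fun s' s => ∃ i, ok s i ∧ s' = ch s i) :
    ∃ ht : P → ℕ, ∀ s i, ok s i → ht (ch s i) < ht s := by
  classical
  have := Fintype.ofFinite ι
  refine ⟨wf.fix fun s ih => Finset.univ.sup fun i =>
    if h : ok s i then ih (ch s i) ⟨i, h, rfl⟩ + 1 else 0, fun s i h => ?_⟩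
  conv_rhs => rw [WellFounded.fix_eq]
  refine Nat.lt_of_succ_le (le_trans ?_ (Finset.le_sup (Finset.mem_univ i)))
  rw [dif_pos h]

section Chains
variable {W : Type} {L : ℕ → Set W} {u z : W}

/-- the stage at which a point enters -/
noncomputable def rk (L : ℕ → Set W) (u : W) : ℕ := sInf {j | u ∈ L (j + 1)}

theorem rk_lt (h0 : L 0 = ∅) (hm : Monotone L) (i : ℕ) :
    (z ∈ ⋃ i, L i) ∧ rk L z < i ↔ z ∈ L i := by
  constructor
  · rintro ⟨h1, h2⟩
    obtain ⟨j, h1⟩ := Set.mem_iUnion.1 h1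
    have h3 : rk L z ∈ {j | z ∈ L (j + 1)} := Nat.sInf_mem ⟨j, hm (Nat.le_succ j) h1⟩
    exact hm h2 h3
  · intro h
    refine ⟨Set.mem_iUnion.2 ⟨i, h⟩, ?_⟩
    cases i with
    | zero => exact absurd (h0 ▸ h) (Set.notMem_empty z)
    | succ i => exact Nat.lt_succ_of_le (Nat.sInf_le h)

theorem rk_mem (h0 : L 0 = ∅) (hm : Monotone L) (h : u ∈ ⋃ i, L i) :
    u ∈ L (rk L u + 1) \ L (rk L u) :=
  ⟨(rk_lt h0 hm _).1 ⟨h, Nat.lt_succ_self _⟩, fun h' => lt_irrefl _ ((rk_lt h0 hm _).2 h').2⟩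

theorem union_cut (hm : Monotone L) (j : ℕ) : ⋃ i, L (min i j) = L j :=
  Set.Subset.antisymm (Set.iUnion_subset fun _ => hm (min_le_right _ _))
    (Set.subset_iUnion_of_subset j (by rw [min_self]))

theorem rk_cut (h0 : L 0 = ∅) (hm : Monotone L) {j : ℕ} (h : z ∈ L j) :
    rk (fun i => L (min i j)) z = rk L z := by
  have h1 := (rk_lt h0 hm j).2 h
  have m : Monotone fun i => L (min i j) := fun _ _ e => hm (min_le_min_right _ e)
  have h2 : ∀ i, rk (fun i => L (min i j)) z < i ↔ rk L z < i := fun i => by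
    have h3 := rk_lt (z := z) (L := fun i => L (min i j)) (by simpa using h0) m i
    rw [union_cut hm, and_iff_right h, ← rk_lt h0 hm, and_iff_right h1.1, lt_min_iff,
      and_iff_left h1.2] at h3
    exact h3
  exact le_antisymm (Nat.lt_succ_iff.1 ((h2 _).2 (Nat.lt_succ_self _)))
    (Nat.lt_succ_iff.1 ((h2 _).1 (Nat.lt_succ_self _)))

end Chains

variable {F : Fr} (G : Set F.W → (ℕ → Set F.W) → Prop)

/-- a walk with a given number of intermediate steps -/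
def Wk (A B : Set F.W) (c : F.W) : ℕ → (ℕ → Set F.W) → Prop
  | 0, L => ∃ M, Near F.R A L M ∧ G B M ∧ ⋃ i, M i = {z | F.R c z}
  | n + 1, L => ∃ Y, G A Y ∧ Near F.R A L Y ∧ Wk A B c n Y

theorem wk_of {A B : Set F.W} {c : F.W} {L L' : ℕ → Set F.W}
    (h : ReflTransGen (fun X Y => G A Y ∧ Near F.R A X Y) L L') (h' : Wk G A B c 0 L') :
    ∃ n, Wk G A B c n L := by
  induction h using ReflTransGen.head_induction_on with
  | refl => exact ⟨0, h'⟩
  | head h _ ih => exact ih.elim fun n hn => ⟨n + 1, _, h.1, h.2, hn⟩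

/-- a state of the strategy -/
structure St where
  A : Set F.W
  B : Set F.W
  L : ℕ → Set F.W
  c : F.W
  k : ℕ
  g : G A L
  r : k = 0 → ⋃ i, L i = {z | F.R c z}
  w : ∀ n, k = n + 1 → (⋃ i, L i) ⊆ B ∧ c ∈ B ∧ Wk G A B c n L

variable {G}

theorem plan_of (h1 : ∀ u, F.R F.w u → ∃ M, G {z | F.R F.w z} M ∧ ⋃ i, M i = {z | F.R u z})
    (h2 : ∀ A L, G A L → L 0 = ∅ ∧ Monotone L ∧ ∀ j, ∀ u ∈ L (j + 1) \ L j,
      G A (fun i => L (min i j)) ∧ ∃ L' M,
        ReflTransGen (fun X Y => G A Y ∧ Near F.R A X Y) (fun i => L (min i j)) L' ∧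
        Near F.R A L' M ∧ G (L (j + 1)) M ∧ ⋃ i, M i = {z | F.R u z}) : Nonempty (Plan F) := by
  classical
  have z0 := fun s : St G => (h2 _ _ s.g).1
  have mo := fun s : St G => (h2 _ _ s.g).2.1
  have lev : ∀ A L, G A L → ∀ i, L i = ⋃ i, L i ∨ ∃ d ∈ A, {z | F.R d z} = L i := by
    intro A L g i
    obtain ⟨a0, a1, a2⟩ := h2 A L g
    by_cases e : ∃ j, (L (i + j + 1) \ L (i + j)).Nonempty
    · obtain ⟨j, u, hu⟩ := e
      obtain ⟨-, L', M, a3, a4, a5, -⟩ := a2 _ u hu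
      have : ∃ Y, Y 0 = ∅ ∧ Near F.R A (fun k => L (min k (i + j))) Y := by
        rcases a3.cases_head with a6 | ⟨Y, a6, -⟩
        · exact ⟨M, (h2 _ _ a5).1, a6 ▸ a4⟩
        · exact ⟨Y, (h2 _ _ a6.1).1, a6.2⟩
      obtain ⟨Y, a6, a7⟩ := this
      obtain ⟨d, a8, a9⟩ := a7.2 i 0
      exact .inr ⟨d, a8, by simpa [a6] using a9⟩
    · refine .inl (Set.Subset.antisymm (Set.subset_iUnion _ i) (Set.iUnion_subset fun j => ?_))
      have e1 : ∀ j, L (i + j) ⊆ L i := fun j => by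
        induction j with
        | zero => exact subset_rfl
        | succ j ih =>
          exact (Set.sdiff_eq_empty.1 (Set.not_nonempty_iff_eq_empty.1 fun h => e ⟨j, h⟩)).trans ih
      exact (a1 (Nat.le_add_left j i)).trans (e1 j)
  have x0 : ∀ u, ∃ s' : Option (St G), F.R F.w u → ∃ t, s' = some t ∧ t.A = {z | F.R F.w z} ∧
      t.B = {z | F.R F.w z} ∧ ⋃ i, t.L i = {z | F.R u z} ∧ t.c = u ∧ t.k ≠ 0 := by
    intro u
    by_cases hu : F.R F.w u
    swap
    · exact ⟨none, fun h => (hu h).elim⟩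
    obtain ⟨M, a1, a2⟩ := h1 u hu
    refine ⟨some ⟨_, {z | F.R F.w z}, M, u, 1, a1, by simp, fun n hn => ?_⟩,
      fun _ => ⟨_, rfl, rfl, rfl, a2, rfl, one_ne_zero⟩⟩
    obtain rfl : n = 0 := by omega
    refine ⟨fun z hz => F.tr hu (a2 ▸ hz : z ∈ {z | F.R u z}), hu, M, ⟨subset_rfl, fun i j => ?_⟩,
      a1, a2⟩
    rw [show M i ∪ M j = M (i ⊔ j) from ((h2 _ _ a1).2.1.map_sup i j).symm]
    rcases lev _ _ a1 (i ⊔ j) with e | e
    · exact ⟨u, hu, by rw [e, a2]⟩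
    · exact e
  have x1 : ∀ (s : St G) u, ∃ t : St G, u ∈ ⋃ i, s.L i → t.A = s.A ∧ t.B = s.L (rk s.L u + 1) ∧
      t.L = (fun i => s.L (min i (rk s.L u))) ∧ t.c = u ∧ t.k ≠ 0 := by
    intro s u
    by_cases hu : u ∈ ⋃ i, s.L i
    swap
    · exact ⟨s, fun h => (hu h).elim⟩
    have a0 := rk_mem (z0 s) (mo s) hu
    obtain ⟨a1, L', M, a2, a3⟩ := (h2 _ _ s.g).2.2 _ u a0
    obtain ⟨n, a4⟩ := wk_of G a2 (c := u) ⟨M, a3⟩
    refine ⟨⟨s.A, s.L (rk s.L u + 1), _, u, n + 1, a1, by simp, fun m hm => ?_⟩,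
      fun _ => ⟨rfl, rfl, rfl, rfl, by simp⟩⟩
    obtain rfl : n = m := by omega
    exact ⟨by rw [union_cut (mo s)]; exact mo s (Nat.le_succ _), a0.1, a4⟩
  have x2 : ∀ s : St G, ∃ t : St G, s.k ≠ 0 → t.c = s.c ∧ t.k + 1 = s.k ∧ Near F.R s.A s.L t.L ∧
      (t.k = 0 → t.A = s.B) ∧ (t.k ≠ 0 → t.A = s.A ∧ t.B = s.B) := by
    intro s
    rcases e : s.k with _ | _ | n
    · exact ⟨s, fun h => (h rfl).elim⟩
    · obtain ⟨-, -, M, a1, a2, a3⟩ := s.w 0 e
      exact ⟨⟨s.B, s.B, M, s.c, 0, a2, fun _ => a3, by simp⟩,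
        fun _ => ⟨rfl, rfl, a1, fun _ => rfl, fun _ => (by simp at *)⟩⟩
    · obtain ⟨b1, b2, Y, a1, a2, a3⟩ := s.w (n + 1) e
      refine ⟨⟨s.A, s.B, Y, s.c, n + 1, a1, by simp, fun m hm => ?_⟩,
        fun _ => ⟨rfl, rfl, a2, by simp, fun _ => ⟨rfl, rfl⟩⟩⟩
      obtain rfl : n = m := by omega
      exact ⟨a2.1.trans b1, b2, a3⟩
  choose g0 x0 using x0
  choose g1 x1 using x1
  choose n1 x2 using x2
  let top : Option (St G) → Set F.W := fun s => s.elim {z | F.R F.w z} fun s => ⋃ i, s.L i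
  let kk : Option (St G) → ℕ := fun s => s.elim 0 fun s => s.k
  let g : Option (St G) → F.W → Option (St G) := fun s u => s.elim (g0 u) fun s => some (g1 s u)
  have top1 : ∀ (s : St G) u, u ∈ ⋃ i, s.L i → ⋃ i, (g1 s u).L i = s.L (rk s.L u) := fun s u h => by
    rw [(x1 s u h).2.2.1, union_cut (mo s)]
  obtain ⟨ht, hht⟩ := exists_ht (P := Option (St G)) (ι := Option F.W)
    (fun s a => a.elim (s.map n1) (g s)) (fun s a => a.elim (kk s ≠ 0) (· ∈ top s)) (by
      refine Subrelation.wf ?_ (InvImage.wf (fun s => ((top s).ncard, kk s))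
        (WellFounded.prod_lex wellFounded_lt wellFounded_lt))
      rintro _ s ⟨a, h, rfl⟩
      rcases a with _ | u <;> rcases s with _ | s
      · exact (h rfl).elim
      · obtain ⟨-, a1, a2, -⟩ := x2 s h
        exact Prod.Lex.right' _ (Set.ncard_le_ncard a2.1) (show (n1 s).k < s.k by omega)
      · obtain ⟨t, a1, -, -, a2, -⟩ := x0 u h
        refine Prod.Lex.left _ _ (Set.ncard_lt_ncard ?_)
        change top (g0 u) ⊂ {z | F.R F.w z}
        rw [a1]
        change (⋃ i, t.L i) ⊂ _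
        rw [a2]
        exact ⟨fun z hz => F.tr h hz, fun e => F.ir u (e h)⟩
      · refine Prod.Lex.left _ _ (Set.ncard_lt_ncard ?_)
        change (⋃ i, (g1 s u).L i) ⊂ ⋃ i, s.L i
        rw [top1 s u h]
        exact ⟨Set.subset_iUnion _ _, fun e => (rk_mem (z0 s) (mo s) h).2 (e h)⟩)
  have wk : ∀ s : St G, s.k ≠ 0 → (⋃ i, s.L i) ⊆ s.B ∧ s.c ∈ s.B := fun s h => by
    obtain ⟨n, e⟩ := Nat.exists_eq_succ_of_ne_zero h
    exact ⟨(s.w n e).1, (s.w n e).2.1⟩
  refine ⟨{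
    P := Option (St G)
    rest := fun s => kk s = 0
    free := fun s => s = none
    top := fun s z => z ∈ top s
    A := fun s z => z ∈ s.elim {z | F.R F.w z} fun s => s.A
    B := fun s z => z ∈ s.elim ∅ fun s => s.B
    rk := fun s z => s.elim 0 fun s => rk s.L z
    c := fun s => s.elim F.w fun s => s.c
    g := g
    n := fun s => s.map n1
    ht := ht
    s0 := none
    s0_rest := rfl
    s0_c := rfl
    r_top := ?_, g_nr := ?_, g_c := ?_, g_ht := fun h => hht _ (some _) h, g_nf := ?_, g_A := ?_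
    g_B := ?_, g_B' := ?_, g_top := ?_, g_rk := ?_, n_c := ?_, n_top := ?_
    n_ht := fun h => hht _ none h, n_nf := ?_, n_A := ?_, n_B := ?_, n_r := ?_, nr_top := ?_
    nr_c := ?_, un := ?_ }⟩
  · rintro (_ | s) z h
    · rfl
    · exact (s.r h ▸ Iff.rfl : z ∈ ⋃ i, s.L i ↔ z ∈ {z | F.R s.c z})
  · rintro (_ | s) u h
    · obtain ⟨t, a1, -, -, -, -, a2⟩ := x0 u h
      change kk (g0 u) ≠ 0
      rwa [a1]
    · exact (x1 s u h).2.2.2.2
  · rintro (_ | s) u h
    · obtain ⟨t, a1, -, -, -, a2, -⟩ := x0 u h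
      change (g0 u).elim _ _ = u
      rwa [a1]
    · exact (x1 s u h).2.2.2.1
  · rintro (_ | s) u h
    · obtain ⟨t, a1, -⟩ := x0 u h
      change g0 u ≠ none
      simp [a1]
    · simp [g]
  · rintro (_ | s) u h
    · obtain ⟨t, a1, a2, -⟩ := x0 u h
      change (fun z => z ∈ (g0 u).elim _ _) = _
      rw [a1]
      exact congrArg (fun X z => z ∈ X) a2
    · exact congrArg (fun X z => z ∈ X) (x1 s u h).1
  · rintro (_ | s) u z h h'
    · obtain ⟨t, a1, -, a2, -⟩ := x0 u h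
      change z ∈ (g0 u).elim _ _ at h'
      rw [a1] at h'
      exact (a2 ▸ h' : z ∈ {z | F.R F.w z})
    · exact Set.subset_iUnion s.L _ ((x1 s u h).2.1 ▸ h' : z ∈ s.L (rk s.L u + 1))
  · rintro (_ | s) u z f h h'
    · exact (f rfl).elim
    · exact Nat.lt_succ_iff.1 ((rk_lt (z0 s) (mo s) _).2
        ((x1 s u h).2.1 ▸ h' : z ∈ s.L (rk s.L u + 1))).2
  · rintro (_ | s) u z f h
    · exact (f rfl).elim
    · change z ∈ ⋃ i, (g1 s u).L i ↔ _
      rw [top1 s u h]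
      exact (rk_lt (z0 s) (mo s) _).symm
  · rintro (_ | s) u z f h h'
    · exact (f rfl).elim
    · change z ∈ ⋃ i, (g1 s u).L i at h'
      change rk (g1 s u).L z = rk s.L z
      rw [top1 s u h] at h'
      rw [(x1 s u h).2.2.1, rk_cut (z0 s) (mo s) h']
  · rintro (_ | s) h
    · rfl
    · exact (x2 s h).1
  · rintro (_ | s) z h h'
    · exact h'
    · exact (x2 s h).2.2.1.1 h'
  · rintro (_ | s) h
    · exact (h rfl).elim
    · simp
  · rintro (_ | s) z h h' a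
    · exact a
    · exact (((x2 s h).2.2.2.2 h').1 ▸ a : z ∈ s.A)
  · rintro (_ | s) z h h' a
    · exact a
    · exact (((x2 s h).2.2.2.2 h').2 ▸ a : z ∈ s.B)
  · rintro (_ | s) z h h' a
    · exact (h rfl).elim
    · exact ((x2 s h).2.2.2.1 h' ▸ a : z ∈ s.B)
  · rintro (_ | s) z h a
    · exact (h rfl).elim
    · exact (wk s h).1 a
  · rintro (_ | s) h
    · exact (h rfl).elim
    · exact (wk s h).2
  · rintro (_ | s) h i j
    · exact (h rfl).elim
    · obtain ⟨d, a1, a2⟩ := (x2 s h).2.2.1.2 i j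
      refine ⟨d, a1, fun z => ?_⟩
      change z ∈ {z | F.R d z} ↔ _
      rw [a2]
      exact (or_congr (rk_lt (z0 s) (mo s) i) (rk_lt (z0 _) (mo _) j)).symm

theorem chained_valid {b : Bool} {A : Set ℕ} (K : Kit b A) {X : MF} (hX : PL b A X) (W : Type) [Finite W] (R : W → W → Prop)
    (tr : ∀ x y z, R x y → R y z → R x z) (ir : ∀ x, ¬ R x x) (w : W) (h : Chained R w)
    (V : ℕ → W → Prop) : Force R V w X := by
  obtain ⟨e, he⟩ := Countable.exists_injective_nat W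
  obtain ⟨G, h1, h2⟩ := h
  let F : Fr := ⟨W, inferInstance, R, fun h h' => tr _ _ _ h h', ir, w, e, he⟩
  obtain ⟨P⟩ := plan_of (F := F) h1 h2
  exact upper K F P hX V

end Pool.Agent.PLO.Walk

/-! Ranked frames, closed frames and two examples. -/

namespace Pool.Agent.PLO.Walk

open Function Relation MF

variable {W : Type} {R : W → W → Prop}

/-- the chain of `y` stopped at `j` is near the chain of `m` -/
def Nr (R : W → W → Prop) (ρ : W → W → ℕ) (K : ℕ) (x₀ x y : W) (j : ℕ) (m : W) : Prop :=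
  (∀ z, R m z → R y z ∧ ρ y z < j) ∧ ∀ a ≤ K, ∀ c ≤ K, ∃ d, (R x₀ d ∧ ρ x₀ d ≤ ρ x₀ x) ∧
    ∀ z, R d z ↔ (R y z ∧ ρ y z < min a j) ∨ (R m z ∧ ρ m z < c)

theorem chained_of_rank (ρ : W → W → ℕ) (K : ℕ) (hK : ∀ x z, ρ x z < K) (O : W → W → W → Prop)
    (h0 : ∀ x₀ x, R x₀ x → O x₀ x x)
    (h : ∀ x₀ x y, O x₀ x y → ∀ u, R y u → Nr R ρ K x₀ x y (ρ y u) u ∨
      ∃ m, O x₀ x m ∧ Nr R ρ K x₀ x y (ρ y u) m ∧ Nr R ρ K x₀ x m K u) (w : W) : Chained R w := by
  let C : W → ℕ → ℕ → Set W := fun y j i => {z | R y z ∧ ρ y z < min i j}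
  have top : ∀ y j, ⋃ i, C y j i = {z | R y z ∧ ρ y z < j} := fun y j => Set.ext fun z => by
    simp only [C, Set.mem_iUnion, Set.mem_ofPred_eq, lt_min_iff]
    exact ⟨fun ⟨_, h⟩ => ⟨h.1, h.2.2⟩, fun h => ⟨j, h.1, h.2, h.2⟩⟩
  have top' : ∀ y, ⋃ i, C y K i = {z | R y z} := fun y => by simp [top, hK]
  have nr : ∀ {x₀ x y j m} {A : Set W}, (∀ d, R x₀ d ∧ ρ x₀ d ≤ ρ x₀ x → d ∈ A) →
      Nr R ρ K x₀ x y j m → Near R A (C y j) (C m K) := by
    intro x₀ x y j m A hA n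
    refine ⟨by rw [top', top]; exact n.1, fun a c => ?_⟩
    obtain ⟨d, h1, h2⟩ := n.2 (min a K) (min_le_right _ _) (min c K) (min_le_right _ _)
    exact ⟨d, hA d h1, Set.ext fun z => by simpa [C, hK] using h2 z⟩
  refine ⟨fun A L => ∃ x₀ x y j, O x₀ x y ∧ (∀ d, R x₀ d ∧ ρ x₀ d ≤ ρ x₀ x → d ∈ A) ∧ L = C y j,
    fun u hu => ⟨_, ⟨w, u, u, K, h0 _ _ hu, fun d h => h.1, rfl⟩, top' u⟩, ?_⟩
  rintro A _ ⟨x₀, x, y, j, o, hA, rfl⟩
  refine ⟨by simp [C], fun a c e z hz => ⟨hz.1, hz.2.trans_le (min_le_min_right _ e)⟩, ?_⟩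
  rintro i u ⟨⟨h1, h2⟩, h3⟩
  have h4 : ρ y u = i ∧ i < j := by
    have : ¬ ρ y u < min i j := fun l => h3 ⟨h1, l⟩
    omega
  obtain ⟨rfl, h5⟩ := h4
  have e : (fun i => C y j (min i (ρ y u))) = C y (ρ y u) := by
    funext i
    simp only [C, min_eq_left ((min_le_right i _).trans h5.le)]
  have g : ∃ x₀ x y' j', O x₀ x y' ∧ (∀ d, R x₀ d ∧ ρ x₀ d ≤ ρ x₀ x → d ∈ C y j (ρ y u + 1)) ∧
      C u K = C y' j' := ⟨y, u, u, K, h0 _ _ h1, fun d hd => ⟨hd.1, by omega⟩, rfl⟩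
  rw [e]
  refine ⟨⟨x₀, x, y, _, o, hA, rfl⟩, ?_⟩
  rcases h x₀ x y o u h1 with n | ⟨m, o', n, n'⟩
  · exact ⟨_, _, .refl, nr hA n, g, top' u⟩
  · exact ⟨_, _, .single ⟨⟨x₀, x, m, K, o', hA, rfl⟩, nr hA n⟩, nr hA n', g, top' u⟩

theorem chained_of_closed [Finite W] (tr : ∀ x y z, R x y → R y z → R x z) (ir : ∀ x, ¬ R x x)
    (cl : Closed R) (w : W) : Chained R w := by
  let n : W → ℕ := fun c => {z | R c z}.ncard
  have n1 : ∀ c, n c < Nat.card W := fun c => by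
    rw [← Set.ncard_univ]
    exact Set.ncard_lt_ncard ⟨Set.subset_univ _, fun e => ir c (e trivial)⟩
  have n2 : ∀ c u, R c u → n u < n c := fun c u h =>
    Set.ncard_lt_ncard ⟨fun z hz => tr _ _ _ h hz, fun e => ir u (e h)⟩
  let ρ : W → W → ℕ := fun x u => sInf {i | i = Nat.card W ∨ ∃ c, R x c ∧ R c u ∧ n c = i}
  have r1 : ∀ x u, ρ x u = Nat.card W ∨ ∃ c, R x c ∧ R c u ∧ n c = ρ x u := fun x u =>
    Nat.sInf_mem (s := {i | i = Nat.card W ∨ ∃ c, R x c ∧ R c u ∧ n c = i}) ⟨_, .inl rfl⟩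
  have r2 : ∀ x u, ρ x u ≤ Nat.card W := fun x u => Nat.sInf_le (.inl rfl)
  have r3 : ∀ x c u, R x c → R c u → ρ x u ≤ n c := fun x c u h h' =>
    Nat.sInf_le (.inr ⟨c, h, h', rfl⟩)
  have r4 : ∀ x u i, R x u ∧ ρ x u < i ↔
      (Nat.card W < i ∧ R x u) ∨ ∃ c, (R x c ∧ n c < i) ∧ R c u := fun x u i => by
    constructor
    · rintro ⟨h1, h2⟩
      rcases r1 x u with e | ⟨c, h3, h4, e⟩
      exacts [.inl ⟨e ▸ h2, h1⟩, .inr ⟨c, ⟨h3, e ▸ h2⟩, h4⟩]
    · rintro (h | ⟨c, h1, h2⟩)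
      exacts [⟨h.2, (r2 x u).trans_lt h.1⟩, ⟨tr _ _ _ h1.1 h2, (r3 x c u h1.1 h2).trans_lt h1.2⟩]
  refine chained_of_rank ρ (Nat.card W + 1) (fun x z => Nat.lt_succ_of_le (r2 x z))
    (fun x₀ x y => R x₀ x ∧ y = x) (fun _ _ h => ⟨h, rfl⟩) ?_ w
  rintro x₀ x y ⟨hx, e⟩ u hu
  subst e
  have h1 : n u < ρ y u := by
    rcases r1 y u with e | ⟨c, -, h4, e⟩
    exacts [e ▸ n1 u, e ▸ n2 c u h4]
  refine .inl ⟨fun z hz => ⟨tr _ _ _ hu hz, (r3 y u z hu hz).trans_lt h1⟩, fun a _ c _ => ?_⟩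
  obtain ⟨x₁, h2, h3⟩ : ∃ x₁, R x₁ y ∧ ∀ d, R x₁ d → R x₀ d ∧ ρ x₀ d ≤ ρ x₀ y := by
    rcases r1 x₀ y with e | ⟨c, h3, h4, e⟩
    · exact ⟨x₀, hx, fun d hd => ⟨hd, e ▸ r2 x₀ d⟩⟩
    · exact ⟨c, h4, fun d hd => ⟨tr _ _ _ h3 hd, e ▸ r3 x₀ c d h3 hd⟩⟩
  have wf : WellFounded fun x y => R y x :=
    @Finite.wellFounded_of_trans_of_irrefl W _ _ ⟨fun a b c h h' => tr _ _ _ h' h⟩ ⟨ir⟩
  obtain ⟨l, h4, h5⟩ := wf.has_min {z | R y z} ⟨u, hu⟩
  obtain ⟨d, h6, h7⟩ := cl x₁ y h2 {e | e = l ∨ (R y e ∧ n e < min a (ρ y u)) ∨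
      (Nat.card W < c ∧ e = u) ∨ (R u e ∧ n e < c)} ⟨l, .inl rfl⟩ (by
    rintro e (rfl | h | ⟨-, rfl⟩ | h)
    exacts [h4, h.1, hu, tr _ _ _ hu h.1])
  refine ⟨d, h3 d h6, fun z => ?_⟩
  rw [h7, r4, r4]
  constructor
  · rintro ⟨e, rfl | h | ⟨h, rfl⟩ | h, hz⟩
    exacts [(h5 z (tr _ _ _ h4 hz) hz).elim, .inl (.inr ⟨e, h, hz⟩), .inr (.inl ⟨h, hz⟩),
      .inr (.inr ⟨e, h, hz⟩)]
  · rintro ((h | ⟨e, h, hz⟩) | h | ⟨e, h, hz⟩)
    · exact absurd h.1 (by have := r2 y u; omega)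
    · exact ⟨e, .inr (.inl h), hz⟩
    · exact ⟨u, .inr (.inr (.inl ⟨h.1, rfl⟩)), h.2⟩
    · exact ⟨e, .inr (.inr (.inr h)), hz⟩

end Pool.Agent.PLO.Walk
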